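import Mathlib

/-!
# Integer valued positive definite functions on abelian groups

The theorem of Helson and Cohen for positive definite functions: an integer valued positive definite
function on an abelian group is a finite sum of integer valued positive definite functions each of which
is invariant under a subgroup and supported on finitely many cosets of it. Proof through idempotent
ultrafilters.
-/

set_option autoImplicit false

namespace Pool.Agent.H506.CO

open Filter Topology

section hilbert

variable {H : Type} [NormedAddCommGroup H] [InnerProductSpace ℝ H] [CompleteSpace H]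

/-- weak limits along ultrafilters -/
theorem weak_limit {ι : Type} (U : Ultrafilter ι) (x : ι → H) {R : ℝ} (hR : ∀ i, ‖x i‖ ≤ R) :
    ∃ z : H, ∀ y : H, Tendsto (fun i => inner ℝ (x i) y) U (𝓝 (inner ℝ z y)) := by
  set D : ι → WeakDual ℝ H := fun i => StrongDual.toWeakDual (InnerProductSpace.toDual ℝ H (x i))
    with hD
  have hc := WeakDual.isCompact_closedBall (𝕜 := ℝ) (E := H) 0 R
  have hmem : ∀ i, D i ∈ WeakDual.toStrongDual ⁻¹' Metric.closedBall (0 : StrongDual ℝ H) R := by
    intro i
    rw [Set.mem_preimage, mem_closedBall_zero_iff]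
    have : WeakDual.toStrongDual (D i) = InnerProductSpace.toDual ℝ H (x i) := rfl
    rw [this, LinearIsometryEquiv.norm_map]
    exact hR i
  obtain ⟨φ, -, hφ⟩ := hc.ultrafilter_le_nhds (U.map D) (by
    rw [le_principal_iff]
    exact Filter.mem_map.mpr (Filter.Eventually.of_forall hmem))
  have ht : Tendsto D U (𝓝 φ) := hφ
  refine ⟨(InnerProductSpace.toDual ℝ H).symm (WeakDual.toStrongDual φ), fun y => ?_⟩
  have h1 : Tendsto (fun i => D i y) U (𝓝 (φ y)) :=
    ((WeakDual.eval_continuous (𝕜 := ℝ) y).tendsto φ).comp ht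
  have h2 : ∀ i, D i y = inner ℝ (x i) y := fun i => InnerProductSpace.toDual_apply_apply
  have h3 : inner ℝ ((InnerProductSpace.toDual ℝ H).symm (WeakDual.toStrongDual φ)) y = φ y := by
    rw [InnerProductSpace.toDual_symm_apply]
    rfl
  rw [h3]
  exact h1.congr h2

/-- weak convergence and norms: strong convergence -/
theorem strong_of_weak {ι : Type} (U : Ultrafilter ι) {x : ι → H} {z : H} {c : ℝ}
    (hx : ∀ i, ‖x i‖ = c) (hz : ‖z‖ = c)
    (h : Tendsto (fun i => inner ℝ (x i) z) U (𝓝 (inner ℝ z z))) :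
    Tendsto x U (𝓝 z) := by
  rw [tendsto_iff_norm_sub_tendsto_zero]
  have h1 : ∀ i, ‖x i - z‖ ^ 2 = 2 * c ^ 2 - 2 * inner ℝ (x i) z := by
    intro i
    rw [norm_sub_sq_real, hx, hz]
    ring
  have h2 : Tendsto (fun i => ‖x i - z‖ ^ 2) U (𝓝 0) := by
    have h3 := (h.const_mul 2).const_sub (2 * c ^ 2)
    rw [real_inner_self_eq_norm_sq, hz, sub_self] at h3
    exact h3.congr fun i => (h1 i).symm
  have h4 := h2.sqrt
  rw [Real.sqrt_zero] at h4
  exact h4.congr fun i => Real.sqrt_sq (norm_nonneg _)

variable {Γ : Type} [AddCommGroup Γ] {a : Γ → ℤ} {e : Γ → H}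

theorem norm_e (he : ∀ i j, inner ℝ (e i) (e j) = (a (i - j) : ℝ)) (i : Γ) : ‖e i‖ ^ 2 = a 0 := by
  rw [← real_inner_self_eq_norm_sq, he, sub_self]

theorem norm_e' (he : ∀ i j, inner ℝ (e i) (e j) = (a (i - j) : ℝ)) (i : Γ) :
    ‖e i‖ = Real.sqrt (a 0) := by
  rw [← norm_e he i, Real.sqrt_sq (norm_nonneg _)]

/-- vectors with the same inner products with the generators are equal -/
theorem ext_e (hd : Dense (Submodule.span ℝ (Set.range e) : Set H)) {x y : H}
    (h : ∀ m, inner ℝ x (e m) = inner ℝ y (e m)) : x = y := by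
  have h1 : ∀ z ∈ (Submodule.span ℝ (Set.range e) : Set H), inner ℝ x z = inner ℝ y z := by
    intro z hz
    induction hz using Submodule.span_induction with
    | mem z hz => obtain ⟨m, rfl⟩ := hz; exact h m
    | zero => simp
    | add u v _ _ hu hv => rw [inner_add_right, inner_add_right, hu, hv]
    | smul r u _ hu => rw [inner_smul_right, inner_smul_right, hu]
  exact hd.eq_of_inner_left ℝ fun v hv => h1 v hv

omit [CompleteSpace H] [AddCommGroup Γ] in
theorem denseRange (hd : Dense (Submodule.span ℝ (Set.range e) : Set H)) :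
    DenseRange (Finsupp.linearCombination ℝ e) := by
  have h1 : Set.range (Finsupp.linearCombination ℝ e) =
      (Submodule.span ℝ (Set.range e) : Set H) := by
    rw [← Finsupp.range_linearCombination]
    rfl
  unfold DenseRange
  rw [h1]
  exact hd

/-- the shift of coefficients -/
noncomputable def sh (g : Γ) : (Γ →₀ ℝ) ≃ₗ[ℝ] (Γ →₀ ℝ) :=
  Finsupp.domLCongr (Equiv.addRight g)

omit [CompleteSpace H] in
theorem norm_sh (he : ∀ i j, inner ℝ (e i) (e j) = (a (i - j) : ℝ)) (g : Γ) (c : Γ →₀ ℝ) :
    ‖Finsupp.linearCombination ℝ e (sh g c)‖ = ‖Finsupp.linearCombination ℝ e c‖ := by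
  have h1 : Finsupp.linearCombination ℝ e (sh g c) =
      Finsupp.linearCombination ℝ (fun i => e (i + g)) c := by
    unfold sh
    rw [Finsupp.domLCongr_apply, Finsupp.domCongr_apply, Finsupp.linearCombination_equivMapDomain]
    rfl
  rw [h1]
  have h2 : ‖Finsupp.linearCombination ℝ (fun i => e (i + g)) c‖ ^ 2 =
      ‖Finsupp.linearCombination ℝ e c‖ ^ 2 := by
    rw [← real_inner_self_eq_norm_sq, ← real_inner_self_eq_norm_sq]
    simp only [Finsupp.linearCombination_apply, Finsupp.sum_inner, Finsupp.inner_sum, he,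
      inner_smul_left, inner_smul_right, add_sub_add_right_eq_sub]
  exact (sq_eq_sq₀ (norm_nonneg _) (norm_nonneg _)).mp h2

/-- the shift -/
noncomputable def T (he : ∀ i j, inner ℝ (e i) (e j) = (a (i - j) : ℝ))
    (hd : Dense (Submodule.span ℝ (Set.range e) : Set H)) (g : Γ) : H ≃ₗᵢ[ℝ] H :=
  LinearEquiv.extendOfIsometry (sh g) (Finsupp.linearCombination ℝ e)
    (Finsupp.linearCombination ℝ e) (denseRange hd) (denseRange hd) (norm_sh he g)

theorem T_e (he : ∀ i j, inner ℝ (e i) (e j) = (a (i - j) : ℝ))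
    (hd : Dense (Submodule.span ℝ (Set.range e) : Set H)) (g i : Γ) :
    T he hd g (e i) = e (i + g) := by
  have h1 : Finsupp.linearCombination ℝ e (Finsupp.single i 1) = e i := by simp
  have h2 := LinearEquiv.extendOfIsometry_eq (f := sh g) (e₁ := Finsupp.linearCombination ℝ e)
    (e₂ := Finsupp.linearCombination ℝ e) (denseRange hd) (denseRange hd) (norm_sh he g)
    (Finsupp.single i 1)
  rw [h1] at h2
  unfold T
  rw [h2]
  unfold sh
  simp

section system

variable (he : ∀ i j, inner ℝ (e i) (e j) = (a (i - j) : ℝ))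
  (hd : Dense (Submodule.span ℝ (Set.range e) : Set H))

theorem inner_T (g m : Γ) (x : H) : inner ℝ (T he hd g x) (e m) = inner ℝ x (e (m - g)) := by
  have h1 : e m = T he hd g (e (m - g)) := by rw [T_e, sub_add_cancel]
  conv_lhs => rw [h1]
  rw [LinearIsometryEquiv.inner_map_map]

theorem T_add (g h : Γ) (x : H) : T he hd g (T he hd h x) = T he hd (g + h) x := by
  refine ext_e hd fun m => ?_
  rw [inner_T, inner_T, inner_T]
  congr 2
  abel

theorem T_comm (g h : Γ) (x : H) : T he hd g (T he hd h x) = T he hd h (T he hd g x) := by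
  rw [T_add, T_add, add_comm]

theorem T_zero (x : H) : T he hd 0 x = x := by
  refine ext_e hd fun m => ?_
  rw [inner_T, sub_zero]

theorem inner_T_left (g : Γ) (x y : H) : inner ℝ (T he hd g x) y = inner ℝ x (T he hd (-g) y) := by
  have h1 : y = T he hd g (T he hd (-g) y) := by rw [T_add, add_neg_cancel, T_zero]
  conv_lhs => rw [h1]
  rw [LinearIsometryEquiv.inner_map_map]

/-- the weak limit of the shifts along an ultrafilter -/
noncomputable def P (U : Ultrafilter Γ) (x : H) : H :=
  (weak_limit U (fun g => T he hd g x) (R := ‖x‖) fun g => (T he hd g).norm_map x |>.le).choose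

theorem P_spec (U : Ultrafilter Γ) (x y : H) :
    Tendsto (fun g => inner ℝ (T he hd g x) y) U (𝓝 (inner ℝ (P he hd U x) y)) :=
  (weak_limit U (fun g => T he hd g x) (R := ‖x‖)
    fun g => (T he hd g).norm_map x |>.le).choose_spec y

theorem P_unique {U : Ultrafilter Γ} {x z : H}
    (h : ∀ m, Tendsto (fun g => inner ℝ (T he hd g x) (e m)) U (𝓝 (inner ℝ z (e m)))) :
    P he hd U x = z :=
  ext_e hd fun m => tendsto_nhds_unique (P_spec he hd U x (e m)) (h m)

theorem P_sub (U : Ultrafilter Γ) (x y : H) :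
    P he hd U (x - y) = P he hd U x - P he hd U y := by
  refine P_unique he hd fun m => ?_
  simp only [map_sub, inner_sub_left]
  exact (P_spec he hd U x _).sub (P_spec he hd U y _)

theorem P_T (U : Ultrafilter Γ) (h : Γ) (x : H) :
    P he hd U (T he hd h x) = T he hd h (P he hd U x) := by
  refine P_unique he hd fun m => ?_
  rw [inner_T]
  refine (P_spec he hd U x (e (m - h))).congr fun g => ?_
  rw [inner_T, T_add, inner_T]
  congr 2
  abel

theorem norm_P_le (U : Ultrafilter Γ) (x : H) : ‖P he hd U x‖ ≤ ‖x‖ := by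
  have h1 := P_spec he hd U x (P he hd U x)
  rw [real_inner_self_eq_norm_sq] at h1
  have h2 : ‖P he hd U x‖ ^ 2 ≤ ‖x‖ * ‖P he hd U x‖ := by
    refine le_of_tendsto h1 (Eventually.of_forall fun g => ?_)
    refine (real_inner_le_norm _ _).trans (le_of_eq ?_)
    rw [LinearIsometryEquiv.norm_map]
  by_contra hcon
  push Not at hcon
  have h3 : 0 < ‖P he hd U x‖ := lt_of_le_of_lt (norm_nonneg _) hcon
  nlinarith

attribute [local instance] Ultrafilter.add in
theorem P_idem {U : Ultrafilter Γ} (hU : U + U = U) (x : H) :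
    P he hd U (P he hd U x) = P he hd U x := by
  refine P_unique he hd fun m => ?_
  rw [Metric.tendsto_nhds]
  intro ε hε
  have h1 := P_spec he hd U x (e m)
  rw [Metric.tendsto_nhds] at h1
  have h2' := h1 (ε / 2) (by positivity)
  have h2 : ∀ᶠ k in ((U + U : Ultrafilter Γ) : Filter Γ),
      dist (inner ℝ (T he hd k x) (e m)) (inner ℝ (P he hd U x) (e m)) < ε / 2 := by
    rw [hU]
    exact h2'
  rw [Ultrafilter.eventually_add] at h2
  refine h2.mono fun g hg => ?_
  have h3 := P_spec he hd U x (e (m - g))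
  rw [← inner_T he hd] at h3
  have h4 : ∀ h, inner ℝ (T he hd h x) (e (m - g)) = inner ℝ (T he hd (g + h) x) (e m) := by
    intro h
    rw [← T_add, inner_T he hd g]
  simp only [h4] at h3
  have h5 : dist (inner ℝ (T he hd g (P he hd U x)) (e m)) (inner ℝ (P he hd U x) (e m)) ≤ ε / 2 := by
    refine le_of_tendsto (h3.dist tendsto_const_nhds) (hg.mono fun h hh => hh.le)
  linarith

theorem rigid {U : Ultrafilter Γ} {x : H} (hx : P he hd U x = x) :
    Tendsto (fun g => T he hd g x) U (𝓝 x) := by
  refine strong_of_weak U (c := ‖x‖) (fun g => (T he hd g).norm_map x) rfl ?_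
  have h1 := P_spec he hd U x x
  rwa [hx] at h1

theorem orth {U : Ultrafilter Γ} {x z : H} (hx : P he hd U x = x) (hz : P he hd U z = 0) :
    inner ℝ z x = 0 := by
  have h1 := rigid he hd hx
  have h2 : Tendsto (fun g => inner ℝ (T he hd g z) (T he hd g x - x)) U (𝓝 0) := by
    have h3 : Tendsto (fun g => ‖T he hd g x - x‖) U (𝓝 0) :=
      (tendsto_iff_norm_sub_tendsto_zero.mp h1)
    have h4 := h3.const_mul ‖z‖
    rw [mul_zero] at h4
    refine squeeze_zero_norm (fun g => ?_) h4
    rw [Real.norm_eq_abs]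
    refine (abs_real_inner_le_norm _ _).trans (le_of_eq ?_)
    rw [LinearIsometryEquiv.norm_map]
  have h5 := P_spec he hd U z x
  rw [hz, inner_zero_left] at h5
  have h6 := h2.add h5
  rw [add_zero] at h6
  have h7 : ∀ g, inner ℝ (T he hd g z) (T he hd g x - x) + inner ℝ (T he hd g z) x =
      inner ℝ z x := by
    intro g
    rw [inner_sub_right, sub_add_cancel, LinearIsometryEquiv.inner_map_map]
  simp only [h7] at h6
  exact tendsto_nhds_unique tendsto_const_nhds h6

end system

end hilbert

end Pool.Agent.H506.CO
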