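import Pool.Agent.H506.Cohen

/-! The weak closure of the orbit, a minimal vector, idempotent ultrafilters -/

set_option autoImplicit false

namespace Pool.Agent.H506.CO

open Filter Topology

theorem int_lim {ι : Type} (V : Ultrafilter ι) {u : ι → ℝ} {L : ℝ} (hu : ∀ i, ∃ k : ℤ, u i = k)
    (h : Tendsto u V (𝓝 L)) : ∀ᶠ i in V, u i = L := by
  have h1 : L ∈ Set.range ((↑) : ℤ → ℝ) := by
    refine Int.isClosedEmbedding_coe_real.isClosed_range.mem_of_tendsto h ?_
    exact Eventually.of_forall fun i => by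
      obtain ⟨k, hk⟩ := hu i
      exact ⟨k, hk.symm⟩
  obtain ⟨l, rfl⟩ := h1
  have h2 := (Metric.tendsto_nhds.mp h) 1 one_pos
  refine h2.mono fun i hi => ?_
  obtain ⟨k, hk⟩ := hu i
  rw [hk] at hi ⊢
  rw [Real.dist_eq, ← Int.cast_sub, ← Int.cast_abs] at hi
  have h3 : |k - l| < 1 := by exact_mod_cast hi
  have h4 : k - l = 0 := Int.abs_lt_one_iff.mp h3
  have h5 : k = l := by omega
  rw [h5]

section idem

variable {Γ : Type} [AddCommGroup Γ]

attribute [local instance] Ultrafilter.add Ultrafilter.addSemigroup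

/-- an idempotent ultrafilter on `G0` avoiding all cosets of `G1` -/
theorem exists_idem (G0 G1 : AddSubgroup Γ) (hinf : Infinite (G0 ⧸ (G1.addSubgroupOf G0))) :
    ∃ U : Ultrafilter Γ, U + U = U ∧ (∀ᶠ g in U, g ∈ G0) ∧
      ∀ t : Γ, ∀ᶠ g in U, ¬ (g - t ∈ G1) := by
  set E : Set (Ultrafilter Γ) := {U | (∀ᶠ g in U, g ∈ G0) ∧ ∀ t : Γ, ∀ᶠ g in U, ¬ (g - t ∈ G1)}
    with hE
  have hclosed : IsClosed E := by
    have h1 : E = {U : Ultrafilter Γ | {g | g ∈ G0} ∈ U} ∩
        ⋂ t : Γ, {U : Ultrafilter Γ | {g | ¬ (g - t ∈ G1)} ∈ U} := by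
      ext U
      simp only [hE, Set.mem_ofPred_eq, Set.mem_inter_iff, Set.mem_iInter]
      rfl
    rw [h1]
    exact (ultrafilter_isClosed_basic _).inter
      (isClosed_iInter fun t => ultrafilter_isClosed_basic _)
  have hne : E.Nonempty := by
    set V := (hyperfilter (G0 ⧸ (G1.addSubgroupOf G0))).map
      (fun x => ((Quotient.out x : G0) : Γ)) with hV
    refine ⟨V, ?_, fun t => ?_⟩
    · refine Filter.mem_map.mpr (Filter.Eventually.of_forall fun x => (Quotient.out x).2)
    · have h1 : ({x : G0 ⧸ (G1.addSubgroupOf G0) | ((Quotient.out x : G0) : Γ) - t ∈ G1}).Subsingleton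
          := by
        intro x hx y hy
        have h2 : ((Quotient.out x : G0) : Γ) - ((Quotient.out y : G0) : Γ) ∈ G1 := by
          have := G1.sub_mem hx hy
          rwa [sub_sub_sub_cancel_right] at this
        rw [← Quotient.out_eq' x, ← Quotient.out_eq' y]
        refine (QuotientAddGroup.eq.mpr ?_)
        rw [AddSubgroup.mem_addSubgroupOf]
        have h3 := G1.neg_mem h2
        rw [neg_sub] at h3
        have h4 : ((-(Quotient.out x : G0) + (Quotient.out y : G0) : G0) : Γ) =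
          ((Quotient.out y : G0) : Γ) - ((Quotient.out x : G0) : Γ) := by
          push_cast
          abel
        rw [h4]
        exact h3
      have h3 : {x : G0 ⧸ (G1.addSubgroupOf G0) | ((Quotient.out x : G0) : Γ) - t ∈ G1}ᶜ ∈
          hyperfilter (G0 ⧸ (G1.addSubgroupOf G0)) := h1.finite.compl_mem_hyperfilter
      exact Filter.mem_map.mpr h3
  obtain ⟨U, hU, hUU⟩ := exists_idempotent_in_compact_add_subsemigroup
    (M := Ultrafilter Γ) Ultrafilter.continuous_add_left E hne hclosed.isCompact (by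
      intro U hU V hV
      refine ⟨?_, fun t => ?_⟩
      · rw [Ultrafilter.eventually_add]
        exact hU.1.mono fun g hg => hV.1.mono fun h hh => G0.add_mem hg hh
      · rw [Ultrafilter.eventually_add]
        refine Eventually.of_forall fun g => (hV.2 (t - g)).mono fun h hh hcon => hh ?_
        have h5 : h - (t - g) = g + h - t := by abel
        rw [h5]
        exact hcon)
  exact ⟨U, hUU, hU.1, hU.2⟩

end idem

section hilbert

variable {H : Type} [NormedAddCommGroup H] [InnerProductSpace ℝ H] [CompleteSpace H]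
variable {Γ : Type} [AddCommGroup Γ] {a : Γ → ℤ} {e : Γ → H}

/-- the weak closure of the orbit -/
def W (e : Γ → H) : Set H :=
  {f | ∀ F : Finset Γ, ∃ n, ∀ m ∈ F, inner ℝ f (e m) = inner ℝ (e n) (e m)}

omit [CompleteSpace H] in
theorem e_mem_W (n : Γ) : e n ∈ W e := fun _ => ⟨n, fun _ _ => rfl⟩

omit [CompleteSpace H] in
theorem int_of_W (he : ∀ i j, inner ℝ (e i) (e j) = (a (i - j) : ℝ)) {f : H} (hf : f ∈ W e)
    (m : Γ) : ∃ k : ℤ, inner ℝ f (e m) = k := by
  obtain ⟨n, hn⟩ := hf {m}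
  exact ⟨a (n - m), by rw [hn m (Finset.mem_singleton_self m), he]⟩

omit [CompleteSpace H] in
theorem W_closed (he : ∀ i j, inner ℝ (e i) (e j) = (a (i - j) : ℝ)) {ι : Type}
    (V : Ultrafilter ι) {x : ι → H} {z : H} (hx : ∀ i, x i ∈ W e)
    (h : ∀ m, Tendsto (fun i => inner ℝ (x i) (e m)) V (𝓝 (inner ℝ z (e m)))) : z ∈ W e := by
  intro F
  have h1 : ∀ᶠ i in (V : Filter ι), ∀ m ∈ F, inner ℝ (x i) (e m) = inner ℝ z (e m) := by
    rw [Filter.eventually_all_finset]
    intro m _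
    exact int_lim V (fun i => int_of_W he (hx i) m) (h m)
  obtain ⟨i, hi⟩ := h1.exists
  obtain ⟨n, hn⟩ := hx i F
  exact ⟨n, fun m hm => by rw [← hi m hm, hn m hm]⟩

variable (he : ∀ i j, inner ℝ (e i) (e j) = (a (i - j) : ℝ))
  (hd : Dense (Submodule.span ℝ (Set.range e) : Set H))

include he in
omit [CompleteSpace H] in
theorem T_mem_W' {f : H} {g : Γ} {f' : H} (hf : f ∈ W e)
    (hf' : ∀ m, inner ℝ f' (e m) = inner ℝ f (e (m - g))) : f' ∈ W e := by
  classical
  intro F
  obtain ⟨n, hn⟩ := hf (F.image fun m => m - g)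
  refine ⟨n + g, fun m hm => ?_⟩
  rw [hf', hn (m - g) (Finset.mem_image_of_mem _ hm), he, he]
  congr 2
  abel

theorem T_mem_W {f : H} (hf : f ∈ W e) (g : Γ) : T he hd g f ∈ W e :=
  T_mem_W' he hf fun m => inner_T he hd g m f

include he hd in
/-- elements of the weak closure are weak limits along ultrafilters -/
theorem W_lim {f : H} (hf : f ∈ W e) :
    ∃ V : Ultrafilter Γ, ∀ y, Tendsto (fun n => inner ℝ (e n) y) V (𝓝 (inner ℝ f y)) := by
  classical
  choose n hn using hf
  set V := (Ultrafilter.of (atTop : Filter (Finset Γ))).map n with hV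
  obtain ⟨z, hz⟩ := weak_limit V e (R := Real.sqrt (a 0)) fun i => (norm_e' he i).le
  have h1 : f = z := by
    refine ext_e hd fun m => ?_
    refine tendsto_nhds_unique ?_ (hz (e m))
    have h2 : Tendsto (fun F : Finset Γ => inner ℝ (e (n F)) (e m)) atTop (𝓝 (inner ℝ f (e m))) := by
      refine Tendsto.congr' ?_ tendsto_const_nhds
      filter_upwards [eventually_ge_atTop {m}] with F hF
      exact hn F m (hF (Finset.mem_singleton_self m))
    have h3 := h2.mono_left (Ultrafilter.of_le (atTop : Filter (Finset Γ)))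
    rw [Filter.Tendsto, hV, Ultrafilter.coe_map, Filter.map_map]
    exact h3
  refine ⟨V, fun y => ?_⟩
  rw [h1]
  exact hz y

omit [CompleteSpace H] in
theorem norm_weak_le {ι : Type} (V : Ultrafilter ι) {x : ι → H} {z : H} {c : ℝ}
    (hc : Tendsto (fun i => ‖x i‖) V (𝓝 c))
    (h : Tendsto (fun i => inner ℝ (x i) z) V (𝓝 (inner ℝ z z))) : ‖z‖ ≤ c := by
  rw [real_inner_self_eq_norm_sq] at h
  have h2 : ‖z‖ ^ 2 ≤ c * ‖z‖ := by
    refine le_of_tendsto_of_tendsto h (hc.mul_const ‖z‖) (Eventually.of_forall fun i => ?_)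
    exact real_inner_le_norm _ _
  have hc0 : 0 ≤ c := ge_of_tendsto hc (Eventually.of_forall fun i => norm_nonneg _)
  by_contra hcon
  push Not at hcon
  have h3 : 0 < ‖z‖ := lt_of_le_of_lt hc0 hcon
  nlinarith

include he hd in
theorem norm_W_le {f : H} (hf : f ∈ W e) : ‖f‖ ≤ Real.sqrt (a 0) := by
  obtain ⟨V, hV⟩ := W_lim he hd hf
  refine norm_weak_le V (x := e) ?_ (hV f)
  simp only [norm_e' he]
  exact tendsto_const_nhds

include he hd in
/-- a vector of minimal norm in the weak closure -/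
theorem exists_min (ha : a 0 ≠ 0) :
    ∃ f ∈ W e, inner ℝ f (e 0) ≠ 0 ∧ ∀ f' ∈ W e, inner ℝ f' (e 0) ≠ 0 → ‖f‖ ≤ ‖f'‖ := by
  set Q : Set H := {f | f ∈ W e ∧ inner ℝ f (e 0) ≠ 0} with hQ
  have hne : ((fun f : H => ‖f‖) '' Q).Nonempty := by
    refine ⟨‖e 0‖, e 0, ⟨e_mem_W 0, ?_⟩, rfl⟩
    rw [he, sub_self]
    exact_mod_cast ha
  have hbdd : BddBelow ((fun f : H => ‖f‖) '' Q) := ⟨0, by
    rintro _ ⟨f, -, rfl⟩
    exact norm_nonneg f⟩
  obtain ⟨u, -, hu, hmem⟩ := exists_seq_tendsto_sInf hne hbdd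
  choose f hf hfu using hmem
  set V := hyperfilter ℕ with hV
  obtain ⟨z, hz⟩ := weak_limit V f (R := Real.sqrt (a 0)) fun i => norm_W_le he hd (hf i).1
  have hzW : z ∈ W e := W_closed he V (fun i => (hf i).1) fun m => hz (e m)
  have hz0 : inner ℝ z (e 0) ≠ 0 := by
    have h1 := int_lim V (fun i => int_of_W he (hf i).1 0) (hz (e 0))
    obtain ⟨i, hi⟩ := h1.exists
    rw [← hi]
    exact (hf i).2
  refine ⟨z, hzW, hz0, fun f' hf' h0 => ?_⟩
  have h2 : ‖z‖ ≤ sInf ((fun f : H => ‖f‖) '' Q) := by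
    refine norm_weak_le V (x := f) ?_ (hz z)
    have h3 := hu.mono_left Nat.hyperfilter_le_atTop
    refine h3.congr fun n => (hfu n).symm
  exact h2.trans (csInf_le hbdd ⟨f', ⟨hf', h0⟩, rfl⟩)

/-- the stabilizer of a vector -/
noncomputable def Stab (f : H) : AddSubgroup Γ where
  carrier := {g | T he hd g f = f}
  add_mem' := by
    intro g h hg hh
    simp only [Set.mem_ofPred_eq] at *
    rw [← T_add, hh, hg]
  zero_mem' := T_zero he hd f
  neg_mem' := by
    intro g hg
    simp only [Set.mem_ofPred_eq] at *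
    conv_lhs => rw [← hg]
    rw [T_add, neg_add_cancel, T_zero]

theorem mem_Stab {f : H} {g : Γ} : g ∈ Stab he hd f ↔ T he hd g f = f := Iff.rfl

include he hd in
/-- two vectors with integer inner products which are close are equal -/
theorem discrete {x y : H} (hx : ∀ m, ∃ k : ℤ, inner ℝ x (e m) = k)
    (hy : ∀ m, ∃ k : ℤ, inner ℝ y (e m) = k) (h : ‖x - y‖ * Real.sqrt (a 0) < 1) : x = y := by
  refine ext_e hd fun m => ?_
  obtain ⟨k, hk⟩ := hx m
  obtain ⟨l, hl⟩ := hy m
  have h1 : |inner ℝ (x - y) (e m)| < 1 := by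
    refine lt_of_le_of_lt (abs_real_inner_le_norm _ _) ?_
    rw [norm_e' he]
    exact h
  rw [inner_sub_left, hk, hl, ← Int.cast_sub, ← Int.cast_abs] at h1
  have h3 : |k - l| < 1 := by exact_mod_cast h1
  have h4 : k - l = 0 := Int.abs_lt_one_iff.mp h3
  have h5 : k = l := by omega
  rw [hk, hl, h5]

include he hd in
theorem eventually_eq_of_tendsto {ι : Type} (V : Ultrafilter ι) {x : ι → H} {z : H}
    (hx : ∀ i m, ∃ k : ℤ, inner ℝ (x i) (e m) = k)
    (hz : ∀ m, ∃ k : ℤ, inner ℝ z (e m) = k) (h : Tendsto x V (𝓝 z)) :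
    ∀ᶠ i in V, x i = z := by
  have h1 := (tendsto_iff_norm_sub_tendsto_zero.mp h).mul_const (Real.sqrt (a 0))
  rw [zero_mul] at h1
  have h2 := h1.eventually (gt_mem_nhds one_pos)
  exact h2.mono fun i hi => discrete he hd (hx i) hz hi

/-- the support of a minimal vector meets finitely many cosets of its stabilizer -/
theorem finite_support {f : H} (hf : f ∈ W e) 
    (hmin : ∀ f' ∈ W e, inner ℝ f' (e 0) ≠ 0 → ‖f‖ ≤ ‖f'‖) :
    (((↑) : Γ → Γ ⧸ Stab he hd f) '' {g | inner ℝ f (e g) ≠ 0}).Finite := by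
  by_contra hcon
  set Q := (((↑) : Γ → Γ ⧸ Stab he hd f) '' {g | inner ℝ f (e g) ≠ 0}) with hQ
  have hinf : Infinite Q := Set.infinite_coe_iff.mpr hcon
  have h1 : ∀ x : Q, ∃ g, inner ℝ f (e g) ≠ 0 ∧ (g : Γ ⧸ Stab he hd f) = x := fun x => by
    obtain ⟨g, hg, hgx⟩ := x.2
    exact ⟨g, hg, hgx⟩
  choose s hs hsx using h1
  set V := (hyperfilter Q).map (fun x => - s x) with hV
  set z := P he hd V f with hz
  have hzl := P_spec he hd V f
  rw [← hz] at hzl
  have hzW : z ∈ W e := W_closed he V (fun g => T_mem_W he hd hf g) fun m => hzl (e m)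
  have hz0 : inner ℝ z (e 0) ≠ 0 := by
    have h2 := int_lim V (fun g => int_of_W he (T_mem_W he hd hf g) 0) (hzl (e 0))
    rw [hV, Ultrafilter.coe_map, Filter.eventually_map] at h2
    obtain ⟨x, hx⟩ := h2.exists
    rw [← hx, inner_T, zero_sub, neg_neg]
    exact hs x
  have hnorm : ‖f‖ = ‖z‖ := le_antisymm (hmin z hzW hz0) (norm_P_le he hd V f)
  have hstrong : Tendsto (fun g => T he hd g f) V (𝓝 z) := by
    refine strong_of_weak V (c := ‖f‖) (fun g => (T he hd g).norm_map f) hnorm.symm ?_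
    exact hzl z
  have h3 := eventually_eq_of_tendsto he hd V
    (fun g m => int_of_W he (T_mem_W he hd hf g) m) (fun m => int_of_W he hzW m) hstrong
  rw [hV, Ultrafilter.coe_map, Filter.eventually_map] at h3
  have h4 : {x : Q | T he hd (- s x) f = z}.Subsingleton := by
    intro x hx y hy
    simp only [Set.mem_ofPred_eq] at hx hy
    have h5 : T he hd (- s x + s y) f = f := by
      rw [add_comm, ← T_add, hx, ← hy, T_add, add_neg_cancel, T_zero]
    have h6 : ((s x : Γ) : Γ ⧸ Stab he hd f) = (s y : Γ) := QuotientAddGroup.eq.mpr h5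
    rw [hsx, hsx] at h6
    exact Subtype.ext h6
  have h5 : {x : Q | T he hd (- s x) f = z}ᶜ ∈ hyperfilter Q := h4.finite.compl_mem_hyperfilter
  obtain ⟨x, hx, hx'⟩ := (h3.and h5).exists
  exact hx' hx

end hilbert

end Pool.Agent.H506.CO
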