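import Pool.Agent.H506.Cohen2

/-! Positive definite functions: realization, splitting, and the theorem of Helson and Cohen -/

set_option autoImplicit false

namespace Pool.Agent.H506.CO

open Filter Topology

variable {Γ : Type} [AddCommGroup Γ]

/-- real positive definite functions with integer values -/
def PD (a : Γ → ℤ) : Prop :=
  (∀ g, a (-g) = a g) ∧ ∀ c : Γ →₀ ℝ, 0 ≤ c.sum fun i x => c.sum fun j y => x * y * (a (i - j) : ℝ)

/-- functions of Lie type: invariant under a subgroup and supported on finitely many cosets of it -/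
def Elem (a : Γ → ℤ) : Prop :=
  ∃ D : AddSubgroup Γ, (∀ g, ∀ d ∈ D, a (g + d) = a g) ∧
    ∃ F : Finset Γ, ∀ g, a g ≠ 0 → ∃ f ∈ F, g - f ∈ D

theorem pd_of_inner {H : Type} [NormedAddCommGroup H] [InnerProductSpace ℝ H] (v : Γ → H) {b : Γ → ℤ}
    (h : ∀ i j, inner ℝ (v i) (v j) = (b (i - j) : ℝ)) : PD b := by
  have hs : ∀ g, b (-g) = b g := by
    intro g
    have h1 := h 0 g
    have h2 := h g 0
    rw [real_inner_comm, h2, zero_sub, sub_zero] at h1
    exact_mod_cast h1.symm
  refine ⟨hs, fun c => ?_⟩
  have h1 : (c.sum fun i x => c.sum fun j y => x * y * (b (i - j) : ℝ)) =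
      inner ℝ (Finsupp.linearCombination ℝ v c) (Finsupp.linearCombination ℝ v c) := by
    simp only [Finsupp.linearCombination_apply, Finsupp.sum_inner, Finsupp.inner_sum, 
      inner_smul_left, inner_smul_right, h, Finsupp.mul_sum, conj_trivial]
    refine Finsupp.sum_congr fun i _ => Finsupp.sum_congr fun j _ => ?_
    rw [← hs (i - j), neg_sub]
    ring
  rw [h1]
  exact real_inner_self_nonneg

theorem realize {a : Γ → ℤ} (ha : PD a) :
    ∃ (H : Type) (_ : NormedAddCommGroup H) (_ : InnerProductSpace ℝ H) (_ : CompleteSpace H)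
      (e : Γ → H), (∀ i j, inner ℝ (e i) (e j) = (a (i - j) : ℝ)) ∧
        Dense (Submodule.span ℝ (Set.range e) : Set H) := by
  let c : PreInnerProductSpace.Core ℝ (Γ →₀ ℝ) :=
    { inner := fun f g => f.sum fun i x => g.sum fun j y => x * y * (a (i - j) : ℝ)
      conj_inner_symm := fun f g => by
        simp only [conj_trivial]
        rw [Finsupp.sum_comm]
        refine Finsupp.sum_congr fun i _ => Finsupp.sum_congr fun j _ => ?_
        rw [← ha.1 (j - i), neg_sub]
        ring
      re_inner_nonneg := fun f => by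
        exact ha.2 f
      add_left := fun f g h => by
        rw [Finsupp.sum_add_index']
        · intro i
          simp
        · intro i x y
          rw [← Finsupp.sum_add]
          refine Finsupp.sum_congr fun j _ => ?_
          ring
      smul_left := fun f g r => by
        rw [Finsupp.sum_smul_index]
        · rw [Finsupp.mul_sum]
          refine Finsupp.sum_congr fun i _ => ?_
          rw [Finsupp.mul_sum]
          refine Finsupp.sum_congr fun j _ => ?_
          simp
          ring
        · intro i
          simp }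
  let i1 : SeminormedAddCommGroup (Γ →₀ ℝ) :=
    @InnerProductSpace.Core.toSeminormedAddCommGroup ℝ (Γ →₀ ℝ) _ _ _ c
  let i2 : InnerProductSpace ℝ (Γ →₀ ℝ) := @InnerProductSpace.ofCore ℝ (Γ →₀ ℝ) _ _ _ c
  refine ⟨UniformSpace.Completion (Γ →₀ ℝ), inferInstance, inferInstance, inferInstance,
    fun i => ((Finsupp.single i 1 : Γ →₀ ℝ) : UniformSpace.Completion (Γ →₀ ℝ)), ?_, ?_⟩
  · intro i j
    rw [UniformSpace.Completion.inner_coe]
    change (Finsupp.single i (1:ℝ)).sum (fun i x => (Finsupp.single j (1:ℝ)).sum
      fun j y => x * y * (a (i - j) : ℝ)) = _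
    rw [Finsupp.sum_single_index, Finsupp.sum_single_index]
    · simp
    · simp
    · simp
  · refine UniformSpace.Completion.denseRange_coe.mono ?_
    rintro _ ⟨f, rfl⟩
    induction f using Finsupp.induction with
    | zero =>
      have h0 : ((0 : Γ →₀ ℝ) : UniformSpace.Completion (Γ →₀ ℝ)) = 0 := rfl
      rw [h0]
      exact Submodule.zero_mem _
    | single_add i x f _ _ ih =>
      rw [UniformSpace.Completion.coe_add]
      refine Submodule.add_mem _ ?_ ih
      have h1 : (Finsupp.single i x : Γ →₀ ℝ) = x • Finsupp.single i (1:ℝ) := by simp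
      rw [h1, UniformSpace.Completion.coe_smul]
      exact Submodule.smul_mem _ _ (Submodule.subset_span ⟨i, rfl⟩)

theorem PD.nonneg {a : Γ → ℤ} (ha : PD a) : 0 ≤ a 0 := by
  obtain ⟨H, _, _, _, e, he, hd⟩ := realize ha
  have h1 := norm_e he 0
  have h2 : (0:ℝ) ≤ (a 0 : ℝ) := by rw [← h1]; positivity
  exact_mod_cast h2

section split

variable {H : Type} [NormedAddCommGroup H] [InnerProductSpace ℝ H] [CompleteSpace H]
  {a : Γ → ℤ} {e : Γ → H}

attribute [local instance] Ultrafilter.add

/-- splitting along an idempotent ultrafilter -/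
theorem split (he : ∀ i j, inner ℝ (e i) (e j) = (a (i - j) : ℝ))
    (hd : Dense (Submodule.span ℝ (Set.range e) : Set H)) {U : Ultrafilter Γ} (hU : U + U = U) :
    ∃ b c : Γ → ℤ, (∀ g, a g = b g + c g) ∧ PD b ∧ PD c ∧
      (b 0 = 0 → P he hd U (e 0) = 0) ∧ (c 0 = 0 → P he hd U (e 0) = e 0) := by
  set p := P he hd U (e 0) with hp
  set r := e 0 - p with hr
  have hPp : P he hd U p = p := P_idem he hd hU _
  have hPr : P he hd U r = 0 := by rw [hr, P_sub, hPp, ← hp, sub_self]
  have hPT : ∀ n, P he hd U (T he hd n p) = T he hd n p := fun n => by rw [P_T, hPp]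
  have hPTr : ∀ n, P he hd U (T he hd n r) = 0 := fun n => by rw [P_T, hPr, map_zero]
  have h0 : e 0 = p + r := by rw [hr]; abel
  -- the inner products
  have hb1 : ∀ n, inner ℝ (T he hd n p) p = inner ℝ (T he hd n p) (e 0) := by
    intro n
    have h1 : inner ℝ (T he hd n p) r = 0 := by
      rw [real_inner_comm]
      exact orth he hd (hPT n) hPr
    rw [h0, inner_add_right, h1, add_zero]
  have hb2 : ∀ n, ∃ k : ℤ, inner ℝ (T he hd n p) p = k := by
    intro n
    have h1 := P_spec he hd U (e 0) (e (0 - n))
    rw [← hp, ← inner_T he hd] at h1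
    have h2 : ∀ g, ∃ k : ℤ, inner ℝ (T he hd g (e 0)) (e (0 - n)) = k := fun g => by
      rw [T_e, he]
      exact ⟨_, rfl⟩
    obtain ⟨g, hg⟩ := (int_lim U h2 h1).exists
    obtain ⟨k, hk⟩ := h2 g
    exact ⟨k, by rw [hb1, ← hg, hk]⟩
  choose b hb using hb2
  have hc1 : ∀ n, inner ℝ (T he hd n r) r = ((a n - b n : ℤ) : ℝ) := by
    intro n
    have h1 : inner ℝ (T he hd n p) r = 0 := by
      rw [real_inner_comm]
      exact orth he hd (hPT n) hPr
    have h2 : inner ℝ (T he hd n r) p = 0 := orth he hd hPp (hPTr n)
    have h3 : inner ℝ (T he hd n (e 0)) (e 0) = (a n : ℝ) := by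
      rw [T_e, he, sub_zero, zero_add]
    rw [h0, map_add, inner_add_left, inner_add_right, inner_add_right, h1, h2, hb] at h3
    push_cast
    linarith
  refine ⟨b, fun n => a n - b n, fun g => by ring, ?_, ?_, fun h => ?_, fun h => ?_⟩
  · refine pd_of_inner (fun i => T he hd i p) fun i j => ?_
    rw [← hb, ← LinearIsometryEquiv.inner_map_map (T he hd j) (T he hd (i - j) p) p, T_add]
    congr 3
    abel_nf
  · refine pd_of_inner (fun i => T he hd i r) fun i j => ?_
    rw [← hc1, ← LinearIsometryEquiv.inner_map_map (T he hd j) (T he hd (i - j) r) r, T_add]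
    congr 3
    abel_nf
  · have h1 := hb 0
    rw [h, T_zero, real_inner_self_eq_norm_sq, Int.cast_zero] at h1
    exact norm_eq_zero.mp (pow_eq_zero_iff (two_ne_zero) |>.mp h1)
  · have h1 := hc1 0
    have h' : a 0 - b 0 = 0 := h
    rw [h', T_zero, real_inner_self_eq_norm_sq, Int.cast_zero] at h1
    have h2 : r = 0 := norm_eq_zero.mp (pow_eq_zero_iff (two_ne_zero) |>.mp h1)
    rw [h0, h2, add_zero]

end split

/-- **Theorem of Helson and Cohen** for positive definite functions. -/
theorem helson_cohen_aux (N : ℕ) : ∀ a : Γ → ℤ, PD a → a 0 ≤ N →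
    ∃ L : List (Γ → ℤ), (∀ b ∈ L, PD b ∧ Elem b) ∧ ∀ g, a g = (L.map fun b => b g).sum := by
  classical
  induction N using Nat.strong_induction_on with
  | _ N ih =>
    intro a ha haN
    obtain ⟨H, _, _, _, e, he, hd⟩ := realize ha
    by_cases ha0 : a 0 = 0
    · refine ⟨[], by simp, fun g => ?_⟩
      have h1 : e 0 = 0 := by
        have := norm_e he 0
        rw [ha0, Int.cast_zero] at this
        exact norm_eq_zero.mp (pow_eq_zero_iff (two_ne_zero) |>.mp this)
      have h2 := he g 0
      rw [h1, inner_zero_right, sub_zero] at h2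
      simpa using h2.symm
    obtain ⟨f, hf, hf0, hmin⟩ := exists_min he hd ha0
    have hfin := finite_support he hd hf hmin
    by_cases hinf : Infinite (Stab he hd f ⧸ ((Stab he hd (e 0)).addSubgroupOf (Stab he hd f)))
    · -- splitting
      obtain ⟨U, hUU, hU1, hU2⟩ := exists_idem _ _ hinf
      obtain ⟨b, c, habc, hb, hc, hb0, hc0⟩ := split he hd hUU
      have hbne : b 0 ≠ 0 := by
        intro h
        have h1 := hb0 h
        have h2 : P he hd U f = f := by
          refine P_unique he hd fun m => ?_
          refine Tendsto.congr' ?_ tendsto_const_nhds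
          refine hU1.mono fun g hg => ?_
          change inner ℝ f (e m) = inner ℝ (T he hd g f) (e m)
          rw [(mem_Stab he hd).mp hg]
        have h3 : ∀ m, P he hd U (e m) = 0 := by
          intro m
          have h4 : e m = T he hd m (e 0) := by rw [T_e, zero_add]
          rw [h4, P_T, h1, map_zero]
        exact hf0 (by
          rw [real_inner_comm]
          exact orth he hd h2 (h3 0))
      have hcne : c 0 ≠ 0 := by
        intro h
        have h1 := hc0 h
        have h2 := rigid he hd h1
        have h3 := eventually_eq_of_tendsto he hd U (fun g m => ⟨_, by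
          rw [T_e, he]⟩) (fun m => ⟨_, he 0 m⟩) h2
        obtain ⟨g, hg, hg'⟩ := (h3.and (hU2 0)).exists
        rw [sub_zero] at hg'
        exact hg' hg
      have hbn := hb.nonneg
      have hcn := hc.nonneg
      have hsum := habc 0
      obtain ⟨L1, hL1, hL1'⟩ := ih (b 0).toNat (by omega) b hb (by omega)
      obtain ⟨L2, hL2, hL2'⟩ := ih (c 0).toNat (by omega) c hc (by omega)
      refine ⟨L1 ++ L2, ?_, fun g => ?_⟩
      · intro x hx
        rw [List.mem_append] at hx
        rcases hx with hx | hx
        · exact hL1 x hx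
        · exact hL2 x hx
      · rw [List.map_append, List.sum_append, ← hL1', ← hL2', habc]
    · -- the indecomposable case
      refine ⟨[a], ?_, by simp⟩
      intro b hb
      rw [List.mem_singleton] at hb
      subst hb
      refine ⟨ha, ?_⟩
      have hfin2 : Finite (Stab he hd f ⧸ ((Stab he hd (e 0)).addSubgroupOf (Stab he hd f))) :=
        not_infinite_iff_finite.mp hinf
      -- the support of `f` lies in finitely many cosets of the stabilizer of `e 0`
      obtain ⟨F, hF⟩ : ∃ F : Finset Γ, ∀ g, inner ℝ f (e g) ≠ 0 →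
          ∃ t ∈ F, g - t ∈ Stab he hd (e 0) := by
        have := Fintype.ofFinite (Stab he hd f ⧸ ((Stab he hd (e 0)).addSubgroupOf (Stab he hd f)))
        refine ⟨(hfin.toFinset ×ˢ Finset.univ).image fun x : (Γ ⧸ Stab he hd f) ×
          (Stab he hd f ⧸ ((Stab he hd (e 0)).addSubgroupOf (Stab he hd f))) =>
            Quotient.out x.1 + ((Quotient.out x.2 : Stab he hd f) : Γ), fun g hg => ?_⟩
        set x : Γ ⧸ Stab he hd f := (g : Γ ⧸ Stab he hd f) with hx
        have h1 : - Quotient.out x + g ∈ Stab he hd f := by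
          rw [← QuotientAddGroup.eq]
          exact QuotientAddGroup.out_eq' _
        set u : Stab he hd f := ⟨_, h1⟩ with hu
        set y : Stab he hd f ⧸ ((Stab he hd (e 0)).addSubgroupOf (Stab he hd f)) :=
          QuotientAddGroup.mk u with hy
        have h2 : - Quotient.out y + u ∈ (Stab he hd (e 0)).addSubgroupOf (Stab he hd f) := by
          rw [← QuotientAddGroup.eq]
          exact QuotientAddGroup.out_eq' _
        rw [AddSubgroup.mem_addSubgroupOf] at h2
        refine ⟨Quotient.out x + ((Quotient.out y : Stab he hd f) : Γ), ?_, ?_⟩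
        · refine Finset.mem_image.mpr ⟨(x, y), ?_, rfl⟩
          rw [Finset.mem_product]
          refine ⟨?_, Finset.mem_univ _⟩
          rw [Set.Finite.mem_toFinset]
          exact ⟨g, hg, rfl⟩
        · have h3 : ((-Quotient.out y + u : Stab he hd f) : Γ) =
              g - (Quotient.out x + ((Quotient.out y : Stab he hd f) : Γ)) := by
            push_cast
            rw [hu]
            abel
          rw [← h3]
          exact h2
      have hco : ∀ g t : Γ, g - t ∈ Stab he hd (e 0) → e g = e t := by
        intro g t h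
        have h1 := (mem_Stab he hd).mp h
        have h2 : T he hd t (T he hd (g - t) (e 0)) = e g := by
          rw [T_add, T_e]
          congr 1
          abel
        rw [h1, T_e, zero_add] at h2
        exact h2.symm
      -- `f` is one of the vectors `e t`
      obtain ⟨t, ht⟩ : ∃ t, f = e t := by
        obtain ⟨V, hV⟩ := W_lim he hd hf
        have hfne : f ≠ 0 := by
          rintro rfl
          exact hf0 (inner_zero_left _)
        have h1 := (hV f).eventually_ne (by
          rw [real_inner_self_eq_norm_sq]
          exact pow_ne_zero 2 (norm_ne_zero_iff.mpr hfne))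
        have h2 : ∀ᶠ n in (V : Filter Γ), ∃ t ∈ F, n - t ∈ Stab he hd (e 0) := by
          refine h1.mono fun n hn => hF n ?_
          rwa [real_inner_comm]
        have h3 : ∃ t ∈ F, ∀ᶠ n in (V : Filter Γ), n - t ∈ Stab he hd (e 0) := by
          by_contra hcon
          push Not at hcon
          have h4 : ∀ᶠ n in (V : Filter Γ), ∀ t ∈ F, ¬ (n - t ∈ Stab he hd (e 0)) := by
            rw [Filter.eventually_all_finset]
            intro t ht
            exact hcon t ht
          obtain ⟨n, ⟨t, ht, hn⟩, hn'⟩ := (h2.and h4).exists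
          exact hn' t ht hn
        obtain ⟨t, -, ht⟩ := h3
        refine ⟨t, ext_e hd fun m => tendsto_nhds_unique (hV (e m)) ?_⟩
        refine Tendsto.congr' ?_ tendsto_const_nhds
        refine ht.mono fun n hn => ?_
        change inner ℝ (e t) (e m) = inner ℝ (e n) (e m)
        rw [hco n t hn]
      refine ⟨Stab he hd (e 0), fun g d hdd => ?_, F.image fun s => t - s, fun g hg => ?_⟩
      · have h1 := hco (g + d) g (by rwa [add_sub_cancel_left])
        have h2 := he (g + d) 0
        rw [h1, he, sub_zero, sub_zero] at h2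
        exact_mod_cast h2.symm
      · have h1 : inner ℝ f (e (t - g)) ≠ 0 := by
          rw [ht, he, sub_sub_cancel]
          exact_mod_cast hg
        obtain ⟨s, hs, hs'⟩ := hF _ h1
        refine ⟨t - s, Finset.mem_image_of_mem _ hs, ?_⟩
        have h2 := (Stab he hd (e 0)).neg_mem hs'
        have h3 : -(t - g - s) = g - (t - s) := by abel
        rwa [h3] at h2

theorem helson_cohen {a : Γ → ℤ} (ha : PD a) :
    ∃ L : List (Γ → ℤ), (∀ b ∈ L, PD b ∧ Elem b) ∧ ∀ g, a g = (L.map fun b => b g).sum :=
  helson_cohen_aux (a 0).toNat a ha (by have := ha.nonneg; omega)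

end Pool.Agent.H506.CO
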