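import Pool.Agent.H506.Torus

/-!
# Positive definite functions of Lie type are the Fourier coefficients of polynomial densities on closed
subgroups
-/

set_option autoImplicit false

namespace Pool.Agent.H506.TR

open Filter Topology MeasureTheory Pool.Agent.H506.CO

variable {d : ℕ}

/-- trigonometric polynomials with integer coefficients -/
noncomputable def ev (P : (Fin d → ℤ) →₀ ℤ) (x : Fin d → Circle) : ℂ :=
  P.sum fun m a => (a : ℂ) * mon m x

theorem continuous_ev (P : (Fin d → ℤ) →₀ ℤ) : Continuous (ev P) := by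
  unfold ev Finsupp.sum
  exact continuous_finsetSum _ fun k _ => continuous_const.mul (continuous_mon' k)

instance ann_compact (Γ : AddSubgroup (Fin d → ℤ)) : CompactSpace (ann Γ) :=
  isCompact_iff_compactSpace.mp (ann_closed Γ).isCompact

theorem pd_finset {b : (Fin d → ℤ) → ℤ} (hb : PD b) (s : Finset (Fin d → ℤ))
    (u : (Fin d → ℤ) → ℝ) : 0 ≤ ∑ i ∈ s, ∑ j ∈ s, u i * u j * (b (i - j) : ℝ) := by
  classical
  set c : (Fin d → ℤ) →₀ ℝ := Finsupp.indicator s fun i _ => u i with hc
  have h1 := hb.2 c
  have h2 : c.support ⊆ s := Finsupp.support_indicator_subset _ _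
  have h3 : ∀ i ∈ s, c i = u i := fun i hi => Finsupp.indicator_of_mem hi _
  have h4 : (c.sum fun i x => c.sum fun j y => x * y * (b (i - j) : ℝ)) =
      ∑ i ∈ s, ∑ j ∈ s, u i * u j * (b (i - j) : ℝ) := by
    rw [Finsupp.sum_of_support_subset c h2 _ (fun i _ => by simp)]
    refine Finset.sum_congr rfl fun i hi => ?_
    rw [Finsupp.sum_of_support_subset c h2 _ (fun j _ => by simp)]
    refine Finset.sum_congr rfl fun j hj => ?_
    rw [h3 i hi, h3 j hj]
  rwa [h4] at h1

theorem pd_complex {b : (Fin d → ℤ) → ℤ} (hb : PD b) (c : (Fin d → ℤ) →₀ ℂ) :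
    0 ≤ (∑ i ∈ c.support, ∑ j ∈ c.support, c i * (starRingEnd ℂ) (c j) * (b (i - j) : ℂ)).re := by
  have h1 := pd_finset hb c.support fun i => (c i).re
  have h2 := pd_finset hb c.support fun i => (c i).im
  have h3 : (∑ i ∈ c.support, ∑ j ∈ c.support, c i * (starRingEnd ℂ) (c j) * (b (i - j) : ℂ)).re =
      (∑ i ∈ c.support, ∑ j ∈ c.support, (c i).re * (c j).re * (b (i - j) : ℝ)) +
      (∑ i ∈ c.support, ∑ j ∈ c.support, (c i).im * (c j).im * (b (i - j) : ℝ)) := by
    rw [Complex.re_sum, ← Finset.sum_add_distrib]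
    refine Finset.sum_congr rfl fun i _ => ?_
    rw [Complex.re_sum, ← Finset.sum_add_distrib]
    refine Finset.sum_congr rfl fun j _ => ?_
    have h4 : ((b (i - j) : ℤ) : ℂ) = ((b (i - j) : ℝ) : ℂ) := by push_cast; rfl
    rw [h4, Complex.re_mul_ofReal, Complex.mul_re, Complex.conj_re, Complex.conj_im]
    ring
  rw [h3]
  exact add_nonneg h1 h2

/-- the density -/
theorem exists_density {b : (Fin d → ℤ) → ℤ} (hb : PD b) (hE : Elem b) :
    ∃ (Γ : AddSubgroup (Fin d → ℤ)) (P : (Fin d → ℤ) →₀ ℤ),
      (∀ k, haarInt (ann Γ) (fun x => (mon k (x : Fin d → Circle) : ℂ) * ev P x) = b k) ∧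
      ∀ x ∈ ann Γ, (ev P x).im = 0 := by
  classical
  obtain ⟨D, hD, F, hF⟩ := hE
  have hD' : ∀ g h : Fin d → ℤ, (g : (Fin d → ℤ) ⧸ D) = h → b g = b h := by
    intro g h hgh
    have h1 : -g + h ∈ D := QuotientAddGroup.eq.mp hgh
    have h2 := hD g _ h1
    rw [add_neg_cancel_left] at h2
    exact h2.symm
  set Q : Finset ((Fin d → ℤ) ⧸ D) :=
    (F.image (QuotientAddGroup.mk (s := D))).filter fun y => b (Quotient.out y) ≠ 0 with hQ
  have hmk : ∀ y : (Fin d → ℤ) ⧸ D, QuotientAddGroup.mk (s := D) (Quotient.out y) = y :=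
    fun y => QuotientAddGroup.out_eq' y
  have hQmem : ∀ y : (Fin d → ℤ) ⧸ D, y ∈ Q ↔ b (Quotient.out y) ≠ 0 := by
    intro y
    rw [hQ, Finset.mem_filter]
    refine ⟨fun h => h.2, fun h => ⟨?_, h⟩⟩
    obtain ⟨f, hf, hfd⟩ := hF _ h
    rw [Finset.mem_image]
    refine ⟨f, hf, ?_⟩
    rw [← hmk y]
    refine QuotientAddGroup.eq.mpr ?_
    rw [neg_add_eq_sub]
    exact hfd
  set P : (Fin d → ℤ) →₀ ℤ := ∑ y ∈ Q, Finsupp.single (-Quotient.out y) (b (Quotient.out y)) with hP
  have hev : ∀ x, ev P x = ∑ y ∈ Q, (b (Quotient.out y) : ℂ) * mon (-Quotient.out y) x := by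
    intro x
    unfold ev
    rw [hP, ← Finsupp.sum_finsetSum_index]
    · refine Finset.sum_congr rfl fun y _ => ?_
      rw [Finsupp.sum_single_index]
      simp
    · simp
    · intro m a a'
      push_cast
      ring
  refine ⟨D, P, fun k => ?_, fun x hx => ?_⟩
  · have h1 : (fun x : ann D => (mon k (x : Fin d → Circle) : ℂ) * ev P x) =
        fun x : ann D => ∑ y ∈ Q, (b (Quotient.out y) : ℂ) * mon (k - Quotient.out y) x := by
      funext x
      rw [hev, Finset.mul_sum]
      refine Finset.sum_congr rfl fun y _ => ?_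
      rw [sub_eq_add_neg, mon_add, Circle.coe_mul]
      ring
    rw [h1, haarInt_sum]
    · have h2 : ∀ y ∈ Q, haarInt (ann D) (fun x : ann D => (b (Quotient.out y) : ℂ) *
          mon (k - Quotient.out y) x) = if y = QuotientAddGroup.mk k then (b k : ℂ) else 0 := by
        intro y _
        rw [haarInt_mul]
        by_cases h3 : k - Quotient.out y ∈ D
        · have h4 : y = QuotientAddGroup.mk k := by
            rw [← hmk y]
            refine QuotientAddGroup.eq.mpr ?_
            rwa [neg_add_eq_sub]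
          rw [haarInt_mon_mem h3, mul_one, if_pos h4]
          congr 1
          refine hD' _ _ ?_
          rw [hmk, h4]
        · have h4 : ¬ y = QuotientAddGroup.mk k := by
            intro h4
            apply h3
            rw [← neg_add_eq_sub]
            refine QuotientAddGroup.eq.mp ?_
            rw [hmk, h4]
          rw [haarInt_mon_not_mem h3, mul_zero, if_neg h4]
      rw [Finset.sum_congr rfl h2, Finset.sum_ite_eq']
      by_cases h3 : (QuotientAddGroup.mk k : (Fin d → ℤ) ⧸ D) ∈ Q
      · rw [if_pos h3]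
      · rw [if_neg h3]
        rw [hQmem, not_not] at h3
        rw [hD' _ k (hmk _)] at h3
        rw [h3, Int.cast_zero]
    · intro y _
      exact continuous_const.mul ((continuous_mon' _).comp continuous_subtype_val)
  · have hconj : (starRingEnd ℂ) (ev P x) = ev P x := by
      rw [hev, map_sum]
      refine Finset.sum_nbij' (fun y => -y) (fun y => -y) ?_ ?_ (fun y _ => neg_neg y)
        (fun y _ => neg_neg y) ?_
      · intro y hy
        rw [hQmem] at hy ⊢
        rw [hD' (Quotient.out (-y)) (-Quotient.out y) (by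
          rw [hmk, QuotientAddGroup.mk_neg, hmk]), hb.1]
        exact hy
      · intro y hy
        rw [hQmem] at hy ⊢
        rw [hD' (Quotient.out (-y)) (-Quotient.out y) (by
          rw [hmk, QuotientAddGroup.mk_neg, hmk]), hb.1]
        exact hy
      · intro y _
        rw [map_mul, map_intCast]
        have h1 : b (Quotient.out (-y)) = b (Quotient.out y) := by
          rw [hD' (Quotient.out (-y)) (-Quotient.out y) (by
            rw [hmk, QuotientAddGroup.mk_neg, hmk]), hb.1]
        rw [h1]
        congr 1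
        have h2 : mon (-Quotient.out (-y)) x = mon (Quotient.out y) x := by
          have h3 : -Quotient.out y - Quotient.out (-y) ∈ D := by
            rw [← neg_add_eq_sub]
            refine QuotientAddGroup.eq.mp ?_
            rw [hmk, QuotientAddGroup.mk_neg, hmk]
          have h4 : -Quotient.out (-y) = Quotient.out y + (-Quotient.out y - Quotient.out (-y)) := by
            abel
          rw [h4, mon_add, hx _ h3, mul_one]
        rw [h2, mon_neg, Circle.coe_inv_eq_conj, Complex.conj_conj]
    exact Complex.conj_eq_iff_im.mp hconj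

/-- the density is nonnegative -/
theorem density_nonneg {b : (Fin d → ℤ) → ℤ} (hb : PD b) {Γ : AddSubgroup (Fin d → ℤ)}
    {P : (Fin d → ℤ) →₀ ℤ}
    (hP : ∀ k, haarInt (ann Γ) (fun x => (mon k (x : Fin d → Circle) : ℂ) * ev P x) = b k)
    (him : ∀ x ∈ ann Γ, (ev P x).im = 0) {x₀ : Fin d → Circle} (hx₀ : x₀ ∈ ann Γ) :
    0 ≤ (ev P x₀).re := by
  by_contra hcon
  push Not at hcon
  set ψ : (Fin d → Circle) → ℝ := fun x => (ev P x).re with hψ
  have hψc : Continuous ψ := Complex.continuous_re.comp (continuous_ev P)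
  set g : (Fin d → Circle) → ℝ := fun x => max 0 (ψ x₀ / 2 - ψ x) with hg
  have hgc : Continuous g := continuous_const.max (continuous_const.sub hψc)
  -- bounds
  obtain ⟨K, hK⟩ := (isCompact_univ (X := Fin d → Circle)).exists_bound_of_continuousOn
    (continuous_ev P).continuousOn
  obtain ⟨G, hG⟩ := (isCompact_univ (X := Fin d → Circle)).exists_bound_of_continuousOn
    hgc.continuousOn
  have hK0 : 0 ≤ K := (norm_nonneg _).trans (hK x₀ trivial)
  have hG0 : 0 ≤ G := (norm_nonneg _).trans (hG x₀ trivial)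
  -- the integral of `g² P` is negative
  obtain ⟨r, hr, hr'⟩ := haarInt_neg (ann Γ) (f := fun x : ann Γ => g x ^ 2 * ψ x)
    (((hgc.pow 2).mul hψc).comp continuous_subtype_val) (fun x => by
      by_cases h1 : ψ x₀ / 2 - ψ x ≤ 0
      · rw [hg]
        simp only
        rw [max_eq_left h1]
        simp
      · push Not at h1
        have h2 : ψ x ≤ 0 := by linarith
        exact mul_nonpos_of_nonneg_of_nonpos (sq_nonneg _) h2) ⟨x₀, hx₀⟩ (by
      have h1 : 0 < g x₀ := by
        rw [hg]
        simp only
        refine lt_max_of_lt_right ?_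
        linarith
      exact mul_neg_of_pos_of_neg (pow_pos h1 2) hcon)
  have hr'' : haarInt (ann Γ) (fun x : ann Γ => ((g x : ℂ) * (g x : ℂ)) * ev P x) = r := by
    rw [← hr']
    congr 1
    funext x
    have h1 : ev P x = (ψ x : ℂ) := by
      refine Complex.ext ?_ ?_
      · rw [Complex.ofReal_re]
      · rw [Complex.ofReal_im, him x x.2]
    rw [h1]
    push_cast
    ring
  -- approximation
  obtain ⟨ε, hε, hεr⟩ : ∃ ε : ℝ, 0 < ε ∧ ε * (2 * G + ε) * K < -r := by
    have h1 : Tendsto (fun ε : ℝ => ε * (2 * G + ε) * K) (𝓝 0) (𝓝 (0 * (2 * G + 0) * K)) := by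
      refine Continuous.tendsto ?_ 0
      fun_prop
    rw [zero_mul, zero_mul] at h1
    have h2 := (h1.eventually (gt_mem_nhds (show (0 : ℝ) < -r by linarith)))
    obtain ⟨δ, hδ, h3⟩ := Metric.eventually_nhds_iff.mp h2
    refine ⟨δ / 2, by positivity, h3 ?_⟩
    rw [Real.dist_eq, sub_zero, abs_of_pos (by positivity)]
    linarith
  obtain ⟨c, hc⟩ := approx ⟨fun x => (g x : ℂ), Complex.continuous_ofReal.comp hgc⟩ hε
  have h2 : 0 ≤ (haarInt (ann Γ) (fun x : ann Γ => tp c x * (starRingEnd ℂ) (tp c x) * ev P x)).re := by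
    have h3 : (fun x : ann Γ => tp c x * (starRingEnd ℂ) (tp c x) * ev P x) =
        fun x : ann Γ => ∑ i ∈ c.support, ∑ j ∈ c.support, (c i * (starRingEnd ℂ) (c j)) *
          ((mon (i - j) (x : Fin d → Circle) : ℂ) * ev P x) := by
      funext x
      unfold tp Finsupp.sum
      rw [map_sum, Finset.sum_mul_sum, Finset.sum_mul]
      refine Finset.sum_congr rfl fun i _ => ?_
      rw [Finset.sum_mul]
      refine Finset.sum_congr rfl fun j _ => ?_
      rw [map_mul, sub_eq_add_neg, mon_add, mon_neg, Circle.coe_mul, Circle.coe_inv_eq_conj]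
      ring
    rw [h3, haarInt_sum]
    · have h4 : ∀ i ∈ c.support, haarInt (ann Γ) (fun x : ann Γ => ∑ j ∈ c.support,
          (c i * (starRingEnd ℂ) (c j)) * ((mon (i - j) (x : Fin d → Circle) : ℂ) * ev P x)) =
          ∑ j ∈ c.support, c i * (starRingEnd ℂ) (c j) * (b (i - j) : ℂ) := by
        intro i _
        rw [haarInt_sum]
        · refine Finset.sum_congr rfl fun j _ => ?_
          rw [haarInt_mul, hP]
        · intro j _
          exact continuous_const.mul (((continuous_mon' _).mul (continuous_ev P)).comp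
            continuous_subtype_val)
      rw [Finset.sum_congr rfl h4]
      exact pd_complex hb c
    · intro i _
      refine continuous_finsetSum _ fun j _ => ?_
      exact continuous_const.mul (((continuous_mon' _).mul (continuous_ev P)).comp
            continuous_subtype_val)
  -- comparison
  have h5 : ‖haarInt (ann Γ) (fun x : ann Γ => tp c x * (starRingEnd ℂ) (tp c x) * ev P x) - r‖ ≤
      ε * (2 * G + ε) * K := by
    rw [← hr'', ← haarInt_sub]
    · refine norm_haarInt_le _ fun x => ?_
      have e1 : ‖(g x : ℂ) - tp c x‖ < ε := hc x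
      have e2 : ‖(g x : ℂ)‖ ≤ G := by
        rw [Complex.norm_real]
        exact hG x trivial
      have e3 : ‖tp c x‖ ≤ G + ε := by
        have : tp c x = (g x : ℂ) - ((g x : ℂ) - tp c x) := by ring
        rw [this]
        exact (norm_sub_le _ _).trans (by linarith)
      have e4 : tp c x * (starRingEnd ℂ) (tp c x) * ev P x - (g x : ℂ) * (g x : ℂ) * ev P x =
          ((tp c x - g x) * (starRingEnd ℂ) (tp c x) + g x * (starRingEnd ℂ) (tp c x - g x)) *
            ev P x := by
        rw [map_sub, Complex.conj_ofReal]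
        ring
      rw [e4, norm_mul]
      refine mul_le_mul ?_ (hK x trivial) (norm_nonneg _) (by positivity)
      refine (norm_add_le _ _).trans ?_
      rw [norm_mul, norm_mul, Complex.norm_conj, Complex.norm_conj, norm_sub_rev]
      have e5 : ‖(g x : ℂ) - tp c x‖ * ‖tp c x‖ ≤ ε * (G + ε) :=
        mul_le_mul e1.le e3 (norm_nonneg _) hε.le
      have e6 : ‖(g x : ℂ)‖ * ‖(g x : ℂ) - tp c x‖ ≤ G * ε :=
        mul_le_mul e2 e1.le (norm_nonneg _) hG0
      linarith
    · exact (((continuous_tp c).mul (Complex.continuous_conj.comp (continuous_tp c))).mul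
        (continuous_ev P)).comp continuous_subtype_val
    · exact (((Complex.continuous_ofReal.comp hgc).mul (Complex.continuous_ofReal.comp hgc)).mul
        (continuous_ev P)).comp continuous_subtype_val
  have h6 := Complex.abs_re_le_norm
    (haarInt (ann Γ) (fun x : ann Γ => tp c x * (starRingEnd ℂ) (tp c x) * ev P x) - r)
  rw [Complex.sub_re, Complex.ofReal_re] at h6
  have h7 := abs_le.mp (h6.trans h5)
  linarith

end Pool.Agent.H506.TR
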