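import Pool.Agent.H506.PosSum

/-!
# The core of the theorem on sparse violations
-/

set_option autoImplicit false

namespace Pool.Agent.H506.SV

open Filter Topology Pool.Agent.H506.PS

variable {V : Type}

open scoped Classical in
/-- the coefficients `a(v, r)^k / (r + 1)` for `v ∈ W` -/
noncomputable def cf (a : V → ℕ → ℝ) (k : ℕ) (W : Set V) (x : V × ℕ) : ℝ :=
  if x.1 ∈ W then a x.1 x.2 ^ k / (x.2 + 1) else 0

theorem cf_nonneg {a : V → ℕ → ℝ} (ha : ∀ v r, 0 ≤ a v r) (k : ℕ) (W : Set V) (x : V × ℕ) :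
    0 ≤ cf a k W x := by
  unfold cf
  split_ifs
  · have := pow_nonneg (ha x.1 x.2) k
    positivity
  · exact le_rfl

theorem cf_notMem {a : V → ℕ → ℝ} {k : ℕ} {W : Set V} (v : V) (r : ℕ) (h : v ∉ W) :
    cf a k W (v, r) = 0 := by
  unfold cf
  rw [if_neg h]

theorem cf_mono {a : V → ℕ → ℝ} (ha : ∀ v r, 0 ≤ a v r) (k : ℕ) {W W' : Set V} (h : W ⊆ W')
    (x : V × ℕ) : cf a k W x ≤ cf a k W' x := by
  unfold cf
  by_cases h1 : x.1 ∈ W
  · rw [if_pos h1, if_pos (h h1)]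
  · rw [if_neg h1]
    exact cf_nonneg ha k W' x

theorem Conv.of_le {ι : Type} {c c' l : ι → ℝ} (hc : ∀ a, 0 ≤ c a) (h : ∀ a, c a ≤ c' a) {s : ℝ}
    (hs : Conv c' l s) : Conv c l s :=
  Summable.of_nonneg_of_le (fun a => mul_nonneg (hc a) (Real.exp_nonneg _))
    (fun a => mul_le_mul_of_nonneg_right (h a) (Real.exp_nonneg _)) hs

/-- `∑_{v, r} q_v^{-(r+1) t}` converges for `t > 1` -/
theorem summable_len {q : V → ℝ} (hq : ∀ v, 2 ≤ q v)
    (hsum : ∀ s : ℝ, 1 < s → Summable fun v => q v ^ (-s)) {t : ℝ} (ht : 1 < t) :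
    Summable fun x : V × ℕ => Real.exp (-(t * len q x)) := by
  rw [summable_prod_of_nonneg (fun x => Real.exp_nonneg _)]
  have hv : ∀ v : V, ∀ r : ℕ, Real.exp (-(t * len q (v, r))) =
      q v ^ (-t) * (q v ^ (-t)) ^ r := by
    intro v r
    have h0 : 0 < q v := by linarith [hq v]
    rw [← pow_succ', Real.rpow_def_of_pos h0, ← Real.exp_nat_mul]
    congr 1
    unfold len
    push_cast
    ring
  have hlt : ∀ v, q v ^ (-t) ≤ 1 / 2 := by
    intro v
    have h0 : 0 < q v := by linarith [hq v]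
    rw [Real.rpow_neg h0.le, one_div]
    refine inv_anti₀ (by norm_num) ?_
    calc (2 : ℝ) = 2 ^ (1 : ℝ) := (Real.rpow_one 2).symm
      _ ≤ 2 ^ t := Real.rpow_le_rpow_of_exponent_le (by norm_num) ht.le
      _ ≤ q v ^ t := Real.rpow_le_rpow (by norm_num) (hq v) (by linarith)
  have hnn : ∀ v, 0 ≤ q v ^ (-t) := fun v => Real.rpow_nonneg (by linarith [hq v]) _
  refine ⟨fun v => ?_, ?_⟩
  · simp_rw [hv v]
    exact (summable_geometric_of_lt_one (hnn v) (by linarith [hlt v])).mul_left _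
  · simp_rw [hv, tsum_mul_left]
    refine Summable.of_nonneg_of_le (fun v => ?_) (fun v => ?_) ((hsum t ht).mul_right 2)
    · refine mul_nonneg (hnn v) (tsum_nonneg fun r => pow_nonneg (hnn v) r)
    · rw [tsum_geometric_of_lt_one (hnn v) (by linarith [hlt v])]
      refine mul_le_mul_of_nonneg_left ?_ (hnn v)
      rw [inv_le_comm₀ (by linarith [hlt v]) (by norm_num)]
      linarith [hlt v]

theorem conv_of_bound {q : V → ℝ} (hq : ∀ v, 2 ≤ q v)
    (hsum : ∀ s : ℝ, 1 < s → Summable fun v => q v ^ (-s)) {c : V × ℕ → ℝ}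
    (hc : ∀ a, 0 ≤ c a) {N B : ℝ} (hcN : ∀ a, c a ≤ N * Real.exp (B * len q a)) {s : ℝ}
    (hs : B + 1 < s) : Conv c (len q) s := by
  have h1 := (summable_len hq hsum (t := s - B) (by linarith)).mul_left N
  refine Summable.of_nonneg_of_le (fun a => mul_nonneg (hc a) (Real.exp_nonneg _)) (fun a => ?_) h1
  refine (mul_le_mul_of_nonneg_right (hcN a) (Real.exp_nonneg _)).trans (le_of_eq ?_)
  rw [mul_assoc, ← Real.exp_add]
  congr 2
  ring

theorem len_tendsto {q : V → ℝ} (hq : ∀ v, 2 ≤ q v)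
    (hsum : ∀ s : ℝ, 1 < s → Summable fun v => q v ^ (-s)) :
    Tendsto (len q) cofinite atTop := by
  have h1 := (summable_len hq hsum (t := 2) (by norm_num)).tendsto_cofinite_zero
  rw [tendsto_atTop]
  intro B
  have h2 := h1.eventually (gt_mem_nhds (Real.exp_pos (-(2 * B))))
  filter_upwards [h2] with a ha
  have := Real.exp_lt_exp.mp ha
  linarith

theorem finite_le {q : V → ℝ} (hq : ∀ v, 2 ≤ q v)
    (hsum : ∀ s : ℝ, 1 < s → Summable fun v => q v ^ (-s)) (W : Set V) (x : ℝ) :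
    {v | v ∈ W ∧ q v ≤ x}.Finite := by
  have h1 := (hsum 2 (by norm_num)).tendsto_cofinite_zero
  have h2 : ∀ᶠ v in cofinite, x < q v := by
    rcases le_or_gt x 0 with hx | hx
    · exact Eventually.of_forall fun v => by linarith [hq v]
    · filter_upwards [h1.eventually (gt_mem_nhds (Real.rpow_pos_of_pos hx (-2)))] with v hv
      by_contra hcon
      have h0 : 0 < q v := by linarith [hq v]
      have := Real.rpow_le_rpow_of_nonpos h0 (not_lt.mp hcon) (show (-2 : ℝ) ≤ 0 by norm_num)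
      linarith
  refine Set.Finite.subset h2 fun v hv => ?_
  simpa using hv.2

theorem P_split {ι : Type} {c l : ι → ℝ} (κ : Type) [Fintype κ] (c' : κ → ι → ℝ)
    (hc : ∀ a, c a = ∑ i, c' i a) (hc' : ∀ i a, 0 ≤ c' i a) {s : ℂ} (h : Conv c l s.re) :
    P c l s = ∑ i, P (c' i) l s := by
  have hle : ∀ i a, c' i a ≤ c a := fun i a => by
    rw [hc a]
    exact Finset.single_le_sum (f := fun i => c' i a) (fun j _ => hc' j a) (Finset.mem_univ i)
  have hs : ∀ i, Summable fun a => (c' i a : ℂ) * Complex.exp (-((l a : ℂ) * s)) := fun i =>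
    Conv.summable (hc' i) (Conv.of_le (hc' i) (hle i) h)
  unfold P
  rw [← Summable.tsum_finsetSum fun i _ => hs i]
  refine tsum_congr fun a => ?_
  rw [hc a]
  push_cast
  rw [Finset.sum_mul]

/-- the data of the core theorem -/
structure Data (V : Type) where
  q : V → ℝ
  hq : ∀ v, 2 ≤ q v
  hsum : ∀ s : ℝ, 1 < s → Summable fun v => q v ^ (-s)
  a : V → ℕ → ℝ
  ha : ∀ v r, 0 ≤ a v r
  T : V → ℝ
  E : Set V
  Θ : ℝ
  η : ℝ
  N : ℝ
  b : ℝ
  hΘ : 0 < Θ
  hη : 0 < η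
  hN : 1 ≤ N
  hb : ∀ v r, a v r ≤ N * Real.exp (b * len q (v, r))
  hE : ∀ v ∈ E, ∀ r, |a v r - Real.exp (2 * T v * len q (v, r))| ≤
    N * Real.exp ((2 * T v - η) * len q (v, r))
  hnE : ∀ᶠ v in cofinite, v ∉ E → ∀ r, a v r ≤ N * Real.exp (2 * (Θ - η) * len q (v, r))
  hT1 : ∀ κ : ℝ, 0 < κ → ∀ᶠ v in cofinite, T v ≤ Θ + κ
  hT2 : ∀ κ : ℝ, 0 < κ → {v | v ∈ E ∧ Θ - κ < T v}.Infinite
  G : ℕ → V → ℂ → ℂ
  hG : ∀ k v, Differentiable ℂ (G k v)
  hGP : ∀ k, 1 ≤ k → ∀ v, ∃ s₀ : ℝ, ∀ s : ℂ, s₀ < s.re →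
    G k v s = Complex.exp (-P (cf a k {v}) (len q) s)
  hG0 : ∀ k, 1 ≤ k → ∀ v ∈ E, G k v ((2 * k * T v : ℝ) : ℂ) = 0
  K : ℕ
  hK : 1 ≤ K
  X : ℝ
  F : ℕ → ℂ → ℂ
  hF : ∀ k, K ≤ k → ∀ x : ℝ, X < x → MeromorphicAt (F k) (x : ℂ)
  hFP : ∀ k, K ≤ k → ∃ s₀ : ℝ, ∀ s : ℂ, s₀ < s.re →
    F k s = Complex.exp (P (cf a k Set.univ) (len q) s)

namespace Data

variable (D : Data V)

theorem countable (D : Data V) : Countable V := by
  have h1 := (D.hsum 2 (by norm_num)).countable_support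
  have h2 : Function.support (fun v => D.q v ^ (-(2 : ℝ))) = Set.univ := by
    ext v
    simp only [Function.mem_support, Set.mem_univ, iff_true]
    exact (Real.rpow_pos_of_pos (by linarith [D.hq v]) _).ne'
  rw [h2] at h1
  exact Set.countable_univ_iff.mp h1

theorem hlen (a : V × ℕ) : 0 ≤ len D.q a := len_nonneg D.hq a

/-- a bound for the coefficients from a bound of `a` -/
theorem cf_le {k : ℕ} {W : Set V} {N B : ℝ} (hN : 0 ≤ N)
    (h : ∀ v ∈ W, ∀ r, D.a v r ≤ N * Real.exp (B * len D.q (v, r))) (x : V × ℕ) :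
    cf D.a k W x ≤ N ^ k * Real.exp (k * B * len D.q x) := by
  unfold cf
  split_ifs with h1
  · have h2 := pow_le_pow_left₀ (D.ha x.1 x.2) (h x.1 h1 x.2) k
    have h3 : (N * Real.exp (B * len D.q (x.1, x.2))) ^ k =
        N ^ k * Real.exp (k * B * len D.q x) := by
      rw [mul_pow, ← Real.exp_nat_mul]
      congr 2
      ring
    rw [h3] at h2
    refine le_trans (div_le_self (pow_nonneg (D.ha _ _) k) ?_) h2
    have : (0 : ℝ) ≤ x.2 := Nat.cast_nonneg _
    linarith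
  · positivity

theorem conv_cf {k : ℕ} {W : Set V} {N B : ℝ} (hN : 0 ≤ N)
    (h : ∀ v ∈ W, ∀ r, D.a v r ≤ N * Real.exp (B * len D.q (v, r))) {s : ℝ}
    (hs : k * B + 1 < s) : Conv (cf D.a k W) (len D.q) s :=
  conv_of_bound D.hq D.hsum (cf_nonneg D.ha k W) (D.cf_le hN h) hs

/-- a continuation of `exp P` for subsets of `E` with finite complement in `E` -/
theorem continuation {k : ℕ} (hk : D.K ≤ k) {W : Set V} (hW : W ⊆ D.E) (hWE : (D.E \ W).Finite) :
    ∃ (S : Finset V) (H : ℂ → ℂ), D.E \ W ⊆ ↑S ∧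
      (∀ x : ℝ, 2 * k * (D.Θ - D.η) + 1 < x → AnalyticAt ℂ H (x : ℂ)) ∧
      (∃ s₀ : ℝ, ∀ s : ℂ, s₀ < s.re →
        D.F k s * (∏ v ∈ S, D.G k v s) * H s = Complex.exp (P (cf D.a k W) (len D.q) s)) := by
  classical
  have hex : {v | ¬(v ∉ D.E → ∀ r, D.a v r ≤ D.N * Real.exp (2 * (D.Θ - D.η) * len D.q (v, r)))}.Finite :=
    D.hnE
  set S : Finset V := (hWE.union hex).toFinset with hS
  have hSm : ∀ v, v ∈ S ↔ v ∈ D.E \ W ∨
      ¬(v ∉ D.E → ∀ r, D.a v r ≤ D.N * Real.exp (2 * (D.Θ - D.η) * len D.q (v, r))) := by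
    intro v
    rw [hS, Set.Finite.mem_toFinset]
    rfl
  have hSW : ∀ v ∈ S, v ∉ W := by
    intro v hv hvW
    rcases (hSm v).mp hv with h1 | h1
    · exact h1.2 hvW
    · apply h1
      intro h2
      exact absurd (hW hvW) h2
  set U : Set V := {v | v ∉ W ∧ v ∉ S} with hU
  have hUb : ∀ v ∈ U, ∀ r, D.a v r ≤ D.N * Real.exp (2 * (D.Θ - D.η) * len D.q (v, r)) := by
    intro v hv
    have h1 : v ∉ S := hv.2
    rw [hSm, not_or, not_not] at h1
    refine h1.2 fun h2 => h1.1 ⟨h2, hv.1⟩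
  have hN0 : 0 ≤ D.N := by linarith [D.hN]
  have hUconv : ∀ s : ℝ, 2 * k * (D.Θ - D.η) + 1 < s → Conv (cf D.a k U) (len D.q) s := by
    intro s hs
    refine D.conv_cf hN0 hUb ?_
    linarith
  have hUan := analytic (cf_nonneg D.ha k U) D.hlen hUconv
  refine ⟨S, fun s => Complex.exp (-P (cf D.a k U) (len D.q) s), ?_, ?_, ?_⟩
  · intro v hv
    exact (hSm v).mpr (Or.inl hv)
  · intro x hx
    exact (hUan x (by simpa using hx)).neg.cexp
  · obtain ⟨s₁, hs₁⟩ := D.hFP k hk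
    choose t ht using fun v => D.hGP k (D.hK.trans hk) v
    obtain ⟨t₀, ht₀⟩ : ∃ t₀ : ℝ, ∀ v ∈ S, t v ≤ t₀ := by
      refine ⟨∑ v ∈ S, |t v|, fun v hv => ?_⟩
      exact (le_abs_self _).trans
        (Finset.single_le_sum (f := fun v => |t v|) (fun w _ => abs_nonneg _) hv)
    refine ⟨max (max s₁ t₀) (k * D.b + 1), fun s hs => ?_⟩
    have e1 : s₁ < s.re := lt_of_le_of_lt ((le_max_left _ _).trans (le_max_left _ _)) hs
    have e2 : t₀ < s.re := lt_of_le_of_lt ((le_max_right _ _).trans (le_max_left _ _)) hs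
    have e3 : k * D.b + 1 < s.re := lt_of_le_of_lt (le_max_right _ _) hs
    have hconv : Conv (cf D.a k Set.univ) (len D.q) s.re :=
      D.conv_cf hN0 (fun v _ => D.hb v) e3
    -- the decomposition
    have hdec : P (cf D.a k Set.univ) (len D.q) s =
        ∑ i : Option (Option S), P (fun a => match i with
          | none => cf D.a k W a
          | some none => cf D.a k U a
          | some (some v) => cf D.a k {v.1} a) (len D.q) s := by
      refine P_split (Option (Option S)) _ (fun a => ?_) (fun i a => ?_) hconv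
      · rw [Fintype.sum_option, Fintype.sum_option]
        have hsumS : ∑ v : S, cf D.a k {v.1} a = ∑ v ∈ S, cf D.a k {v} a := by
          rw [← Finset.sum_coe_sort S fun v => cf D.a k {v} a]
        simp only
        rw [hsumS]
        by_cases h1 : a.1 ∈ W
        · have h2 : a.1 ∉ U := fun h => h.1 h1
          have h3 : ∑ v ∈ S, cf D.a k {v} a = 0 := by
            refine Finset.sum_eq_zero fun v hv => ?_
            unfold cf
            rw [if_neg]
            intro h4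
            have h5 : a.1 = v := h4
            exact hSW v hv (h5 ▸ h1)
          rw [h3]
          unfold cf
          rw [if_pos (Set.mem_univ _), if_pos h1, if_neg h2]
          ring
        · by_cases h2 : a.1 ∈ S
          · have h4 : a.1 ∉ U := fun h => h.2 h2
            rw [Finset.sum_eq_single a.1]
            · unfold cf
              rw [if_pos (Set.mem_univ _), if_neg h1, if_neg h4, if_pos (Set.mem_singleton _)]
              ring
            · intro v _ hv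
              unfold cf
              rw [if_neg]
              intro h5
              exact hv (Set.mem_singleton_iff.mp h5).symm
            · intro h5
              exact absurd h2 h5
          · have h4 : a.1 ∈ U := ⟨h1, h2⟩
            have h3 : ∑ v ∈ S, cf D.a k {v} a = 0 := by
              refine Finset.sum_eq_zero fun v hv => ?_
              unfold cf
              rw [if_neg]
              intro h6
              have h5 : a.1 = v := h6
              exact h2 (h5 ▸ hv)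
            rw [h3]
            unfold cf
            rw [if_pos (Set.mem_univ _), if_neg h1, if_pos h4]
            ring
      · rcases i with _ | _ | v
        · exact cf_nonneg D.ha k _ a
        · exact cf_nonneg D.ha k _ a
        · exact cf_nonneg D.ha k _ a
    rw [Fintype.sum_option, Fintype.sum_option] at hdec
    have hdec' : P (cf D.a k Set.univ) (len D.q) s = P (cf D.a k W) (len D.q) s +
        (P (cf D.a k U) (len D.q) s + ∑ v ∈ S, P (cf D.a k {v}) (len D.q) s) := by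
      rw [hdec, ← Finset.sum_coe_sort S fun v => P (cf D.a k {v}) (len D.q) s]
    have hGprod : ∏ v ∈ S, D.G k v s = Complex.exp (-∑ v ∈ S, P (cf D.a k {v}) (len D.q) s) := by
      rw [← Finset.sum_neg_distrib, Complex.exp_sum]
      exact Finset.prod_congr rfl fun v hv => ht v s (lt_of_le_of_lt (ht₀ v hv) e2)
    rw [hs₁ s e1, hGprod, hdec', ← Complex.exp_add, ← Complex.exp_add]
    congr 1
    ring

/-- the bound for `a` on `E` -/
theorem a_le (v : V) (hv : v ∈ D.E) (r : ℕ) :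
    D.a v r ≤ (D.N + 1) * Real.exp (2 * D.T v * len D.q (v, r)) := by
  have h1 := (abs_le.mp (D.hE v hv r)).2
  have h2 : Real.exp ((2 * D.T v - D.η) * len D.q (v, r)) ≤
      Real.exp (2 * D.T v * len D.q (v, r)) := by
    refine Real.exp_le_exp.mpr ?_
    have := mul_nonneg D.hη.le (D.hlen (v, r))
    linarith
  have h3 := mul_le_mul_of_nonneg_left h2 (show 0 ≤ D.N by linarith [D.hN])
  linarith

/-- the numbers of elements of `E` up to `x` are small for arbitrarily large `x` -/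
def Sparse : Prop :=
  ∀ e : ℝ, 0 < e → ∃ᶠ x : ℝ in atTop, ({v | v ∈ D.E ∧ D.q v ≤ x}.ncard : ℝ) < x ^ e

theorem meromorphic {k : ℕ} (hk : D.K ≤ k) (hk2 : D.X < 2 * k * D.Θ)
    (hk1 : 2 * k * (D.Θ - D.η) + 1 < 2 * k * D.Θ) {S : Finset V} {H : ℂ → ℂ}
    (hH : ∀ x : ℝ, 2 * k * (D.Θ - D.η) + 1 < x → AnalyticAt ℂ H (x : ℂ)) (x : ℝ)
    (hx : 2 * k * D.Θ ≤ x) :
    MeromorphicAt (fun s => D.F k s * (∏ v ∈ S, D.G k v s) * H s) (x : ℂ) := by
  refine ((D.hF k hk x (by linarith)).mul ?_).mul (hH x (by linarith)).meromorphicAt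
  have h1 : Differentiable ℂ fun s => ∏ v ∈ S, D.G k v s :=
    Differentiable.fun_finsetProd fun v _ => D.hG k v
  exact (h1.analyticAt (x : ℂ)).meromorphicAt

theorem conv_of_sparse (hsp : D.Sparse) {k : ℕ} (hk : D.K ≤ k) (hk2 : D.X < 2 * k * D.Θ)
    (hk1 : 2 * k * (D.Θ - D.η) + 1 < 2 * k * D.Θ) {W : Set V} (hW : W ⊆ D.E)
    (hWE : (D.E \ W).Finite) {B : ℝ} (hB : 2 * k * D.Θ ≤ B) (hWB : ∀ v ∈ W, 2 * k * D.T v ≤ B)
    {s : ℝ} (hs : B < s) : Conv (cf D.a k W) (len D.q) s := by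
  by_contra hcon
  obtain ⟨S, H, -, hH, hFP⟩ := D.continuation hk hW hWE
  have := D.countable
  have hk0 : (0 : ℝ) < k := by exact_mod_cast D.hK.trans hk
  have hN0 : 0 ≤ D.N + 1 := by linarith [D.hN]
  have hWb : ∀ v ∈ W, ∀ r, D.a v r ≤ (D.N + 1) * Real.exp (B / k * len D.q (v, r)) := by
    intro v hv r
    refine (D.a_le v (hW hv) r).trans (mul_le_mul_of_nonneg_left (Real.exp_le_exp.mpr ?_) hN0)
    refine mul_le_mul_of_nonneg_right ?_ (D.hlen _)
    rw [le_div_iff₀ hk0]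
    have := hWB v hv
    linarith
  have hcb : ∀ a, cf D.a k W a ≤ (D.N + 1) ^ k * Real.exp (B * len D.q a) := by
    intro a
    have h1 := D.cf_le (k := k) hN0 hWb a
    have h2 : (k : ℝ) * (B / k) = B := by field_simp
    rwa [h2] at h1
  obtain ⟨e, he, hx⟩ := divergent_count D.hq (finite_le D.hq D.hsum W) (cf_nonneg D.ha k W)
    (fun v r hv => cf_notMem v r hv) hcb
    (fun x hx => D.meromorphic hk hk2 hk1 hH x (hB.trans hx.le)) hFP
    (conv_of_bound D.hq D.hsum (cf_nonneg D.ha k W) hcb (show B + 1 < B + 2 by linarith)) hs hcon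
  obtain ⟨x, hx1, hx2⟩ := ((hsp e he).and_eventually hx).exists
  have h3 : ({v | v ∈ W ∧ D.q v ≤ x}.ncard : ℝ) ≤ ({v | v ∈ D.E ∧ D.q v ≤ x}.ncard : ℝ) := by
    have h4 : {v | v ∈ W ∧ D.q v ≤ x} ⊆ {v | v ∈ D.E ∧ D.q v ≤ x} := fun v hv => ⟨hW hv.1, hv.2⟩
    exact_mod_cast Set.ncard_le_ncard h4 (finite_le D.hq D.hsum D.E x)
  linarith

/-- only finitely many elements of `E` have `T v > Θ` -/
theorem finite_gt (hsp : D.Sparse) {k : ℕ} (hk : D.K ≤ k) (hk2 : D.X < 2 * k * D.Θ)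
    (hk1 : 2 * k * (D.Θ - D.η) + 1 < 2 * k * D.Θ) : {v | v ∈ D.E ∧ D.Θ < D.T v}.Finite := by
  by_contra hinf
  have hk0 : (0 : ℝ) < k := by exact_mod_cast D.hK.trans hk
  set s₀ : ℝ := 2 * k * D.Θ with hs₀
  have h1 := (D.hF k hk s₀ hk2).eventually_analyticAt
  rw [eventually_nhdsWithin_iff, Metric.eventually_nhds_iff] at h1
  obtain ⟨ρ, hρ, h1⟩ := h1
  have h2 := D.hT1 (ρ / (4 * k)) (by positivity)
  obtain ⟨v, hv1, hv2⟩ : ∃ v, (v ∈ D.E ∧ D.Θ < D.T v) ∧ D.T v ≤ D.Θ + ρ / (4 * k) := by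
    by_contra hcon
    push Not at hcon
    refine hinf (Set.Finite.subset (show {v | ¬(D.T v ≤ D.Θ + ρ / (4 * k))}.Finite from h2) ?_)
    intro v hv
    exact not_le.mpr (hcon v hv)
  set s₁ : ℝ := 2 * k * D.T v with hs₁
  have hlt : s₀ < s₁ := by
    rw [hs₀, hs₁]
    exact mul_lt_mul_of_pos_left hv1.2 (by positivity)
  have hclose : s₁ ≤ s₀ + ρ / 2 := by
    have h3 := mul_le_mul_of_nonneg_left hv2 (show (0 : ℝ) ≤ 2 * k by positivity)
    have h4 : 2 * (k : ℝ) * (D.Θ + ρ / (4 * k)) = s₀ + ρ / 2 := by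
      rw [hs₀]
      field_simp
      ring
    rw [h4] at h3
    exact h3
  have han : AnalyticAt ℂ (D.F k) (s₁ : ℂ) := by
    refine h1 ?_ ?_
    · rw [Complex.dist_eq, ← Complex.ofReal_sub, Complex.norm_real, Real.norm_of_nonneg (by linarith)]
      linarith
    · simp only [Set.mem_compl_iff, Set.mem_singleton_iff, Complex.ofReal_inj]
      exact hlt.ne'
  set B : ℝ := (s₀ + s₁) / 2 with hB
  set W : Set V := {w | w ∈ D.E ∧ 2 * k * D.T w ≤ B} with hW
  have hWE : (D.E \ W).Finite := by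
    have h3 := D.hT1 ((B - s₀) / (2 * k)) (by
      have : 0 < B - s₀ := by rw [hB]; linarith
      positivity)
    refine Set.Finite.subset (show {w | ¬(D.T w ≤ D.Θ + (B - s₀) / (2 * k))}.Finite from h3) ?_
    intro w hw hw'
    apply hw.2
    refine ⟨hw.1, ?_⟩
    have h4 := mul_le_mul_of_nonneg_left hw' (show (0 : ℝ) ≤ 2 * k by positivity)
    have h5 : 2 * (k : ℝ) * (D.Θ + (B - s₀) / (2 * k)) = B := by
      rw [hs₀]
      field_simp
      ring
    rwa [h5] at h4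
  have hBs : s₀ ≤ B := by rw [hB]; linarith
  have hconv : ∀ s : ℝ, B < s → Conv (cf D.a k W) (len D.q) s := fun s hs =>
    D.conv_of_sparse hsp hk hk2 hk1 (fun w hw => hw.1) hWE hBs (fun w hw => hw.2) hs
  obtain ⟨S, H, hS, hH, hFP⟩ := D.continuation hk (W := W) (fun w hw => hw.1) hWE
  have hBlt : B < s₁ := by rw [hB]; linarith
  have h6 := ident (cf_nonneg D.ha k W) D.hlen hconv
    (fun x hx => D.meromorphic hk hk2 hk1 hH x (hBs.trans hx.le)) hFP s₁ hBlt
  have hvS : v ∈ S := by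
    have : v ∈ D.E \ W := ⟨hv1.1, fun h => by
      have h7 : s₁ ≤ B := h.2
      linarith⟩
    exact_mod_cast hS this
  have hprod : Differentiable ℂ fun s => ∏ v ∈ S, D.G k v s :=
    Differentiable.fun_finsetProd fun v _ => D.hG k v
  have hcont : ContinuousAt (fun s => D.F k s * (∏ v ∈ S, D.G k v s) * H s) (s₁ : ℂ) :=
    (han.continuousAt.mul hprod.continuous.continuousAt).mul
      (hH s₁ (by linarith)).continuousAt
  have h8 := eq_of_punctured hcont
    ((analytic (cf_nonneg D.ha k W) D.hlen hconv) s₁ (by simpa using hBlt)).cexp.continuousAt h6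
  have h9 : ∏ v ∈ S, D.G k v s₁ = 0 := Finset.prod_eq_zero hvS (D.hG0 k (D.hK.trans hk) v hv1.1)
  rw [h9, mul_zero, zero_mul] at h8
  exact Complex.exp_ne_zero _ h8.symm

open scoped Classical in
/-- the main terms -/
noncomputable def tf (k : ℕ) (W : Set V) (x : V × ℕ) : ℝ :=
  if x.1 ∈ W then Real.exp (2 * k * D.T x.1 * len D.q x) / (x.2 + 1) else 0

open scoped Classical in
/-- the error terms -/
noncomputable def df (k : ℕ) (W : Set V) (x : V × ℕ) : ℝ :=
  if x.1 ∈ W then D.N * k * (D.N + 1) ^ (k - 1) * Real.exp ((2 * k * D.T x.1 - D.η) * len D.q x) else 0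

theorem tf_nonneg (k : ℕ) (W : Set V) (x : V × ℕ) : 0 ≤ D.tf k W x := by
  unfold tf
  split_ifs
  · positivity
  · exact le_rfl

theorem df_nonneg (k : ℕ) (W : Set V) (x : V × ℕ) : 0 ≤ D.df k W x := by
  have : 0 ≤ D.N := by linarith [D.hN]
  unfold df
  split_ifs
  · positivity
  · exact le_rfl

theorem diff_le {k : ℕ} (hk : 1 ≤ k) {W : Set V} (hW : W ⊆ D.E) (x : V × ℕ) :
    |cf D.a k W x - D.tf k W x| ≤ D.df k W x := by
  have hN := D.hN
  unfold cf tf df
  by_cases h1 : x.1 ∈ W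
  · rw [if_pos h1, if_pos h1, if_pos h1]
    set b : ℝ := Real.exp (2 * D.T x.1 * len D.q x) with hb
    have hb0 : 0 < b := Real.exp_pos _
    have e1 : Real.exp (2 * k * D.T x.1 * len D.q x) = b ^ k := by
      rw [hb, ← Real.exp_nat_mul]
      congr 1
      ring
    rw [e1, ← sub_div, abs_div, abs_of_pos (show (0 : ℝ) < x.2 + 1 by positivity)]
    have h2 := abs_pow_sub_pow_le (D.a x.1 x.2) b k
    have h3 := D.hE x.1 (hW h1) x.2
    have h4 := D.a_le x.1 (hW h1) x.2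
    have h5 : max |D.a x.1 x.2| |b| ≤ (D.N + 1) * b := by
      rw [abs_of_nonneg (D.ha _ _), abs_of_pos hb0]
      refine max_le h4 ?_
      nlinarith
    have h6 : max |D.a x.1 x.2| |b| ^ (k - 1) ≤ ((D.N + 1) * b) ^ (k - 1) :=
      pow_le_pow_left₀ (le_max_of_le_left (abs_nonneg _)) h5 _
    have h7 : |D.a x.1 x.2 - b| * k * max |D.a x.1 x.2| |b| ^ (k - 1) ≤
        (D.N * Real.exp ((2 * D.T x.1 - D.η) * len D.q x)) * k * ((D.N + 1) * b) ^ (k - 1) := by
      refine mul_le_mul (mul_le_mul_of_nonneg_right h3 (Nat.cast_nonneg k)) h6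
        (by positivity) ?_
      positivity
    have h8 : (D.N * Real.exp ((2 * D.T x.1 - D.η) * len D.q x)) * k * ((D.N + 1) * b) ^ (k - 1) =
        D.N * k * (D.N + 1) ^ (k - 1) * Real.exp ((2 * k * D.T x.1 - D.η) * len D.q x) := by
      have h9 : Real.exp ((2 * k * D.T x.1 - D.η) * len D.q x) =
          Real.exp ((2 * D.T x.1 - D.η) * len D.q x) * b ^ (k - 1) := by
        rw [hb, ← Real.exp_nat_mul, ← Real.exp_add]
        congr 1
        rw [Nat.cast_sub hk]
        push_cast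
        ring
      rw [h9, mul_pow]
      ring
    rw [← h8]
    refine le_trans (div_le_self (abs_nonneg _) ?_) (h2.trans h7)
    have : (0 : ℝ) ≤ x.2 := Nat.cast_nonneg _
    linarith
  · rw [if_neg h1, if_neg h1, if_neg h1]
    simp

theorem lower {k : ℕ} {W : Set V} (hW : W ⊆ D.E) :
    ∀ᶠ x : V × ℕ in cofinite, x.1 ∈ W →
      Real.exp (2 * k * D.T x.1 * len D.q x) ≤ 2 ^ k * ((x.2 + 1) * cf D.a k W x) := by
  have h1 : Tendsto (fun x => D.N * Real.exp (-(D.η * len D.q x))) cofinite (𝓝 0) := by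
    have h2 : Tendsto (fun x => D.η * len D.q x) cofinite atTop :=
      (len_tendsto D.hq D.hsum).const_mul_atTop D.hη
    have h3 := (Real.tendsto_exp_neg_atTop_nhds_zero.comp h2).const_mul D.N
    simpa using h3
  filter_upwards [h1.eventually (gt_mem_nhds (show (0 : ℝ) < 1 / 2 by norm_num))] with x hx hxW
  set b : ℝ := Real.exp (2 * D.T x.1 * len D.q x) with hb
  have hb0 : 0 < b := Real.exp_pos _
  have e1 : Real.exp (2 * k * D.T x.1 * len D.q x) = b ^ k := by
    rw [hb, ← Real.exp_nat_mul]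
    congr 1
    ring
  have h3 := (abs_le.mp (D.hE x.1 (hW hxW) x.2)).1
  have h4 : D.N * Real.exp ((2 * D.T x.1 - D.η) * len D.q (x.1, x.2)) =
      b * (D.N * Real.exp (-(D.η * len D.q x))) := by
    have : Real.exp ((2 * D.T x.1 - D.η) * len D.q (x.1, x.2)) =
        b * Real.exp (-(D.η * len D.q x)) := by
      rw [hb, ← Real.exp_add]
      congr 1
      ring
    rw [this]
    ring
  have h5 : b ≤ 2 * D.a x.1 x.2 := by
    have h6 := mul_lt_mul_of_pos_left hx hb0
    have h7 : Real.exp (2 * D.T x.1 * len D.q (x.1, x.2)) = b := rfl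
    rw [h4, h7] at h3
    linarith
  rw [e1]
  unfold cf
  rw [if_pos hxW]
  have h8 : ((x.2 : ℝ) + 1) * (D.a x.1 x.2 ^ k / (x.2 + 1)) = D.a x.1 x.2 ^ k := by
    field_simp
  rw [h8, ← mul_pow]
  exact pow_le_pow_left₀ hb0.le h5 k

theorem mul_exp_neg_le {c x : ℝ} (hc : 0 < c) : x * Real.exp (-(c * x)) ≤ 1 / c := by
  have h1 : c * x ≤ Real.exp (c * x) := by
    have := Real.add_one_le_exp (c * x)
    linarith
  rw [Real.exp_neg, ← div_eq_mul_inv, div_le_div_iff₀ (Real.exp_pos _) hc]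
  linarith

theorem conv_df {k : ℕ} {W : Set V} (hW : W ⊆ D.E)
    (hconv : Conv (cf D.a k W) (len D.q) (2 * k * D.Θ + D.η / 2)) :
    Conv (D.df k W) (len D.q) (2 * k * D.Θ) := by
  have hη := D.hη
  have hN : 0 ≤ D.N := by linarith [D.hN]
  have hlog2 : 0 < Real.log 2 := Real.log_pos (by norm_num)
  set c : ℝ := D.η / 2 * Real.log 2 with hc
  have hc0 : 0 < c := by positivity
  set C : ℝ := D.N * k * (D.N + 1) ^ (k - 1) with hC
  have hC0 : 0 ≤ C := by positivity
  refine Summable.of_norm_bounded_eventually (g := fun x => C * (2 ^ k * (1 / c)) *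
    (cf D.a k W x * Real.exp (-(len D.q x * (2 * k * D.Θ + D.η / 2))))) (hconv.mul_left _) ?_
  filter_upwards [D.lower (k := k) hW] with x hx
  rw [Real.norm_of_nonneg (mul_nonneg (D.df_nonneg k W x) (Real.exp_nonneg _))]
  by_cases h1 : x.1 ∈ W
  · have h2 := hx h1
    have h3 : D.df k W x = C * Real.exp ((2 * k * D.T x.1 - D.η) * len D.q x) := by
      unfold df
      rw [if_pos h1]
    rw [h3]
    have h4 : C * Real.exp ((2 * k * D.T x.1 - D.η) * len D.q x) *
        Real.exp (-(len D.q x * (2 * k * D.Θ))) = C * (Real.exp (2 * k * D.T x.1 * len D.q x) *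
        (Real.exp (-(D.η / 2 * len D.q x)) *
          Real.exp (-(len D.q x * (2 * k * D.Θ + D.η / 2))))) := by
      rw [← Real.exp_add, ← Real.exp_add, mul_assoc, ← Real.exp_add]
      congr 2
      ring
    rw [h4, mul_assoc C]
    refine mul_le_mul_of_nonneg_left ?_ hC0
    have h5 : Real.exp (-(D.η / 2 * len D.q x)) ≤ Real.exp (-(c * (x.2 + 1))) := by
      refine Real.exp_le_exp.mpr ?_
      have h6 : Real.log 2 ≤ Real.log (D.q x.1) := Real.log_le_log (by norm_num) (D.hq x.1)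
      have h7 : (x.2 + 1) * Real.log 2 ≤ len D.q x := by
        unfold len
        exact mul_le_mul_of_nonneg_left h6 (by positivity)
      have h8 := mul_le_mul_of_nonneg_left h7 (show 0 ≤ D.η / 2 by positivity)
      rw [hc]
      linarith
    have h6 : ((x.2 : ℝ) + 1) * Real.exp (-(c * (x.2 + 1))) ≤ 1 / c := mul_exp_neg_le hc0
    have hcf := cf_nonneg D.ha k W x
    calc Real.exp (2 * k * D.T x.1 * len D.q x) * (Real.exp (-(D.η / 2 * len D.q x)) *
          Real.exp (-(len D.q x * (2 * k * D.Θ + D.η / 2))))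
        ≤ (2 ^ k * ((x.2 + 1) * cf D.a k W x)) * (Real.exp (-(c * (x.2 + 1))) *
          Real.exp (-(len D.q x * (2 * k * D.Θ + D.η / 2)))) :=
          mul_le_mul h2 (mul_le_mul_of_nonneg_right h5 (Real.exp_nonneg _)) (by positivity)
            (by positivity)
      _ = (2 ^ k * (((x.2 : ℝ) + 1) * Real.exp (-(c * (x.2 + 1))))) * (cf D.a k W x *
          Real.exp (-(len D.q x * (2 * k * D.Θ + D.η / 2)))) := by ring
      _ ≤ (2 ^ k * (1 / c)) * (cf D.a k W x *
          Real.exp (-(len D.q x * (2 * k * D.Θ + D.η / 2)))) := by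
          refine mul_le_mul_of_nonneg_right ?_ (mul_nonneg hcf (Real.exp_nonneg _))
          exact mul_le_mul_of_nonneg_left h6 (by positivity)
  · have h3 : D.df k W x = 0 := by
      unfold df
      rw [if_neg h1]
    rw [h3, zero_mul]
    have hcf := cf_nonneg D.ha k W x
    positivity

theorem conv_tf {k : ℕ} (hk : 1 ≤ k) {W : Set V} (hW : W ⊆ D.E) {s : ℝ}
    (h1 : Conv (cf D.a k W) (len D.q) s) (h2 : Conv (D.df k W) (len D.q) s) :
    Conv (D.tf k W) (len D.q) s := by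
  refine Conv.of_le (c' := fun x => cf D.a k W x + D.df k W x) (D.tf_nonneg k W) (fun x => ?_) ?_
  · have := (abs_le.mp (D.diff_le hk hW x)).1
    linarith
  · have h3 := Summable.add h1 h2
    unfold Conv
    refine h3.congr fun x => ?_
    ring

theorem R_diff {k : ℕ} (hk : 1 ≤ k) {W : Set V} (hW : W ⊆ D.E) {s : ℝ}
    (h1 : Conv (cf D.a k W) (len D.q) s) (h2 : Conv (D.df k W) (len D.q) s) :
    |R (cf D.a k W) (len D.q) s - R (D.tf k W) (len D.q) s| ≤ R (D.df k W) (len D.q) s := by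
  have h3 := D.conv_tf hk hW h1 h2
  unfold R
  unfold Conv at h1 h2 h3
  rw [← h1.tsum_sub h3]
  have h4 : ∀ x, |cf D.a k W x * Real.exp (-(len D.q x * s)) -
      D.tf k W x * Real.exp (-(len D.q x * s))| ≤ D.df k W x * Real.exp (-(len D.q x * s)) := by
    intro x
    rw [← sub_mul, abs_mul, abs_of_nonneg (Real.exp_nonneg _)]
    exact mul_le_mul_of_nonneg_right (D.diff_le hk hW x) (Real.exp_nonneg _)
  have h5 : Summable fun x => |cf D.a k W x * Real.exp (-(len D.q x * s)) -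
      D.tf k W x * Real.exp (-(len D.q x * s))| :=
    Summable.of_nonneg_of_le (fun x => abs_nonneg _) h4 h2
  refine (h5.tsum_le_tsum h4 h2).trans' ?_
  exact norm_tsum_le_tsum_norm (f := fun x => cf D.a k W x * Real.exp (-(len D.q x * s)) -
      D.tf k W x * Real.exp (-(len D.q x * s))) h5

theorem R_anti {ι : Type} {c l : ι → ℝ} (hc : ∀ a, 0 ≤ c a) (hl : ∀ a, 0 ≤ l a) {s s' : ℝ}
    (h : Conv c l s) (hs : s ≤ s') : R c l s' ≤ R c l s := by
  unfold R
  refine (Conv.mono hc hl h hs).tsum_le_tsum (fun a => ?_) h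
  refine mul_le_mul_of_nonneg_left (Real.exp_le_exp.mpr ?_) (hc a)
  have := mul_le_mul_of_nonneg_left hs (hl a)
  linarith

theorem tendsto_add_right (σ : ℝ) : Tendsto (fun s : ℝ => σ + s) (𝓝[>] 0) (𝓝[>] σ) := by
  refine tendsto_nhdsWithin_iff.mpr ⟨?_, ?_⟩
  · have : Tendsto (fun s : ℝ => σ + s) (𝓝 0) (𝓝 (σ + 0)) := (continuous_const_add σ).tendsto 0
    rw [add_zero] at this
    exact this.mono_left nhdsWithin_le_nhds
  · filter_upwards [self_mem_nhdsWithin] with s hs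
    have hs' : (0 : ℝ) < s := hs
    exact lt_add_of_pos_right σ hs'

/-- the behaviour of the main terms at `2 k Θ` -/
theorem asymptotic (hsp : D.Sparse) {k : ℕ} (hk : D.K ≤ k) (hk2 : D.X < 2 * k * D.Θ)
    (hk1 : 2 * k * (D.Θ - D.η) + 1 < 2 * k * D.Θ) {W : Set V} (hW : W ⊆ D.E)
    (hWE : (D.E \ W).Finite) (hWT : ∀ v ∈ W, D.T v ≤ D.Θ) :
    (∀ s : ℝ, 0 < s → Conv (D.tf k W) (len D.q) (2 * k * D.Θ + s)) ∧
    ∃ M : ℕ, (∃ C : ℝ, ∀ᶠ s : ℝ in 𝓝[>] 0,
      |R (D.tf k W) (len D.q) (2 * k * D.Θ + s) - M * Real.log (1 / s)| ≤ C) ∧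
      (M = 0 → ∃ s < 2 * k * D.Θ, Conv (cf D.a k W) (len D.q) s) := by
  have := D.countable
  have hη := D.hη
  have hWB : ∀ v ∈ W, 2 * k * D.T v ≤ 2 * k * D.Θ := fun v hv =>
    mul_le_mul_of_nonneg_left (hWT v hv) (by positivity)
  have hconv : ∀ s : ℝ, 2 * k * D.Θ < s → Conv (cf D.a k W) (len D.q) s := fun s hs =>
    D.conv_of_sparse hsp hk hk2 hk1 hW hWE le_rfl hWB hs
  obtain ⟨S, H, -, hH, hFP⟩ := D.continuation hk hW hWE
  have hF := D.meromorphic hk hk2 hk1 hH (S := S)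
  obtain ⟨M, ⟨C, hM⟩, hM0⟩ := pole (cf_nonneg D.ha k W) D.hlen hconv (hF _ le_rfl)
    (ident_right (cf_nonneg D.ha k W) D.hlen hconv hF hFP)
  have hdf := D.conv_df (k := k) hW (hconv _ (by linarith))
  have hdf' : ∀ s : ℝ, 0 ≤ s → Conv (D.df k W) (len D.q) (2 * k * D.Θ + s) := fun s hs =>
    Conv.mono (D.df_nonneg k W) D.hlen hdf (by linarith)
  have hk' := D.hK.trans hk
  refine ⟨fun s hs => D.conv_tf hk' hW (hconv _ (by linarith)) (hdf' s hs.le), M,
    ⟨C + R (D.df k W) (len D.q) (2 * k * D.Θ), ?_⟩, hM0⟩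
  filter_upwards [(tendsto_add_right (2 * k * D.Θ)).eventually hM, self_mem_nhdsWithin] with s h1 h2
  have hs : (0 : ℝ) < s := h2
  have h3 : 2 * (k : ℝ) * D.Θ + s - 2 * k * D.Θ = s := by ring
  rw [h3] at h1
  have h4 := D.R_diff hk' hW (hconv (2 * k * D.Θ + s) (by linarith)) (hdf' s hs.le)
  have h5 := R_anti (D.df_nonneg k W) D.hlen hdf (show 2 * k * D.Θ ≤ 2 * k * D.Θ + s by linarith)
  rw [abs_le] at h1 h4 ⊢
  constructor
  · linarith [h1.1, h4.2]
  · linarith [h1.2, h4.1]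

open scoped Classical in
/-- the terms of the main sums -/
noncomputable def y (k : ℕ) (W : Set V) (s : ℝ) (v : V) : ℝ :=
  if v ∈ W then Real.exp (-((2 * k * (D.Θ - D.T v) + s) * Real.log (D.q v))) else 0

theorem y_nonneg (k : ℕ) (W : Set V) (s : ℝ) (v : V) : 0 ≤ D.y k W s v := by
  unfold y
  split_ifs
  · positivity
  · exact le_rfl

theorem log_pos (v : V) : 0 < Real.log (D.q v) := Real.log_pos (by linarith [D.hq v])

theorem y_lt_one {k : ℕ} {W : Set V} (hWT : ∀ v ∈ W, D.T v ≤ D.Θ) {s : ℝ} (hs : 0 < s) (v : V) :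
    D.y k W s v < 1 := by
  unfold y
  split_ifs with h
  · rw [Real.exp_lt_one_iff]
    have h1 := hWT v h
    have h2 : 0 ≤ 2 * (k : ℝ) * (D.Θ - D.T v) := mul_nonneg (by positivity) (by linarith)
    have := mul_pos (show 0 < 2 * (k : ℝ) * (D.Θ - D.T v) + s by linarith) (D.log_pos v)
    linarith
  · norm_num

theorem tf_eq (k : ℕ) (W : Set V) (s : ℝ) (v : V) (r : ℕ) :
    D.tf k W (v, r) * Real.exp (-(len D.q (v, r) * (2 * k * D.Θ + s))) =
      D.y k W s v ^ (r + 1) / (r + 1) := by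
  unfold tf y
  by_cases h : v ∈ W
  · rw [if_pos h, if_pos h, div_mul_eq_mul_div, ← Real.exp_add, ← Real.exp_nat_mul]
    congr 2
    unfold len
    push_cast
    ring
  · rw [if_neg h, if_neg h]
    simp

theorem R_tf {k : ℕ} {W : Set V} (hWT : ∀ v ∈ W, D.T v ≤ D.Θ) {s : ℝ} (hs : 0 < s)
    (h : Conv (D.tf k W) (len D.q) (2 * k * D.Θ + s)) :
    (Summable fun v => -Real.log (1 - D.y k W s v)) ∧
    R (D.tf k W) (len D.q) (2 * k * D.Θ + s) = ∑' v, -Real.log (1 - D.y k W s v) := by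
  have h1 : ∀ v, HasSum (fun r : ℕ => D.tf k W (v, r) *
      Real.exp (-(len D.q (v, r) * (2 * k * D.Θ + s)))) (-Real.log (1 - D.y k W s v)) := by
    intro v
    simp_rw [D.tf_eq k W s v]
    refine Real.hasSum_pow_div_log_of_abs_lt_one ?_
    rw [abs_of_nonneg (D.y_nonneg k W s v)]
    exact D.y_lt_one hWT hs v
  have h2 : HasSum (fun x : V × ℕ => D.tf k W x * Real.exp (-(len D.q x * (2 * k * D.Θ + s))))
      (R (D.tf k W) (len D.q) (2 * k * D.Θ + s)) := Summable.hasSum h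
  have h3 := h2.prod_fiberwise h1
  exact ⟨h3.summable, h3.tsum_eq.symm⟩

theorem tendsto_log_one_div : Tendsto (fun s : ℝ => Real.log (1 / s)) (𝓝[>] 0) atTop := by
  have h1 : Tendsto (fun s : ℝ => s⁻¹) (𝓝[>] 0) atTop := tendsto_inv_nhdsGT_zero
  refine (Real.tendsto_log_atTop.comp h1).congr fun s => ?_
  rw [Function.comp_apply, one_div]

theorem order_le {f f' : ℝ → ℝ} {M M' : ℕ} {C C' : ℝ}
    (h : ∀ᶠ s : ℝ in 𝓝[>] 0, |f s - M * Real.log (1 / s)| ≤ C)
    (h' : ∀ᶠ s : ℝ in 𝓝[>] 0, |f' s - M' * Real.log (1 / s)| ≤ C')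
    (hle : ∀ᶠ s : ℝ in 𝓝[>] 0, f' s ≤ f s) : M' ≤ M := by
  by_contra hcon
  have h1 : (M : ℝ) + 1 ≤ M' := by exact_mod_cast not_le.mp hcon
  obtain ⟨s, h2, h3, h4, h5⟩ := (h.and (h'.and (hle.and
    (tendsto_log_one_div.eventually (eventually_gt_atTop (max 0 (C + C'))))))).exists
  have h6 : 0 < Real.log (1 / s) := lt_of_le_of_lt (le_max_left _ _) h5
  have h7 : C + C' < Real.log (1 / s) := lt_of_le_of_lt (le_max_right _ _) h5
  rw [abs_le] at h2 h3
  have h8 := mul_le_mul_of_nonneg_right h1 h6.le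
  linarith [h2.2, h3.1]

theorem exists_eq_two_mul {M : ℕ → ℕ} {k₀ : ℕ}
    (h : ∀ k, k₀ ≤ k → M (2 * k) ≤ M k) : ∃ k, k₀ ≤ k ∧ M k = M (2 * k) := by
  by_contra hcon
  push Not at hcon
  have h1 : ∀ n : ℕ, k₀ ≤ 2 ^ n * k₀ ∧ M (2 ^ n * k₀) + n ≤ M k₀ := by
    intro n
    induction n with
    | zero => simp
    | succ n ih =>
      have h2 : 2 ^ (n + 1) * k₀ = 2 * (2 ^ n * k₀) := by ring
      rw [h2]
      have h3 := h _ ih.1
      have h4 := hcon _ ih.1
      refine ⟨by omega, ?_⟩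
      omega
  have h2 := (h1 (M k₀ + 1)).2
  omega

theorem y_cont (k : ℕ) (W : Set V) (v : V) :
    Tendsto (fun s => D.y k W s v) (𝓝[>] 0) (𝓝 (D.y k W 0 v)) := by
  have h1 : Continuous fun s => D.y k W s v := by
    unfold y
    split_ifs
    · fun_prop
    · fun_prop
  exact (h1.tendsto 0).mono_left nhdsWithin_le_nhds

theorem y_sq (k : ℕ) (W : Set V) (s : ℝ) (v : V) : D.y (2 * k) W (2 * s) v = D.y k W s v ^ 2 := by
  unfold y
  split_ifs
  · rw [← Real.exp_nat_mul]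
    congr 1
    push_cast
    ring
  · simp

theorem y_anti {k : ℕ} {W : Set V} {s : ℝ} (hs : 0 ≤ s) (v : V) : D.y k W s v ≤ D.y k W 0 v := by
  unfold y
  split_ifs
  · refine Real.exp_le_exp.mpr ?_
    have := mul_nonneg hs (D.log_pos v).le
    linarith
  · exact le_rfl

theorem not_sparse (hsp : D.Sparse) : False := by
  classical
  have hΘ := D.hΘ
  have hη := D.hη
  -- large `k`
  obtain ⟨k₀, hk₀K, hk₀⟩ : ∃ k₀ : ℕ, D.K ≤ k₀ ∧ ∀ k : ℕ, k₀ ≤ k →
      D.X < 2 * k * D.Θ ∧ 2 * k * (D.Θ - D.η) + 1 < 2 * k * D.Θ := by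
    obtain ⟨n₁, hn₁⟩ := exists_nat_gt (|D.X| / D.Θ)
    obtain ⟨n₂, hn₂⟩ := exists_nat_gt (1 / D.η)
    refine ⟨n₁ + n₂ + 1 + D.K, by omega, fun k hk => ?_⟩
    have hk' : (n₁ : ℝ) + n₂ + 1 + D.K ≤ k := by exact_mod_cast hk
    have hK0 : (0 : ℝ) ≤ D.K := Nat.cast_nonneg _
    have e1 : |D.X| / D.Θ < k := by
      have : (0 : ℝ) ≤ n₂ := Nat.cast_nonneg _
      linarith
    have e2 : 1 / D.η < k := by
      have : (0 : ℝ) ≤ n₁ := Nat.cast_nonneg _
      linarith
    rw [div_lt_iff₀ hΘ] at e1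
    rw [div_lt_iff₀ hη] at e2
    have e3 := le_abs_self D.X
    have e4 := abs_nonneg D.X
    constructor
    · linarith
    · linarith
  have hk₀1 : 1 ≤ k₀ := D.hK.trans hk₀K
  have hgt := D.finite_gt hsp hk₀K (hk₀ k₀ le_rfl).1 (hk₀ k₀ le_rfl).2
  set W : Set V := {v | v ∈ D.E ∧ D.T v ≤ D.Θ} with hW
  have hWE' : W ⊆ D.E := fun v hv => hv.1
  have hWT : ∀ v ∈ W, D.T v ≤ D.Θ := fun v hv => hv.2
  have hWE : (D.E \ W).Finite := by
    refine hgt.subset fun v hv => ⟨hv.1, ?_⟩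
    by_contra hcon
    exact hv.2 ⟨hv.1, not_lt.mp hcon⟩
  have key : ∀ k : ℕ, k₀ ≤ k → (∀ s : ℝ, 0 < s → Conv (D.tf k W) (len D.q) (2 * k * D.Θ + s)) ∧
      ∃ M : ℕ, (∃ C : ℝ, ∀ᶠ s : ℝ in 𝓝[>] 0,
      |R (D.tf k W) (len D.q) (2 * k * D.Θ + s) - M * Real.log (1 / s)| ≤ C) := by
    intro k hk
    obtain ⟨h1, M, h2, -⟩ := D.asymptotic hsp (hk₀K.trans hk) (hk₀ k hk).1 (hk₀ k hk).2 hWE' hWE hWT
    exact ⟨h1, M, h2⟩
  have key1 := fun k hk => (key k hk).1
  have key2 := fun k hk => (key k hk).2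
  choose! M hM using key2
  have hanti : ∀ k, k₀ ≤ k → M (2 * k) ≤ M k := by
    intro k hk
    obtain ⟨C, hC⟩ := hM k hk
    obtain ⟨C', hC'⟩ := hM (2 * k) (by omega)
    refine order_le hC hC' ?_
    filter_upwards [self_mem_nhdsWithin] with s hs
    have hs' : (0 : ℝ) < s := hs
    obtain ⟨s1, r1⟩ := D.R_tf hWT hs' (key1 k hk s hs')
    obtain ⟨s2, r2⟩ := D.R_tf hWT hs' (key1 (2 * k) (by omega) s hs')
    rw [r1, r2]
    refine s2.tsum_le_tsum (fun v => ?_) s1
    have h1 : D.y (2 * k) W s v ≤ D.y k W s v := by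
      unfold y
      split_ifs with hv
      · refine Real.exp_le_exp.mpr ?_
        have h2 : 0 ≤ 2 * (k : ℝ) * (D.Θ - D.T v) := mul_nonneg (by positivity)
          (by linarith [hWT v hv])
        have h3 := mul_nonneg h2 (D.log_pos v).le
        push_cast
        linarith
      · exact le_rfl
    have h2 := Real.log_le_log (show 0 < 1 - D.y k W s v by
      linarith [D.y_lt_one (k := k) hWT hs' v]) (show 1 - D.y k W s v ≤ 1 - D.y (2 * k) W s v by linarith)
    linarith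
  obtain ⟨k, hk, hMk⟩ := exists_eq_two_mul hanti
  have hk1 : 1 ≤ k := hk₀1.trans hk
  have hk0 : (0 : ℝ) < k := by exact_mod_cast hk1
  -- the sum of the `u`
  obtain ⟨C, hC⟩ := hM k hk
  obtain ⟨C', hC'⟩ := hM (2 * k) (by omega)
  have h2s : Tendsto (fun s : ℝ => 2 * s) (𝓝[>] 0) (𝓝[>] 0) := by
    refine tendsto_nhdsWithin_iff.mpr ⟨?_, ?_⟩
    · have : Tendsto (fun s : ℝ => 2 * s) (𝓝 0) (𝓝 (2 * 0)) := (continuous_const_mul 2).tendsto 0
      rw [mul_zero] at this
      exact this.mono_left nhdsWithin_le_nhds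
    · filter_upwards [self_mem_nhdsWithin] with s hs
      have hs' : (0 : ℝ) < s := hs
      exact mul_pos two_pos hs'
  set C₂ : ℝ := C + C' + M k * Real.log 2 with hC₂
  have hbound : ∀ᶠ s : ℝ in 𝓝[>] 0, ∀ A : Finset V, ∑ v ∈ A, D.y k W s v ≤ 2 * C₂ := by
    filter_upwards [hC, h2s.eventually hC', self_mem_nhdsWithin] with s h1 h2 h3 A
    have hs : (0 : ℝ) < s := h3
    obtain ⟨s1, r1⟩ := D.R_tf hWT hs (key1 k hk s hs)
    obtain ⟨s2, r2⟩ := D.R_tf hWT (show 0 < 2 * s by positivity)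
      (key1 (2 * k) (by omega) (2 * s) (by positivity))
    have e1 : ∀ v, -Real.log (1 - D.y k W s v) - -Real.log (1 - D.y (2 * k) W (2 * s) v) =
        Real.log (1 + D.y k W s v) := by
      intro v
      have h4 := D.y_lt_one (k := k) hWT hs v
      have h5 := D.y_nonneg k W s v
      rw [D.y_sq]
      have h6 : 1 - D.y k W s v ^ 2 = (1 - D.y k W s v) * (1 + D.y k W s v) := by ring
      rw [h6, Real.log_mul (by linarith) (by linarith)]
      ring
    have e2 : ∑' v, Real.log (1 + D.y k W s v) ≤ C₂ := by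
      have h4 := s1.tsum_sub s2
      rw [← r1, ← r2] at h4
      simp_rw [e1] at h4
      rw [h4]
      rw [← hMk] at h2
      have h5 : Real.log (1 / (2 * s)) = Real.log (1 / s) - Real.log 2 := by
        rw [← Real.log_div (by positivity) (by positivity)]
        congr 1
        field_simp
      rw [h5] at h2
      rw [abs_le] at h1 h2
      rw [hC₂]
      linarith [h1.2, h2.1]
    have s3 : Summable fun v => Real.log (1 + D.y k W s v) := by
      refine (s1.sub s2).congr fun v => e1 v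
    have e3 : ∀ v, D.y k W s v ≤ 2 * Real.log (1 + D.y k W s v) := by
      intro v
      have h4 := D.y_lt_one (k := k) hWT hs v
      have h5 := D.y_nonneg k W s v
      have h6 := Real.one_sub_inv_le_log_of_pos (show 0 < 1 + D.y k W s v by linarith)
      have h7 : D.y k W s v / 2 ≤ 1 - (1 + D.y k W s v)⁻¹ := by
        rw [div_le_iff₀ two_pos, sub_mul, le_sub_iff_add_le, ← le_sub_iff_add_le',
          inv_mul_le_iff₀ (by linarith)]
        nlinarith
      linarith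
    calc ∑ v ∈ A, D.y k W s v ≤ ∑ v ∈ A, 2 * Real.log (1 + D.y k W s v) :=
          Finset.sum_le_sum fun v _ => e3 v
      _ = 2 * ∑ v ∈ A, Real.log (1 + D.y k W s v) := by rw [Finset.mul_sum]
      _ ≤ 2 * ∑' v, Real.log (1 + D.y k W s v) := by
          refine mul_le_mul_of_nonneg_left ?_ (by norm_num)
          exact s3.sum_le_tsum A fun v _ => Real.log_nonneg (by linarith [D.y_nonneg k W s v])
      _ ≤ 2 * C₂ := by linarith
  have hu : Summable (D.y k W 0) := by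
    refine summable_of_sum_le (D.y_nonneg k W 0) (c := 2 * C₂) fun A => ?_
    have h1 : Tendsto (fun s => ∑ v ∈ A, D.y k W s v) (𝓝[>] 0) (𝓝 (∑ v ∈ A, D.y k W 0 v)) :=
      tendsto_finsetSum A fun v _ => D.y_cont k W v
    exact le_of_tendsto h1 (hbound.mono fun s hs => hs A)
  -- the set `T < Θ`
  set W₁ : Set V := {v | v ∈ D.E ∧ D.T v < D.Θ} with hW₁
  have hW₁E : (D.E \ W₁).Finite := by
    have h1 := hu.tendsto_cofinite_zero.eventually (gt_mem_nhds (show (0 : ℝ) < 1 by norm_num))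
    refine (hWE.union (show {v | ¬(D.y k W 0 v < 1)}.Finite from h1)).subset ?_
    intro v hv
    by_cases h2 : v ∈ W
    · right
      have h3 : D.T v = D.Θ := le_antisymm h2.2 (not_lt.mp fun h => hv.2 ⟨hv.1, h⟩)
      show ¬(D.y k W 0 v < 1)
      unfold y
      rw [if_pos h2, h3]
      simp
    · left
      exact ⟨hv.1, h2⟩
  have hW₁T : ∀ v ∈ W₁, D.T v ≤ D.Θ := fun v hv => hv.2.le
  obtain ⟨hc₁, M₁, ⟨C₁, hM₁⟩, hM₁0⟩ := D.asymptotic hsp (hk₀K.trans hk) (hk₀ k hk).1 (hk₀ k hk).2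
    (fun v (hv : v ∈ W₁) => hv.1) hW₁E hW₁T
  have hy1 : ∀ v, D.y k W₁ 0 v < 1 := by
    intro v
    unfold y
    split_ifs with hv
    · rw [Real.exp_lt_one_iff]
      have h1 : 0 < D.Θ - D.T v := by linarith [hv.2]
      have := mul_pos (show 0 < 2 * (k : ℝ) * (D.Θ - D.T v) by positivity) (D.log_pos v)
      linarith
    · norm_num
  have hyle : ∀ v, D.y k W₁ 0 v ≤ D.y k W 0 v := by
    intro v
    unfold y
    by_cases hv : v ∈ W₁
    · have hv' : v ∈ W := ⟨hv.1, hv.2.le⟩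
      rw [if_pos hv, if_pos hv']
    · rw [if_neg hv]
      exact D.y_nonneg k W 0 v
  have hu₁ : Summable (D.y k W₁ 0) := Summable.of_nonneg_of_le (D.y_nonneg k W₁ 0) hyle hu
  have hlog₁ : Summable fun v => -Real.log (1 - D.y k W₁ 0 v) := by
    have h1 := Real.summable_log_one_add_of_summable hu₁.neg
    refine h1.neg.congr fun v => ?_
    rw [← sub_eq_add_neg]
  have hM₁z : M₁ = 0 := by
    have h1 : ∀ᶠ s : ℝ in 𝓝[>] 0, |(0 : ℝ) - (0 : ℕ) * Real.log (1 / s)| ≤ 0 :=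
      Eventually.of_forall fun s => by simp
    by_contra hne
    have hge : (1 : ℝ) ≤ M₁ := by exact_mod_cast Nat.one_le_iff_ne_zero.mpr hne
    set C₃ : ℝ := ∑' v, -Real.log (1 - D.y k W₁ 0 v) with hC₃
    obtain ⟨s, h2, h3, h4⟩ := (hM₁.and ((tendsto_log_one_div.eventually
      (eventually_gt_atTop (max 0 (C₁ + C₃)))).and self_mem_nhdsWithin)).exists
    have hs : (0 : ℝ) < s := h4
    obtain ⟨s1, r1⟩ := D.R_tf hW₁T hs (hc₁ s hs)
    have h5 : R (D.tf k W₁) (len D.q) (2 * k * D.Θ + s) ≤ C₃ := by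
      rw [r1]
      refine s1.tsum_le_tsum (fun v => ?_) hlog₁
      have h6 := Real.log_le_log (show 0 < 1 - D.y k W₁ 0 v by linarith [hy1 v])
        (show 1 - D.y k W₁ 0 v ≤ 1 - D.y k W₁ s v by linarith [D.y_anti (k := k) (W := W₁) hs.le v])
      linarith
    have h6 : 0 < Real.log (1 / s) := lt_of_le_of_lt (le_max_left _ _) h3
    have h7 : C₁ + C₃ < Real.log (1 / s) := lt_of_le_of_lt (le_max_right _ _) h3
    rw [abs_le] at h2
    have h8 := mul_le_mul_of_nonneg_right hge h6.le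
    linarith [h2.1]
  obtain ⟨s₁, hs₁, hconv₁⟩ := hM₁0 hM₁z
  -- the contradiction
  obtain ⟨v, hvE, hvT⟩ : ∃ v ∈ W₁, s₁ < 2 * k * D.T v := by
    have h1 := D.hT2 ((2 * k * D.Θ - s₁) / (2 * k)) (by
      have : 0 < 2 * k * D.Θ - s₁ := by linarith
      positivity)
    obtain ⟨v, hv1, hv2⟩ := (h1.sdiff hW₁E).nonempty
    refine ⟨v, ?_, ?_⟩
    · by_contra hcon
      exact hv2 ⟨hv1.1, hcon⟩
    · have h2 := mul_lt_mul_of_pos_left hv1.2 (show (0 : ℝ) < 2 * k by positivity)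
      have h3 : 2 * (k : ℝ) * (D.Θ - (2 * k * D.Θ - s₁) / (2 * k)) = s₁ := by
        field_simp
        ring
      rw [h3] at h2
      exact h2
  have hinj : Function.Injective fun r : ℕ => (v, r) := fun r r' h => (Prod.mk.inj h).2
  have hsumr : Summable fun r : ℕ => cf D.a k W₁ (v, r) * Real.exp (-(len D.q (v, r) * s₁)) :=
    hconv₁.comp_injective hinj
  have hlow := hinj.tendsto_cofinite.eventually (D.lower (k := k) (W := W₁) fun v hv => hv.1)
  have htend := hsumr.tendsto_cofinite_zero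
  set c : ℝ := (2 * k * D.T v - s₁) * Real.log (D.q v) with hc
  have hc0 : 0 < c := mul_pos (by linarith) (D.log_pos v)
  obtain ⟨r, h1, h2⟩ := (hlow.and (htend.eventually (gt_mem_nhds
    (show (0 : ℝ) < c / 2 ^ k by positivity)))).exists
  have h3 := h1 hvE
  have h4 : Real.exp (2 * k * D.T v * len D.q (v, r)) * Real.exp (-(len D.q (v, r) * s₁)) =
      Real.exp (c * (r + 1)) := by
    rw [← Real.exp_add]
    congr 1
    unfold len
    rw [hc]
    ring
  have h5 := mul_le_mul_of_nonneg_right h3 (Real.exp_nonneg (-(len D.q (v, r) * s₁)))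
  have h6 : c * (r + 1) ≤ Real.exp (c * (r + 1)) := by
    have := Real.add_one_le_exp (c * (r + 1))
    linarith
  simp only at h5
  rw [h4] at h5
  have h7 : c * (r + 1) ≤ 2 ^ k * ((r + 1) * cf D.a k W₁ (v, r)) *
      Real.exp (-(len D.q (v, r) * s₁)) := h6.trans h5
  have h8 : c * (r + 1) ≤ (2 ^ k * (cf D.a k W₁ (v, r) * Real.exp (-(len D.q (v, r) * s₁)))) *
      (r + 1) := by
    refine h7.trans (le_of_eq ?_)
    ring
  have h9 := le_of_mul_le_mul_right h8 (by positivity)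
  rw [lt_div_iff₀ (by positivity)] at h2
  linarith

/-- **The core theorem** -/
theorem main : ∃ e : ℝ, 0 < e ∧ ∀ᶠ x : ℝ in atTop, x ^ e ≤ ({v | v ∈ D.E ∧ D.q v ≤ x}.ncard : ℝ) := by
  by_contra hcon
  refine D.not_sparse fun e he => ?_
  by_contra h1
  refine hcon ⟨e, he, ?_⟩
  rw [not_frequently] at h1
  exact h1.mono fun x hx => not_lt.mp hx

end Data

end Pool.Agent.H506.SV
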