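import Pool.Agent.H506.Law2

/-!
# Symmetrized monomials
-/

set_option autoImplicit false

namespace Pool.Agent.H506.LW

open Filter Topology Pool.Agent.H506.SR

open AddMonoidAlgebra (single)

theorem aeval_mem {R : Type} [CommRing R] {d : ℕ} {x : Fin d → R} (T : Subring R)
    (hx : ∀ i, x i ∈ T) (p : MvPolynomial (Fin d) ℤ) : MvPolynomial.aeval x p ∈ T := by
  induction p using MvPolynomial.induction_on with
  | C a =>
    rw [MvPolynomial.aeval_C]
    simp only [algebraMap_int_eq, eq_intCast]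
    exact intCast_mem T a
  | add p q hp hq =>
    rw [map_add]
    exact T.add_mem hp hq
  | mul_X p i hp =>
    rw [map_mul, MvPolynomial.aeval_X]
    exact T.mul_mem hp (hx i)

/-- the value of a symmetric polynomial is in the ring generated by the elementary ones -/
theorem symmetric_mem {R : Type} [CommRing R] {d : ℕ} (x : Fin d → R) (T : Subring R)
    (hx : ∀ i, (Finset.univ.val.map x).esymm i ∈ T) {S : MvPolynomial (Fin d) ℤ}
    (hS : S.IsSymmetric) : MvPolynomial.aeval x S ∈ T := by
  obtain ⟨p, hp⟩ := MvPolynomial.esymmAlgHom_surjective (σ := Fin d) (R := ℤ) (n := d)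
    (by simp) ⟨S, hS⟩
  have h1 : S = MvPolynomial.aeval (fun i : Fin d => MvPolynomial.esymm (Fin d) ℤ (i + 1)) p := by
    rw [← MvPolynomial.esymmAlgHom_apply, hp]
  rw [h1]
  have h2 : (MvPolynomial.aeval x) (MvPolynomial.aeval
      (fun i : Fin d => MvPolynomial.esymm (Fin d) ℤ (i + 1)) p) =
      MvPolynomial.aeval (fun i : Fin d => (Finset.univ.val.map x).esymm ((i : ℕ) + 1)) p := by
    rw [← AlgHom.comp_apply]
    congr 1
    refine MvPolynomial.algHom_ext fun i => ?_
    rw [AlgHom.comp_apply, MvPolynomial.aeval_X, MvPolynomial.aeval_X,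
      MvPolynomial.aeval_esymm_eq_multiset_esymm]
  rw [h2]
  exact aeval_mem T (fun i => hx _) p

/-- the symmetrized Laurent monomials are in the ring generated by the elementary symmetric functions of
the variables and of their inverses -/
theorem symm_mem {R : Type} [CommRing R] {d : ℕ} (x y : Fin d → R) (hxy : ∀ j, x j * y j = 1)
    (T : Subring R) (hx : ∀ i, (Finset.univ.val.map x).esymm i ∈ T)
    (hy : ∀ i, (Finset.univ.val.map y).esymm i ∈ T) (u : Fin d → Rˣ) (hu : ∀ j, (u j : R) = x j)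
    (k : Fin d → ℤ) : ∑ σ : Equiv.Perm (Fin d), ∏ j, ((u j ^ k (σ j) : Rˣ) : R) ∈ T := by
  classical
  obtain ⟨N, hN⟩ : ∃ N : ℕ, ∀ j, 0 ≤ k j + N := by
    refine ⟨∑ j, (k j).natAbs, fun j => ?_⟩
    have h1 : (k j).natAbs ≤ ∑ j, (k j).natAbs :=
      Finset.single_le_sum (f := fun j => (k j).natAbs) (fun _ _ => Nat.zero_le _) (Finset.mem_univ j)
    omega
  set k' : Fin d → ℕ := fun j => (k j + N).toNat with hk'
  have huy : ∀ j, ((u j)⁻¹ : Rˣ) = (y j : R) := by
    intro j
    have h1 : ((u j)⁻¹ : Rˣ) * (u j : R) = 1 := by simp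
    calc (((u j)⁻¹ : Rˣ) : R) = ((u j)⁻¹ : Rˣ) * (x j * y j) := by rw [hxy, mul_one]
      _ = y j := by rw [← hu j, ← mul_assoc, h1, one_mul]
  have hterm : ∀ (σ : Equiv.Perm (Fin d)) (j : Fin d),
      ((u j ^ k (σ j) : Rˣ) : R) = x j ^ k' (σ j) * y j ^ N := by
    intro σ j
    have h1 : u j ^ k (σ j) = u j ^ (k' (σ j)) * ((u j)⁻¹) ^ N := by
      have h2 : k (σ j) = (k' (σ j) : ℤ) - N := by
        rw [hk']
        have := hN (σ j)
        simp only
        omega
      rw [h2, zpow_sub, zpow_natCast, zpow_natCast, inv_pow]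
    rw [h1]
    push_cast
    rw [huy, hu]
  have hprod : ∏ j, y j ∈ T := by
    have h1 := hy d
    have h2 := MvPolynomial.aeval_esymm_eq_multiset_esymm (Fin d) ℤ d y
    rw [← h2] at h1
    have h3 : MvPolynomial.esymm (Fin d) ℤ d = ∏ j, MvPolynomial.X j := by
      unfold MvPolynomial.esymm
      have h4 : Finset.powersetCard d (Finset.univ : Finset (Fin d)) = {Finset.univ} := by
        have := Finset.powersetCard_self (Finset.univ : Finset (Fin d))
        rwa [Finset.card_univ, Fintype.card_fin] at this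
      rw [h4, Finset.sum_singleton]
    rw [h3, map_prod] at h1
    simpa using h1
  have hsym : ∑ σ : Equiv.Perm (Fin d), ∏ j, x j ^ k' (σ j) ∈ T := by
    set S : MvPolynomial (Fin d) ℤ := ∑ σ : Equiv.Perm (Fin d), ∏ j, MvPolynomial.X j ^ k' (σ j)
      with hS
    have h1 : S.IsSymmetric := by
      intro τ
      rw [hS, map_sum]
      refine Fintype.sum_equiv (Equiv.mulRight τ⁻¹) _ _ fun σ => ?_
      rw [map_prod]
      refine Fintype.prod_equiv τ _ _ fun j => ?_
      rw [map_pow, MvPolynomial.rename_X]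
      congr 2
      simp
    have h2 := symmetric_mem x T hx h1
    rw [hS, map_sum] at h2
    simpa only [map_prod, map_pow, MvPolynomial.aeval_X] using h2
  have h1 : ∑ σ : Equiv.Perm (Fin d), ∏ j, ((u j ^ k (σ j) : Rˣ) : R) =
      (∑ σ : Equiv.Perm (Fin d), ∏ j, x j ^ k' (σ j)) * (∏ j, y j) ^ N := by
    rw [Finset.sum_mul]
    refine Finset.sum_congr rfl fun σ _ => ?_
    rw [← Finset.prod_pow, ← Finset.prod_mul_distrib]
    exact Finset.prod_congr rfl fun j _ => hterm σ j
  rw [h1]
  exact T.mul_mem hsym (T.pow_mem hprod N)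

end Pool.Agent.H506.LW
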