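import Pool.Agent.H506.Comp
import Pool.Agent.H506.Law3

/-!
# Equidistribution from continuation to `s = 1`
-/

set_option autoImplicit false

namespace Pool.Agent.H506.LW

open Filter Topology Pool.Agent.H506.SR Pool.Agent.H506.TR Pool.Agent.H506.CO

open AddMonoidAlgebra (single)

variable {V M : Type} [AddCommGroup M]

/-- the mean value at `s` -/
noncomputable def Es (q : V → ℝ) (s : ℝ) (g : V → ℂ) : ℂ :=
  (∑' v, g v * ((q v ^ (-s) : ℝ) : ℂ)) / (Real.log (1 / (s - 1)) : ℂ)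

section

variable {q : V → ℝ} (hq : ∀ v, 2 ≤ q v) (hsum : ∀ s : ℝ, 1 < s → Summable fun v => q v ^ (-s))

include hq hsum

theorem Es_add {g h : V → ℂ} {B B' : ℝ} (hg : ∀ v, ‖g v‖ ≤ B) (hh : ∀ v, ‖h v‖ ≤ B') {s : ℝ}
    (hs : 1 < s) : Es q s (fun v => g v + h v) = Es q s g + Es q s h := by
  unfold Es
  rw [← add_div, ← (summable_cv hq hsum hg hs).tsum_add (summable_cv hq hsum hh hs)]
  simp only [add_mul]

omit hq hsum in
theorem Es_mul (z : ℂ) (g : V → ℂ) (s : ℝ) : Es q s (fun v => z * g v) = z * Es q s g := by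
  unfold Es
  simp only [mul_assoc, tsum_mul_left, mul_div_assoc]

theorem Es_sum {ι : Type} (t : Finset ι) (g : ι → V → ℂ) {B : ℝ} (hg : ∀ i ∈ t, ∀ v, ‖g i v‖ ≤ B)
    {s : ℝ} (hs : 1 < s) : Es q s (fun v => ∑ i ∈ t, g i v) = ∑ i ∈ t, Es q s (g i) := by
  unfold Es
  rw [← Finset.sum_div, ← Summable.tsum_finsetSum fun i hi => summable_cv hq hsum (hg i hi) hs]
  simp only [Finset.sum_mul]

omit hq hsum in
theorem Es_conj (g : V → ℂ) (s : ℝ) :
    Es q s (fun v => (starRingEnd ℂ) (g v)) = (starRingEnd ℂ) (Es q s g) := by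
  unfold Es
  rw [map_div₀, Complex.conj_ofReal, Complex.conj_tsum]
  simp only [map_mul, Complex.conj_ofReal]

omit hsum in
theorem Es_nonneg {h : V → ℝ} (h0 : ∀ v, 0 ≤ h v) {s : ℝ} 
    (hl : 0 < Real.log (1 / (s - 1))) : 0 ≤ (Es q s fun v => (h v : ℂ)).re := by
  unfold Es
  have h1 : (∑' v, (h v : ℂ) * ((q v ^ (-s) : ℝ) : ℂ)) = ((∑' v, h v * q v ^ (-s) : ℝ) : ℂ) := by
    rw [Complex.ofReal_tsum]
    simp only [Complex.ofReal_mul]
  rw [h1, ← Complex.ofReal_div, Complex.ofReal_re]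
  exact div_nonneg (tsum_nonneg fun v => mul_nonneg (h0 v) (rpow_pos hq s v).le) hl.le

theorem norm_Es_le {g : V → ℂ} {B : ℝ} (hg : ∀ v, ‖g v‖ ≤ B) {s : ℝ} (hs : 1 < s)
    (hl : 0 < Real.log (1 / (s - 1))) : ‖Es q s g‖ ≤ B * (Es q s fun _ => 1).re := by
  unfold Es
  have h1 : (∑' v, (1 : ℂ) * ((q v ^ (-s) : ℝ) : ℂ)) = ((∑' v, q v ^ (-s) : ℝ) : ℂ) := by
    rw [Complex.ofReal_tsum]
    simp only [one_mul]
  rw [h1, ← Complex.ofReal_div, Complex.ofReal_re, norm_div, Complex.norm_real,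
    Real.norm_of_nonneg hl.le, ← mul_div_assoc]
  refine div_le_div_of_nonneg_right ?_ hl.le
  rw [← tsum_mul_left]
  refine tsum_of_norm_bounded ((hsum s hs).mul_left B).hasSum fun v => ?_
  rw [norm_mul, Complex.norm_real, Real.norm_of_nonneg (rpow_pos hq s v).le]
  exact mul_le_mul_of_nonneg_right (hg v) (rpow_pos hq s v).le

end

/-- evaluation of virtual characters -/
noncomputable def evh {c : M → Circle} (hc0 : c 0 = 1) (hcadd : ∀ k l, c (k + l) = c k * c l) :
    AddMonoidAlgebra ℤ M →+* ℂ :=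
  AddMonoidAlgebra.liftNCRingHom (Int.castRingHom ℂ)
    { toFun := fun g => (c (Multiplicative.toAdd g) : ℂ)
      map_one' := by
        rw [toAdd_one, hc0, Circle.coe_one]
      map_mul' := fun g h => by
        rw [toAdd_mul, hcadd, Circle.coe_mul] } fun _ _ => Commute.all _ _

theorem evh_eq {c : M → Circle} (hc0 : c 0 = 1) (hcadd : ∀ k l, c (k + l) = c k * c l)
    (χ : AddMonoidAlgebra ℤ M) : evh hc0 hcadd χ = lg (fun k => (c k : ℂ)) χ := rfl

/-- the units of the group ring -/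
noncomputable def un (k : M) : (AddMonoidAlgebra ℤ M)ˣ where
  val := single k 1
  inv := single (-k) 1
  val_inv := by
    rw [AddMonoidAlgebra.single_mul_single, add_neg_cancel, one_mul, AddMonoidAlgebra.one_def]
  inv_val := by
    rw [AddMonoidAlgebra.single_mul_single, neg_add_cancel, one_mul, AddMonoidAlgebra.one_def]

/-- the symmetrized monomial -/
noncomputable def sy {d : ℕ} (ρ : Fin d → M) (k : Fin d → ℤ) : AddMonoidAlgebra ℤ M :=
  ∑ σ : Equiv.Perm (Fin d), ∏ j, ((un (ρ j) ^ k (σ j) : (AddMonoidAlgebra ℤ M)ˣ) :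
    AddMonoidAlgebra ℤ M)

theorem lg_sy {c : M → Circle} (hc0 : c 0 = 1) (hcadd : ∀ k l, c (k + l) = c k * c l) {d : ℕ}
    (ρ : Fin d → M) (k : Fin d → ℤ) : lg (fun k => (c k : ℂ)) (sy ρ k) =
      ∑ σ : Equiv.Perm (Fin d), (mon k (fun j => c (ρ (σ j))) : ℂ) := by
  rw [← evh_eq hc0 hcadd, sy, map_sum]
  refine Fintype.sum_equiv (Equiv.inv _) _ _ fun σ => ?_
  rw [map_prod]
  have h1 : ∀ (j : Fin d) (m : ℤ), evh hc0 hcadd ((un (ρ j) ^ m : (AddMonoidAlgebra ℤ M)ˣ) :
      AddMonoidAlgebra ℤ M) = (c (ρ j) ^ m : Circle) := by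
    intro j m
    have h2 : evh hc0 hcadd ((un (ρ j) ^ m : (AddMonoidAlgebra ℤ M)ˣ) : AddMonoidAlgebra ℤ M) =
        ((Units.map (evh hc0 hcadd : AddMonoidAlgebra ℤ M →* ℂ) (un (ρ j)) ^ m : ℂˣ) : ℂ) := by
      rw [← map_zpow]
      rfl
    rw [h2, Units.val_zpow_eq_zpow_val, Circle.coe_zpow]
    congr 1
    change evh hc0 hcadd (single (ρ j) 1) = _
    rw [evh_eq, lg_single, Int.cast_one, one_mul]
  unfold mon
  simp only [h1]
  refine Eq.trans ?_ (map_prod Circle.coeHom _ _).symm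
  refine Fintype.prod_equiv σ _ _ fun j => ?_
  have h2 : (Equiv.inv (Equiv.Perm (Fin d)) σ) (σ j) = j := σ.symm_apply_apply j
  rw [h2]
  rfl

section law

variable {q : V → ℝ} (hq : ∀ v, 2 ≤ q v) (hsum : ∀ s : ℝ, 1 < s → Summable fun v => q v ^ (-s))
  {c : V → M → Circle} (hc0 : ∀ v, c v 0 = 1) (hcadd : ∀ v k l, c v (k + l) = c v k * c v l)
  {d : ℕ} (ρ : Fin d → M)

/-- the sum over the orderings of the eigenvalues -/
noncomputable def so (c : V → M → Circle) (ρ : Fin d → M) (f : (Fin d → Circle) → ℂ) (v : V) : ℂ :=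
  ∑ σ : Equiv.Perm (Fin d), f fun j => c v (ρ (σ j))

omit [AddCommGroup M] in
theorem norm_so_le {c : V → M → Circle} {ρ : Fin d → M} {f : (Fin d → Circle) → ℂ} {B : ℝ}
    (hf : ∀ x, ‖f x‖ ≤ B) (v : V) : ‖so c ρ f v‖ ≤ (Fintype.card (Equiv.Perm (Fin d)) : ℝ) * B := by
  unfold so
  refine (norm_sum_le _ _).trans ?_
  refine (Finset.sum_le_card_nsmul _ _ B fun σ _ => hf _).trans ?_
  rw [nsmul_eq_mul, Finset.card_univ]

include hq hsum hc0 hcadd in
theorem exists_lim (hG : ∀ I J : List ℕ, One q (fun v k => (c v k : ℂ))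
      ((I.map fun i => (Finset.univ.val.map fun j => single (ρ j) (1 : ℤ)).esymm i).prod *
       (J.map fun i => (Finset.univ.val.map fun j => single (-ρ j) (1 : ℤ)).esymm i).prod))
    (k : Fin d → ℤ) : ∃ m : ℤ, Tendsto (fun s : ℝ => Es q s (so c ρ fun x => (mon k x : ℂ)))
      (𝓝[>] 1) (𝓝 (m : ℂ)) := by
  classical
  have hc : ∀ v k, ‖(c v k : ℂ)‖ = 1 := fun v k => Circle.norm_coe _
  set e : ℕ → AddMonoidAlgebra ℤ M := fun i =>
    (Finset.univ.val.map fun j => single (ρ j) (1 : ℤ)).esymm i with he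
  set e' : ℕ → AddMonoidAlgebra ℤ M := fun i =>
    (Finset.univ.val.map fun j => single (-ρ j) (1 : ℤ)).esymm i with he'
  set T : Subring (AddMonoidAlgebra ℤ M) := Subring.closure (Set.range e ∪ Set.range e') with hT
  have hTG : ∀ χ ∈ T, One q (fun v k => (c v k : ℂ)) χ := by
    intro χ hχ
    rw [hT, Subring.mem_closure_iff] at hχ
    have h1 : AddSubgroup.closure (Submonoid.closure (Set.range e ∪ Set.range e') :
        Set (AddMonoidAlgebra ℤ M)) ≤ oneGroup hq hsum hc := by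
      rw [AddSubgroup.closure_le]
      intro x hx
      have h2 : ∃ I J : List ℕ, x = (I.map e).prod * (J.map e').prod := by
        induction hx using Submonoid.closure_induction with
        | mem x hx =>
          rcases hx with ⟨i, rfl⟩ | ⟨i, rfl⟩
          · exact ⟨[i], [], by simp⟩
          · exact ⟨[], [i], by simp⟩
        | one => exact ⟨[], [], by simp⟩
        | mul x y _ _ hx hy =>
          obtain ⟨I₁, J₁, rfl⟩ := hx
          obtain ⟨I₂, J₂, rfl⟩ := hy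
          refine ⟨I₁ ++ I₂, J₁ ++ J₂, ?_⟩
          rw [List.map_append, List.map_append, List.prod_append, List.prod_append]
          ring
      obtain ⟨I, J, rfl⟩ := h2
      exact hG I J
    exact h1 hχ
  have hmem : sy ρ k ∈ T := by
    refine symm_mem (fun j => single (ρ j) (1 : ℤ)) (fun j => single (-ρ j) (1 : ℤ)) (fun j => ?_) T
      (fun i => Subring.subset_closure (Or.inl ⟨i, rfl⟩))
      (fun i => Subring.subset_closure (Or.inr ⟨i, rfl⟩)) (fun j => un (ρ j)) (fun j => rfl) k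
    rw [AddMonoidAlgebra.single_mul_single, add_neg_cancel, one_mul, AddMonoidAlgebra.one_def]
  obtain ⟨m, hm⟩ := lim_int hq hsum hc (hTG _ hmem)
  refine ⟨m, hm.congr fun s => ?_⟩
  unfold Es
  congr 1
  refine tsum_congr fun v => ?_
  rw [lg_sy (hc0 v) (hcadd v)]
  rfl

end law

end Pool.Agent.H506.LW
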