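import Pool.Agent.H506.Equi

/-!
# Equidistribution from continuation to `s = 1`
-/

set_option autoImplicit false

namespace Pool.Agent.H506.LW

open Filter Topology Pool.Agent.H506.SR Pool.Agent.H506.TR Pool.Agent.H506.CO

open AddMonoidAlgebra (single)

variable {V M : Type} [AddCommGroup M]

section law

variable {q : V → ℝ} (hq : ∀ v, 2 ≤ q v) (hsum : ∀ s : ℝ, 1 < s → Summable fun v => q v ^ (-s))
  {c : V → M → Circle} {d : ℕ} {ρ : Fin d → M} {a : (Fin d → ℤ) → ℤ}
  (ha : ∀ k, Tendsto (fun s : ℝ => Es q s (so c ρ fun x => (mon k x : ℂ))) (𝓝[>] 1) (𝓝 (a k : ℂ)))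

omit [AddCommGroup M] in
theorem norm_so_mon (c : V → M → Circle) (ρ : Fin d → M) (k : Fin d → ℤ) (v : V) :
    ‖so c ρ (fun x => (mon k x : ℂ)) v‖ ≤ (Fintype.card (Equiv.Perm (Fin d)) : ℝ) * 1 :=
  norm_so_le (fun _ => (Circle.norm_coe _).le) v

include hq hsum ha in
omit [AddCommGroup M] in
/-- positivity of the limits -/
theorem pd_limit : PD a := by
  refine ⟨fun k => ?_, fun u => ?_⟩
  · have h1 := ha (-k)
    have h2 : Tendsto (fun s : ℝ => Es q s (so c ρ fun x => (mon (-k) x : ℂ))) (𝓝[>] 1)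
        (𝓝 ((starRingEnd ℂ) (a k : ℂ))) := by
      refine ((Complex.continuous_conj.tendsto _).comp (ha k)).congr fun s => ?_
      simp only [Function.comp_apply]
      rw [← Es_conj]
      congr 1
      funext v
      unfold so
      rw [map_sum]
      refine Finset.sum_congr rfl fun σ _ => ?_
      change (starRingEnd ℂ) (mon k (fun j => c v (ρ (σ j))) : ℂ) =
        (mon (-k) (fun j => c v (ρ (σ j))) : ℂ)
      rw [mon_neg, Circle.coe_inv_eq_conj]
    have h3 := tendsto_nhds_unique h1 h2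
    rw [map_intCast] at h3
    exact_mod_cast h3
  · -- the nonnegative functions
    set h : V → ℝ := fun v => ∑ σ : Equiv.Perm (Fin d),
      Complex.normSq (∑ i ∈ u.support, (u i : ℂ) * mon i fun j => c v (ρ (σ j))) with hh
    have h1 : ∀ v, (h v : ℂ) = ∑ i ∈ u.support, ∑ j ∈ u.support,
        ((u i * u j : ℝ) : ℂ) * so c ρ (fun x => (mon (i - j) x : ℂ)) v := by
      intro v
      rw [hh]
      simp only [Complex.ofReal_sum]
      unfold so
      simp only [Finset.mul_sum]
      have h3 : ∀ i ∈ u.support, (∑ j ∈ u.support, ∑ σ : Equiv.Perm (Fin d),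
          ((u i * u j : ℝ) : ℂ) * (mon (i - j) (fun j => c v (ρ (σ j))) : ℂ)) =
          ∑ σ : Equiv.Perm (Fin d), ∑ j ∈ u.support,
          ((u i * u j : ℝ) : ℂ) * (mon (i - j) (fun j => c v (ρ (σ j))) : ℂ) := fun i _ =>
        Finset.sum_comm
      rw [Finset.sum_congr rfl h3, Finset.sum_comm]
      refine Finset.sum_congr rfl fun σ _ => ?_
      rw [Complex.normSq_eq_conj_mul_self, mul_comm, map_sum, Finset.sum_mul_sum]
      refine Finset.sum_congr rfl fun i _ => Finset.sum_congr rfl fun j _ => ?_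
      rw [map_mul, Complex.conj_ofReal, sub_eq_add_neg, mon_add, mon_neg, Circle.coe_mul,
        Circle.coe_inv_eq_conj]
      push_cast
      ring
    have h2 : Tendsto (fun s : ℝ => (Es q s fun v => (h v : ℂ)).re) (𝓝[>] 1)
        (𝓝 (u.sum fun i x => u.sum fun j y => x * y * (a (i - j) : ℝ))) := by
      have h3 : Tendsto (fun s : ℝ => ∑ i ∈ u.support, ∑ j ∈ u.support, ((u i * u j : ℝ) : ℂ) *
          Es q s (so c ρ fun x => (mon (i - j) x : ℂ))) (𝓝[>] 1)
          (𝓝 (∑ i ∈ u.support, ∑ j ∈ u.support, ((u i * u j : ℝ) : ℂ) * (a (i - j) : ℂ))) :=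
        tendsto_finsetSum _ fun i _ => tendsto_finsetSum _ fun j _ => (ha _).const_mul _
      have h4 := (Complex.continuous_re.tendsto _).comp h3
      have h5 : (∑ i ∈ u.support, ∑ j ∈ u.support, ((u i * u j : ℝ) : ℂ) * (a (i - j) : ℂ)).re =
          u.sum fun i x => u.sum fun j y => x * y * (a (i - j) : ℝ) := by
        unfold Finsupp.sum
        rw [Complex.re_sum]
        refine Finset.sum_congr rfl fun i _ => ?_
        rw [Complex.re_sum]
        refine Finset.sum_congr rfl fun j _ => ?_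
        rw [Complex.re_ofReal_mul, Complex.intCast_re]
      rw [h5] at h4
      refine h4.congr' ?_
      filter_upwards [self_mem_nhdsWithin] with s hs
      simp only [Function.comp_apply]
      congr 1
      simp only [h1]
      symm
      have hB : ∀ i j v, ‖((u i * u j : ℝ) : ℂ) * so c ρ (fun x => (mon (i - j) x : ℂ)) v‖ ≤
          ‖((u i * u j : ℝ) : ℂ)‖ * ((Fintype.card (Equiv.Perm (Fin d)) : ℝ) * 1) := by
        intro i j v
        rw [norm_mul]
        exact mul_le_mul_of_nonneg_left (norm_so_mon c ρ _ v) (norm_nonneg _)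
      have hB1 : ∀ i j, i ∈ u.support → j ∈ u.support → ‖((u i * u j : ℝ) : ℂ)‖ ≤
          ∑ i ∈ u.support, ∑ j ∈ u.support, ‖((u i * u j : ℝ) : ℂ)‖ := by
        intro i j hi hj
        refine le_trans ?_ (Finset.single_le_sum (f := fun i => ∑ j ∈ u.support,
          ‖((u i * u j : ℝ) : ℂ)‖) (fun i _ => Finset.sum_nonneg fun j _ => norm_nonneg _) hi)
        exact Finset.single_le_sum (f := fun j => ‖((u i * u j : ℝ) : ℂ)‖)
          (fun j _ => norm_nonneg _) hj
      set B := ∑ i ∈ u.support, ∑ j ∈ u.support, ‖((u i * u j : ℝ) : ℂ)‖ with hBdef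
      have hcard : (0 : ℝ) ≤ (Fintype.card (Equiv.Perm (Fin d)) : ℝ) * 1 := by positivity
      rw [Es_sum hq hsum u.support (fun i v => ∑ j ∈ u.support, ((u i * u j : ℝ) : ℂ) *
        so c ρ (fun x => (mon (i - j) x : ℂ)) v)
        (B := (u.support.card : ℝ) * (B * ((Fintype.card (Equiv.Perm (Fin d)) : ℝ) * 1))) ?_ hs]
      · refine Finset.sum_congr rfl fun i hi => ?_
        rw [Es_sum hq hsum u.support (fun j v => ((u i * u j : ℝ) : ℂ) *
          so c ρ (fun x => (mon (i - j) x : ℂ)) v)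
          (B := B * ((Fintype.card (Equiv.Perm (Fin d)) : ℝ) * 1)) ?_ hs]
        · refine Finset.sum_congr rfl fun j _ => ?_
          rw [Es_mul]
        · intro j hj v
          exact (hB i j v).trans (mul_le_mul_of_nonneg_right (hB1 i j hi hj) hcard)
      · intro i hi v
        refine (norm_sum_le _ _).trans ?_
        refine (Finset.sum_le_card_nsmul _ _ (B * ((Fintype.card (Equiv.Perm (Fin d)) : ℝ) * 1))
          fun j hj => ?_).trans ?_
        · exact (hB i j v).trans (mul_le_mul_of_nonneg_right (hB1 i j hi hj) hcard)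
        · rw [nsmul_eq_mul]
    refine ge_of_tendsto h2 ?_
    filter_upwards [tendsto_log_atTop.eventually_gt_atTop 0] with s hl
    exact Es_nonneg hq (fun v => Finset.sum_nonneg fun σ _ => Complex.normSq_nonneg _) hl

/-- the integral against the law -/
noncomputable def integ (L : List (AddSubgroup (Fin d → ℤ) × ((Fin d → ℤ) →₀ ℤ)))
    (f : (Fin d → Circle) → ℂ) : ℂ :=
  (L.map fun D => haarInt (ann D.1) fun x => f x * ev D.2 x).sum

theorem integ_tp (L : List (AddSubgroup (Fin d → ℤ) × ((Fin d → ℤ) →₀ ℤ)))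
    (u : (Fin d → ℤ) →₀ ℂ) :
    integ L (tp u) = ∑ k ∈ u.support, u k * integ L fun x => (mon k x : ℂ) := by
  induction L with
  | nil => simp [integ]
  | cons D L ih =>
    unfold integ at ih ⊢
    simp only [List.map_cons, List.sum_cons, mul_add, Finset.sum_add_distrib]
    rw [ih]
    congr 1
    have h1 : (fun x : ann D.1 => tp u x * ev D.2 x) = fun x : ann D.1 =>
        ∑ k ∈ u.support, u k * ((mon k (x : Fin d → Circle) : ℂ) * ev D.2 x) := by
      funext x
      unfold tp Finsupp.sum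
      rw [Finset.sum_mul]
      exact Finset.sum_congr rfl fun k _ => by ring
    rw [h1, haarInt_sum]
    · exact Finset.sum_congr rfl fun k _ => haarInt_mul _ _ _
    · intro k _
      exact continuous_const.mul (((continuous_mon' _).mul (continuous_ev _)).comp
            continuous_subtype_val)

theorem integ_bound (L : List (AddSubgroup (Fin d → ℤ) × ((Fin d → ℤ) →₀ ℤ))) :
    ∃ K : ℝ, 0 ≤ K ∧ ∀ (f g : (Fin d → Circle) → ℂ), Continuous f → Continuous g → ∀ ε : ℝ,
      (∀ x, ‖f x - g x‖ ≤ ε) → ‖integ L f - integ L g‖ ≤ K * ε := by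
  induction L with
  | nil => exact ⟨0, le_rfl, fun f g _ _ ε _ => by simp [integ]⟩
  | cons D L ih =>
    obtain ⟨K, hK0, hK⟩ := ih
    obtain ⟨K', hK'⟩ := (isCompact_univ (X := Fin d → Circle)).exists_bound_of_continuousOn
      (continuous_ev D.2).continuousOn
    have hK'0 : 0 ≤ K' := (norm_nonneg _).trans (hK' 1 trivial)
    refine ⟨K' + K, by positivity, fun f g hf hg ε h => ?_⟩
    have h1 := hK f g hf hg ε h
    unfold integ at h1 ⊢
    simp only [List.map_cons, List.sum_cons]
    rw [add_sub_add_comm, add_mul]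
    refine (norm_add_le _ _).trans (add_le_add ?_ h1)
    rw [← haarInt_sub]
    · refine norm_haarInt_le _ fun x => ?_
      rw [← sub_mul, norm_mul, mul_comm K']
      exact mul_le_mul (h x) (hK' x trivial) (norm_nonneg _) ((norm_nonneg _).trans (h 1))
    · exact (hf.mul (continuous_ev _)).comp continuous_subtype_val
    · exact (hg.mul (continuous_ev _)).comp continuous_subtype_val

include hq hsum ha in
omit [AddCommGroup M] in
/-- equidistribution from the moments -/
theorem equi {L : List (AddSubgroup (Fin d → ℤ) × ((Fin d → ℤ) →₀ ℤ))}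
    (hL : ∀ k, (integ L fun x => (mon k x : ℂ)) = a k) {f : (Fin d → Circle) → ℂ}
    (hf : Continuous f) :
    Tendsto (fun s : ℝ => Es q s (so c ρ f)) (𝓝[>] 1) (𝓝 (integ L f)) := by
  obtain ⟨K, hK0, hK⟩ := integ_bound L
  rw [Metric.tendsto_nhds]
  intro ε hε
  -- the constant function
  set N : ℝ := (Fintype.card (Equiv.Perm (Fin d)) : ℝ) with hN
  have hNpos : 0 < N := by
    rw [hN]
    exact_mod_cast Fintype.card_pos
  have hconst : ∀ᶠ s : ℝ in 𝓝[>] 1, N * (Es q s fun _ => 1).re ≤ |(a 0 : ℝ)| + 1 := by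
    have h1 := (Complex.continuous_re.tendsto _).comp (ha 0)
    rw [Complex.intCast_re] at h1
    have h2 := h1.eventually (gt_mem_nhds (show (a 0 : ℝ) < |(a 0 : ℝ)| + 1 by
      linarith [le_abs_self (a 0 : ℝ)]))
    refine h2.mono fun s hs => ?_
    have h3 : Es q s (so c ρ fun x => (mon 0 x : ℂ)) = (N : ℂ) * Es q s fun _ => 1 := by
      rw [← Es_mul]
      congr 1
      funext v
      unfold so
      simp only [mon_zero, Circle.coe_one, Finset.sum_const, Finset.card_univ, nsmul_eq_mul]
      rw [hN]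
      push_cast
      rfl
    simp only [Function.comp_apply] at hs
    rw [h3, Complex.re_ofReal_mul] at hs
    exact hs.le
  set δ := ε / (2 * (K + |(a 0 : ℝ)| + 1)) with hδ
  have hδ0 : 0 < δ := by positivity
  obtain ⟨u, hu⟩ := approx ⟨f, hf⟩ hδ0
  have hu' : ∀ x, ‖f x - tp u x‖ < δ := hu
  -- the trigonometric polynomial
  have hlim : Tendsto (fun s : ℝ => Es q s (so c ρ (tp u))) (𝓝[>] 1) (𝓝 (integ L (tp u))) := by
    rw [integ_tp]
    simp only [hL]
    have h3 : Tendsto (fun s : ℝ => ∑ k ∈ u.support, u k * 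
        Es q s (so c ρ fun x => (mon k x : ℂ))) (𝓝[>] 1)
          (𝓝 (∑ k ∈ u.support, u k * (a k : ℂ))) :=
      tendsto_finsetSum _ fun i _ => (ha _).const_mul _
    refine h3.congr' ?_
    filter_upwards [self_mem_nhdsWithin] with s hs
    have h4 : so c ρ (tp u) = fun v => ∑ k ∈ u.support, u k * so c ρ (fun x => (mon k x : ℂ)) v := by
      funext v
      unfold so tp Finsupp.sum
      rw [Finset.sum_comm]
      exact Finset.sum_congr rfl fun k _ => by rw [Finset.mul_sum]
    rw [h4, Es_sum hq hsum u.support _ (B := (∑ k ∈ u.support, ‖u k‖) * (N * 1)) ?_ hs]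
    · exact Finset.sum_congr rfl fun k _ => (Es_mul _ _ _).symm
    · intro k hk v
      rw [norm_mul]
      refine mul_le_mul ?_ (norm_so_mon c ρ k v) (norm_nonneg _)
        (Finset.sum_nonneg fun _ _ => norm_nonneg _)
      exact Finset.single_le_sum (f := fun k => ‖u k‖) (fun _ _ => norm_nonneg _) hk
  obtain ⟨B, hB⟩ := (isCompact_univ (X := Fin d → Circle)).exists_bound_of_continuousOn
      hf.continuousOn
  obtain ⟨B', hB'⟩ := (isCompact_univ (X := Fin d → Circle)).exists_bound_of_continuousOn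
      (continuous_tp u).continuousOn
  have hε2 : 0 < ε / 2 := by positivity
  filter_upwards [hconst, (Metric.tendsto_nhds.mp hlim) (ε / 2) hε2, self_mem_nhdsWithin,
    tendsto_log_atTop.eventually_gt_atTop 0] with s h1 h2 hs hl
  rw [dist_eq_norm] at h2 ⊢
  have e1 : Es q s (so c ρ f) = Es q s (so c ρ fun x => f x - tp u x) + Es q s (so c ρ (tp u)) := by
    have h4 : so c ρ f = fun v => so c ρ (fun x => f x - tp u x) v + so c ρ (tp u) v := by
      funext v
      unfold so
      rw [← Finset.sum_add_distrib]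
      exact Finset.sum_congr rfl fun σ _ => by ring
    conv_lhs => rw [h4]
    exact Es_add hq hsum (norm_so_le (fun x => (hu' x).le)) (norm_so_le fun x => hB' x trivial) hs
  have e2 : ‖Es q s (so c ρ fun x => f x - tp u x)‖ ≤ δ * (|(a 0 : ℝ)| + 1) := by
    refine (norm_Es_le hq hsum (norm_so_le (fun x => (hu' x).le)) hs hl).trans ?_
    rw [← hN]
    calc N * δ * (Es q s fun _ => 1).re = δ * (N * (Es q s fun _ => 1).re) := by ring
      _ ≤ δ * (|(a 0 : ℝ)| + 1) := mul_le_mul_of_nonneg_left h1 hδ0.le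
  have e3 := hK f (tp u) hf (continuous_tp u) δ fun x => (hu' x).le
  have e4 : Es q s (so c ρ f) - integ L f = Es q s (so c ρ fun x => f x - tp u x) +
      (Es q s (so c ρ (tp u)) - integ L (tp u)) - (integ L f - integ L (tp u)) := by
    rw [e1]
    ring
  rw [e4]
  refine lt_of_le_of_lt ((norm_sub_le _ _).trans (add_le_add_left (norm_add_le _ _) _)) ?_
  have e5 : δ * (|(a 0 : ℝ)| + 1) + K * δ = ε / 2 := by
    rw [hδ]
    field_simp
    ring
  linarith

include hq hsum in
/-- **Equidistribution.** -/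
theorem law (hc0 : ∀ v, c v 0 = 1) (hcadd : ∀ v k l, c v (k + l) = c v k * c v l)
    (hG : ∀ I J : List ℕ, One q (fun v k => (c v k : ℂ))
      ((I.map fun i => (Finset.univ.val.map fun j => single (ρ j) (1 : ℤ)).esymm i).prod *
       (J.map fun i => (Finset.univ.val.map fun j => single (-ρ j) (1 : ℤ)).esymm i).prod)) :
    ∃ L : List (AddSubgroup (Fin d → ℤ) × ((Fin d → ℤ) →₀ ℤ)),
      (∀ D ∈ L, ∀ x ∈ ann D.1, (ev D.2 x).im = 0 ∧ 0 ≤ (ev D.2 x).re) ∧
      ∀ f : (Fin d → Circle) → ℂ, Continuous f →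
        Tendsto (fun s : ℝ => Es q s (so c ρ f)) (𝓝[>] 1) (𝓝 (integ L f)) := by
  choose a ha using exists_lim hq hsum hc0 hcadd ρ hG
  obtain ⟨L₀, hL₀, hL₀'⟩ := helson_cohen (pd_limit hq hsum ha)
  have key : ∀ L₀ : List ((Fin d → ℤ) → ℤ), (∀ b ∈ L₀, PD b ∧ Elem b) →
      ∃ L : List (AddSubgroup (Fin d → ℤ) × ((Fin d → ℤ) →₀ ℤ)),
        (∀ D ∈ L, ∀ x ∈ ann D.1, (ev D.2 x).im = 0 ∧ 0 ≤ (ev D.2 x).re) ∧
        ∀ k, (integ L fun x => (mon k x : ℂ)) = (((L₀.map fun b => b k).sum : ℤ) : ℂ) := by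
    intro L₀
    induction L₀ with
    | nil => exact fun _ => ⟨[], by simp, fun k => by simp [integ]⟩
    | cons b L₀ ih =>
      intro h
      obtain ⟨L, hL, hL'⟩ := ih fun b hb => h b (List.mem_cons_of_mem _ hb)
      obtain ⟨hb, hE⟩ := h b List.mem_cons_self
      obtain ⟨Γ, P, hP, him⟩ := exists_density hb hE
      refine ⟨(Γ, P) :: L, ?_, fun k => ?_⟩
      · intro D hD x hx
        rcases List.mem_cons.mp hD with rfl | hD
        · exact ⟨him x hx, density_nonneg hb hP him hx⟩
        · exact hL D hD x hx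
      · have h1 := hL' k
        unfold integ at h1 ⊢
        simp only [List.map_cons, List.sum_cons]
        rw [h1, hP]
        push_cast
        rfl
  obtain ⟨L, hL, hL'⟩ := key L₀ hL₀
  refine ⟨L, hL, fun f hf => equi hq hsum ha (fun k => ?_) hf⟩
  rw [hL', ← hL₀']

end law

end Pool.Agent.H506.LW
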