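import Pool.Agent.H506.Finite

/-!
# Finitely many classes of eigenvalues: finite order, the analytic part
-/

set_option autoImplicit false

namespace Pool.Agent.H506.SR

open Filter Topology Pool.Agent.H506.PS Pool.Agent.H506.SV

variable {V : Type}

theorem asq_zz_le {d : ℕ} (N : ℕ) {z : V → Fin d → ℂ} (hz : ∀ v j, ‖z v j‖ = 1) (v : V) (r : ℕ) :
    asq (mm d) (zz N z) v r ≤ (2 * d : ℝ) ^ 2 := by
  refine (asq_le (mm d) (norm_zz N hz) v r).trans (le_of_eq ?_)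
  congr 1
  unfold mm
  rw [Fintype.sum_sum_type]
  simp
  ring

theorem asq_zz_small {d : ℕ} (N : ℕ) {z : V → Fin d → ℂ} {v : V} {ε : ℝ}
    (h : ∀ j, ‖z v j ^ N - 1‖ ≤ ε) : asq (mm d) (zz N z) v 0 ≤ (d * ε) ^ 2 := by
  unfold asq
  rw [ps_zz]
  refine pow_le_pow_left₀ (norm_nonneg _) ?_ 2
  refine (norm_sum_le _ _).trans ?_
  have h1 : ∀ j ∈ (Finset.univ : Finset (Fin d)), ‖z v j ^ (N * (0 + 1)) - 1‖ ≤ ε := by
    intro j _
    rw [zero_add, mul_one]
    exact h j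
  have h2 := Finset.sum_le_card_nsmul _ _ _ h1
  rwa [nsmul_eq_mul, Finset.card_univ, Fintype.card_fin] at h2

/-- **Finite order**, analytic form. -/
theorem finite_order {q : V → ℝ} (hq : ∀ v, 2 ≤ q v)
    (hsum : ∀ s : ℝ, 1 < s → Summable fun v => q v ^ (-s)) {d : ℕ} {z : V → Fin d → ℂ}
    (hz : ∀ v j, ‖z v j‖ = 1) {W : Set V} (hW : ∀ s : ℝ, 0 < s → Conv (ind0 W) (len q) s)
    (hfin : {w : ℂ | ∃ v, v ∉ W ∧ ∃ j, z v j = w}.Finite)
    (hF : ∀ N : ℕ, 1 ≤ N → ∃ X : ℝ, X < 0 ∧ ∃ F : ℂ → ℂ,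
      (∀ x : ℝ, X < x → MeromorphicAt F (x : ℂ)) ∧ ∃ s₀ : ℝ, ∀ s : ℂ, s₀ < s.re →
        F s = Complex.exp (P (cf (asq (mm d) (zz N z)) 1 Set.univ) (len q) s)) :
    ∃ N : ℕ, 1 ≤ N ∧ {v | ∃ j, z v j ^ N ≠ 1}.Finite := by
  classical
  have hcount : Countable V := countable_of_sum hq hsum
  set Wt : Finset ℂ := hfin.toFinset with hWt
  have hmem : ∀ v, v ∉ W → ∀ j, z v j ∈ Wt := fun v hv j => by
    rw [hWt, Set.Finite.mem_toFinset]
    exact ⟨v, hv, j, rfl⟩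
  have hWn : ∀ w ∈ Wt, ‖w‖ = 1 := by
    intro w hw
    rw [hWt, Set.Finite.mem_toFinset] at hw
    obtain ⟨v, -, j, rfl⟩ := hw
    exact hz v j
  set N₀ : ℕ := ∏ w ∈ Wt.filter (fun w => IsOfFinOrder w), orderOf w with hN₀
  have hN₀1 : 1 ≤ N₀ := by
    refine Nat.one_le_iff_ne_zero.mpr (Finset.prod_ne_zero_iff.mpr fun w hw => ?_)
    exact (orderOf_pos_iff.mpr (Finset.mem_filter.mp hw).2).ne'
  have htor : ∀ w ∈ Wt, IsOfFinOrder w → w ^ N₀ = 1 := by
    intro w hw hw'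
    have h1 : orderOf w ∣ N₀ := Finset.dvd_prod_of_mem _ (Finset.mem_filter.mpr ⟨hw, hw'⟩)
    exact orderOf_dvd_iff_pow_eq_one.mp h1
  set E : Set V := {v | v ∉ W ∧ ∃ j, ¬IsOfFinOrder (z v j)} with hE
  -- the tuples take finitely many values
  have htup : (z '' Wᶜ).Finite := by
    refine Set.Finite.subset (Set.Finite.pi' (t := fun _ : Fin d => (Wt : Set ℂ))
      fun _ => Wt.finite_toSet) ?_
    rintro _ ⟨v, hv, rfl⟩ j
    exact hmem v hv j
  set B : ℝ := (2 * d : ℝ) ^ 2 with hB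
  have hB0 : 0 ≤ B := by positivity
  -- off `E`
  have hoff : ∀ n : ℕ, ∀ v, v ∉ E → v ∉ W → ∀ r, asq (mm d) (zz (N₀ * n) z) v r = 0 := by
    intro n v hv hvW r
    unfold asq
    rw [ps_zz, Finset.sum_eq_zero, norm_zero, zero_pow two_ne_zero]
    intro j _
    have h1 : IsOfFinOrder (z v j) := by
      by_contra hcon
      exact hv ⟨hvW, j, hcon⟩
    rw [mul_assoc, pow_mul, htor _ (hmem v hvW j) h1, one_pow, sub_self]
  -- on `E`
  have hon : ∀ n : ℕ, 1 ≤ n → ∀ v ∈ E, 0 < asq (mm d) (zz (N₀ * n) z) v 0 := by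
    intro n hn v hv
    unfold asq
    rw [ps_zz]
    refine pow_pos (norm_pos_iff.mpr (sum_ne_zero (w := fun j => z v j ^ (N₀ * n * (0 + 1)))
      (fun j => by rw [norm_pow, hz, one_pow]) ?_)) 2
    obtain ⟨-, j, hj⟩ := hv
    refine ⟨j, fun h => hj ?_⟩
    rw [isOfFinOrder_iff_pow_eq_one]
    refine ⟨N₀ * n * (0 + 1), ?_, h⟩
    have : 0 < N₀ * n := Nat.mul_pos hN₀1 hn
    omega
  -- the minimum
  have hmin : ∀ n : ℕ, 1 ≤ n → ∃ c : ℝ, 0 < c ∧ ∀ v ∈ E, c ≤ asq (mm d) (zz (N₀ * n) z) v 0 := by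
    intro n hn
    by_cases hEne : E.Nonempty
    swap
    · exact ⟨1, one_pos, fun v hv => absurd ⟨v, hv⟩ hEne⟩
    have h1 : ((fun v => asq (mm d) (zz (N₀ * n) z) v 0) '' E).Finite := by
      have h2 : ((fun w : Fin d → ℂ => ‖∑ j, (w j ^ (N₀ * n * (0 + 1)) - 1)‖ ^ 2) ''
          (z '' Wᶜ)).Finite := htup.image _
      refine h2.subset ?_
      rintro _ ⟨v, hv, rfl⟩
      refine ⟨z v, ⟨v, hv.1, rfl⟩, ?_⟩
      simp only [asq, ps_zz]
    obtain ⟨v₀, hv₀⟩ := hEne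
    obtain ⟨c, hc1, hc2'⟩ := Set.exists_min_image _ id h1 ⟨_, v₀, hv₀, rfl⟩
    have hc2 : ∀ v ∈ E, c ≤ asq (mm d) (zz (N₀ * n) z) v 0 := fun v hv => hc2' _ ⟨v, hv, rfl⟩
    obtain ⟨v₁, hv₁, rfl⟩ := hc1
    exact ⟨_, hon n hn v₁ hv₁, hc2⟩
  have hc0 : ∀ n : ℕ, ∀ a, 0 ≤ cf (asq (mm d) (zz (N₀ * n) z)) 1 Set.univ a := fun n =>
    cf_nonneg (asq_nonneg _ _) 1 _
  have hl := len_nonneg hq
  -- upper bound
  have hup : ∀ n : ℕ, ∀ η : ℝ, 0 ≤ η → (∀ v, v ∉ W → asq (mm d) (zz (N₀ * n) z) v 0 ≤ η) → ∀ a,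
      cf (asq (mm d) (zz (N₀ * n) z)) 1 Set.univ a ≤
        1 * (η * ind0 E a + B * ind E 1 a) + B * ind W 0 a := by
    rintro n η hη h ⟨v, r⟩
    have h3 := ind0_nonneg E (v, r)
    have h4 := ind_nonneg E 1 (v, r)
    have h5 := asq_zz_le (N₀ * n) hz v r
    have h6 : asq (mm d) (zz (N₀ * n) z) v r / (r + 1) ≤ asq (mm d) (zz (N₀ * n) z) v r :=
      div_le_self (asq_nonneg _ _ _ _) (by
        have : (0 : ℝ) ≤ r := Nat.cast_nonneg _
        linarith)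
    rw [← hB] at h5
    have h7 := mul_nonneg hη h3
    have h8 := mul_nonneg hB0 h4
    rw [one_mul]
    by_cases hvW : v ∈ W
    · have h9 : ind W 0 (v, r) = 1 := if_pos ⟨hvW, Nat.zero_le r⟩
      rw [h9]
      unfold cf
      rw [if_pos (Set.mem_univ _), pow_one]
      simp only
      linarith
    · have h9 : ind W 0 (v, r) = 0 := if_neg fun h => hvW h.1
      rw [h9, mul_zero, add_zero]
      by_cases hv : v ∈ E
      · unfold cf ind0 ind
        rw [if_pos (Set.mem_univ _), pow_one]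
        simp only
        rcases Nat.eq_zero_or_pos r with hr | hr
        · subst hr
          rw [if_pos ⟨hv, rfl⟩, if_neg (by omega)]
          have := h v hvW
          simp
          linarith
        · rw [if_neg (by omega), if_pos ⟨hv, hr⟩]
          linarith
      · have h5 : cf (asq (mm d) (zz (N₀ * n) z)) 1 Set.univ (v, r) = 0 := by
          unfold cf
          rw [if_pos (Set.mem_univ _)]
          simp only [hoff n v hv hvW r]
          simp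
        rw [h5]
        positivity
  have hlow : ∀ n : ℕ, ∀ c : ℝ, (∀ v ∈ E, c ≤ asq (mm d) (zz (N₀ * n) z) v 0) → ∀ a,
      c * ind0 E a ≤ cf (asq (mm d) (zz (N₀ * n) z)) 1 Set.univ a := by
    rintro n c h ⟨v, r⟩
    by_cases hv : v ∈ E ∧ r = 0
    · obtain ⟨hv, hr⟩ := hv
      subst hr
      unfold cf ind0
      rw [if_pos (Set.mem_univ _), pow_one, if_pos ⟨hv, rfl⟩]
      have := h v hv
      simp
      linarith
    · have h1 : ind0 E (v, r) = 0 := if_neg hv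
      rw [h1, mul_zero]
      exact hc0 n _
  -- the abscissa
  set A : Set ℝ := {s | 0 < s ∧ Conv (ind0 E) (len q) s} with hA
  have hA2 : (2 : ℝ) ∈ A := by
    refine ⟨by norm_num, ?_⟩
    refine conv_of_bound hq hsum (ind0_nonneg E) (N := 1) (B := 0) (fun a => ?_) (by norm_num)
    unfold ind0
    split_ifs <;> simp
  have hAbdd : BddBelow A := ⟨0, fun s hs => hs.1.le⟩
  set h : ℝ := sInf A with hh
  have hh0' : 0 ≤ h := Real.sInf_nonneg fun s hs => hs.1.le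
  have hconv : ∀ s : ℝ, h < s → Conv (ind0 E) (len q) s := by
    intro s hs
    obtain ⟨s', hs', hs's⟩ := exists_lt_of_csInf_lt ⟨_, hA2⟩ hs
    exact Conv.mono (ind0_nonneg E) hl hs'.2 hs's.le
  have hnot : ∀ s : ℝ, 0 < s → s < h → ¬ Conv (ind0 E) (len q) s := by
    intro s hs0 hs hcon
    exact absurd (csInf_le hAbdd (show s ∈ A from ⟨hs0, hcon⟩)) (not_le.mpr hs)
  have hη1 : ∀ n : ℕ, ∀ v, v ∉ W → asq (mm d) (zz (N₀ * n) z) v 0 ≤ B := fun n v _ =>
    asq_zz_le (N₀ * n) hz v 0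
  have hWc : ∀ s : ℝ, 0 < s → Conv (ind W 0) (len q) s := fun s hs => by
    refine conv_ind hq hs ?_
    simpa using hW s hs
  have hconvN : ∀ n : ℕ, ∀ s : ℝ, 0 < s → h < s →
      Conv (cf (asq (mm d) (zz (N₀ * n) z)) 1 Set.univ) (len q) s := by
    intro n s hs0 hs
    have h1 : Conv (ind E 1) (len q) s := by
      refine conv_ind hq hs0 ?_
      refine Conv.mono (ind0_nonneg E) hl (hconv s hs) ?_
      push_cast
      linarith
    exact Conv.of_le (hc0 n) (hup n B hB0 (hη1 n))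
      (R_lin 1 B (R_lin B B (hconv s hs) h1).1 (hWc s hs0)).1
  rcases hh0'.eq_or_lt with h0 | hh0
  · -- convergence for all positive `s`
    obtain ⟨X, hX, F, hF1, hF2⟩ := hF (N₀ * 1) (by omega)
    have h2 := finite_of_conv hq hsum (mm d) (norm_zz (N₀ * 1) hz) hX hF1 hF2
      (fun s hs => hconvN 1 s hs (by rw [← h0]; exact hs))
    refine ⟨N₀, hN₀1, h2.subset fun v hv => ⟨0, ?_⟩⟩
    unfold asq
    rw [ps_zz]
    refine (pow_pos (norm_pos_iff.mpr (sum_ne_zero (w := fun j => z v j ^ (N₀ * 1 * (0 + 1)))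
      (fun j => by rw [norm_pow, hz, one_pow]) ?_)) 2).ne'
    simpa using hv
  exfalso
  -- the order of the pole
  have hpole : ∀ n : ℕ, 1 ≤ n → ∃ M : ℕ, 1 ≤ M ∧ ∃ C : ℝ, ∀ᶠ s : ℝ in 𝓝[>] h,
      |R (cf (asq (mm d) (zz (N₀ * n) z)) 1 Set.univ) (len q) s - M * Real.log (1 / (s - h))| ≤ C := by
    intro n hn
    obtain ⟨X, hX, F, hF1, hF2⟩ := hF (N₀ * n) (Nat.mul_pos hN₀1 hn)
    have hcv : ∀ s : ℝ, h < s → Conv (cf (asq (mm d) (zz (N₀ * n) z)) 1 Set.univ) (len q) s :=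
      fun s hs => hconvN n s (hh0.trans hs) hs
    obtain ⟨M, hM1, hM2⟩ := pole (hc0 n) hl hcv (hF1 h (hX.trans hh0))
      (ident_right (hc0 n) hl hcv (fun x hx => hF1 x (by linarith)) hF2)
    refine ⟨M, ?_, hM1⟩
    by_contra hcon
    obtain ⟨s, hs, hs'⟩ := hM2 (by omega)
    obtain ⟨c, hc, hcle⟩ := hmin n hn
    -- convergence at `max s (h / 2)`
    have h1 : Conv (cf (asq (mm d) (zz (N₀ * n) z)) 1 Set.univ) (len q) (max s (h / 2)) :=
      Conv.mono (hc0 n) hl hs' (le_max_left _ _)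
    have h2 : Conv (fun a => c * ind0 E a) (len q) (max s (h / 2)) :=
      Conv.of_le (fun a => mul_nonneg hc.le (ind0_nonneg E a)) (hlow n c hcle) h1
    have h3 : Conv (ind0 E) (len q) (max s (h / 2)) := by
      have h4 := (R_lin (q := q) (1 / c) 0 h2 h2).1
      unfold Conv at h4 ⊢
      refine h4.congr fun a => ?_
      field_simp
      ring
    exact hnot _ (lt_of_lt_of_le (by linarith) (le_max_right _ _)) (max_lt hs (by linarith)) h3
  obtain ⟨M₀, hM₀, C₀, hC₀⟩ := hpole 1 le_rfl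
  obtain ⟨c, hc, hcle⟩ := hmin 1 le_rfl
  -- choice of `n`
  have hM₀' : (0 : ℝ) < M₀ := by exact_mod_cast hM₀
  obtain ⟨ε, hε, hεle⟩ : ∃ ε : ℝ, 0 < ε ∧ (d * ε) ^ 2 ≤ c / (2 * M₀) := by
    have h1 : Tendsto (fun ε : ℝ => (d * ε) ^ 2) (𝓝[>] 0) (𝓝 0) := by
      have h2 : Tendsto (fun ε : ℝ => (d * ε) ^ 2) (𝓝 0) (𝓝 ((d * 0) ^ 2)) :=
        (by fun_prop : Continuous fun ε : ℝ => (d * ε) ^ 2).tendsto 0
      rw [mul_zero, zero_pow two_ne_zero] at h2
      exact h2.mono_left nhdsWithin_le_nhds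
    have h3 : 0 < c / (2 * M₀) := by positivity
    obtain ⟨ε, h4, h5⟩ := ((h1.eventually (gt_mem_nhds h3)).and self_mem_nhdsWithin).exists
    exact ⟨ε, h5, h4.le⟩
  obtain ⟨n, hn, hnε⟩ : ∃ n : ℕ, 1 ≤ n ∧ ∀ w ∈ Wt, ‖w ^ (N₀ * n) - 1‖ ≤ ε := by
    have h1 := recurrence (fun w : Wt => (w : ℂ) ^ N₀) (fun w => by
      rw [norm_pow, hWn w w.2, one_pow])
    have h2 : ∀ᶠ x : Wt → ℂ in 𝓝 (fun _ => (1 : ℂ)), ∀ w, ‖x w - 1‖ < ε := by
      rw [eventually_all]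
      intro w
      have h3 : Tendsto (fun x : Wt → ℂ => ‖x w - 1‖) (𝓝 (fun _ => (1 : ℂ))) (𝓝 ‖(1 : ℂ) - 1‖) :=
        (by fun_prop : Continuous fun x : Wt → ℂ => ‖x w - 1‖).tendsto _
      rw [sub_self, norm_zero] at h3
      exact h3.eventually (gt_mem_nhds hε)
    have h3 := (h1.frequently h2).and_eventually (eventually_ge_atTop 1)
    obtain ⟨n, hn1, hn2⟩ := h3.exists
    refine ⟨n, hn2, fun w hw => ?_⟩
    have := hn1 ⟨w, hw⟩
    rw [pow_mul]
    exact this.le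
  have hη : ∀ v, v ∉ W → asq (mm d) (zz (N₀ * n) z) v 0 ≤ c / (2 * M₀) := fun v hv =>
    (asq_zz_small (N₀ * n) fun j => hnε _ (hmem v hv j)).trans hεle
  obtain ⟨M, hM, C, hC⟩ := hpole n hn
  have hM' : (1 : ℝ) ≤ M := by exact_mod_cast hM
  have h1conv : Conv (ind E 1) (len q) h := by
    refine conv_ind hq hh0 (hconv _ ?_)
    push_cast
    linarith
  set C₁ : ℝ := B * R (ind E 1) (len q) h + B * R (ind W 0) (len q) h with hC₁
  have hlog : Tendsto (fun s : ℝ => Real.log (1 / (s - h))) (𝓝[>] h) atTop := by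
    have h1 : Tendsto (fun s : ℝ => s - h) (𝓝[>] h) (𝓝[>] 0) := by
      refine tendsto_nhdsWithin_iff.mpr ⟨?_, ?_⟩
      · have : Tendsto (fun s : ℝ => s - h) (𝓝 h) (𝓝 (h - h)) := (continuous_sub_right h).tendsto h
        rw [sub_self] at this
        exact this.mono_left nhdsWithin_le_nhds
      · filter_upwards [self_mem_nhdsWithin] with s hs
        have hs' : h < s := hs
        exact sub_pos.mpr hs'
    exact Data.tendsto_log_one_div.comp h1
  obtain ⟨s, e1, e2, e3, e4⟩ := (hC₀.and (hC.and (hlog.eventually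
    (eventually_gt_atTop (2 * (C + C₁ + C₀ / (2 * M₀)))) |>.and self_mem_nhdsWithin))).exists
  have hs : h < s := e4
  have hs0 : 0 < s := hh0.trans hs
  set L : ℝ := Real.log (1 / (s - h)) with hL
  have h1s : Conv (ind E 1) (len q) s := Conv.mono (ind_nonneg E 1) hl h1conv hs.le
  -- upper bound for the sum with `n`
  have u1 : R (cf (asq (mm d) (zz (N₀ * n) z)) 1 Set.univ) (len q) s ≤
      c / (2 * M₀) * R (ind0 E) (len q) s + B * R (ind E 1) (len q) s +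
        B * R (ind W 0) (len q) s := by
    obtain ⟨a1, a2⟩ := R_lin (q := q) (c / (2 * M₀)) B (hconv s hs) h1s
    obtain ⟨a3, a4⟩ := R_lin (q := q) 1 B a1 (hWc s hs0)
    rw [← a2, ← one_mul (R (fun x => c / (2 * M₀) * ind0 E x + B * ind E 1 x) (len q) s), ← a4]
    exact R_mono (hc0 n) (hup n _ (by positivity) hη) a3
  have u2 : R (ind E 1) (len q) s ≤ R (ind E 1) (len q) h := by
    refine h1s.tsum_le_tsum (fun a => ?_) h1conv
    refine mul_le_mul_of_nonneg_left (Real.exp_le_exp.mpr ?_) (ind_nonneg E 1 a)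
    have := mul_le_mul_of_nonneg_left hs.le (hl a)
    linarith
  have u2' : R (ind W 0) (len q) s ≤ R (ind W 0) (len q) h := by
    refine (hWc s hs0).tsum_le_tsum (fun a => ?_) (hWc h hh0)
    refine mul_le_mul_of_nonneg_left (Real.exp_le_exp.mpr ?_) (ind_nonneg W 0 a)
    have := mul_le_mul_of_nonneg_left hs.le (hl a)
    linarith
  have u3 : c * R (ind0 E) (len q) s ≤
      R (cf (asq (mm d) (zz (N₀ * 1) z)) 1 Set.univ) (len q) s := by
    obtain ⟨a1, a2⟩ := R_lin (q := q) c 0 (hconv s hs) (hconv s hs)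
    rw [zero_mul, add_zero] at a2
    rw [← a2]
    refine R_mono (fun a => ?_) (fun a => ?_) (hconvN 1 s hs0 hs)
    · rw [zero_mul, add_zero]
      exact mul_nonneg hc.le (ind0_nonneg E a)
    · rw [zero_mul, add_zero]
      exact hlow 1 c hcle a
  rw [abs_le] at e1 e2
  have u4 : B * R (ind E 1) (len q) s + B * R (ind W 0) (len q) s ≤ C₁ :=
    add_le_add (mul_le_mul_of_nonneg_left u2 hB0) (mul_le_mul_of_nonneg_left u2' hB0)
  have u5 : c / (2 * M₀) * R (ind0 E) (len q) s ≤ 1 / (2 * M₀) * (M₀ * L + C₀) := by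
    have u6 : c * R (ind0 E) (len q) s ≤ M₀ * L + C₀ := by linarith [e1.2]
    have u7 := mul_le_mul_of_nonneg_left u6 (show 0 ≤ 1 / (2 * (M₀ : ℝ)) by positivity)
    calc c / (2 * M₀) * R (ind0 E) (len q) s = 1 / (2 * M₀) * (c * R (ind0 E) (len q) s) := by ring
      _ ≤ _ := u7
  have u8 : 1 / (2 * (M₀ : ℝ)) * (M₀ * L + C₀) = L / 2 + C₀ / (2 * M₀) := by
    field_simp
  have hLpos : 0 ≤ L := by
    have h0 : 0 ≤ C := by linarith [e2.1, e2.2]
    have h1 : 0 ≤ C₀ := by linarith [e1.1, e1.2]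
    have h2 : 0 ≤ C₁ := add_nonneg (mul_nonneg hB0 (R_nonneg (ind_nonneg E 1) h))
      (mul_nonneg hB0 (R_nonneg (ind_nonneg W 0) h))
    have h3 : 0 ≤ C₀ / (2 * M₀) := by positivity
    linarith
  have u9 : L ≤ M * L := by
    have := mul_le_mul_of_nonneg_right hM' hLpos
    linarith
  linarith [e2.1]

end Pool.Agent.H506.SR
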