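import Pool.Agent.H506.Relations

/-!
# Finitely many classes of eigenvalues: finite order
-/

set_option autoImplicit false

namespace Pool.Agent.H506.SR

open Filter Topology Pool.Agent.H506.PS Pool.Agent.H506.SV

variable {V : Type}

theorem countable_of_sum {q : V → ℝ} (hq : ∀ v, 2 ≤ q v)
    (hsum : ∀ s : ℝ, 1 < s → Summable fun v => q v ^ (-s)) : Countable V := by
  have h1 := (hsum 2 (by norm_num)).countable_support
  have h2 : Function.support (fun v => q v ^ (-(2 : ℝ))) = Set.univ := by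
    ext v
    simp only [Function.mem_support, Set.mem_univ, iff_true]
    exact (Real.rpow_pos_of_pos (by linarith [hq v]) _).ne'
  rw [h2] at h1
  exact Set.countable_univ_iff.mp h1

/-- if the sum converges for all positive `s` then only finitely many places contribute -/
theorem finite_of_conv {q : V → ℝ} (hq : ∀ v, 2 ≤ q v)
    (hsum : ∀ s : ℝ, 1 < s → Summable fun v => q v ^ (-s)) {J : Type} [Fintype J] (m : J → ℤ)
    {z : V → J → ℂ} (hz : ∀ v j, ‖z v j‖ = 1) {X : ℝ} (hX : X < 0) {F : ℂ → ℂ}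
    (hF : ∀ x : ℝ, X < x → MeromorphicAt F (x : ℂ))
    (hFP : ∃ s₀ : ℝ, ∀ s : ℂ, s₀ < s.re →
      F s = Complex.exp (P (cf (asq m z) 1 Set.univ) (len q) s))
    (hconv : ∀ s : ℝ, 0 < s → Conv (cf (asq m z) 1 Set.univ) (len q) s) :
    {v | ∃ r, asq m z v r ≠ 0}.Finite := by
  classical
  have hcount : Countable V := countable_of_sum hq hsum
  by_contra hinf
  set E : Set V := {v | ∃ r, asq m z v r ≠ 0} with hE
  have hc0 : ∀ W : Set V, ∀ a, 0 ≤ cf (asq m z) 1 W a := fun W => cf_nonneg (asq_nonneg m z) 1 W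
  obtain ⟨M, ⟨C, hM⟩, -⟩ := pole (hc0 Set.univ) (len_nonneg hq) hconv (hF 0 hX)
    (ident_right (hc0 Set.univ) (len_nonneg hq) hconv (fun x hx => hF x (by linarith)) hFP)
  obtain ⟨A, hAE, hAcard⟩ := Set.Infinite.exists_subset_card_eq hinf (M + 1)
  have hconvv : ∀ v, ∀ s : ℝ, 0 < s → Conv (cf (asq m z) 1 {v}) (len q) s := fun v s hs =>
    Conv.of_le (hc0 _) (fun a => cf_mono (asq_nonneg m z) 1 (Set.subset_univ _) a) (hconv s hs)
  have hlocal : ∀ v ∈ A, ∃ C : ℝ, ∀ᶠ s : ℝ in 𝓝[>] 0,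
      Real.log (1 / s) - C ≤ R (cf (asq m z) 1 {v}) (len q) s := fun v hv =>
    local_pole hq m hz (hAE hv) (hconvv v)
  choose! Cv hCv using hlocal
  have hall : ∀ᶠ s : ℝ in 𝓝[>] 0, ∀ v ∈ A,
      Real.log (1 / s) - Cv v ≤ R (cf (asq m z) 1 {v}) (len q) s :=
    (Filter.eventually_all_finset A).mpr hCv
  have hmem : ∀ᶠ s : ℝ in 𝓝[>] 0, s ∈ Set.Ioi (0 : ℝ) := self_mem_nhdsWithin
  obtain ⟨s, h1, h2, h3, h4⟩ := (hall.and (hM.and (hmem.and
    (Data.tendsto_log_one_div.eventually (eventually_gt_atTop (C + ∑ v ∈ A, Cv v)))))).exists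
  have hs : (0 : ℝ) < s := h3
  rw [sub_zero, abs_le] at h2
  have h5 : ∑ v ∈ A, R (cf (asq m z) 1 {v}) (len q) s ≤ R (cf (asq m z) 1 Set.univ) (len q) s := by
    refine R_add_le A _ (fun v => hc0 _) (fun a => ?_) (hconv s hs)
    by_cases h6 : a.1 ∈ A
    · rw [Finset.sum_eq_single a.1]
      · exact cf_mono (asq_nonneg m z) 1 (Set.subset_univ _) a
      · intro v _ hv
        unfold cf
        rw [if_neg]
        intro h7
        exact hv (Set.mem_singleton_iff.mp h7).symm
      · intro h7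
        exact absurd h6 h7
    · rw [Finset.sum_eq_zero]
      · exact hc0 _ _
      · intro v hv
        unfold cf
        rw [if_neg]
        intro h7
        have h8 : a.1 = v := h7
        exact h6 (h8 ▸ hv)
  have h6 := Finset.sum_le_sum h1
  rw [Finset.sum_sub_distrib, Finset.sum_const, hAcard, nsmul_eq_mul] at h6
  push_cast at h6
  linarith [h2.2]

open scoped Classical in
/-- the indicator of the pairs `(v, r)` with `v ∈ E` and `k ≤ r` -/
noncomputable def ind (E : Set V) (k : ℕ) (x : V × ℕ) : ℝ := if x.1 ∈ E ∧ k ≤ x.2 then 1 else 0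

open scoped Classical in
/-- the indicator of the pairs `(v, 0)` with `v ∈ E` -/
noncomputable def ind0 (E : Set V) (x : V × ℕ) : ℝ := if x.1 ∈ E ∧ x.2 = 0 then 1 else 0

theorem ind_nonneg (E : Set V) (k : ℕ) (x : V × ℕ) : 0 ≤ ind E k x := by
  unfold ind
  split_ifs <;> norm_num

theorem ind0_nonneg (E : Set V) (x : V × ℕ) : 0 ≤ ind0 E x := by
  unfold ind0
  split_ifs <;> norm_num

theorem conv_ind {q : V → ℝ} (hq : ∀ v, 2 ≤ q v) {E : Set V} {k : ℕ} {s : ℝ} (hs : 0 < s)
    (h : Conv (ind0 E) (len q) ((k + 1) * s)) : Conv (ind E k) (len q) s := by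
  classical
  have hinj : Function.Injective fun v : V => (v, (0 : ℕ)) := fun v w h => (Prod.mk.inj h).1
  have h1 : Summable fun v : V => ind0 E (v, 0) * Real.exp (-(len q (v, 0) * ((k + 1) * s))) :=
    Summable.comp_injective (f := fun x : V × ℕ => ind0 E x * Real.exp (-(len q x * ((k + 1) * s))))
      h hinj
  have h2 : Summable fun r : ℕ => Real.exp (k * s * Real.log 2) * (Real.exp (-(s * Real.log 2))) ^ r := by
    refine Summable.mul_left _ (summable_geometric_of_lt_one (Real.exp_nonneg _) ?_)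
    rw [Real.exp_lt_one_iff]
    have := Real.log_pos (show (1 : ℝ) < 2 by norm_num)
    have := mul_pos hs this
    linarith
  have h3 := h1.mul_of_nonneg h2 (fun v => mul_nonneg (ind0_nonneg _ _) (Real.exp_nonneg _))
    (fun r => by positivity)
  refine Summable.of_nonneg_of_le (fun x => mul_nonneg (ind_nonneg _ _ _) (Real.exp_nonneg _))
    (fun x => ?_) h3
  unfold ind ind0
  by_cases hx : x.1 ∈ E ∧ k ≤ x.2
  · rw [if_pos hx, if_pos ⟨hx.1, rfl⟩, one_mul, one_mul, ← Real.exp_nat_mul, ← Real.exp_add,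
      ← Real.exp_add]
    refine Real.exp_le_exp.mpr ?_
    have h4 : Real.log 2 ≤ Real.log (q x.1) := Real.log_le_log (by norm_num) (hq x.1)
    have h5 : (k : ℝ) ≤ x.2 := by exact_mod_cast hx.2
    have h6 : 0 ≤ (x.2 - k : ℝ) * s := mul_nonneg (by linarith) hs.le
    have h7 := mul_le_mul_of_nonneg_left h4 h6
    unfold len
    push_cast
    nlinarith
  · rw [if_neg hx, zero_mul]
    positivity

theorem R_mono {q : V → ℝ} {c c' : V × ℕ → ℝ} (h0 : ∀ a, 0 ≤ c a) (h : ∀ a, c a ≤ c' a) {s : ℝ}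
    (hc : Conv c' (len q) s) : R c (len q) s ≤ R c' (len q) s :=
  (Conv.of_le h0 h hc).tsum_le_tsum (fun a => mul_le_mul_of_nonneg_right (h a) (Real.exp_nonneg _)) hc

theorem R_lin {q : V → ℝ} {c c' : V × ℕ → ℝ} {s : ℝ} (a b : ℝ) (hc : Conv c (len q) s)
    (hc' : Conv c' (len q) s) :
    Conv (fun x => a * c x + b * c' x) (len q) s ∧
    R (fun x => a * c x + b * c' x) (len q) s = a * R c (len q) s + b * R c' (len q) s := by
  have h1 : HasSum (fun x => c x * Real.exp (-(len q x * s))) (R c (len q) s) := Summable.hasSum hc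
  have h2 : HasSum (fun x => c' x * Real.exp (-(len q x * s))) (R c' (len q) s) :=
    Summable.hasSum hc'
  have h3 := (h1.mul_left a).add (h2.mul_left b)
  have h4 : (fun x => (a * c x + b * c' x) * Real.exp (-(len q x * s))) =
      fun x => a * (c x * Real.exp (-(len q x * s))) + b * (c' x * Real.exp (-(len q x * s))) := by
    funext x
    ring
  constructor
  · unfold Conv
    rw [h4]
    exact h3.summable
  · unfold R
    rw [h4]
    exact h3.tsum_eq

/-- the multiplicities of the virtual representation `ψ^N ρ - d` -/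
def mm (d : ℕ) : Fin d ⊕ Unit → ℤ := Sum.elim (fun _ => 1) (fun _ => -(d : ℤ))

/-- the eigenvalues of the virtual representation `ψ^N ρ - d` -/
noncomputable def zz {d : ℕ} (N : ℕ) (z : V → Fin d → ℂ) (v : V) : Fin d ⊕ Unit → ℂ :=
  Sum.elim (fun j => z v j ^ N) (fun _ => 1)

theorem norm_zz {d : ℕ} (N : ℕ) {z : V → Fin d → ℂ} (hz : ∀ v j, ‖z v j‖ = 1) (v : V)
    (j : Fin d ⊕ Unit) : ‖zz N z v j‖ = 1 := by
  unfold zz
  rcases j with j | j
  · simp [hz]
  · simp

theorem ps_zz {d : ℕ} (N : ℕ) (z : V → Fin d → ℂ) (v : V) (r : ℕ) :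
    ps (mm d) (zz N z v) r = ∑ j, (z v j ^ (N * r) - 1) := by
  unfold ps mm zz
  rw [Fintype.sum_sum_type]
  simp only [Sum.elim_inl, Sum.elim_inr, Finset.univ_unique, Finset.sum_singleton, one_pow,
    mul_one, Int.cast_one, one_mul, Int.cast_neg, Int.cast_natCast]
  rw [Finset.sum_sub_distrib, Finset.sum_const, Finset.card_univ, Fintype.card_fin, nsmul_eq_mul,
    mul_one, ← sub_eq_add_neg]
  congr 1
  refine Finset.sum_congr rfl fun j _ => ?_
  rw [pow_mul]

theorem sum_ne_zero {d : ℕ} {w : Fin d → ℂ} (hw : ∀ j, ‖w j‖ = 1) (h : ∃ j, w j ≠ 1) :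
    ∑ j, (w j - 1) ≠ 0 := by
  obtain ⟨j, hj⟩ := h
  intro h0
  have h1 : ∑ j, (1 - (w j).re) = 0 := by
    have := congrArg Complex.re h0
    rw [Complex.re_sum] at this
    simp only [Complex.sub_re, Complex.one_re, Complex.zero_re] at this
    have h2 : ∑ j, (1 - (w j).re) = -∑ j, ((w j).re - 1) := by
      rw [← Finset.sum_neg_distrib]
      exact Finset.sum_congr rfl fun j _ => by ring
    rw [h2, this, neg_zero]
  have h2 : ∀ j, 0 ≤ 1 - (w j).re := fun j => by
    have := Complex.re_le_norm (w j)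
    rw [hw j] at this
    linarith
  have h3 := (Finset.sum_eq_zero_iff_of_nonneg fun j _ => h2 j).mp h1 j (Finset.mem_univ j)
  apply hj
  have h4 : (w j).re = 1 := by linarith
  have h5 : (w j).im = 0 := by
    have h6 : ‖w j‖ ^ 2 = (w j).re ^ 2 + (w j).im ^ 2 := by
      rw [← Complex.normSq_eq_norm_sq, Complex.normSq_apply]; ring
    rw [hw j, h4] at h6
    have : (w j).im ^ 2 = 0 := by linarith
    exact pow_eq_zero_iff (two_ne_zero) |>.mp this
  exact Complex.ext h4 h5

end Pool.Agent.H506.SR
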