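import Pool.Agent.H506.Equi2

/-!
# The gap theorem
-/

set_option autoImplicit false

namespace Pool.Agent.H506.LW

open Filter Topology Pool.Agent.H506.SR Pool.Agent.H506.TR Pool.Agent.H506.CO Pool.Agent.H506.PS
  Pool.Agent.H506.SV

open AddMonoidAlgebra (single)

variable {V M : Type} [AddCommGroup M]

section one

variable {q : V → ℝ} (hq : ∀ v, 2 ≤ q v) (hsum : ∀ s : ℝ, 1 < s → Summable fun v => q v ^ (-s))
  (w : V → Circle)

/-- powers of one number -/
noncomputable def pw (w : V → Circle) (v : V) (k : ℤ) : Circle := w v ^ k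

theorem pw_zero (v : V) : pw w v 0 = 1 := zpow_zero _

theorem pw_add (v : V) (k l : ℤ) : pw w v (k + l) = pw w v k * pw w v l := zpow_add _ _ _

theorem coe_pw (v : V) (k : ℤ) : (pw w v k : ℂ) = (w v : ℂ) ^ k := Circle.coe_zpow _ _

/-- the virtual character `(t^N - 1) (t^{-N} - 1)` -/
noncomputable def chi (N : ℕ) : AddMonoidAlgebra ℤ ℤ :=
  (single (N : ℤ) (1 : ℤ) - 1) * (single (-(N : ℤ)) (1 : ℤ) - 1)

theorem lg_chi (N : ℕ) (v : V) : lg (fun k => (pw w v k : ℂ)) (chi N) =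
    ((‖(w v : ℂ) ^ N - 1‖ ^ 2 : ℝ) : ℂ) := by
  rw [← evh_eq (pw_zero w v) (pw_add w v)]
  have h1 : ∀ k : ℤ, evh (pw_zero w v) (pw_add w v) (single k (1 : ℤ)) = (w v : ℂ) ^ k := by
    intro k
    rw [evh_eq, lg_single, Int.cast_one, one_mul, coe_pw]
  rw [chi, map_mul, map_sub, map_sub, map_one, h1, h1]
  have h2 : (w v : ℂ) ^ (-(N : ℤ)) - 1 = (starRingEnd ℂ) ((w v : ℂ) ^ N - 1) := by
    rw [map_sub, map_pow, map_one, ← Circle.coe_inv_eq_conj, zpow_neg, zpow_natCast, Circle.coe_inv,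
      inv_pow]
  rw [h2, zpow_natCast, Complex.mul_conj, Complex.normSq_eq_norm_sq]

include hq hsum in
/-- the positive Dirichlet series -/
theorem P_chi (N : ℕ) {s : ℂ} (hs : 1 < s.re) :
    ∑' v, lv q (fun v k => (pw w v k : ℂ)) s v (chi N) =
      P (cf (asq (mm 1) (zz N fun v (_ : Fin 1) => (w v : ℂ))) 1 Set.univ) (len q) s := by
  set z : V → Fin 1 → ℂ := fun v _ => (w v : ℂ) with hz
  have hz1 : ∀ v j, ‖z v j‖ = 1 := fun v j => Circle.norm_coe _
  have hconv : Conv (cf (asq (mm 1) (zz N z)) 1 Set.univ) (len q) s.re := by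
    refine conv_of_bound hq hsum (cf_nonneg (asq_nonneg _ _) 1 _) (N := (2 * (1 : ℕ) : ℝ) ^ 2)
      (B := 0) (fun x => ?_) (by linarith)
    unfold cf
    rw [if_pos (Set.mem_univ _), zero_mul, Real.exp_zero, mul_one, pow_one]
    refine (div_le_self (asq_nonneg _ _ _ _) ?_).trans (asq_zz_le N hz1 _ _)
    have : (0 : ℝ) ≤ x.2 := Nat.cast_nonneg _
    linarith
  have h1 : HasSum (fun x : V × ℕ => (cf (asq (mm 1) (zz N z)) 1 Set.univ x : ℂ) *
      Complex.exp (-((len q x : ℂ) * s))) (P (cf (asq (mm 1) (zz N z)) 1 Set.univ) (len q) s) :=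
    (Conv.summable (cf_nonneg (asq_nonneg _ _) 1 _) hconv).hasSum
  have h2 := h1.prod_fiberwise fun v => hasSum_local hq (mm 1) (norm_zz N hz1) (Set.mem_univ v)
    (show 0 < s.re by linarith)
  rw [← h2.tsum_eq]
  refine tsum_congr fun v => ?_
  have h3 : chi N = single (0 : ℤ) (1 : ℤ) + single (0 : ℤ) (1 : ℤ) - single (N : ℤ) (1 : ℤ) -
      single (-(N : ℤ)) (1 : ℤ) := by
    rw [chi, sub_mul, mul_sub, mul_sub, AddMonoidAlgebra.single_mul_single, one_mul, mul_one, one_mul,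
      add_neg_cancel, mul_one, AddMonoidAlgebra.one_def]
    abel
  rw [h3]
  have hw : (w v : ℂ) ≠ 0 := Circle.coe_ne_zero _
  simp only [map_add, map_sub, lv_single, Fintype.sum_prod_type, Fintype.sum_sum_type, mm, zz,
    Sum.elim_inl, Sum.elim_inr, Finset.univ_unique, Finset.sum_singleton, coe_pw, hz]
  simp only [zpow_neg, zpow_natCast, zpow_zero, Int.cast_one, one_mul,
    mul_inv_cancel₀ (pow_ne_zero N hw), inv_one, mul_one, Nat.cast_one, Int.cast_neg]
  ring

/-- a trigonometric polynomial has finitely many zeros on the circle -/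
theorem finite_zeros {P : (Fin 1 → ℤ) →₀ ℤ} (hP : P ≠ 0) :
    {x : Circle | ev P (fun _ => x) = 0}.Finite := by
  classical
  obtain ⟨N, hN⟩ : ∃ N : ℕ, ∀ m ∈ P.support, 0 ≤ m 0 + N := by
    refine ⟨∑ m ∈ P.support, (m 0).natAbs, fun m hm => ?_⟩
    have h1 : (m 0).natAbs ≤ ∑ m ∈ P.support, (m 0).natAbs :=
      Finset.single_le_sum (f := fun m : Fin 1 → ℤ => (m 0).natAbs) (fun _ _ => Nat.zero_le _) hm
    omega
  set Q : Polynomial ℂ := ∑ m ∈ P.support, Polynomial.monomial (m 0 + N).toNat (P m : ℂ) with hQ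
  have hQ0 : Q ≠ 0 := by
    obtain ⟨m₀, hm₀⟩ := Finsupp.ne_iff.mp hP
    intro h0
    have h1 : Q.coeff (m₀ 0 + N).toNat = P m₀ := by
      rw [hQ, Polynomial.finsetSum_coeff]
      rw [Finset.sum_eq_single m₀]
      · rw [Polynomial.coeff_monomial, if_pos rfl]
      · intro m hm hne
        rw [Polynomial.coeff_monomial, if_neg]
        intro h2
        apply hne
        have h3 := hN m hm
        have h4 := hN m₀ (Finsupp.mem_support_iff.mpr hm₀)
        funext j
        rw [Fin.fin_one_eq_zero j]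
        omega
      · intro h2
        rw [Finsupp.notMem_support_iff.mp h2]
        simp
    rw [h0, Polynomial.coeff_zero] at h1
    apply hm₀
    have h2 : (P m₀ : ℂ) = 0 := h1.symm
    exact_mod_cast h2
  have heval : ∀ x : Circle, Q.eval (x : ℂ) = (x : ℂ) ^ N * ev P fun _ => x := by
    intro x
    rw [hQ, Polynomial.eval_finsetSum]
    unfold ev Finsupp.sum
    rw [Finset.mul_sum]
    refine Finset.sum_congr rfl fun m hm => ?_
    rw [Polynomial.eval_monomial]
    have h1 : (mon m (fun _ => x) : ℂ) = (x : ℂ) ^ (m 0) := by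
      unfold mon
      rw [Fin.prod_univ_one, Circle.coe_zpow]
    change (P m : ℂ) * (x : ℂ) ^ (m 0 + N).toNat = (x : ℂ) ^ N * ((P m : ℂ) * (mon m (fun _ => x) : ℂ))
    rw [h1, ← zpow_natCast (x : ℂ) N, mul_left_comm, ← zpow_add₀ (Circle.coe_ne_zero x),
      ← zpow_natCast, Int.toNat_of_nonneg (hN m hm), add_comm]
  have hfin : ((fun x : Circle => (x : ℂ)) ⁻¹' (Q.roots.toFinset : Set ℂ)).Finite :=
    (Q.roots.toFinset.finite_toSet).preimage (Subtype.val_injective.injOn)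
  refine hfin.subset fun x hx => ?_
  have hx' : ev P (fun _ => x) = 0 := hx
  rw [Set.mem_preimage, Finset.mem_coe, Multiset.mem_toFinset, Polynomial.mem_roots hQ0,
    Polynomial.IsRoot, heval, hx', mul_zero]

theorem haarInt_nonneg {d : ℕ} (H : Subgroup (Fin d → Circle)) [CompactSpace H] {g : H → ℝ}
    (hg : ∀ x, 0 ≤ g x) : 0 ≤ (haarInt H fun x => (g x : ℂ)).re := by
  let _ : MeasurableSpace H := borel H
  have _ : BorelSpace H := ⟨rfl⟩
  have h1 : haarInt H (fun x => (g x : ℂ)) =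
      ((∫ x, g x ∂(MeasureTheory.Measure.haarMeasure (⊤ : TopologicalSpace.PositiveCompacts H)) : ℝ)
        : ℂ) := integral_ofReal
  rw [h1, Complex.ofReal_re]
  exact MeasureTheory.integral_nonneg hg

/-- eventual positivity of the integral -/
theorem integ_re {d : ℕ} (L : List (AddSubgroup (Fin d → ℤ) × ((Fin d → ℤ) →₀ ℤ)))
    (hL : ∀ D ∈ L, ∀ x ∈ ann D.1, (ev D.2 x).im = 0 ∧ 0 ≤ (ev D.2 x).re)
    {g : (Fin d → Circle) → ℝ} (hg : Continuous g) (hg0 : ∀ x, 0 ≤ g x) :
    0 ≤ (integ L fun x => (g x : ℂ)).re ∧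
    ((∃ D ∈ L, ∃ x ∈ ann D.1, ev D.2 x ≠ 0 ∧ g x ≠ 0) → 0 < (integ L fun x => (g x : ℂ)).re) := by
  have hterm : ∀ D ∈ L, 0 ≤ (haarInt (ann D.1) fun x => (g x : ℂ) * ev D.2 x).re ∧
      ((∃ x ∈ ann D.1, ev D.2 x ≠ 0 ∧ g x ≠ 0) →
        0 < (haarInt (ann D.1) fun x => (g x : ℂ) * ev D.2 x).re) := by
    intro D hD
    have h1 : (fun x : ann D.1 => (g x : ℂ) * ev D.2 x) = fun x : ann D.1 =>
        ((g x * (ev D.2 x).re : ℝ) : ℂ) := by
      funext x
      have h2 : ev D.2 x = ((ev D.2 x).re : ℂ) := by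
        refine Complex.ext rfl ?_
        rw [Complex.ofReal_im]
        exact (hL D hD x x.2).1
      rw [h2]
      push_cast
      rfl
    rw [h1]
    refine ⟨haarInt_nonneg _ fun x => mul_nonneg (hg0 x) (hL D hD x x.2).2, ?_⟩
    rintro ⟨x₀, hx₀, h2, h3⟩
    have hc : Continuous fun x : ann D.1 => -(g x * (ev D.2 x).re) :=
      ((hg.mul (Complex.continuous_re.comp (continuous_ev _))).comp continuous_subtype_val).neg
    have h4 : 0 < (ev D.2 x₀).re := by
      refine lt_of_le_of_ne (hL D hD x₀ hx₀).2 fun h5 => h2 ?_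
      exact Complex.ext h5.symm (hL D hD x₀ hx₀).1
    have h5 : 0 < g x₀ := lt_of_le_of_ne (hg0 x₀) (Ne.symm h3)
    obtain ⟨r, hr, hr'⟩ := haarInt_neg (ann D.1) (f := fun x : ann D.1 => -(g x * (ev D.2 x).re)) hc
      (fun x => by
        have := mul_nonneg (hg0 x) (hL D hD x x.2).2
        linarith) ⟨x₀, hx₀⟩ (by
        have := mul_pos h5 h4
        simp only
        linarith)
    have h6 : haarInt (ann D.1) (fun x : ann D.1 => ((-(g x * (ev D.2 x).re) : ℝ) : ℂ)) =
        -1 * haarInt (ann D.1) (fun x : ann D.1 => ((g x * (ev D.2 x).re : ℝ) : ℂ)) := by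
      rw [← haarInt_mul]
      congr 1
      funext x
      push_cast
      ring
    rw [h6] at hr'
    have h7 : (haarInt (ann D.1) fun x : ann D.1 => ((g x * (ev D.2 x).re : ℝ) : ℂ)).re = -r := by
      have h8 := congrArg Complex.re hr'
      rw [neg_mul, one_mul, Complex.neg_re, Complex.ofReal_re] at h8
      linarith
    rw [h7]
    linarith
  clear hL
  induction L with
  | nil =>
    refine ⟨by simp [integ], ?_⟩
    rintro ⟨D, hD, -⟩
    exact absurd hD List.not_mem_nil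
  | cons D L ih =>
    obtain ⟨h1, h2⟩ := ih fun D' hD' => hterm D' (List.mem_cons_of_mem _ hD')
    obtain ⟨h3, h4⟩ := hterm D List.mem_cons_self
    unfold integ at h1 h2 ⊢
    simp only [List.map_cons, List.sum_cons, Complex.add_re]
    refine ⟨add_nonneg h3 h1, ?_⟩
    rintro ⟨D', hD', hx⟩
    rcases List.mem_cons.mp hD' with rfl | hD'
    · exact add_pos_of_pos_of_nonneg (h4 hx) h1
    · exact add_pos_of_nonneg_of_pos h3 (h2 ⟨D', hD', hx⟩)

end one

end Pool.Agent.H506.LW
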