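import Pool.Agent.H506.Gap

/-!
# The gap theorem
-/

set_option autoImplicit false

namespace Pool.Agent.H506.LW

open Filter Topology Pool.Agent.H506.SR Pool.Agent.H506.TR Pool.Agent.H506.CO Pool.Agent.H506.PS
  Pool.Agent.H506.SV

open AddMonoidAlgebra (single)

variable {V M : Type} [AddCommGroup M]

section one

variable {q : V → ℝ} (hq : ∀ v, 2 ≤ q v) (hsum : ∀ s : ℝ, 1 < s → Summable fun v => q v ^ (-s))
  (w : V → Circle)

include hq hsum in
theorem one_all (hall : ∀ k : ℤ, One q (fun v k => (pw w v k : ℂ)) (single k (1 : ℤ)))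
    (χ : AddMonoidAlgebra ℤ ℤ) : One q (fun v k => (pw w v k : ℂ)) χ := by
  have hc : ∀ (v : V) (k : ℤ), ‖(pw w v k : ℂ)‖ = 1 := fun v k => Circle.norm_coe _
  change χ ∈ oneGroup hq hsum hc
  induction χ using AddMonoidAlgebra.induction_linear with
  | zero => exact (oneGroup hq hsum hc).zero_mem
  | add a b ha hb => exact (oneGroup hq hsum hc).add_mem ha hb
  | single k m =>
    have h1 : single k m = m • single k (1 : ℤ) := by
      rw [AddMonoidAlgebra.smul_single, smul_eq_mul, mul_one]
    rw [h1]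
    exact (oneGroup hq hsum hc).zsmul_mem (hall k) m

include hq hsum in
/-- the gap theorem for one sequence of numbers of absolute value one -/
theorem gap_one (hall : ∀ k : ℤ, One q (fun v k => (pw w v k : ℂ)) (single k (1 : ℤ))) :
    (∃ N : ℕ, 1 ≤ N ∧ ∃ σ : ℝ, σ < 1 ∧ Summable fun v => ‖(w v : ℂ) ^ N - 1‖ ^ 2 * q v ^ (-σ)) ∨
    ∀ U : Set Circle, IsOpen U → U.Nonempty → ∃ f : Circle → ℝ, Continuous f ∧
      (∀ x, 0 ≤ f x ∧ f x ≤ 1) ∧ (∀ x, x ∉ U → f x = 0) ∧
      ∃ δ : ℝ, 0 < δ ∧ ∀ᶠ s : ℝ in 𝓝[>] 1, δ ≤ (Es q s fun v => (f (w v) : ℂ)).re := by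
  classical
  have hcount : Countable V := countable_of_sum hq hsum
  have hc : ∀ (v : V) (k : ℤ), ‖(pw w v k : ℂ)‖ = 1 := fun v k => Circle.norm_coe _
  obtain ⟨L, hL, hlim⟩ := law (d := 1) (ρ := fun _ : Fin 1 => (1 : ℤ)) hq hsum (pw_zero w) (pw_add w)
    fun I J => one_all hq hsum w hall _
  have hso : ∀ F : (Fin 1 → Circle) → ℂ, so (pw w) (fun _ : Fin 1 => (1 : ℤ)) F =
      fun v => F fun _ => w v := by
    intro F
    funext v
    unfold so
    rw [Fintype.sum_subsingleton _ (1 : Equiv.Perm (Fin 1))]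
    congr 1
    funext j
    exact zpow_one _
  by_cases hcase : ∃ D ∈ L, D.1 = ⊥ ∧ D.2 ≠ 0
  · right
    obtain ⟨D, hD, hD1, hD2⟩ := hcase
    intro U hU hne
    obtain ⟨x₀, hx₀⟩ := hne
    obtain ⟨f, hf0, hf1, hf01⟩ := exists_continuous_zero_one_of_isClosed hU.isClosed_compl
      (isClosed_singleton (x := x₀)) (by
        rw [Set.disjoint_singleton_right]
        exact fun h => h hx₀)
    refine ⟨f, f.continuous, fun x => ⟨(hf01 x).1, (hf01 x).2⟩, fun x hx => hf0 hx, ?_⟩
    have hfc : Continuous fun x : Fin 1 → Circle => f (x 0) := f.continuous.comp (continuous_apply 0)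
    have hpos := (integ_re L hL hfc fun x => (hf01 _).1).2 (by
      refine ⟨D, hD, ?_⟩
      -- a point where the density does not vanish
      have hopen : IsOpen {x : Circle | 0 < f x} := isOpen_lt continuous_const f.continuous
      have hinf : {x : Circle | 0 < f x}.Infinite := by
        have h0 : Nontrivial Circle := ⟨⟨1, -1, fun h => by
          have h3 := congrArg (fun x : Circle => (x : ℂ)) h
          simp only [Circle.coe_one, Circle.coe_neg] at h3
          norm_num at h3⟩⟩
        have h1 : (𝓝[≠] x₀).NeBot := inferInstance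
        refine infinite_of_mem_nhds x₀ (hopen.mem_nhds ?_)
        have h2 : f x₀ = 1 := hf1 (Set.mem_singleton _)
        change 0 < f x₀
        rw [h2]
        exact one_pos
      obtain ⟨x₁, hx₁, hx₁'⟩ := hinf.exists_notMem_finite (finite_zeros hD2)
      refine ⟨fun _ => x₁, ?_, hx₁', ne_of_gt hx₁⟩
      rw [hD1]
      intro γ hγ
      rw [AddSubgroup.mem_bot] at hγ
      rw [hγ, mon_zero])
    set r := (integ L fun x => ((f (x 0) : ℝ) : ℂ)).re with hr
    refine ⟨r / 2, by positivity, ?_⟩
    have h1 := hlim (fun x => ((f (x 0) : ℝ) : ℂ)) (Complex.continuous_ofReal.comp hfc)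
    rw [hso] at h1
    have h2 := (Complex.continuous_re.tendsto _).comp h1
    have h3 := h2.eventually (lt_mem_nhds (show r / 2 < _ by rw [← hr]; linarith))
    exact h3.mono fun s hs => hs.le
  · left
    push Not at hcase
    -- the exponent
    have hexp : ∀ L' : List (AddSubgroup (Fin 1 → ℤ) × ((Fin 1 → ℤ) →₀ ℤ)), (∀ D ∈ L', D.1 = ⊥ → D.2 = 0) →
        ∃ N : ℕ, 1 ≤ N ∧ ∀ D ∈ L', D.2 ≠ 0 → ∀ x ∈ ann D.1, (x 0) ^ N = 1 := by
      intro L'
      induction L' with
      | nil => exact fun _ => ⟨1, le_rfl, by simp⟩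
      | cons D L' ih =>
        intro h
        obtain ⟨N, hN, hN'⟩ := ih fun D' hD' => h D' (List.mem_cons_of_mem _ hD')
        by_cases hD : D.2 = 0
        · refine ⟨N, hN, fun D' hD' hne => ?_⟩
          rcases List.mem_cons.mp hD' with rfl | hD'
          · exact absurd hD hne
          · exact hN' D' hD' hne
        · have h1 : D.1 ≠ ⊥ := fun h2 => hD (h D List.mem_cons_self h2)
          obtain ⟨⟨k, hk⟩, hk0⟩ := (AddSubgroup.ne_bot_iff_exists_ne_zero).mp h1
          have hk1 : k 0 ≠ 0 := by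
            intro h2
            apply hk0
            refine Subtype.ext (funext fun j => ?_)
            rw [Fin.fin_one_eq_zero j]
            exact h2
          refine ⟨(k 0).natAbs * N, Nat.mul_pos (Int.natAbs_pos.mpr hk1) hN, fun D' hD' hne x hx => ?_⟩
          rcases List.mem_cons.mp hD' with rfl | hD'
          · have h2 : (x 0) ^ (k 0) = 1 := by
              have h3 := hx k hk
              unfold mon at h3
              rwa [Fin.prod_univ_one] at h3
            have h4 : (x 0) ^ (k 0).natAbs = 1 := by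
              rcases Int.natAbs_eq (k 0) with h5 | h5
              · rw [h5, zpow_natCast] at h2
                exact h2
              · rw [h5, zpow_neg, zpow_natCast, inv_eq_one] at h2
                exact h2
            rw [pow_mul, h4, one_pow]
          · rw [mul_comm, pow_mul, hN' D' hD' hne x hx, one_pow]
    obtain ⟨N, hN, hN'⟩ := hexp L hcase
    refine ⟨N, hN, ?_⟩
    -- the mean value of `|w^N - 1|²` vanishes
    have h1 : Tendsto (fun s : ℝ => Es q s fun v => ((‖(w v : ℂ) ^ N - 1‖ ^ 2 : ℝ) : ℂ)) (𝓝[>] 1)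
        (𝓝 0) := by
      have hc1 : Continuous fun x : Fin 1 → Circle => ((‖(x 0 : ℂ) ^ N - 1‖ ^ 2 : ℝ) : ℂ) := by
        refine Complex.continuous_ofReal.comp (((Continuous.norm ?_)).pow 2)
        exact ((continuous_subtype_val.comp (continuous_apply 0)).pow N).sub continuous_const
      have h2 := hlim (fun x => ((‖(x 0 : ℂ) ^ N - 1‖ ^ 2 : ℝ) : ℂ)) hc1
      rw [hso] at h2
      have h3 : (integ L fun x => ((‖(x 0 : ℂ) ^ N - 1‖ ^ 2 : ℝ) : ℂ)) = 0 := by
        unfold integ
        refine List.sum_eq_zero fun y hy => ?_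
        rw [List.mem_map] at hy
        obtain ⟨D, hD, rfl⟩ := hy
        have h4 : (fun x : ann D.1 => ((‖((x : Fin 1 → Circle) 0 : ℂ) ^ N - 1‖ ^ 2 : ℝ) : ℂ) *
            ev D.2 x) = fun _ => 0 := by
          funext x
          by_cases h5 : D.2 = 0
          · rw [h5]
            unfold ev
            simp
          · have h6 := hN' D hD h5 x x.2
            have h7 : (((x : Fin 1 → Circle) 0 : ℂ)) ^ N = 1 := by
              rw [← Circle.coe_pow, h6, Circle.coe_one]
            rw [h7]
            simp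
        rw [h4, haarInt_const]
      rw [h3] at h2
      exact h2
    -- the Dirichlet series
    obtain ⟨F, hF, hFs⟩ := one_all hq hsum w hall (chi N)
    set cc := cf (asq (mm 1) (zz N fun v (_ : Fin 1) => (w v : ℂ))) 1 Set.univ with hcc
    have hcc0 : ∀ x, 0 ≤ cc x := cf_nonneg (asq_nonneg _ _) 1 _
    have hconv : ∀ s : ℝ, 1 < s → Conv cc (len q) s := by
      intro s hs
      refine conv_of_bound hq hsum hcc0 (N := (2 * (1 : ℕ) : ℝ) ^ 2) (B := 0) (fun x => ?_)
        (by linarith)
      rw [hcc]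
      unfold cf
      rw [if_pos (Set.mem_univ _), zero_mul, Real.exp_zero, mul_one, pow_one]
      refine (div_le_self (asq_nonneg _ _ _ _) ?_).trans
        (asq_zz_le N (fun v j => Circle.norm_coe _) _ _)
      have : (0 : ℝ) ≤ x.2 := Nat.cast_nonneg _
      linarith
    have hFP : ∀ s : ℝ, 1 < s → F (s : ℂ) = Complex.exp (P cc (len q) s) := by
      intro s hs
      have hs' : 1 < (s : ℂ).re := hs
      rw [hFs s hs', P_chi hq hsum w N hs']
    obtain ⟨m, ⟨C, hC⟩, hm0⟩ := pole hcc0 (len_nonneg hq) hconv (by exact_mod_cast hF)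
      (by
        filter_upwards [self_mem_nhdsWithin] with s hs
        exact hFP s hs)
    obtain ⟨C', hC'⟩ := lv_sub_le hq hsum hc (chi N)
    have hm : m = 0 := by
      have h2 : Tendsto (fun s : ℝ => ((m : ℝ) : ℂ) - Es q s fun v =>
          ((‖(w v : ℂ) ^ N - 1‖ ^ 2 : ℝ) : ℂ)) (𝓝[>] 1) (𝓝 0) := by
        rw [tendsto_zero_iff_norm_tendsto_zero]
        have h3 : Tendsto (fun s : ℝ => (C + C') / Real.log (1 / (s - 1))) (𝓝[>] 1) (𝓝 0) :=
          tendsto_log_atTop.const_div_atTop _
        refine squeeze_zero' (Eventually.of_forall fun _ => norm_nonneg _) ?_ h3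
        filter_upwards [hC, self_mem_nhdsWithin, tendsto_log_atTop.eventually_gt_atTop 0] with
          s h4 hs h5
        have h6 := hC' s hs
        have hs' : 1 < (s : ℂ).re := hs
        rw [P_chi hq hsum w N hs', P_ofReal] at h6
        simp only [lg_chi] at h6
        set A := R cc (len q) s
        set l := Real.log (1 / (s - 1))
        have hl : (l : ℂ) ≠ 0 := by exact_mod_cast h5.ne'
        unfold Es
        set B := ∑' v, ((‖(w v : ℂ) ^ N - 1‖ ^ 2 : ℝ) : ℂ) * ((q v ^ (-s) : ℝ) : ℂ)
        have h7 : ((m : ℝ) : ℂ) - B / l = (((A : ℂ) - B) - ((A - m * l : ℝ) : ℂ)) / l := by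
          field_simp
          push_cast
          ring
        rw [h7, norm_div, Complex.norm_real l, Real.norm_of_nonneg h5.le]
        refine div_le_div_of_nonneg_right ?_ h5.le
        refine (norm_sub_le _ _).trans ?_
        rw [Complex.norm_real, Real.norm_eq_abs]
        linarith
      have h3 := (tendsto_const_nhds (x := ((m : ℝ) : ℂ)) (f := 𝓝[>] (1 : ℝ))).sub h1
      rw [sub_zero] at h3
      have h4 := tendsto_nhds_unique h3 h2
      exact_mod_cast h4
    obtain ⟨σ, hσ, hσc⟩ := hm0 hm
    refine ⟨σ, hσ, ?_⟩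
    have hinj : Function.Injective fun v : V => (v, (0 : ℕ)) := fun v v' h => (Prod.mk.inj h).1
    have h2 : Summable ((fun a => cc a * Real.exp (-(len q a * σ))) ∘ fun v : V => (v, (0 : ℕ))) :=
      Summable.comp_injective hσc hinj
    refine h2.congr fun v => ?_
    have h0 : 0 < q v := by linarith [hq v]
    rw [Function.comp_apply, Real.rpow_def_of_pos h0, hcc]
    unfold cf
    rw [if_pos (Set.mem_univ _)]
    congr 1
    · unfold asq
      rw [ps_zz]
      simp
    · congr 1
      unfold len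
      push_cast
      ring

end one

end Pool.Agent.H506.LW
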