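import Pool.Agent.H506.Gap2

/-!
# The gap theorem
-/

set_option autoImplicit false

namespace Pool.Agent.H506.LW

open Filter Topology Pool.Agent.H506.SR Pool.Agent.H506.TR Pool.Agent.H506.CO Pool.Agent.H506.PS
  Pool.Agent.H506.SV

open AddMonoidAlgebra (single)

variable {V M : Type} [AddCommGroup M]

section

variable {q : V → ℝ} (hq : ∀ v, 2 ≤ q v) (hsum : ∀ s : ℝ, 1 < s → Summable fun v => q v ^ (-s))
  {c : V → M → Circle} (hc0 : ∀ v, c v 0 = 1) (hcadd : ∀ v k l, c v (k + l) = c v k * c v l)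
  {d : ℕ} (ρ : Fin d → M)

include hcadd hc0 in
theorem c_zsmul (v : V) (k : ℤ) (x : M) : c v (k • x) = c v x ^ k := by
  have h1 : ∀ n : ℕ, c v (n • x) = c v x ^ n := by
    intro n
    induction n with
    | zero => rw [zero_smul, hc0, pow_zero]
    | succ n ih => rw [succ_nsmul, hcadd, ih, pow_succ]
  have h2 : ∀ y : M, c v (-y) = (c v y)⁻¹ := by
    intro y
    have h3 := hcadd v y (-y)
    rw [add_neg_cancel, hc0] at h3
    exact eq_inv_of_mul_eq_one_right h3.symm
  rcases Int.eq_nat_or_neg k with ⟨n, rfl | rfl⟩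
  · rw [natCast_zsmul, h1, zpow_natCast]
  · rw [neg_smul, natCast_zsmul, h2, h1, zpow_neg, zpow_natCast]

include hq hsum hc0 hcadd in
theorem one_pw (hG : ∀ I J : List ℕ, One q (fun v k => (c v k : ℂ))
      ((I.map fun i => (Finset.univ.val.map fun j => single (ρ j) (1 : ℤ)).esymm i).prod *
       (J.map fun i => (Finset.univ.val.map fun j => single (-ρ j) (1 : ℤ)).esymm i).prod)) (k : ℤ) :
    One (fun x : V × Fin d => q x.1) (fun x k => (pw (fun x : V × Fin d => c x.1 (ρ x.2)) x k : ℂ))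
      (single k (1 : ℤ)) := by
  classical
  have hc : ∀ v k, ‖(c v k : ℂ)‖ = 1 := fun v k => Circle.norm_coe _
  set e : ℕ → AddMonoidAlgebra ℤ M := fun i =>
    (Finset.univ.val.map fun j => single (ρ j) (1 : ℤ)).esymm i with he
  set e' : ℕ → AddMonoidAlgebra ℤ M := fun i =>
    (Finset.univ.val.map fun j => single (-ρ j) (1 : ℤ)).esymm i with he'
  set T : Subring (AddMonoidAlgebra ℤ M) := Subring.closure (Set.range e ∪ Set.range e') with hT
  have hTG : ∀ χ ∈ T, One q (fun v k => (c v k : ℂ)) χ := by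
    intro χ hχ
    rw [hT, Subring.mem_closure_iff] at hχ
    have h1 : AddSubgroup.closure (Submonoid.closure (Set.range e ∪ Set.range e') :
        Set (AddMonoidAlgebra ℤ M)) ≤ oneGroup hq hsum hc := by
      rw [AddSubgroup.closure_le]
      intro x hx
      have h2 : ∃ I J : List ℕ, x = (I.map e).prod * (J.map e').prod := by
        induction hx using Submonoid.closure_induction with
        | mem x hx =>
          rcases hx with ⟨i, rfl⟩ | ⟨i, rfl⟩
          · exact ⟨[i], [], by simp⟩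
          · exact ⟨[], [i], by simp⟩
        | one => exact ⟨[], [], by simp⟩
        | mul x y _ _ hx hy =>
          obtain ⟨I₁, J₁, rfl⟩ := hx
          obtain ⟨I₂, J₂, rfl⟩ := hy
          refine ⟨I₁ ++ I₂, J₁ ++ J₂, ?_⟩
          rw [List.map_append, List.map_append, List.prod_append, List.prod_append]
          ring
      obtain ⟨I, J, rfl⟩ := h2
      exact hG I J
    exact h1 hχ
  have hmem : (∑ j, single (k • ρ j) (1 : ℤ)) ∈ T := by
    rcases Int.eq_nat_or_neg k with ⟨n, rfl | rfl⟩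
    · rcases Nat.eq_zero_or_pos n with rfl | hn
      · have h1 : (∑ j : Fin d, single (((0 : ℕ) : ℤ) • ρ j) (1 : ℤ)) = (d : AddMonoidAlgebra ℤ M) := by
          simp [AddMonoidAlgebra.natCast_def]
        rw [h1]
        exact natCast_mem T d
      · have h1 := psum_mem (fun j => single (ρ j) (1 : ℤ)) T
          (fun i => Subring.subset_closure (Or.inl ⟨i, rfl⟩)) n hn
        simp only [AddMonoidAlgebra.single_pow, one_pow] at h1
        simpa only [natCast_zsmul] using h1
    · rcases Nat.eq_zero_or_pos n with rfl | hn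
      · have h1 : (∑ j : Fin d, single ((-((0 : ℕ) : ℤ)) • ρ j) (1 : ℤ)) =
            (d : AddMonoidAlgebra ℤ M) := by
          simp [AddMonoidAlgebra.natCast_def]
        rw [h1]
        exact natCast_mem T d
      · have h1 := psum_mem (fun j => single (-ρ j) (1 : ℤ)) T
          (fun i => Subring.subset_closure (Or.inr ⟨i, rfl⟩)) n hn
        simp only [AddMonoidAlgebra.single_pow, one_pow] at h1
        simpa only [neg_smul, natCast_zsmul, smul_neg] using h1
  obtain ⟨F, hF, hFs⟩ := hTG _ hmem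
  refine ⟨F, hF, fun s hs => ?_⟩
  rw [hFs s hs]
  congr 1
  have hsum' : ∀ s : ℝ, 1 < s → Summable fun x : V × Fin d => q x.1 ^ (-s) := by
    intro s hs
    refine (summable_prod_of_nonneg fun x => (rpow_pos hq s x.1).le).mpr ⟨fun v => ?_, ?_⟩
    · exact Summable.of_finite
    · simp only [tsum_fintype, Finset.sum_const, Finset.card_univ, Fintype.card_fin, nsmul_eq_mul]
      exact (hsum s hs).mul_left _
  have h1 := summable_lv (q := fun x : V × Fin d => q x.1) (fun x => hq x.1) hsum'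
    (c := fun x k => (pw (fun x : V × Fin d => c x.1 (ρ x.2)) x k : ℂ))
    (fun x k => Circle.norm_coe _) hs (single k (1 : ℤ))
  rw [h1.tsum_prod' fun v => Summable.of_finite]
  refine tsum_congr fun v => ?_
  rw [tsum_fintype, map_sum]
  refine Finset.sum_congr rfl fun j _ => ?_
  rw [lv_single, lv_single]
  unfold pw
  rw [c_zsmul hc0 hcadd]

include hq hsum hc0 hcadd in
/-- **The gap theorem.** -/
theorem gap (hG : ∀ I J : List ℕ, One q (fun v k => (c v k : ℂ))
      ((I.map fun i => (Finset.univ.val.map fun j => single (ρ j) (1 : ℤ)).esymm i).prod *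
       (J.map fun i => (Finset.univ.val.map fun j => single (-ρ j) (1 : ℤ)).esymm i).prod)) :
    (∃ N : ℕ, 1 ≤ N ∧ ∃ σ : ℝ, σ < 1 ∧
      Summable fun v => (∑ j, ‖(c v (ρ j) : ℂ) ^ N - 1‖ ^ 2) * q v ^ (-σ)) ∨
    ∀ U : Set Circle, IsOpen U → U.Nonempty → ∃ δ : ℝ, 0 < δ ∧ ∀ᶠ s : ℝ in 𝓝[>] 1,
      δ * Real.log (1 / (s - 1)) ≤ ∑' v : {v : V // ∃ j, c v (ρ j) ∈ U}, q v.1 ^ (-s) := by
  classical
  have hsum' : ∀ s : ℝ, 1 < s → Summable fun x : V × Fin d => q x.1 ^ (-s) := by
    intro s hs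
    refine (summable_prod_of_nonneg fun x => (rpow_pos hq s x.1).le).mpr ⟨fun v => ?_, ?_⟩
    · exact Summable.of_finite
    · simp only [tsum_fintype, Finset.sum_const, Finset.card_univ, Fintype.card_fin, nsmul_eq_mul]
      exact (hsum s hs).mul_left _
  rcases gap_one (q := fun x : V × Fin d => q x.1) (fun x => hq x.1) hsum'
    (fun x : V × Fin d => c x.1 (ρ x.2)) (one_pw hq hsum hc0 hcadd ρ hG) with h | h
  · left
    obtain ⟨N, hN, σ, hσ, hs⟩ := h
    refine ⟨N, hN, σ, hσ, ?_⟩
    have h1 := hs.prod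
    refine h1.congr fun v => ?_
    rw [tsum_fintype, Finset.sum_mul]
  · right
    intro U hU hne
    obtain ⟨f, hfc, hf01, hf0, δ, hδ, hev⟩ := h U hU hne
    refine ⟨δ / (d + 1), by positivity, ?_⟩
    filter_upwards [hev, self_mem_nhdsWithin, tendsto_log_atTop.eventually_gt_atTop 0] with s h1 hs hl
    unfold Es at h1
    have hs' : (1 : ℝ) < s := hs
    have h2 : (∑' x : V × Fin d, (f (c x.1 (ρ x.2)) : ℂ) * ((q x.1 ^ (-s) : ℝ) : ℂ)) =
        ((∑' x : V × Fin d, f (c x.1 (ρ x.2)) * q x.1 ^ (-s) : ℝ) : ℂ) := by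
      rw [Complex.ofReal_tsum]
      simp only [Complex.ofReal_mul]
    rw [h2, ← Complex.ofReal_div, Complex.ofReal_re, le_div_iff₀ hl] at h1
    have hsummf : Summable fun x : V × Fin d => f (c x.1 (ρ x.2)) * q x.1 ^ (-s) := by
      refine Summable.of_nonneg_of_le (fun x => mul_nonneg (hf01 _).1 (rpow_pos hq s x.1).le)
        (fun x => ?_) (hsum' s hs')
      exact mul_le_of_le_one_left (rpow_pos hq s x.1).le (hf01 _).2
    have h3 : ∑' x : V × Fin d, f (c x.1 (ρ x.2)) * q x.1 ^ (-s) ≤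
        d * ∑' v : {v : V // ∃ j, c v (ρ j) ∈ U}, q v.1 ^ (-s) := by
      rw [hsummf.tsum_prod' fun v => Summable.of_finite]
      have h4 : ∑' v : {v : V // ∃ j, c v (ρ j) ∈ U}, q v.1 ^ (-s) =
          ∑' v : V, Set.indicator {v : V | ∃ j, c v (ρ j) ∈ U} (fun v => q v ^ (-s)) v :=
        tsum_subtype {v : V | ∃ j, c v (ρ j) ∈ U} fun v => q v ^ (-s)
      rw [h4, ← tsum_mul_left]
      refine Summable.tsum_le_tsum (fun v => ?_) hsummf.prod ?_
      · rw [tsum_fintype]
        by_cases h5 : ∃ j, c v (ρ j) ∈ U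
        · rw [Set.indicator_of_mem (show v ∈ {v : V | ∃ j, c v (ρ j) ∈ U} from h5)]
          refine (Finset.sum_le_card_nsmul _ _ (q v ^ (-s)) fun j _ => ?_).trans (le_of_eq ?_)
          · exact mul_le_of_le_one_left (rpow_pos hq s v).le (hf01 _).2
          · rw [Finset.card_univ, Fintype.card_fin, nsmul_eq_mul]
        · rw [Set.indicator_of_notMem (show v ∉ {v : V | ∃ j, c v (ρ j) ∈ U} from h5), mul_zero]
          push Not at h5
          refine (Finset.sum_eq_zero fun j _ => ?_).le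
          rw [hf0 _ (h5 j), zero_mul]
      · refine Summable.mul_left _ ?_
        exact (hsum s hs').indicator _
    have h4 : 0 ≤ ∑' v : {v : V // ∃ j, c v (ρ j) ∈ U}, q v.1 ^ (-s) :=
      tsum_nonneg fun v => (rpow_pos hq s v.1).le
    have h5 : δ * Real.log (1 / (s - 1)) ≤
        (d + 1) * ∑' v : {v : V // ∃ j, c v (ρ j) ∈ U}, q v.1 ^ (-s) := by
      refine (h1.trans h3).trans ?_
      exact mul_le_mul_of_nonneg_right (by linarith) h4
    rw [div_mul_eq_mul_div, div_le_iff₀ (by positivity)]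
    linarith

end

end Pool.Agent.H506.LW
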