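import Pool.Agent.H506.Top

/-!
# Sparse violations, for families of eigenvalues
-/

set_option autoImplicit false

namespace Pool.Agent.H506.SV

open Filter Topology Pool.Agent.H506.PS

variable {V : Type} {d : ℕ}

/-- the product of the eigenvalues with indices in `I` -/
noncomputable def beta (α : V → Fin d → ℂ) (v : V) {i : ℕ} (I : Sub d i) : ℂ := ∏ j ∈ I.1, α v j

/-- the eigenvalues of the `k`-th tensor power of `Λ^i ⊗ (Λ^i)^∨` -/
noncomputable def gam (α : V → Fin d → ℂ) (i k : ℕ) (v : V) (f : Fin k → Sub d i × Sub d i) : ℂ :=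
  ∏ l, beta α v (f l).1 * (beta α v (f l).2)⁻¹

/-- the image of a subset under a permutation -/
def mapSub (e : Equiv.Perm (Fin d)) (i : ℕ) : Equiv.Perm (Sub d i) where
  toFun I := ⟨I.1.map e.toEmbedding, by rw [Finset.card_map, I.2]⟩
  invFun I := ⟨I.1.map e.symm.toEmbedding, by rw [Finset.card_map, I.2]⟩
  left_inv I := by
    apply Subtype.ext
    ext j
    simp
  right_inv I := by
    apply Subtype.ext
    ext j
    simp

theorem beta_map {α : V → Fin d → ℂ} {v : V} {e : Equiv.Perm (Fin d)}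
    (he : ∀ j, (starRingEnd ℂ) (α v (e j)) = (α v j)⁻¹) {i : ℕ} (J : Sub d i) :
    (starRingEnd ℂ) (beta α v (mapSub e i J)) = (beta α v J)⁻¹ := by
  unfold beta mapSub
  simp only [Equiv.coe_fn_mk, Finset.prod_map, Equiv.coe_toEmbedding, map_prod]
  rw [← Finset.prod_inv_distrib]
  exact Finset.prod_congr rfl fun j _ => he j

/-- the squares of the absolute values of the traces -/
noncomputable def trsq (α : V → Fin d → ℂ) (i : ℕ) (v : V) (r : ℕ) : ℝ :=
  ‖∑ I : Sub d i, beta α v I ^ (r + 1)‖ ^ 2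

theorem trsq_pow {α : V → Fin d → ℂ} {v : V} {e : Equiv.Perm (Fin d)}
    (he : ∀ j, (starRingEnd ℂ) (α v (e j)) = (α v j)⁻¹) (i k r : ℕ) :
    ((trsq α i v r : ℝ) : ℂ) ^ k = ∑ f, gam α i k v f ^ (r + 1) := by
  classical
  have h1 : ∑ J : Sub d i, ((beta α v J)⁻¹) ^ (r + 1) =
      (starRingEnd ℂ) (∑ I : Sub d i, beta α v I ^ (r + 1)) := by
    rw [map_sum, ← Equiv.sum_comp (mapSub e i)
      (fun I : Sub d i => (starRingEnd ℂ) (beta α v I ^ (r + 1)))]
    refine Finset.sum_congr rfl fun J _ => ?_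
    rw [map_pow, beta_map he]
  have h2 : ((trsq α i v r : ℝ) : ℂ) = ∑ x : Sub d i × Sub d i,
      (beta α v x.1 * (beta α v x.2)⁻¹) ^ (r + 1) := by
    unfold trsq
    push_cast
    rw [← Complex.mul_conj', ← h1, Fintype.sum_prod_type, Finset.sum_mul]
    refine Finset.sum_congr rfl fun I _ => ?_
    rw [Finset.mul_sum]
    refine Finset.sum_congr rfl fun J _ => ?_
    rw [mul_pow]
  rw [h2, Fintype.sum_pow]
  refine Finset.sum_congr rfl fun f _ => ?_
  unfold gam
  rw [Finset.prod_pow]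

/-- the exponents -/
noncomputable def expo (q : V → ℝ) (α : V → Fin d → ℂ) (v : V) (j : Fin d) : ℝ :=
  Real.log ‖α v j‖ / Real.log (q v)

theorem norm_eq_rpow {q : V → ℝ} (hq : ∀ v, 2 ≤ q v) {α : V → Fin d → ℂ} (h0 : ∀ v j, α v j ≠ 0)
    (v : V) (j : Fin d) : ‖α v j‖ = q v ^ expo q α v j := by
  have hq0 : 0 < q v := by linarith [hq v]
  have hl : 0 < Real.log (q v) := Real.log_pos (by linarith [hq v])
  have hn : 0 < ‖α v j‖ := norm_pos_iff.mpr (h0 v j)
  rw [Real.rpow_def_of_pos hq0]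
  unfold expo
  rw [mul_div_cancel₀ _ hl.ne', Real.exp_log hn]

theorem norm_beta {q : V → ℝ} (hq : ∀ v, 2 ≤ q v) {α : V → Fin d → ℂ} (h0 : ∀ v j, α v j ≠ 0)
    (v : V) {i : ℕ} (I : Sub d i) : ‖beta α v I‖ = q v ^ (∑ j ∈ I.1, expo q α v j) := by
  have hq0 : 0 < q v := by linarith [hq v]
  unfold beta
  rw [norm_prod, Real.rpow_sum_of_pos hq0]
  exact Finset.prod_congr rfl fun j _ => norm_eq_rpow hq h0 v j

theorem abs_expo_le {q : V → ℝ} (hq : ∀ v, 2 ≤ q v) {α : V → Fin d → ℂ} (h0 : ∀ v j, α v j ≠ 0)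
    (hu : ∀ v, ∃ e : Equiv.Perm (Fin d), ∀ j, (starRingEnd ℂ) (α v (e j)) = (α v j)⁻¹)
    {κ : ℝ} (hκ : ∀ v j, ‖α v j‖ ≤ q v ^ κ) (v : V) (j : Fin d) : |expo q α v j| ≤ κ := by
  have hq1 : 1 < q v := by linarith [hq v]
  have h1 : ∀ j, expo q α v j ≤ κ := by
    intro j
    have := hκ v j
    rw [norm_eq_rpow hq h0 v j] at this
    exact (Real.rpow_le_rpow_left_iff hq1).mp this
  obtain ⟨e, he⟩ := hu v
  have h2 : expo q α v (e j) = -expo q α v j := by
    have h3 := congrArg (‖·‖) (he j)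
    simp only [RCLike.norm_conj, norm_inv] at h3
    unfold expo
    rw [h3, Real.log_inv, neg_div]
  have h3 := h1 (e j)
  rw [h2] at h3
  rw [abs_le]
  exact ⟨by linarith, h1 j⟩

theorem top_full_zero {q : V → ℝ} {α : V → Fin d → ℂ}
    (hu : ∀ v, ∃ e : Equiv.Perm (Fin d), ∀ j, (starRingEnd ℂ) (α v (e j)) = (α v j)⁻¹) (v : V) :
    top d (expo q α v) = 0 := by
  rw [top_full]
  obtain ⟨e, he⟩ := hu v
  have h2 : ∀ j, expo q α v (e j) = -expo q α v j := by
    intro j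
    have h3 := congrArg (‖·‖) (he j)
    simp only [RCLike.norm_conj, norm_inv] at h3
    unfold expo
    rw [h3, Real.log_inv, neg_div]
  have h3 : ∑ j, expo q α v (e j) = -∑ j, expo q α v j := by
    rw [← Finset.sum_neg_distrib]
    exact Finset.sum_congr rfl fun j _ => h2 j
  rw [Equiv.sum_comp e (expo q α v)] at h3
  linarith

theorem rpow_mul_eq_exp {q : ℝ} (hq : 2 ≤ q) (t : ℝ) (r : ℕ) :
    (q ^ t) ^ (r + 1) = Real.exp (t * ((r + 1) * Real.log q)) := by
  have hq0 : 0 < q := by linarith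
  rw [Real.rpow_def_of_pos hq0, ← Real.exp_nat_mul]
  congr 1
  push_cast
  ring

theorem trsq_le {q : V → ℝ} (hq : ∀ v, 2 ≤ q v) {α : V → Fin d → ℂ} (h0 : ∀ v j, α v j ≠ 0)
    (i : ℕ) (v : V) (r : ℕ) : trsq α i v r ≤ ((Fintype.card (Sub d i) : ℝ) + 2) ^ 2 *
      Real.exp (2 * top i (expo q α v) * len q (v, r)) := by
  have hq1 : 1 < q v := by linarith [hq v]
  have h1 : ‖∑ I : Sub d i, beta α v I ^ (r + 1)‖ ≤ (Fintype.card (Sub d i) : ℝ) *
      Real.exp (top i (expo q α v) * len q (v, r)) := by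
    refine (norm_sum_le _ _).trans ?_
    have h2 : ∀ I ∈ (Finset.univ : Finset (Sub d i)), ‖beta α v I ^ (r + 1)‖ ≤
        Real.exp (top i (expo q α v) * len q (v, r)) := by
      intro I _
      rw [norm_pow, norm_beta hq h0, rpow_mul_eq_exp (hq v)]
      refine Real.exp_le_exp.mpr ?_
      exact mul_le_mul_of_nonneg_right (le_top _ I) (len_nonneg hq (v, r))
    have h3 := Finset.sum_le_card_nsmul _ _ _ h2
    rwa [nsmul_eq_mul, Finset.card_univ] at h3
  unfold trsq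
  have h4 := pow_le_pow_left₀ (norm_nonneg _) h1 2
  refine h4.trans ?_
  rw [mul_pow, ← Real.exp_nat_mul]
  have h5 : ((2 : ℕ) : ℝ) * (top i (expo q α v) * len q (v, r)) =
      2 * top i (expo q α v) * len q (v, r) := by push_cast; ring
  rw [h5]
  refine mul_le_mul_of_nonneg_right ?_ (Real.exp_nonneg _)
  exact pow_le_pow_left₀ (Nat.cast_nonneg _) (by linarith) 2

theorem trsq_sub_le {q : V → ℝ} (hq : ∀ v, 2 ≤ q v) {α : V → Fin d → ℂ} (h0 : ∀ v j, α v j ≠ 0)
    {i : ℕ} (hi : i + 1 ≤ d) (v : V) (r : ℕ) {η : ℝ} (hη : 0 < η)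
    (hgap : top (i + 2) (expo q α v) + top i (expo q α v) + η ≤ 2 * top (i + 1) (expo q α v)) :
    |trsq α (i + 1) v r - Real.exp (2 * top (i + 1) (expo q α v) * len q (v, r))| ≤
      ((Fintype.card (Sub d (i + 1)) : ℝ) + 2) ^ 2 *
        Real.exp ((2 * top (i + 1) (expo q α v) - η) * len q (v, r)) := by
  classical
  set T : ℝ := top (i + 1) (expo q α v) with hT
  set L : ℝ := len q (v, r) with hL
  have hL0 : 0 ≤ L := len_nonneg hq (v, r)
  set N₀ : ℝ := (Fintype.card (Sub d (i + 1)) : ℝ) with hN₀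
  have hN0 : 0 ≤ N₀ := Nat.cast_nonneg _
  obtain ⟨I₀, hI₀⟩ := exists_top hi (expo q α v)
  set b : ℂ := beta α v I₀ ^ (r + 1) with hb
  have hbn : ‖b‖ = Real.exp (T * L) := by
    rw [hb, norm_pow, norm_beta hq h0, hI₀, rpow_mul_eq_exp (hq v)]
    rfl
  set z : ℂ := ∑ I : Sub d (i + 1), beta α v I ^ (r + 1) with hz
  have hw : ‖z - b‖ ≤ N₀ * Real.exp ((T - η) * L) := by
    have h1 : z - b = ∑ I ∈ Finset.univ.erase I₀, beta α v I ^ (r + 1) := by
      rw [hz, ← Finset.add_sum_erase _ _ (Finset.mem_univ I₀)]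
      ring
    rw [h1]
    refine (norm_sum_le _ _).trans ?_
    have h2 : ∀ I ∈ Finset.univ.erase I₀, ‖beta α v I ^ (r + 1)‖ ≤ Real.exp ((T - η) * L) := by
      intro I hI
      rw [norm_pow, norm_beta hq h0, rpow_mul_eq_exp (hq v)]
      refine Real.exp_le_exp.mpr (mul_le_mul_of_nonneg_right ?_ hL0)
      have := gap (expo q α v) (Finset.ne_of_mem_erase hI) hI₀
      linarith
    have h3 := Finset.sum_le_card_nsmul _ _ _ h2
    rw [nsmul_eq_mul] at h3
    refine h3.trans (mul_le_mul_of_nonneg_right ?_ (Real.exp_nonneg _))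
    have h4 := Finset.card_erase_le (s := (Finset.univ : Finset (Sub d (i + 1)))) (a := I₀)
    rw [Finset.card_univ] at h4
    rw [hN₀]
    exact_mod_cast h4
  have hle : Real.exp ((T - η) * L) ≤ Real.exp (T * L) := by
    refine Real.exp_le_exp.mpr (mul_le_mul_of_nonneg_right (by linarith) hL0)
  have hzn : ‖z‖ ≤ (1 + N₀) * Real.exp (T * L) := by
    have h1 : ‖z‖ ≤ ‖b‖ + ‖z - b‖ := by
      have := norm_add_le b (z - b)
      rwa [add_sub_cancel] at this
    have h2 := mul_le_mul_of_nonneg_left hle hN0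
    rw [hbn] at h1
    linarith
  have e1 : Real.exp (2 * T * L) = ‖b‖ ^ 2 := by
    rw [hbn, ← Real.exp_nat_mul]
    congr 1
    push_cast
    ring
  have e2 : Real.exp ((2 * T - η) * L) = Real.exp ((T - η) * L) * Real.exp (T * L) := by
    rw [← Real.exp_add]
    congr 1
    ring
  have e3 : trsq α (i + 1) v r = ‖z‖ ^ 2 := rfl
  rw [e1, e2, e3]
  have h1 : |‖z‖ ^ 2 - ‖b‖ ^ 2| = |‖z‖ - ‖b‖| * (‖z‖ + ‖b‖) := by
    have : ‖z‖ ^ 2 - ‖b‖ ^ 2 = (‖z‖ - ‖b‖) * (‖z‖ + ‖b‖) := by ring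
    rw [this, abs_mul, abs_of_nonneg (show 0 ≤ ‖z‖ + ‖b‖ by positivity)]
  rw [h1]
  have h2 : |‖z‖ - ‖b‖| ≤ N₀ * Real.exp ((T - η) * L) := (abs_norm_sub_norm_le z b).trans hw
  have h3 : ‖z‖ + ‖b‖ ≤ (2 + N₀) * Real.exp (T * L) := by
    rw [hbn]
    linarith
  calc |‖z‖ - ‖b‖| * (‖z‖ + ‖b‖)
      ≤ (N₀ * Real.exp ((T - η) * L)) * ((2 + N₀) * Real.exp (T * L)) :=
        mul_le_mul h2 h3 (by positivity) (by positivity)
    _ = (N₀ * (N₀ + 2)) * (Real.exp ((T - η) * L) * Real.exp (T * L)) := by ring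
    _ ≤ (N₀ + 2) ^ 2 * (Real.exp ((T - η) * L) * Real.exp (T * L)) := by
        refine mul_le_mul_of_nonneg_right ?_ (by positivity)
        nlinarith

theorem norm_gam_le {q : V → ℝ} (hq : ∀ v, 2 ≤ q v) {α : V → Fin d → ℂ} (h0 : ∀ v j, α v j ≠ 0)
    (hu : ∀ v, ∃ e : Equiv.Perm (Fin d), ∀ j, (starRingEnd ℂ) (α v (e j)) = (α v j)⁻¹)
    {κ : ℝ} (hκ : ∀ v j, ‖α v j‖ ≤ q v ^ κ) (i k : ℕ) (v : V) (f : Fin k → Sub d i × Sub d i) :
    ‖gam α i k v f‖ ≤ q v ^ (k * (2 * (i * κ))) := by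
  have hq0 : 0 < q v := by linarith [hq v]
  have hq1 : 1 < q v := by linarith [hq v]
  have hb : ∀ I : Sub d i, ‖beta α v I‖ ≤ q v ^ (i * κ) := by
    intro I
    rw [norm_beta hq h0]
    refine Real.rpow_le_rpow_of_exponent_le hq1.le ?_
    have h1 := Finset.sum_le_card_nsmul I.1 (expo q α v) κ fun j _ =>
      (abs_le.mp (abs_expo_le hq h0 hu hκ v j)).2
    rwa [I.2, nsmul_eq_mul] at h1
  obtain ⟨e, he⟩ := hu v
  have hb' : ∀ I : Sub d i, ‖(beta α v I)⁻¹‖ ≤ q v ^ (i * κ) := by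
    intro I
    rw [← beta_map he, RCLike.norm_conj]
    exact hb _
  unfold gam
  rw [norm_prod]
  have h1 : ∀ l ∈ (Finset.univ : Finset (Fin k)), ‖beta α v (f l).1 * (beta α v (f l).2)⁻¹‖ ≤
      q v ^ (2 * (i * κ)) := by
    intro l _
    rw [norm_mul, two_mul, Real.rpow_add hq0]
    exact mul_le_mul (hb _) (hb' _) (norm_nonneg _) (Real.rpow_nonneg hq0.le _)
  refine (Finset.prod_le_prod (fun l _ => norm_nonneg _) h1).trans (le_of_eq ?_)
  rw [Finset.prod_const, Finset.card_univ, Fintype.card_fin, ← Real.rpow_natCast, ← Real.rpow_mul hq0.le]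
  congr 1
  ring

/-- one of the eigenvalues is the largest possible positive number -/
theorem exists_gam {q : V → ℝ} (hq : ∀ v, 2 ≤ q v) {α : V → Fin d → ℂ} (h0 : ∀ v j, α v j ≠ 0)
    (hu : ∀ v, ∃ e : Equiv.Perm (Fin d), ∀ j, (starRingEnd ℂ) (α v (e j)) = (α v j)⁻¹)
    {i : ℕ} (hi : i ≤ d) (k : ℕ) (v : V) :
    ∃ f, gam α i k v f = ((q v ^ (2 * k * top i (expo q α v)) : ℝ) : ℂ) := by
  obtain ⟨e, he⟩ := hu v
  obtain ⟨I₀, hI₀⟩ := exists_top hi (expo q α v)
  refine ⟨fun _ => (I₀, (mapSub e i).symm I₀), ?_⟩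
  unfold gam
  have h1 := beta_map he ((mapSub e i).symm I₀)
  rw [Equiv.apply_symm_apply] at h1
  simp only [← h1]
  rw [Complex.mul_conj', Finset.prod_const, Finset.card_univ, Fintype.card_fin, norm_beta hq h0, hI₀]
  have hq0 : 0 < q v := by linarith [hq v]
  rw [← Complex.ofReal_pow, ← Complex.ofReal_pow, ← Real.rpow_natCast, ← Real.rpow_natCast,
    ← Real.rpow_mul hq0.le, ← Real.rpow_mul hq0.le]
  congr 2
  push_cast
  ring

/-- **Sparse violations**, general form. -/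
theorem general {q : V → ℝ} (hq : ∀ v, 2 ≤ q v)
    (hsum : ∀ s : ℝ, 1 < s → Summable fun v => q v ^ (-s)) {α : V → Fin d → ℂ}
    (h0 : ∀ v j, α v j ≠ 0)
    (hu : ∀ v, ∃ e : Equiv.Perm (Fin d), ∀ j, (starRingEnd ℂ) (α v (e j)) = (α v j)⁻¹)
    {κ : ℝ} (hκ : ∀ v j, ‖α v j‖ ≤ q v ^ κ)
    (hL : ∀ i : ℕ, 1 ≤ i → i < d → ∃ (K : ℕ) (X : ℝ), ∀ k : ℕ, K ≤ k → ∃ F : ℂ → ℂ,
      (∀ x : ℝ, X < x → MeromorphicAt F (x : ℂ)) ∧ ∃ s₀ : ℝ, ∀ s : ℂ, s₀ < s.re →
        F s = ∏' v, (∏ f, (1 - gam α i k v f * (q v : ℂ) ^ (-s)))⁻¹)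
    {δ δ' : ℝ} (hδ : 0 < δ) (hδ' : δ < δ') (hinf : {v | ∃ j, q v ^ δ' ≤ ‖α v j‖}.Infinite) :
    ∃ c : ℝ, 0 < c ∧ ∀ᶠ x : ℝ in atTop,
      x ^ c ≤ ({v | (∃ j, q v ^ δ ≤ ‖α v j‖) ∧ q v ≤ x}.ncard : ℝ) := by
  classical
  have hVinf : Infinite V := by
    rw [← Set.infinite_univ_iff]
    exact hinf.mono (Set.subset_univ _)
  have hne : (cofinite : Filter V).NeBot := cofinite_neBot
  set x : V → Fin d → ℝ := expo q α with hx
  have hxb : ∀ v j, |x v j| ≤ κ := fun v j => abs_expo_le hq h0 hu hκ v j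
  have hd : 1 ≤ d := by
    obtain ⟨v, j, -⟩ := hinf.nonempty
    have := j.2
    omega
  have hκ0 : 0 ≤ κ := by
    obtain ⟨v, j, -⟩ := hinf.nonempty
    exact (abs_nonneg _).trans (hxb v j)
  -- the limits superior
  set T : ℕ → V → ℝ := fun i v => top i (x v) with hT
  have hTb : ∀ i, i ≤ d → ∀ v, |T i v| ≤ i * κ := fun i hi v => abs_top_le hi (hxb v)
  have hbd : ∀ i, i ≤ d → IsBoundedUnder (· ≤ ·) cofinite (T i) := fun i hi =>
    isBoundedUnder_of ⟨i * κ, fun v => (abs_le.mp (hTb i hi v)).2⟩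
  have hbd' : ∀ i, i ≤ d → IsCoboundedUnder (· ≤ ·) cofinite (T i) := fun i hi =>
    (isBoundedUnder_of (r := (· ≥ ·)) ⟨-(i * κ), fun v => (abs_le.mp (hTb i hi v)).1⟩).isCoboundedUnder_le
  set Θ : ℕ → ℝ := fun i => limsup (T i) cofinite with hΘ
  have hΘ0 : Θ 0 = 0 := by
    have : T 0 = fun _ => 0 := funext fun v => top_zero _
    simp only [hΘ, this, limsup_const]
  have hΘd : Θ d = 0 := by
    have : T d = fun _ => 0 := funext fun v => top_full_zero hu v
    simp only [hΘ, this, limsup_const]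
  have hq1 : ∀ v, 1 < q v := fun v => by linarith [hq v]
  have hΘ1 : δ < Θ 1 := by
    refine lt_of_lt_of_le hδ' ?_
    refine le_limsup_of_frequently_le ?_ (hbd 1 hd)
    rw [frequently_cofinite_iff_infinite]
    refine hinf.mono fun v hv => ?_
    obtain ⟨j, hj⟩ := hv
    have h1 : δ' ≤ x v j := by
      rw [norm_eq_rpow hq h0 v j] at hj
      exact (Real.rpow_le_rpow_left_iff (hq1 v)).mp hj
    exact h1.trans (le_top_one _ j)
  obtain ⟨i, hi, hi1, hi2⟩ := exists_index hδ hd hΘ0 hΘd hΘ1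
  have hup : ∀ i, i ≤ d → ∀ ε : ℝ, 0 < ε → ∀ᶠ v in cofinite, T i v ≤ Θ i + ε := by
    intro i hi ε hε
    have h1 : Θ i < Θ i + ε := by linarith
    exact (eventually_lt_of_limsup_lt h1 (hbd i hi)).mono fun v hv => hv.le
  have hlow : ∀ i, i ≤ d → ∀ ε : ℝ, 0 < ε → ∃ᶠ v in cofinite, Θ i - ε < T i v := by
    intro i hi ε hε
    have h1 : Θ i - ε < Θ i := by linarith
    exact frequently_lt_of_lt_limsup (hbd' i hi) h1
  set η : ℝ := min ((2 * Θ (i + 1) - Θ i - Θ (i + 2)) / 5) (Θ (i + 1) - (i + 1 : ℕ) * δ) with hη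
  have hη0 : 0 < η := lt_min (by linarith) (by linarith)
  have hη1 : 5 * η ≤ 2 * Θ (i + 1) - Θ i - Θ (i + 2) := by
    have := min_le_left ((2 * Θ (i + 1) - Θ i - Θ (i + 2)) / 5) (Θ (i + 1) - (i + 1 : ℕ) * δ)
    rw [← hη] at this
    linarith
  have hη2 : η ≤ Θ (i + 1) - (i + 1 : ℕ) * δ := min_le_right _ _
  set E : Set V := {v | Θ (i + 1) - η < T (i + 1) v ∧ T i v ≤ Θ i + η ∧
    T (i + 2) v ≤ Θ (i + 2) + η} with hE
  set N₀ : ℝ := (Fintype.card (Sub d (i + 1)) : ℝ) with hN₀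
  have hN0 : 0 ≤ N₀ := Nat.cast_nonneg _
  have hev : ∀ᶠ v in cofinite, T i v ≤ Θ i + η ∧ T (i + 2) v ≤ Θ (i + 2) + η :=
    (hup i (by omega) η hη0).and (hup (i + 2) (by omega) η hη0)
  obtain ⟨K, X, hLK⟩ := hL (i + 1) (by omega) (by omega)
  choose F hF hFP using hLK
  set a : V → ℕ → ℝ := trsq α (i + 1) with ha
  have hak : ∀ (k : ℕ) (v : V) (r : ℕ), ((a v r : ℝ) : ℂ) ^ k = ∑ f, gam α (i + 1) k v f ^ (r + 1) := by
    intro k v r
    obtain ⟨e, he⟩ := hu v
    exact trsq_pow he (i + 1) k r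
  have hgam := fun (k : ℕ) v f => norm_gam_le hq h0 hu hκ (i + 1) k v f
  have ha0 : ∀ v r, 0 ≤ a v r := fun v r => sq_nonneg _
  have hΘpos : 0 < Θ (i + 1) := by
    have : (0 : ℝ) < ((i + 1 : ℕ) : ℝ) * δ := by positivity
    linarith
  have hab : ∀ v r, a v r ≤ (N₀ + 2) ^ 2 * Real.exp ((2 * ((i + 1 : ℕ) * κ)) * len q (v, r)) := by
    intro v r
    refine (trsq_le hq h0 (i + 1) v r).trans (mul_le_mul_of_nonneg_left ?_ (by positivity))
    refine Real.exp_le_exp.mpr (mul_le_mul_of_nonneg_right ?_ (len_nonneg hq _))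
    have := (abs_le.mp (hTb (i + 1) (by omega) v)).2
    linarith
  let D : Data V :=
    { q := q
      hq := hq
      hsum := hsum
      a := a
      ha := ha0
      T := T (i + 1)
      E := E
      Θ := Θ (i + 1)
      η := η
      N := (N₀ + 2) ^ 2
      b := 2 * ((i + 1 : ℕ) * κ)
      hΘ := hΘpos
      hη := hη0
      hN := by nlinarith
      hb := hab
      hE := by
        intro v hv r
        refine trsq_sub_le hq h0 (by omega) v r hη0 ?_
        have h1 := hv.1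
        have h2 := hv.2.1
        have h3 := hv.2.2
        simp only [hT] at h1 h2 h3
        linarith
      hnE := by
        filter_upwards [hev] with v hv hvE r
        refine (trsq_le hq h0 (i + 1) v r).trans (mul_le_mul_of_nonneg_left ?_ (by positivity))
        refine Real.exp_le_exp.mpr (mul_le_mul_of_nonneg_right ?_ (len_nonneg hq _))
        have h1 : ¬(Θ (i + 1) - η < T (i + 1) v) := fun h => hvE ⟨h, hv.1, hv.2⟩
        have h2 := not_lt.mp h1
        simp only [hT] at h2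
        linarith
      hT1 := fun ε hε => hup (i + 1) (by omega) ε hε
      hT2 := by
        intro ε hε
        have h1 := (hlow (i + 1) (by omega) (min ε η) (lt_min hε hη0)).and_eventually hev
        rw [frequently_cofinite_iff_infinite] at h1
        refine h1.mono fun v hv => ?_
        have h2 : Θ (i + 1) - min ε η < T (i + 1) v := hv.1
        have h3 := min_le_left ε η
        have h4 := min_le_right ε η
        exact ⟨⟨by linarith, hv.2.1, hv.2.2⟩, by linarith⟩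
      G := fun k v s => ∏ f, (1 - gam α (i + 1) k v f * (q v : ℂ) ^ (-s))
      hG := by
        intro k v
        refine Differentiable.fun_finsetProd fun f _ => ?_
        refine (differentiable_const _).sub ((differentiable_const _).mul ?_)
        intro s
        refine DifferentiableAt.const_cpow (differentiableAt_id.neg) (Or.inl ?_)
        have : (0 : ℝ) < q v := by linarith [hq v]
        exact_mod_cast this.ne'
      hGP := by
        intro k _ v
        refine ⟨k * (2 * ((i + 1 : ℕ) * κ)), fun s hs => ?_⟩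
        rw [P_place hq (hak k) (fun f => hgam k v f) hs, prod_place hq (fun f => hgam k v f) hs]
      hG0 := by
        intro k _ v _
        obtain ⟨f, hf⟩ := exists_gam hq h0 hu (show i + 1 ≤ d by omega) k v
        refine Finset.prod_eq_zero (Finset.mem_univ f) ?_
        have hq0 : (0 : ℝ) < q v := by linarith [hq v]
        rw [hf, ← Complex.ofReal_neg, ← Complex.ofReal_cpow hq0.le, ← Complex.ofReal_mul,
          ← Real.rpow_add hq0]
        simp only [hT, hx]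
        rw [add_neg_cancel, Real.rpow_zero]
        simp
      K := K + 1
      hK := by omega
      X := X
      F := fun k => if hk : K ≤ k then F k hk else 0
      hF := by
        intro k hk y hy
        have hk' : K ≤ k := by omega
        rw [dif_pos hk']
        exact hF k hk' y hy
      hFP := by
        intro k hk
        have hk' : K ≤ k := by omega
        rw [dif_pos hk']
        obtain ⟨s₀, hs₀⟩ := hFP k hk'
        refine ⟨max s₀ (k * (2 * ((i + 1 : ℕ) * κ)) + 1), fun s hs => ?_⟩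
        have h1 : s₀ < s.re := lt_of_le_of_lt (le_max_left _ _) hs
        have h2 : k * (2 * ((i + 1 : ℕ) * κ)) + 1 < s.re := lt_of_le_of_lt (le_max_right _ _) hs
        rw [hs₀ s h1]
        have hconv : Conv (cf a k Set.univ) (len q) s.re := by
          refine conv_of_bound hq hsum (cf_nonneg ha0 k _) (N := ((N₀ + 2) ^ 2) ^ k)
            (B := k * (2 * ((i + 1 : ℕ) * κ))) (fun y => ?_) h2
          unfold cf
          rw [if_pos (Set.mem_univ _)]
          have h3 := pow_le_pow_left₀ (ha0 y.1 y.2) (hab y.1 y.2) k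
          rw [mul_pow, ← Real.exp_nat_mul] at h3
          refine (div_le_self (pow_nonneg (ha0 _ _) k) ?_).trans (h3.trans (le_of_eq ?_))
          · have : (0 : ℝ) ≤ y.2 := Nat.cast_nonneg _
            linarith
          · congr 2
            ring
        exact (hasProd_exp hq ha0 (hak k) (hgam k) (by linarith) hconv).tprod_eq }
  obtain ⟨c, hc, hcx⟩ := D.main
  refine ⟨c, hc, hcx.mono fun y hy => hy.trans ?_⟩
  have hsub : {v | v ∈ D.E ∧ D.q v ≤ y} ⊆ {v | (∃ j, q v ^ δ ≤ ‖α v j‖) ∧ q v ≤ y} := by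
    intro v hv
    refine ⟨?_, hv.2⟩
    have h1 : Θ (i + 1) - η < T (i + 1) v := hv.1.1
    obtain ⟨j, hj⟩ := exists_gt (x := x v) (δ := δ) (show i + 1 ≤ d by omega) (by
      have : T (i + 1) v = top (i + 1) (x v) := rfl
      rw [← this]
      linarith)
    refine ⟨j, ?_⟩
    rw [norm_eq_rpow hq h0 v j]
    exact Real.rpow_le_rpow_of_exponent_le (hq1 v).le hj.le
  exact_mod_cast Set.ncard_le_ncard hsub (finite_le hq hsum {v | ∃ j, q v ^ δ ≤ ‖α v j‖} y)

end Pool.Agent.H506.SV
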