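import Pool.Agent.H506.Ring

/-!
# Integer order at `s = 1`
-/

set_option autoImplicit false

namespace Pool.Agent.H506.LW

open Filter Topology

/-- a continuous logarithm of a meromorphic function on an interval to the right of a point is an integral
multiple of `log (1 / (s - 1))` up to a bounded error -/
theorem int_order {F : ℂ → ℂ} (hF : MeromorphicAt F 1) {G : ℝ → ℂ}
    (hG : ContinuousOn G (Set.Ioi 1)) (h : ∀ s : ℝ, 1 < s → F s = Complex.exp (G s)) :
    ∃ m : ℤ, ∃ C : ℝ, ∀ᶠ s in 𝓝[>] (1 : ℝ), ‖G s - m * Real.log (1 / (s - 1))‖ ≤ C := by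
  -- the order is finite
  have hto : Tendsto (fun s : ℝ => (s : ℂ)) (𝓝[>] 1) (𝓝[≠] (1 : ℂ)) := by
    refine tendsto_nhdsWithin_iff.mpr ⟨?_, ?_⟩
    · have := (Complex.continuous_ofReal.tendsto (1 : ℝ)).mono_left (nhdsWithin_le_nhds (s := Set.Ioi 1))
      simpa using this
    · filter_upwards [self_mem_nhdsWithin] with s hs
      have h1 : (s : ℂ) ≠ 1 := by
        intro h1
        have : s = 1 := by exact_mod_cast h1
        exact absurd this (ne_of_gt hs)
      exact h1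
  have hne : meromorphicOrderAt F 1 ≠ ⊤ := by
    intro htop
    rw [meromorphicOrderAt_eq_top_iff] at htop
    obtain ⟨s, hs, hs1⟩ := ((hto.eventually htop).and self_mem_nhdsWithin).exists
    rw [h s hs1] at hs
    exact Complex.exp_ne_zero _ hs
  obtain ⟨n, hn⟩ := WithTop.ne_top_iff_exists.mp hne
  obtain ⟨g, hg, hg1, hFg⟩ := (meromorphicOrderAt_eq_int_iff hF).mp hn.symm
  -- a logarithm of `g`
  set L : ℂ → ℂ := fun z => Complex.log (g z / g 1) + Complex.log (g 1) with hL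
  have hcont : ContinuousAt (fun z => g z / g 1) 1 := hg.continuousAt.div_const _
  have hLc : ContinuousAt L 1 := by
    refine ContinuousAt.add (ContinuousAt.clog hcont ?_) continuousAt_const
    rw [div_self hg1]
    exact Complex.one_mem_slitPlane
  have hgan : ∀ᶠ z in 𝓝 (1 : ℂ), AnalyticAt ℂ g z := hg.eventually_analyticAt
  have hslit : ∀ᶠ z in 𝓝 (1 : ℂ), g z / g 1 ∈ Complex.slitPlane := by
    refine hcont.eventually (Complex.isOpen_slitPlane.mem_nhds ?_)
    change g 1 / g 1 ∈ Complex.slitPlane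
    rw [div_self hg1]
    exact Complex.one_mem_slitPlane
  obtain ⟨ε₁, hε₁, hb₁⟩ := Metric.eventually_nhds_iff_ball.mp (hgan.and hslit)
  have hexpL : ∀ z ∈ Metric.ball (1 : ℂ) ε₁, Complex.exp (L z) = g z := by
    intro z hz
    have h1 : g z / g 1 ≠ 0 := Complex.slitPlane_ne_zero (hb₁ z hz).2
    rw [hL, Complex.exp_add, Complex.exp_log h1, Complex.exp_log hg1, div_mul_cancel₀ _ hg1]
  have hLcont : ∀ z ∈ Metric.ball (1 : ℂ) ε₁, ContinuousAt L z := by
    intro z hz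
    exact ((ContinuousAt.clog ((hb₁ z hz).1.continuousAt.div_const _) (hb₁ z hz).2)).add
      continuousAt_const
  obtain ⟨ε₂, hε₂, hb₂⟩ := Metric.mem_nhdsWithin_iff.mp hFg
  set ε := min ε₁ ε₂ with hε
  have hε0 : 0 < ε := lt_min hε₁ hε₂
  have hmem : ∀ s ∈ Set.Ioo (1 : ℝ) (1 + ε), (s : ℂ) ∈ Metric.ball (1 : ℂ) ε := by
    intro s hs
    rw [Metric.mem_ball, Complex.dist_eq]
    have h1 : (s : ℂ) - 1 = ((s - 1 : ℝ) : ℂ) := by push_cast; ring
    rw [h1, Complex.norm_real, Real.norm_of_nonneg (by linarith [hs.1])]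
    linarith [hs.2]
  -- the difference of the logarithms
  set D : ℝ → ℂ := fun s => G s - n * (Real.log (s - 1) : ℂ) - L s with hD
  have hDexp : ∀ s ∈ Set.Ioo (1 : ℝ) (1 + ε), Complex.exp (D s) = 1 := by
    intro s hs
    have hs1 : (0 : ℝ) < s - 1 := by linarith [hs.1]
    have hne1 : (s : ℂ) ≠ 1 := by
      intro h1
      have : s = 1 := by exact_mod_cast h1
      linarith
    have h1 : (s : ℂ) ∈ Metric.ball (1 : ℂ) ε₁ :=
      Metric.ball_subset_ball (min_le_left _ _) (hmem s hs)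
    have h2 : F s = ((s : ℂ) - 1) ^ n • g s :=
      hb₂ ⟨Metric.ball_subset_ball (min_le_right _ _) (hmem s hs), hne1⟩
    have h3 : Complex.exp (n * (Real.log (s - 1) : ℂ)) = ((s : ℂ) - 1) ^ n := by
      rw [Complex.exp_int_mul, ← Complex.ofReal_exp, Real.exp_log hs1]
      push_cast
      rfl
    have hg0 : g s ≠ 0 := by
      rw [← hexpL _ h1]
      exact Complex.exp_ne_zero _
    have hz0 : ((s : ℂ) - 1) ^ n ≠ 0 := zpow_ne_zero _ (sub_ne_zero.mpr hne1)
    rw [hD]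
    simp only
    rw [Complex.exp_sub, Complex.exp_sub, h3, hexpL _ h1, ← h s hs.1, h2, smul_eq_mul]
    field_simp
  have hDcont : ContinuousOn D (Set.Ioo (1 : ℝ) (1 + ε)) := by
    intro s hs
    have h1 : (s : ℂ) ∈ Metric.ball (1 : ℂ) ε₁ :=
      Metric.ball_subset_ball (min_le_left _ _) (hmem s hs)
    have h2 : ContinuousAt (fun s : ℝ => L (s : ℂ)) s :=
      (hLcont _ h1).comp Complex.continuous_ofReal.continuousAt
    have h3 : ContinuousAt (fun s : ℝ => (n : ℂ) * (Real.log (s - 1) : ℂ)) s := by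
      refine continuousAt_const.mul (Complex.continuous_ofReal.continuousAt.comp ?_)
      refine ContinuousAt.log (by fun_prop) ?_
      linarith [hs.1]
    have h4 : ContinuousWithinAt G (Set.Ioo (1 : ℝ) (1 + ε)) s :=
      (hG s hs.1).mono Set.Ioo_subset_Ioi_self
    exact (h4.sub h3.continuousWithinAt).sub h2.continuousWithinAt
  have hint : ∀ s ∈ Set.Ioo (1 : ℝ) (1 + ε), ∃ k : ℤ, D s = k * (2 * Real.pi * Complex.I) :=
    fun s hs => Complex.exp_eq_one_iff.mp (hDexp s hs)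
  set E : ℝ → ℝ := fun s => (D s).im / (2 * Real.pi) with hE
  have hEc : ContinuousOn E (Set.Ioo (1 : ℝ) (1 + ε)) :=
    (Complex.continuous_im.comp_continuousOn hDcont).div_const _
  have hEk : ∀ s ∈ Set.Ioo (1 : ℝ) (1 + ε), ∃ k : ℤ, E s = k ∧ D s = k * (2 * Real.pi * Complex.I) := by
    intro s hs
    obtain ⟨k, hk⟩ := hint s hs
    refine ⟨k, ?_, hk⟩
    rw [hE]
    simp only
    rw [hk]
    have h1 : ((k : ℂ) * (2 * Real.pi * Complex.I)).im = k * (2 * Real.pi) := by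
      have h2 : ((k : ℂ) * (2 * Real.pi * Complex.I)) = ((k * (2 * Real.pi) : ℝ) : ℂ) * Complex.I := by
        push_cast
        ring
      rw [h2, Complex.mul_I_im, Complex.ofReal_re]
    rw [h1, mul_div_assoc, div_self (by positivity), mul_one]
  obtain ⟨y, hy, hy2⟩ := (isPreconnected_Ioo (a := (1 : ℝ)) (b := 1 + ε)).eqOn_const_of_mapsTo
    (T := Set.range ((↑) : ℤ → ℝ)) Int.isClosedEmbedding_coe_real.isEmbedding.isDiscrete_range hEc (fun s hs => by
        obtain ⟨k, hk, -⟩ := hEk s hs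
        exact ⟨k, hk.symm⟩) ⟨0, 0, by simp⟩
  obtain ⟨k₀, rfl⟩ := hy
  refine ⟨-n, ‖L 1‖ + 1 + ‖(k₀ : ℂ) * (2 * Real.pi * Complex.I)‖, ?_⟩
  have hLb : ∀ᶠ s : ℝ in 𝓝[>] 1, ‖L s‖ ≤ ‖L 1‖ + 1 := by
    have h1 : Tendsto (fun s : ℝ => ‖L s‖) (𝓝[>] 1) (𝓝 ‖L 1‖) :=
      (hLc.norm.tendsto.mono_left nhdsWithin_le_nhds).comp hto
    exact (h1.eventually (gt_mem_nhds (lt_add_one _))).mono fun s hs => hs.le
  filter_upwards [hLb, Ioo_mem_nhdsGT (show (1 : ℝ) < 1 + ε by linarith)] with s hs1 hs2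
  obtain ⟨k, hk, hDk⟩ := hEk s hs2
  have h5 : k = k₀ := by
    have h7 : E s = (k₀ : ℝ) := hy2 hs2
    rw [hk] at h7
    exact_mod_cast h7
  have h6 : G s - ((-n : ℤ) : ℂ) * (Real.log (1 / (s - 1)) : ℂ) = D s + L s := by
    rw [hD, one_div, Real.log_inv]
    push_cast
    ring
  rw [h6, hDk, h5]
  refine (norm_add_le _ _).trans ?_
  linarith

end Pool.Agent.H506.LW
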