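import Pool.Agent.H506.Law

/-!
# The limits of character sums are integers
-/

set_option autoImplicit false

namespace Pool.Agent.H506.LW

open Filter Topology Pool.Agent.H506.SR

open AddMonoidAlgebra (single)

variable {V M : Type} [AddCommGroup M]

/-- the Euler product of the virtual character has a continuation to `s = 1` -/
def One (q : V → ℝ) (c : V → M → ℂ) (χ : AddMonoidAlgebra ℤ M) : Prop :=
  ∃ F : ℂ → ℂ, MeromorphicAt F 1 ∧ ∀ s : ℂ, 1 < s.re → F s = Complex.exp (∑' v, lv q c s v χ)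

/-- the additive group of the virtual characters with continuation -/
noncomputable def oneGroup {q : V → ℝ} (hq : ∀ v, 2 ≤ q v)
    (hsum : ∀ s : ℝ, 1 < s → Summable fun v => q v ^ (-s)) {c : V → M → ℂ}
    (hc : ∀ v k, ‖c v k‖ = 1) : AddSubgroup (AddMonoidAlgebra ℤ M) where
  carrier := {χ | One q c χ}
  zero_mem' := by
    refine ⟨fun _ => 1, MeromorphicAt.const _ _, fun s _ => ?_⟩
    simp only [map_zero, tsum_zero, Complex.exp_zero]
  add_mem' := by
    rintro a b ⟨F₁, hF₁, h₁⟩ ⟨F₂, hF₂, h₂⟩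
    refine ⟨fun s => F₁ s * F₂ s, hF₁.mul hF₂, fun s hs => ?_⟩
    simp only [h₁ s hs, h₂ s hs, map_add]
    rw [(summable_lv hq hsum hc hs a).tsum_add (summable_lv hq hsum hc hs b), Complex.exp_add]
  neg_mem' := by
    rintro a ⟨F₁, hF₁, h₁⟩
    refine ⟨fun s => (F₁ s)⁻¹, hF₁.inv, fun s hs => ?_⟩
    simp only [h₁ s hs, map_neg, tsum_neg, Complex.exp_neg]

section

variable {q : V → ℝ} (hq : ∀ v, 2 ≤ q v) (hsum : ∀ s : ℝ, 1 < s → Summable fun v => q v ^ (-s))
  {c : V → M → ℂ} (hc : ∀ v k, ‖c v k‖ = 1)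

include hq in
omit [AddCommGroup M] in
theorem rpow_le_half {s : ℝ} (hs : 1 ≤ s) (v : V) : q v ^ (-s) ≤ 1 / 2 := by
  have h0 : 0 < q v := by linarith [hq v]
  rw [Real.rpow_neg h0.le, one_div]
  refine inv_anti₀ (by norm_num) ?_
  calc (2 : ℝ) = 2 ^ (1 : ℝ) := (Real.rpow_one 2).symm
    _ ≤ 2 ^ s := Real.rpow_le_rpow_of_exponent_le (by norm_num) hs
    _ ≤ q v ^ s := Real.rpow_le_rpow (by norm_num) (hq v) (by linarith)

include hq in
theorem cpow_eq (s : ℝ) (v : V) : (q v : ℂ) ^ (-(s : ℂ)) = ((q v ^ (-s) : ℝ) : ℂ) := by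
  have h0 : 0 < q v := by linarith [hq v]
  rw [← Complex.ofReal_neg, Complex.ofReal_cpow h0.le]

include hq in
theorem rpow_pos (s : ℝ) (v : V) : 0 < q v ^ (-s) :=
  Real.rpow_pos_of_pos (by linarith [hq v]) _

include hq hsum hc in
/-- the logarithm is continuous -/
theorem continuous_lv (χ : AddMonoidAlgebra ℤ M) :
    ContinuousOn (fun s : ℝ => ∑' v, lv q c s v χ) (Set.Ioi 1) := by
  induction χ using AddMonoidAlgebra.induction_linear with
  | zero => simp only [map_zero, tsum_zero]; exact continuousOn_const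
  | add a b ha hb =>
    refine (ha.add hb).congr fun s hs => ?_
    have hs' : 1 < (s : ℂ).re := hs
    simp only [map_add]
    exact (summable_lv hq hsum hc hs' a).tsum_add (summable_lv hq hsum hc hs' b)
  | single k m =>
    intro s hs
    refine ContinuousAt.continuousWithinAt ?_
    have hs1 : (1 : ℝ) < s := hs
    set r := (1 + s) / 2 with hr
    have h1 : ContinuousOn (fun s : ℝ => ∑' v, lv q c s v (single k m)) (Set.Ioi r) := by
      refine continuousOn_tsum (u := fun v => |(m : ℝ)| * (3 / 2 * q v ^ (-r))) (fun v => ?_)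
        (((hsum r (by rw [hr]; linarith)).mul_left _).mul_left _) fun v x hx => ?_
      · simp only [lv_single]
        refine ContinuousOn.mul continuousOn_const (ContinuousOn.neg ?_)
        intro x hx
        have hx1 : 1 < x := by
          have : r < x := hx
          rw [hr] at this
          linarith
        have h0 : (q v : ℂ) ≠ 0 := by
          have : 0 < q v := by linarith [hq v]
          exact_mod_cast this.ne'
        refine ContinuousAt.continuousWithinAt (ContinuousAt.clog ?_ ?_)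
        · refine continuousAt_const.sub (continuousAt_const.mul ?_)
          have : ContinuousAt (fun x : ℝ => -(x : ℂ)) x := by fun_prop
          exact this.const_cpow (Or.inl h0)
        · rw [sub_eq_add_neg]
          refine Complex.mem_slitPlane_of_norm_lt_one ?_
          rw [norm_neg, norm_mul, hc, one_mul, cpow_eq hq, Complex.norm_real,
            Real.norm_of_nonneg (rpow_pos hq x v).le]
          exact lt_of_le_of_lt (rpow_le_half hq hx1.le v) (by norm_num)
      · have hx1 : r < x := hx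
        have hx2 : 1 < x := by
          rw [hr] at hx1
          linarith
        rw [lv_single, norm_mul, norm_neg]
        have h2 := Complex.norm_log_one_add_half_le_self (z := -(c v k * (q v : ℂ) ^ (-(x : ℂ)))) (by
          rw [norm_neg, norm_mul, hc, one_mul, cpow_eq hq, Complex.norm_real,
            Real.norm_of_nonneg (rpow_pos hq x v).le]
          exact rpow_le_half hq hx2.le v)
        rw [norm_neg, norm_mul, hc, one_mul, cpow_eq hq, Complex.norm_real,
            Real.norm_of_nonneg (rpow_pos hq x v).le, ← sub_eq_add_neg, ← cpow_eq hq] at h2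
        have h3 : ‖(m : ℂ)‖ = |(m : ℝ)| := by
          rw [← Complex.ofReal_intCast, Complex.norm_real, Real.norm_eq_abs]
        rw [h3]
        refine mul_le_mul_of_nonneg_left (h2.trans ?_) (abs_nonneg _)
        refine mul_le_mul_of_nonneg_left ?_ (by norm_num)
        exact Real.rpow_le_rpow_of_exponent_le (by linarith [hq v]) (by linarith)
    refine h1.continuousAt (Ioi_mem_nhds ?_)
    rw [hr]
    linarith

include hq hsum in
theorem summable_cv {z : V → ℂ} {B : ℝ} (hz : ∀ v, ‖z v‖ ≤ B) {s : ℝ} (hs : 1 < s) :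
    Summable fun v => z v * ((q v ^ (-s) : ℝ) : ℂ) := by
  refine Summable.of_norm_bounded (g := fun v => B * q v ^ (-s)) ((hsum s hs).mul_left B) fun v => ?_
  rw [norm_mul, Complex.norm_real, Real.norm_of_nonneg (rpow_pos hq s v).le]
  exact mul_le_mul_of_nonneg_right (hz v) (rpow_pos hq s v).le

include hc in
theorem norm_lg_le (χ : AddMonoidAlgebra ℤ M) : ∃ B : ℝ, ∀ v, ‖lg (c v) χ‖ ≤ B := by
  induction χ using AddMonoidAlgebra.induction_linear with
  | zero => exact ⟨0, fun v => by rw [map_zero, norm_zero]⟩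
  | add a b ha hb =>
    obtain ⟨B₁, h₁⟩ := ha
    obtain ⟨B₂, h₂⟩ := hb
    refine ⟨B₁ + B₂, fun v => ?_⟩
    rw [map_add]
    exact (norm_add_le _ _).trans (add_le_add (h₁ v) (h₂ v))
  | single k m =>
    refine ⟨‖(m : ℂ)‖, fun v => ?_⟩
    rw [lg_single, norm_mul, hc, mul_one]

include hq hsum hc in
/-- the logarithm and the sum over the places differ by a bounded function -/
theorem lv_sub_le (χ : AddMonoidAlgebra ℤ M) : ∃ C : ℝ, ∀ s : ℝ, 1 < s →
    ‖∑' v, lv q c s v χ - ∑' v, lg (c v) χ * ((q v ^ (-s) : ℝ) : ℂ)‖ ≤ C := by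
  induction χ using AddMonoidAlgebra.induction_linear with
  | zero => exact ⟨0, fun s _ => by simp⟩
  | add a b ha hb =>
    obtain ⟨C₁, h₁⟩ := ha
    obtain ⟨C₂, h₂⟩ := hb
    refine ⟨C₁ + C₂, fun s hs => ?_⟩
    have hs' : 1 < (s : ℂ).re := hs
    obtain ⟨B₁, hB₁⟩ := norm_lg_le hc a
    obtain ⟨B₂, hB₂⟩ := norm_lg_le hc b
    simp only [map_add, add_mul]
    rw [(summable_lv hq hsum hc hs' a).tsum_add (summable_lv hq hsum hc hs' b),
      (summable_cv hq hsum hB₁ hs).tsum_add (summable_cv hq hsum hB₂ hs)]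
    have h3 : ∀ w x y z : ℂ, w + x - (y + z) = (w - y) + (x - z) := fun w x y z => by ring
    rw [h3]
    exact (norm_add_le _ _).trans (add_le_add (h₁ s hs) (h₂ s hs))
  | single k m =>
    refine ⟨‖(m : ℂ)‖ * ∑' v, (q v ^ (-(2 : ℝ))), fun s hs => ?_⟩
    have hs' : 1 < (s : ℂ).re := hs
    have e1 := summable_lv hq hsum hc hs' (single k m)
    have e2 := summable_cv hq hsum (z := fun v => lg (c v) (single k m)) (B := ‖(m : ℂ)‖) (fun v => by
      rw [lg_single, norm_mul, hc, mul_one]) hs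
    rw [← e1.tsum_sub e2, ← tsum_mul_left]
    have h2 : ∀ v, ‖lv q c s v (single k m) - lg (c v) (single k m) * ((q v ^ (-s) : ℝ) : ℂ)‖ ≤
        ‖(m : ℂ)‖ * q v ^ (-(2 : ℝ)) := by
      intro v
      rw [lv_single, lg_single]
      have h0 : 0 < q v := by linarith [hq v]
      set z := c v k * (q v : ℂ) ^ (-(s : ℂ)) with hz
      have hzn : ‖z‖ = q v ^ (-s) := by
        rw [hz, norm_mul, hc, one_mul, cpow_eq hq, Complex.norm_real,
            Real.norm_of_nonneg (rpow_pos hq s v).le]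
      have h3 : (m : ℂ) * -Complex.log (1 - z) - (m : ℂ) * c v k * ((q v ^ (-s) : ℝ) : ℂ) =
          (m : ℂ) * (-(Complex.log (1 + -z) - -z)) := by
        rw [← cpow_eq hq, mul_assoc, ← hz, ← sub_eq_add_neg]
        ring
      rw [h3, norm_mul, norm_neg]
      refine mul_le_mul_of_nonneg_left ?_ (norm_nonneg _)
      have hz2 : ‖z‖ ≤ 1 / 2 := by rw [hzn]; exact rpow_le_half hq hs.le v
      have h4 := Complex.norm_log_one_add_sub_self_le (z := -z) (by rw [norm_neg]; linarith)
      rw [norm_neg] at h4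
      refine h4.trans ?_
      have h5 : (1 - ‖z‖)⁻¹ ≤ 2 := by
        rw [inv_le_comm₀ (by linarith) (by norm_num)]
        linarith
      have h6 : ‖z‖ ^ 2 ≤ q v ^ (-(2 : ℝ)) := by
        rw [hzn, ← Real.rpow_natCast, ← Real.rpow_mul h0.le]
        refine Real.rpow_le_rpow_of_exponent_le (by linarith [hq v]) ?_
        push_cast
        linarith
      calc ‖z‖ ^ 2 * (1 - ‖z‖)⁻¹ / 2 ≤ ‖z‖ ^ 2 * 2 / 2 := by
            refine div_le_div_of_nonneg_right ?_ (by norm_num)
            exact mul_le_mul_of_nonneg_left h5 (sq_nonneg _)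
        _ = ‖z‖ ^ 2 := by ring
        _ ≤ _ := h6
    have h3 : Summable fun v => ‖(m : ℂ)‖ * q v ^ (-(2 : ℝ)) := (hsum 2 (by norm_num)).mul_left _
    exact tsum_of_norm_bounded h3.hasSum h2

theorem tendsto_log_atTop : Tendsto (fun s : ℝ => Real.log (1 / (s - 1))) (𝓝[>] 1) atTop := by
  refine Real.tendsto_log_atTop.comp ?_
  have h1 : Tendsto (fun s : ℝ => s - 1) (𝓝[>] 1) (𝓝[>] 0) := by
    refine tendsto_nhdsWithin_iff.mpr ⟨?_, ?_⟩
    · have h2 : Tendsto (fun s : ℝ => s - 1) (𝓝 1) (𝓝 (1 - 1)) :=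
        (continuous_id.sub continuous_const).tendsto 1
      rw [sub_self] at h2
      exact h2.mono_left nhdsWithin_le_nhds
    · filter_upwards [self_mem_nhdsWithin] with s hs
      exact Set.mem_Ioi.mpr (sub_pos.mpr (Set.mem_Ioi.mp hs))
  simp only [one_div]
  exact h1.inv_tendsto_nhdsGT_zero

include hq hsum hc in
/-- **Integrality.** -/
theorem lim_int {χ : AddMonoidAlgebra ℤ M} (h : One q c χ) : ∃ m : ℤ,
    Tendsto (fun s : ℝ => (∑' v, lg (c v) χ * ((q v ^ (-s) : ℝ) : ℂ)) / (Real.log (1 / (s - 1)) : ℂ))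
      (𝓝[>] 1) (𝓝 (m : ℂ)) := by
  obtain ⟨F, hF, hFs⟩ := h
  obtain ⟨m, C, hC⟩ := int_order hF (continuous_lv hq hsum hc χ) fun s hs => hFs s hs
  obtain ⟨C', hC'⟩ := lv_sub_le hq hsum hc χ
  refine ⟨m, ?_⟩
  rw [tendsto_iff_norm_sub_tendsto_zero]
  have h1 : Tendsto (fun s : ℝ => (C + C') / Real.log (1 / (s - 1))) (𝓝[>] 1) (𝓝 0) :=
    tendsto_log_atTop.const_div_atTop _
  refine squeeze_zero' (Eventually.of_forall fun _ => norm_nonneg _) ?_ h1
  filter_upwards [hC, self_mem_nhdsWithin, tendsto_log_atTop.eventually_gt_atTop 0] with s h2 hs h3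
  have h4 := hC' s hs
  set A := ∑' v, lv q c s v χ
  set B := ∑' v, lg (c v) χ * ((q v ^ (-s) : ℝ) : ℂ)
  set l := Real.log (1 / (s - 1))
  have hl : (l : ℂ) ≠ 0 := by exact_mod_cast h3.ne'
  have h5 : B / l - m = ((A - m * l) - (A - B)) / l := by
    field_simp
    ring
  rw [h5, norm_div, Complex.norm_real, Real.norm_of_nonneg h3.le]
  refine div_le_div_of_nonneg_right ?_ h3.le
  exact (norm_sub_le _ _).trans (add_le_add h2 h4)

end

end Pool.Agent.H506.LW
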