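import Pool.Agent.H506.Core

/-!
# Euler factors
-/

set_option autoImplicit false

namespace Pool.Agent.H506.SV

open Filter Topology Pool.Agent.H506.PS

variable {V : Type}

theorem cpow_neg_eq {q : ℝ} (hq : 2 ≤ q) (s : ℂ) (n : ℕ) :
    Complex.exp (-((((n + 1 : ℝ) * Real.log q : ℝ) : ℂ) * s)) = ((q : ℂ) ^ (-s)) ^ (n + 1) := by
  have h0 : (q : ℂ) ≠ 0 := by
    have : (0 : ℝ) < q := by linarith
    exact_mod_cast this.ne'
  rw [Complex.cpow_def_of_ne_zero h0, ← Complex.exp_nat_mul, ← Complex.ofReal_log (by linarith)]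
  congr 1
  push_cast
  ring

theorem norm_mul_cpow_lt {q : ℝ} (hq : 2 ≤ q) {z s : ℂ} {B : ℝ} (hz : ‖z‖ ≤ q ^ B)
    (hs : B < s.re) : ‖z * (q : ℂ) ^ (-s)‖ < 1 := by
  have h0 : (0 : ℝ) < q := by linarith
  rw [norm_mul, Complex.norm_cpow_eq_rpow_re_of_pos h0, Complex.neg_re]
  calc ‖z‖ * q ^ (-s.re) ≤ q ^ B * q ^ (-s.re) :=
        mul_le_mul_of_nonneg_right hz (Real.rpow_nonneg h0.le _)
    _ = q ^ (B - s.re) := by rw [← Real.rpow_add h0, sub_eq_add_neg]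
    _ < 1 := Real.rpow_lt_one_of_one_lt_of_neg (by linarith) (by linarith)

/-- the sum over one place -/
theorem hasSum_place {q : V → ℝ} (hq : ∀ v, 2 ≤ q v) {a : V → ℕ → ℝ} {k : ℕ} {J : Type} [Fintype J]
    {γ : V → J → ℂ} (ha : ∀ v r, ((a v r : ℝ) : ℂ) ^ k = ∑ j, γ v j ^ (r + 1)) {B : ℝ} {v : V}
    (hγ : ∀ j, ‖γ v j‖ ≤ q v ^ B) {W : Set V} (hv : v ∈ W) {s : ℂ} (hs : B < s.re) :
    HasSum (fun r : ℕ => (cf a k W (v, r) : ℂ) * Complex.exp (-((len q (v, r) : ℂ) * s)))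
      (∑ j, -Complex.log (1 - γ v j * (q v : ℂ) ^ (-s))) := by
  have h1 : ∀ r : ℕ, (cf a k W (v, r) : ℂ) * Complex.exp (-((len q (v, r) : ℂ) * s)) =
      ∑ j, (γ v j * (q v : ℂ) ^ (-s)) ^ (r + 1) / (r + 1) := by
    intro r
    unfold cf
    rw [if_pos hv]
    have h2 : Complex.exp (-((len q (v, r) : ℂ) * s)) = ((q v : ℂ) ^ (-s)) ^ (r + 1) :=
      cpow_neg_eq (hq v) s r
    rw [h2]
    push_cast
    rw [ha v r, Finset.sum_div, Finset.sum_mul]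
    refine Finset.sum_congr rfl fun j _ => ?_
    rw [mul_pow]
    ring
  simp_rw [h1]
  refine hasSum_sum fun j _ => ?_
  exact Complex.hasSum_taylorSeries_neg_log' (norm_mul_cpow_lt (hq v) (hγ j) hs)

theorem P_place {q : V → ℝ} (hq : ∀ v, 2 ≤ q v) {a : V → ℕ → ℝ} {k : ℕ} {J : Type} [Fintype J]
    {γ : V → J → ℂ} (ha : ∀ v r, ((a v r : ℝ) : ℂ) ^ k = ∑ j, γ v j ^ (r + 1)) {B : ℝ} {v : V}
    (hγ : ∀ j, ‖γ v j‖ ≤ q v ^ B) {s : ℂ} (hs : B < s.re) :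
    P (cf a k {v}) (len q) s = ∑ j, -Complex.log (1 - γ v j * (q v : ℂ) ^ (-s)) := by
  have hinj : Function.Injective fun r : ℕ => (v, r) := fun r r' h => (Prod.mk.inj h).2
  have h1 := hasSum_place hq ha hγ (W := {v}) (Set.mem_singleton v) hs
  rw [← h1.tsum_eq]
  unfold P
  refine (hinj.tsum_eq (f := fun x : V × ℕ => (cf a k {v} x : ℂ) *
    Complex.exp (-((len q x : ℂ) * s))) ?_).symm
  intro x hx
  by_contra hcon
  apply hx
  have h2 : x.1 ∉ ({v} : Set V) := by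
    intro h3
    apply hcon
    refine ⟨x.2, ?_⟩
    have h4 : x.1 = v := h3
    simp only
    rw [← h4]
  have h3 : cf a k {v} x = 0 := by
    unfold cf
    rw [if_neg h2]
  simp only [h3, Complex.ofReal_zero, zero_mul]

theorem prod_place {q : V → ℝ} (hq : ∀ v, 2 ≤ q v) {J : Type} [Fintype J] {γ : V → J → ℂ} {B : ℝ}
    {v : V} (hγ : ∀ j, ‖γ v j‖ ≤ q v ^ B) {s : ℂ} (hs : B < s.re) :
    ∏ j, (1 - γ v j * (q v : ℂ) ^ (-s)) =
      Complex.exp (-∑ j, -Complex.log (1 - γ v j * (q v : ℂ) ^ (-s))) := by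
  rw [Finset.sum_neg_distrib, neg_neg, Complex.exp_sum]
  refine Finset.prod_congr rfl fun j _ => ?_
  rw [Complex.exp_log]
  intro h0
  have h1 := norm_mul_cpow_lt (hq v) (hγ j) hs
  rw [sub_eq_zero] at h0
  rw [← h0, norm_one] at h1
  exact lt_irrefl _ h1

theorem hasProd_exp {q : V → ℝ} (hq : ∀ v, 2 ≤ q v) {a : V → ℕ → ℝ} (ha0 : ∀ v r, 0 ≤ a v r)
    {k : ℕ} {J : Type} [Fintype J]
    {γ : V → J → ℂ} (ha : ∀ v r, ((a v r : ℝ) : ℂ) ^ k = ∑ j, γ v j ^ (r + 1)) {B : ℝ}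
    (hγ : ∀ v j, ‖γ v j‖ ≤ q v ^ B) {s : ℂ} (hs : B < s.re)
    (hconv : Conv (cf a k Set.univ) (len q) s.re) :
    HasProd (fun v => (∏ j, (1 - γ v j * (q v : ℂ) ^ (-s)))⁻¹)
      (Complex.exp (P (cf a k Set.univ) (len q) s)) := by
  have h1 : HasSum (fun x : V × ℕ => (cf a k Set.univ x : ℂ) * Complex.exp (-((len q x : ℂ) * s)))
      (P (cf a k Set.univ) (len q) s) :=
    (Conv.summable (cf_nonneg ha0 k _) hconv).hasSum
  have h2 := h1.prod_fiberwise fun v => hasSum_place hq ha (hγ v) (Set.mem_univ v) hs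
  have h3 := h2.cexp
  refine h3.congr_fun fun v => ?_
  rw [Function.comp_apply, prod_place hq (hγ v) hs, ← Complex.exp_neg, neg_neg]

end Pool.Agent.H506.SV
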