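import Mathlib
import Pool.Graph.R_seed8.W263.BSD.Landau

/-!
# Positive exponential sums and meromorphic continuation

`P c l s = ∑ c_a exp (- l_a s)` with `c_a ≥ 0`, `l_a ≥ 0`.
-/

set_option autoImplicit false

namespace Pool.Agent.H506.PS

open Filter Topology MeasureTheory ProbabilityTheory

variable {ι : Type}

/-- the sum `∑ c_a exp (- l_a s)` converges at the real number `s` -/
def Conv (c l : ι → ℝ) (s : ℝ) : Prop := Summable fun a => c a * Real.exp (-(l a * s))

/-- the real sum -/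
noncomputable def R (c l : ι → ℝ) (s : ℝ) : ℝ := ∑' a, c a * Real.exp (-(l a * s))

/-- the complex sum -/
noncomputable def P (c l : ι → ℝ) (s : ℂ) : ℂ := ∑' a, (c a : ℂ) * Complex.exp (-((l a : ℂ) * s))

theorem Conv.mono {c l : ι → ℝ} (hc : ∀ a, 0 ≤ c a) (hl : ∀ a, 0 ≤ l a) {s s' : ℝ}
    (h : Conv c l s) (hs : s ≤ s') : Conv c l s' := by
  refine Summable.of_nonneg_of_le (fun a => mul_nonneg (hc a) (Real.exp_nonneg _)) (fun a => ?_) h
  refine mul_le_mul_of_nonneg_left (Real.exp_le_exp.mpr ?_) (hc a)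
  have := mul_le_mul_of_nonneg_left hs (hl a)
  linarith

theorem norm_term {c l : ι → ℝ} (hc : ∀ a, 0 ≤ c a) (s : ℂ) (a : ι) :
    ‖(c a : ℂ) * Complex.exp (-((l a : ℂ) * s))‖ = c a * Real.exp (-(l a * s.re)) := by
  rw [norm_mul, Complex.norm_real, Real.norm_of_nonneg (hc a), Complex.norm_exp]
  simp

theorem Conv.summable {c l : ι → ℝ} (hc : ∀ a, 0 ≤ c a) {s : ℂ} (h : Conv c l s.re) :
    Summable fun a => (c a : ℂ) * Complex.exp (-((l a : ℂ) * s)) := by
  refine Summable.of_norm ?_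
  simp_rw [norm_term hc]
  exact h

theorem R_nonneg {c l : ι → ℝ} (hc : ∀ a, 0 ≤ c a) (s : ℝ) : 0 ≤ R c l s :=
  tsum_nonneg fun a => mul_nonneg (hc a) (Real.exp_nonneg _)

theorem P_ofReal (c l : ι → ℝ) (s : ℝ) : P c l (s : ℂ) = (R c l s : ℂ) := by
  unfold P R
  rw [Complex.ofReal_tsum]
  refine tsum_congr fun a => ?_
  push_cast
  rfl

theorem analytic {c l : ι → ℝ} (hc : ∀ a, 0 ≤ c a) (hl : ∀ a, 0 ≤ l a) {σ : ℝ}
    (h : ∀ s : ℝ, σ < s → Conv c l s) : AnalyticOnNhd ℂ (P c l) {s : ℂ | σ < s.re} := by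
  have hopen : IsOpen {s : ℂ | σ < s.re} := isOpen_lt continuous_const Complex.continuous_re
  refine DifferentiableOn.analyticOnNhd ?_ hopen
  intro s hs
  have hs' : σ < s.re := hs
  set τ : ℝ := (σ + s.re) / 2 with hτ
  have h1 : σ < τ := by rw [hτ]; linarith
  have h2 : τ < s.re := by rw [hτ]; linarith
  have hopen' : IsOpen {s : ℂ | τ < s.re} := isOpen_lt continuous_const Complex.continuous_re
  have hd : DifferentiableOn ℂ (P c l) {s : ℂ | τ < s.re} := by
    refine Complex.differentiableOn_tsum_of_summable_norm (u := fun a => c a * Real.exp (-(l a * τ)))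
      (h τ h1) (fun a => ?_) hopen' (fun a w hw => ?_)
    · fun_prop
    · rw [norm_term hc]
      refine mul_le_mul_of_nonneg_left (Real.exp_le_exp.mpr ?_) (hc a)
      have hw' : τ < w.re := hw
      have := mul_le_mul_of_nonneg_left hw'.le (hl a)
      linarith
  exact (hd.differentiableAt (hopen'.mem_nhds h2)).differentiableWithinAt

/-- Landau's lemma -/
theorem landau [Countable ι] {c l : ι → ℝ} (hc : ∀ a, 0 ≤ c a) (hl : ∀ a, 0 ≤ l a) {σ : ℝ}
    (h : ∀ s : ℝ, σ < s → Conv c l s) {g : ℝ → ℝ} (hg : AnalyticAt ℝ g σ)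
    (heq : ∀ᶠ s in 𝓝[>] σ, R c l s = g s) : ∃ s < σ, Conv c l s := by
  let _ : MeasurableSpace ι := ⊤
  have _ : DiscreteMeasurableSpace ι := ⟨fun _ => trivial⟩
  set μ : Measure ι := Measure.count.withDensity fun a => ENNReal.ofReal (c a) with hμ
  have hint : ∀ t : ℝ, t ∈ integrableExpSet l μ ↔ Conv c l (-t) := by
    intro t
    unfold integrableExpSet Conv
    rw [Set.mem_ofPred_eq, hμ,
      integrable_withDensity_iff_integrable_smul' (measurable_of_countable _)
        (Eventually.of_forall fun a => ENNReal.ofReal_lt_top), integrable_count_iff]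
    refine summable_congr fun a => ?_
    rw [ENNReal.toReal_ofReal (hc a), smul_eq_mul,
      Real.norm_of_nonneg (mul_nonneg (hc a) (Real.exp_nonneg _))]
    congr 2
    ring
  have hmgf : ∀ t : ℝ, Conv c l (-t) → mgf l μ t = R c l (-t) := by
    intro t ht
    have h0 := (hint t).mpr ht
    unfold mgf R
    rw [MeasureTheory.integral_countable h0]
    refine tsum_congr fun a => ?_
    rw [hμ, measureReal_def, withDensity_apply _ (measurableSet_singleton a),
      Measure.restrict_singleton]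
    simp only [Measure.count_singleton, one_smul, lintegral_dirac, smul_eq_mul]
    rw [ENNReal.toReal_ofReal (hc a)]
    congr 2
    ring
  have hg' : AnalyticAt ℝ (fun t : ℝ => g (-t)) (-σ) := by
    have h1 : AnalyticAt ℝ g (-(-σ)) := by rwa [neg_neg]
    exact h1.comp (f := fun t : ℝ => -t) (analyticAt_id.neg)
  obtain ⟨t, ht, ht'⟩ := Pool.Agent.W263.BSD.landau (X := l) (μ := μ) (s := -σ)
    (Eventually.of_forall hl) hg'
    (fun t ht => (hint t).mpr (h _ (by linarith))) (by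
      have h2 : Tendsto (fun t : ℝ => -t) (𝓝[<] (-σ)) (𝓝[>] σ) := by
        have := tendsto_neg_nhdsLT (a := -σ)
        rwa [neg_neg] at this
      filter_upwards [h2.eventually heq, self_mem_nhdsWithin] with t ht ht'
      have ht'' : t < -σ := ht'
      rw [hmgf t (h _ (by linarith)), ht])
  exact ⟨-t, by linarith, (hint t).mp ht'⟩

/-- Near the abscissa of convergence `σ`, if `exp P` has a meromorphic continuation to `σ`, then
`P(s) = M log (1 / (s - σ)) + O(1)` with a natural number `M`, and `M > 0` if the sum does not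
converge to the left of `σ`. -/
theorem pole [Countable ι] {c l : ι → ℝ} (hc : ∀ a, 0 ≤ c a) (hl : ∀ a, 0 ≤ l a) {σ : ℝ}
    (h : ∀ s : ℝ, σ < s → Conv c l s) {F : ℂ → ℂ} (hF : MeromorphicAt F (σ : ℂ))
    (heq : ∀ᶠ s : ℝ in 𝓝[>] σ, F (s : ℂ) = Complex.exp (P c l s)) :
    ∃ M : ℕ, (∃ C : ℝ, ∀ᶠ s : ℝ in 𝓝[>] σ, |R c l s - M * Real.log (1 / (s - σ))| ≤ C) ∧
      (M = 0 → ∃ s < σ, Conv c l s) := by
  have htend : Tendsto (fun s : ℝ => (s : ℂ)) (𝓝[>] σ) (𝓝[≠] (σ : ℂ)) := by
    refine tendsto_nhdsWithin_iff.mpr ⟨?_, ?_⟩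
    · exact (Complex.continuous_ofReal.tendsto σ).mono_left nhdsWithin_le_nhds
    · filter_upwards [self_mem_nhdsWithin] with s hs
      have hs' : σ < s := hs
      simp only [Set.mem_compl_iff, Set.mem_singleton_iff, Complex.ofReal_inj]
      exact hs'.ne'
  have htop : meromorphicOrderAt F (σ : ℂ) ≠ ⊤ := by
    intro ht
    rw [meromorphicOrderAt_eq_top_iff] at ht
    obtain ⟨s, h1, h2⟩ := ((htend.eventually ht).and heq).exists
    rw [h1] at h2
    exact Complex.exp_ne_zero _ h2.symm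
  obtain ⟨g, hg, hg0, hFg⟩ := (meromorphicOrderAt_ne_top_iff hF).mp htop
  set n : ℤ := (meromorphicOrderAt F (σ : ℂ)).untop₀ with hn
  -- the norm
  have hnorm : ∀ᶠ s : ℝ in 𝓝[>] σ, Real.exp (R c l s) = (s - σ) ^ n * ‖g (s : ℂ)‖ := by
    filter_upwards [heq, htend.eventually hFg, self_mem_nhdsWithin] with s h1 h2 h3
    have h3' : σ < s := h3
    have h4 : ‖F (s : ℂ)‖ = Real.exp (R c l s) := by
      rw [h1, P_ofReal, ← Complex.ofReal_exp, Complex.norm_real, Real.norm_of_nonneg (Real.exp_nonneg _)]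
    rw [← h4, h2, norm_smul, norm_zpow, ← Complex.ofReal_sub, Complex.norm_real,
      Real.norm_of_nonneg (by linarith)]
  have hgt : Tendsto (fun s : ℝ => g (s : ℂ)) (𝓝[>] σ) (𝓝 (g σ)) :=
    (hg.continuousAt.tendsto.comp (htend.mono_right nhdsWithin_le_nhds))
  have hgpos : 0 < ‖g σ‖ := norm_pos_iff.mpr hg0
  have hgb : ∀ᶠ s : ℝ in 𝓝[>] σ, ‖g σ‖ / 2 < ‖g (s : ℂ)‖ ∧ ‖g (s : ℂ)‖ < 2 * ‖g σ‖ := by
    have h1 := hgt.norm
    exact (h1.eventually (lt_mem_nhds (by linarith))).and (h1.eventually (gt_mem_nhds (by linarith)))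
  have hlog : ∀ᶠ s : ℝ in 𝓝[>] σ, R c l s = n * Real.log (s - σ) + Real.log ‖g (s : ℂ)‖ := by
    filter_upwards [hnorm, hgb, self_mem_nhdsWithin] with s h1 h2 h3
    have h3' : 0 < s - σ := sub_pos.mpr h3
    have h4 : 0 < ‖g (s : ℂ)‖ := lt_trans (by linarith) h2.1
    have h5 := congrArg Real.log h1
    rwa [Real.log_exp, Real.log_mul (zpow_pos h3' _).ne' h4.ne', Real.log_zpow] at h5
  -- the order is not positive
  have hn0 : n ≤ 0 := by
    by_contra hcon
    have hn1 : 0 < n := not_le.mp hcon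
    have h1 : Tendsto (fun s : ℝ => (n : ℝ) * Real.log (s - σ) + Real.log (2 * ‖g σ‖)) (𝓝[>] σ) atBot := by
      refine tendsto_atBot_add_const_right _ _ ?_
      refine Tendsto.const_mul_atBot (by exact_mod_cast hn1) ?_
      refine Real.tendsto_log_nhdsGT_zero.comp ?_
      refine tendsto_nhdsWithin_iff.mpr ⟨?_, ?_⟩
      · have : Tendsto (fun s : ℝ => s - σ) (𝓝 σ) (𝓝 (σ - σ)) := (continuous_sub_right σ).tendsto σ
        rw [sub_self] at this
        exact this.mono_left nhdsWithin_le_nhds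
      · filter_upwards [self_mem_nhdsWithin] with s hs
        have hs' : σ < s := hs
        exact sub_pos.mpr hs'
    obtain ⟨s, h2, h3, h4⟩ := ((h1.eventually (eventually_lt_atBot 0)).and (hlog.and hgb)).exists
    have h5 : Real.log ‖g (s : ℂ)‖ ≤ Real.log (2 * ‖g σ‖) :=
      Real.log_le_log (lt_trans (by linarith) h4.1) h4.2.le
    have h6 := R_nonneg (l := l) hc s
    linarith
  refine ⟨(-n).toNat, ⟨max |Real.log (‖g σ‖ / 2)| |Real.log (2 * ‖g σ‖)|, ?_⟩, ?_⟩
  · filter_upwards [hlog, hgb, self_mem_nhdsWithin] with s h1 h2 h3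
    have h7 : (((-n).toNat : ℕ) : ℝ) = -(n : ℝ) := by
      have : (((-n).toNat : ℕ) : ℤ) = -n := Int.toNat_of_nonneg (by linarith)
      exact_mod_cast this
    rw [h1, h7, one_div, Real.log_inv]
    have h8 : (n : ℝ) * Real.log (s - σ) + Real.log ‖g (s : ℂ)‖ - -(n : ℝ) * -Real.log (s - σ) =
        Real.log ‖g (s : ℂ)‖ := by ring
    rw [h8]
    have h9 : Real.log (‖g σ‖ / 2) ≤ Real.log ‖g (s : ℂ)‖ :=
      Real.log_le_log (by linarith) h2.1.le
    have h10 : Real.log ‖g (s : ℂ)‖ ≤ Real.log (2 * ‖g σ‖) :=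
      Real.log_le_log (lt_trans (by linarith) h2.1) h2.2.le
    rw [abs_le]
    constructor
    · have := neg_abs_le (Real.log (‖g σ‖ / 2))
      have := le_max_left |Real.log (‖g σ‖ / 2)| |Real.log (2 * ‖g σ‖)|
      linarith
    · have := le_abs_self (Real.log (2 * ‖g σ‖))
      have := le_max_right |Real.log (‖g σ‖ / 2)| |Real.log (2 * ‖g σ‖)|
      linarith
  · intro hM
    have hn2 : n = 0 := by
      have : -n ≤ 0 := Int.toNat_eq_zero.mp hM
      linarith
    have hga : AnalyticAt ℝ (fun s : ℝ => g (s : ℂ)) σ := by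
      have h1 : AnalyticAt ℝ g ((Complex.ofRealCLM σ : ℂ)) := by
        simpa using hg.restrictScalars (𝕜 := ℝ)
      exact h1.comp (Complex.ofRealCLM.analyticAt σ)
    have hsq : AnalyticAt ℝ (fun s : ℝ => (g (s : ℂ)).re ^ 2 + (g (s : ℂ)).im ^ 2) σ := by
      have h1 : AnalyticAt ℝ (fun s : ℝ => (g (s : ℂ)).re) σ :=
        (Complex.reCLM.analyticAt _).comp hga
      have h2 : AnalyticAt ℝ (fun s : ℝ => (g (s : ℂ)).im) σ :=
        (Complex.imCLM.analyticAt _).comp hga
      exact (h1.pow 2).add (h2.pow 2)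
    have hpos : 0 < (g (σ : ℂ)).re ^ 2 + (g (σ : ℂ)).im ^ 2 := by
      have h1 : ‖g (σ : ℂ)‖ ^ 2 = (g (σ : ℂ)).re ^ 2 + (g (σ : ℂ)).im ^ 2 := by
        rw [← Complex.normSq_eq_norm_sq, Complex.normSq_apply]; ring
      rw [← h1]
      positivity
    have hl2 : AnalyticAt ℝ (fun s : ℝ =>
        (1 / 2) * Real.log ((g (s : ℂ)).re ^ 2 + (g (s : ℂ)).im ^ 2)) σ := by
      exact analyticAt_const.mul (hsq.log hpos)
    refine landau hc hl h hl2 ?_
    filter_upwards [hlog] with s h1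
    have h2 : ‖g (s : ℂ)‖ ^ 2 = (g (s : ℂ)).re ^ 2 + (g (s : ℂ)).im ^ 2 := by
      rw [← Complex.normSq_eq_norm_sq, Complex.normSq_apply]; ring
    rw [h1, hn2, ← h2, Real.log_pow]
    push_cast
    ring

/-- the continuation agrees with `exp P` near the real points right of the abscissa -/
theorem ident {c l : ι → ℝ} (hc : ∀ a, 0 ≤ c a) (hl : ∀ a, 0 ≤ l a) {σ : ℝ}
    (h : ∀ s : ℝ, σ < s → Conv c l s) {F : ℂ → ℂ}
    (hF : ∀ x : ℝ, σ < x → MeromorphicAt F (x : ℂ))
    (hFP : ∃ s₀ : ℝ, ∀ s : ℂ, s₀ < s.re → F s = Complex.exp (P c l s)) (x : ℝ) (hx : σ < x) :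
    ∀ᶠ z in 𝓝[≠] (x : ℂ), F z = Complex.exp (P c l z) := by
  obtain ⟨s₀, hs₀⟩ := hFP
  have hP := analytic hc hl h
  set D : ℂ → ℂ := fun z => F z - Complex.exp (P c l z) with hD
  have hPm : ∀ y : ℝ, σ < y → MeromorphicAt (fun z => Complex.exp (P c l z)) (y : ℂ) := by
    intro y hy
    exact (hP y (by simpa using hy)).cexp.meromorphicAt
  set U : Set ℂ := Complex.ofReal '' Set.Ioi σ with hU
  have hDm : MeromorphicOn D U := by
    rintro _ ⟨y, hy, rfl⟩
    exact (hF y hy).sub (hPm y hy)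
  have hUc : IsPreconnected U := isPreconnected_Ioi.image _ Complex.continuous_ofReal.continuousOn
  set y₀ : ℝ := max σ s₀ + 1 with hy₀
  have hy1 : σ < y₀ := lt_of_le_of_lt (le_max_left _ _) (lt_add_one _)
  have hy2 : s₀ < y₀ := lt_of_le_of_lt (le_max_right _ _) (lt_add_one _)
  have htop : meromorphicOrderAt D (y₀ : ℂ) = ⊤ := by
    rw [meromorphicOrderAt_eq_top_iff]
    have hopen : IsOpen {s : ℂ | s₀ < s.re} := isOpen_lt continuous_const Complex.continuous_re
    have : ∀ᶠ z in 𝓝 (y₀ : ℂ), D z = 0 := by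
      filter_upwards [hopen.mem_nhds (show (y₀ : ℂ) ∈ {s : ℂ | s₀ < s.re} by simpa using hy2)] with z hz
      simp only [hD, hs₀ z hz, sub_self]
    exact this.filter_mono nhdsWithin_le_nhds
  have hx' : meromorphicOrderAt D (x : ℂ) = ⊤ := by
    by_contra hcon
    exact hDm.meromorphicOrderAt_ne_top_of_isPreconnected hUc ⟨x, hx, rfl⟩ ⟨y₀, hy1, rfl⟩ hcon htop
  rw [meromorphicOrderAt_eq_top_iff] at hx'
  filter_upwards [hx'] with z hz
  exact sub_eq_zero.mp hz

/-- two functions which agree near a point are equal there, if they are continuous -/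
theorem eq_of_punctured {f g : ℂ → ℂ} {x : ℂ} (hf : ContinuousAt f x) (hg : ContinuousAt g x)
    (h : ∀ᶠ z in 𝓝[≠] x, f z = g z) : f x = g x := by
  have h1 : Tendsto f (𝓝[≠] x) (𝓝 (f x)) := hf.tendsto.mono_left nhdsWithin_le_nhds
  have h2 : Tendsto g (𝓝[≠] x) (𝓝 (g x)) := hg.tendsto.mono_left nhdsWithin_le_nhds
  exact tendsto_nhds_unique (h1.congr' h) h2

theorem tendsto_ofReal_right (σ : ℝ) : Tendsto (fun s : ℝ => (s : ℂ)) (𝓝[>] σ) (𝓝[≠] (σ : ℂ)) := by
  refine tendsto_nhdsWithin_iff.mpr ⟨?_, ?_⟩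
  · exact (Complex.continuous_ofReal.tendsto σ).mono_left nhdsWithin_le_nhds
  · filter_upwards [self_mem_nhdsWithin] with s hs
    have hs' : σ < s := hs
    simp only [Set.mem_compl_iff, Set.mem_singleton_iff, Complex.ofReal_inj]
    exact hs'.ne'

theorem ident_right {c l : ι → ℝ} (hc : ∀ a, 0 ≤ c a) (hl : ∀ a, 0 ≤ l a) {σ : ℝ}
    (h : ∀ s : ℝ, σ < s → Conv c l s) {F : ℂ → ℂ}
    (hF : ∀ x : ℝ, σ ≤ x → MeromorphicAt F (x : ℂ))
    (hFP : ∃ s₀ : ℝ, ∀ s : ℂ, s₀ < s.re → F s = Complex.exp (P c l s)) :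
    ∀ᶠ s : ℝ in 𝓝[>] σ, F (s : ℂ) = Complex.exp (P c l s) := by
  have h1 := (tendsto_ofReal_right σ).eventually (hF σ le_rfl).eventually_analyticAt
  filter_upwards [h1, self_mem_nhdsWithin] with s h2 h3
  have h3' : σ < s := h3
  refine eq_of_punctured h2.continuousAt
    ((analytic hc hl h) s (by simpa using h3')).cexp.continuousAt ?_
  exact ident hc hl h (fun x hx => hF x hx.le) hFP s h3'

/-! ### The window lemma -/

theorem window_ineq {K A α β y θ : ℝ} (hK : 1 ≤ K) (hA : 2 * K ≤ A) (hα : α ≤ 1 / A)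
    (hβ : 1 ≤ β) (h1 : 12 / A ≤ θ) (h2 : 2 * Real.exp (-(β / (2 * K))) ≤ θ) (hy : 0 ≤ y)
    (hw : ¬(α ≤ y ∧ y ≤ β)) :
    Real.exp (-(y / K)) - Real.exp (-y) ≤ θ * (Real.exp (-(y / A)) - Real.exp (-(A * y))) := by
  have hK0 : 0 < K := by linarith
  have hA2 : 2 ≤ A := by linarith
  have hA0 : 0 < A := by linarith
  rcases lt_or_ge y α with hya | hya
  · -- small `y`
    have hyA : y * A ≤ 1 := by
      have : y ≤ 1 / A := by linarith
      rwa [le_div_iff₀ hA0] at this
    have e1 : Real.exp (-(y / K)) - Real.exp (-y) ≤ y := by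
      have a1 : Real.exp (-(y / K)) ≤ 1 := Real.exp_le_one_iff.mpr (by
        have : 0 ≤ y / K := by positivity
        linarith)
      have a2 := Real.add_one_le_exp (-y)
      linarith
    have e2 : A * y / 12 ≤ Real.exp (-(y / A)) - Real.exp (-(A * y)) := by
      -- `exp (- y / A) ≥ 1 - y / A`, `exp (- A y) ≤ 1 - A y + (A y)^2 / 2`
      have b1 : 1 - y / A ≤ Real.exp (-(y / A)) := by
        have := Real.add_one_le_exp (-(y / A))
        linarith
      have b2 : Real.exp (-(A * y)) ≤ 1 - A * y / 2 := by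
        have hx0 : 0 ≤ A * y := by positivity
        have hx1 : A * y ≤ 1 := by linarith
        have c1 : 1 + A * y ≤ Real.exp (A * y) := by
          have := Real.add_one_le_exp (A * y)
          linarith
        rw [Real.exp_neg]
        have c2 : (Real.exp (A * y))⁻¹ ≤ (1 + A * y)⁻¹ :=
          inv_anti₀ (by linarith) c1
        refine c2.trans ?_
        rw [inv_le_iff_one_le_mul₀ (by linarith)]
        nlinarith
      have b3 : y / A ≤ A * y / 4 := by
        rw [div_le_iff₀ hA0]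
        nlinarith [mul_nonneg hy (show (0 : ℝ) ≤ A * A - 4 by nlinarith)]
      linarith [show A * y / 12 ≤ A * y / 2 - A * y / 4 by
        have : 0 ≤ A * y := by positivity
        linarith]
    have hθ : 0 ≤ θ := le_trans (by positivity) h1
    calc Real.exp (-(y / K)) - Real.exp (-y) ≤ y := e1
      _ = 12 / A * (A * y / 12) := by field_simp
      _ ≤ θ * (A * y / 12) := mul_le_mul_of_nonneg_right h1 (by positivity)
      _ ≤ _ := mul_le_mul_of_nonneg_left e2 hθ
  · -- large `y`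
    have hyb : β < y := by
      by_contra hcon
      exact hw ⟨hya, not_lt.mp hcon⟩
    have hy1 : 1 ≤ y := by linarith
    have hθ : 0 ≤ θ := le_trans (by positivity) h1
    have e1 : Real.exp (-(y / A)) / 2 ≤ Real.exp (-(y / A)) - Real.exp (-(A * y)) := by
      have a1 : Real.exp (-(A * y)) ≤ Real.exp (-(y / A)) * Real.exp (-1) := by
        rw [← Real.exp_add]
        refine Real.exp_le_exp.mpr ?_
        have : y / A ≤ y / 2 := div_le_div_of_nonneg_left hy (by norm_num) hA2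
        nlinarith
      have a2 : Real.exp (-1) ≤ 1 / 2 := by
        rw [Real.exp_neg, inv_le_comm₀ (Real.exp_pos _) (by norm_num)]
        have := Real.add_one_le_exp (1 : ℝ)
        norm_num
        linarith
      have a3 := mul_le_mul_of_nonneg_left a2 (Real.exp_nonneg (-(y / A)))
      linarith
    have e2 : Real.exp (-(y / K)) ≤ Real.exp (-(y / A)) * Real.exp (-(β / (2 * K))) := by
      rw [← Real.exp_add]
      refine Real.exp_le_exp.mpr ?_
      have b1 : y / A ≤ y / (2 * K) := div_le_div_of_nonneg_left hy (by positivity) hA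
      have b2 : β / (2 * K) ≤ y / (2 * K) := div_le_div_of_nonneg_right hyb.le (by positivity)
      have b3 : y / K = y / (2 * K) + y / (2 * K) := by field_simp; ring
      linarith
    calc Real.exp (-(y / K)) - Real.exp (-y) ≤ Real.exp (-(y / K)) := by
          have := Real.exp_nonneg (-y); linarith
      _ ≤ Real.exp (-(y / A)) * Real.exp (-(β / (2 * K))) := e2
      _ = (2 * Real.exp (-(β / (2 * K)))) * (Real.exp (-(y / A)) / 2) := by ring
      _ ≤ θ * (Real.exp (-(y / A)) / 2) :=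
          mul_le_mul_of_nonneg_right h2 (by positivity)
      _ ≤ _ := mul_le_mul_of_nonneg_left e1 hθ

theorem exp_sub_nonneg {A y : ℝ} (hA : 1 ≤ A) (hy : 0 ≤ y) :
    0 ≤ Real.exp (-(y / A)) - Real.exp (-(A * y)) := by
  have h1 : y / A ≤ y := div_le_self hy hA
  have h2 : y ≤ A * y := le_mul_of_one_le_left hy hA
  have := Real.exp_le_exp.mpr (neg_le_neg (h1.trans h2))
  linarith

theorem window {c l : ι → ℝ} (hc : ∀ a, 0 ≤ c a) (hl : ∀ a, 0 ≤ l a)
    (h : ∀ s : ℝ, 0 < s → Conv c l s) {M C : ℝ} (hM : 0 < M)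
    (hφ : ∀ᶠ s : ℝ in 𝓝[>] 0, |R c l s - M * Real.log (1 / s)| ≤ C) :
    ∃ α β : ℝ, 0 < α ∧ 1 ≤ β ∧ ∀ᶠ s : ℝ in 𝓝[>] 0,
      (Summable fun a => if α ≤ s * l a ∧ s * l a ≤ β then c a else 0) ∧
      1 / 2 ≤ ∑' a, (if α ≤ s * l a ∧ s * l a ≤ β then c a else 0) := by
  classical
  have hC : 0 ≤ C := by
    obtain ⟨s, hs⟩ := hφ.exists
    exact (abs_nonneg _).trans hs
  obtain ⟨K, hK1, hK2⟩ : ∃ K : ℝ, 1 ≤ K ∧ 1 + 2 * C = M * Real.log K := by
    refine ⟨Real.exp ((1 + 2 * C) / M), Real.one_le_exp (by positivity), ?_⟩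
    rw [Real.log_exp]
    field_simp
  obtain ⟨A, hA1, hA2⟩ : ∃ A : ℝ, 2 * K ≤ A ∧ 12 / A * (2 * M * Real.log A + 2 * C) ≤ 1 / 4 := by
    have h1 : Tendsto (fun A : ℝ => 12 / A * (2 * M * Real.log A + 2 * C)) atTop (𝓝 0) := by
      have e1 : Tendsto (fun A : ℝ => Real.log A / A) atTop (𝓝 0) := by
        have := Real.isLittleO_log_id_atTop.tendsto_div_nhds_zero
        simpa using this
      have e2 : Tendsto (fun A : ℝ => A⁻¹) atTop (𝓝 0) := tendsto_inv_atTop_zero
      have e3 := ((e1.const_mul (24 * M)).add (e2.const_mul (24 * C)))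
      simp only [mul_zero, add_zero] at e3
      refine e3.congr fun A => ?_
      ring
    obtain ⟨A, hA, hA'⟩ := ((h1.eventually (gt_mem_nhds (show (0 : ℝ) < 1 / 4 by norm_num))).and
      (eventually_ge_atTop (2 * K))).exists
    exact ⟨A, hA', hA.le⟩
  have hA0 : 0 < A := by linarith
  have hAone : 1 ≤ A := by linarith
  set Q : ℝ := 2 * M * Real.log A + 2 * C with hQ
  have hQ0 : 0 ≤ Q := by
    have := Real.log_nonneg hAone
    positivity
  obtain ⟨β, hβ1, hβ2⟩ : ∃ β : ℝ, 1 ≤ β ∧ 2 * Real.exp (-(β / (2 * K))) * Q ≤ 1 / 4 := by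
    have h1 : Tendsto (fun β : ℝ => 2 * Real.exp (-(β / (2 * K))) * Q) atTop (𝓝 0) := by
      have e1 : Tendsto (fun β : ℝ => β / (2 * K)) atTop atTop :=
        tendsto_id.atTop_div_const (by linarith)
      have e2 := (Real.tendsto_exp_neg_atTop_nhds_zero.comp e1)
      have e3 := (e2.const_mul 2).mul_const Q
      simpa using e3
    obtain ⟨β, hA, hA'⟩ := ((h1.eventually (gt_mem_nhds (show (0 : ℝ) < 1 / 4 by norm_num))).and
      (eventually_ge_atTop (1 : ℝ))).exists
    exact ⟨β, hA', hA.le⟩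
  set θ : ℝ := max (12 / A) (2 * Real.exp (-(β / (2 * K)))) with hθ
  have hθQ : θ * Q ≤ 1 / 4 := by
    rcases max_choice (12 / A) (2 * Real.exp (-(β / (2 * K)))) with h1 | h1
    · rw [hθ, h1]; exact hA2
    · rw [hθ, h1]; exact hβ2
  have hθ0 : 0 ≤ θ := le_trans (by positivity) (le_max_left _ _)
  refine ⟨1 / A, β, by positivity, hβ1, ?_⟩
  -- the limits
  have hdiv : ∀ B : ℝ, 0 < B → Tendsto (fun s : ℝ => s * B) (𝓝[>] 0) (𝓝[>] 0) := by
    intro B hB
    refine tendsto_nhdsWithin_iff.mpr ⟨?_, ?_⟩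
    · have : Tendsto (fun s : ℝ => s * B) (𝓝 0) (𝓝 (0 * B)) := (continuous_mul_const B).tendsto 0
      rw [zero_mul] at this
      exact this.mono_left nhdsWithin_le_nhds
    · filter_upwards [self_mem_nhdsWithin] with s hs
      exact mul_pos hs hB
  filter_upwards [hφ, (hdiv (1 / K) (by positivity)).eventually hφ,
    (hdiv (1 / A) (by positivity)).eventually hφ, (hdiv A hA0).eventually hφ,
    self_mem_nhdsWithin] with s h1 h2 h3 h4 h5
  have hs : 0 < s := h5
  have hsK : 0 < s * (1 / K) := by positivity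
  have hsA : 0 < s * (1 / A) := by positivity
  have hsA' : 0 < s * A := by positivity
  rw [abs_le] at h1 h2 h3 h4
  have l1 : Real.log (1 / (s * (1 / K))) = Real.log (1 / s) + Real.log K := by
    rw [← Real.log_mul (by positivity) (by positivity)]
    congr 1
    field_simp
  have l2 : Real.log (1 / (s * (1 / A))) = Real.log (1 / s) + Real.log A := by
    rw [← Real.log_mul (by positivity) (by positivity)]
    congr 1
    field_simp
  have l3 : Real.log (1 / (s * A)) = Real.log (1 / s) - Real.log A := by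
    rw [← Real.log_div (by positivity) (by positivity)]
    congr 1
    field_simp
  rw [l1] at h2
  rw [l2] at h3
  rw [l3] at h4
  have g1 : 1 ≤ R c l (s * (1 / K)) - R c l s := by
    have := h2.1
    have := h1.2
    nlinarith
  have g2 : R c l (s * (1 / A)) - R c l (s * A) ≤ Q := by
    have := h3.2
    have := h4.1
    rw [hQ]
    nlinarith
  have sw : Summable fun a => if 1 / A ≤ s * l a ∧ s * l a ≤ β then c a else 0 := by
    refine Summable.of_nonneg_of_le (fun a => ?_) (fun a => ?_)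
      ((h s hs).mul_left (Real.exp β))
    · split_ifs
      · exact hc a
      · exact le_rfl
    · split_ifs with hw
      · have e1 : 1 ≤ Real.exp β * Real.exp (-(l a * s)) := by
          rw [← Real.exp_add]
          refine Real.one_le_exp ?_
          have := hw.2
          nlinarith
        nlinarith [hc a, mul_le_mul_of_nonneg_left e1 (hc a)]
      · exact mul_nonneg (Real.exp_nonneg _) (mul_nonneg (hc a) (Real.exp_nonneg _))
  refine ⟨sw, ?_⟩
  have key : R c l (s * (1 / K)) - R c l s ≤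
      (∑' a, (if 1 / A ≤ s * l a ∧ s * l a ≤ β then c a else 0)) +
        θ * (R c l (s * (1 / A)) - R c l (s * A)) := by
    unfold R
    have t1 := (h _ hsK)
    have t2 := (h _ hs)
    have t3 := (h _ hsA)
    have t4 := (h _ hsA')
    unfold Conv at t1 t2 t3 t4
    rw [← t1.tsum_sub t2, ← t3.tsum_sub t4, ← tsum_mul_left, ← sw.tsum_add ((t3.sub t4).mul_left θ)]
    refine (t1.sub t2).tsum_le_tsum (fun a => ?_) (sw.add ((t3.sub t4).mul_left θ))
    have y0 : 0 ≤ s * l a := mul_nonneg hs.le (hl a)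
    have q1 : l a * (s * (1 / K)) = s * l a / K := by ring
    have q2 : l a * s = s * l a := by ring
    have q3 : l a * (s * (1 / A)) = s * l a / A := by ring
    have q4 : l a * (s * A) = A * (s * l a) := by ring
    rw [q1, q2, q3, q4]
    have d0 := exp_sub_nonneg hAone y0
    split_ifs with hw
    · have e1 : Real.exp (-(s * l a / K)) ≤ 1 := Real.exp_le_one_iff.mpr (by
        have : 0 ≤ s * l a / K := by positivity
        linarith)
      have e2 : 0 ≤ Real.exp (-(s * l a)) := Real.exp_nonneg _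
      have e3 : c a * (Real.exp (-(s * l a / K)) - Real.exp (-(s * l a))) ≤ c a * 1 :=
        mul_le_mul_of_nonneg_left (by linarith) (hc a)
      have e4 : 0 ≤ θ * (c a * (Real.exp (-(s * l a / A)) - Real.exp (-(A * (s * l a))))) :=
        mul_nonneg hθ0 (mul_nonneg (hc a) d0)
      rw [mul_sub, mul_one] at e3
      rw [mul_sub] at e4
      linarith
    · have e1 := window_ineq (K := K) (A := A) (α := 1 / A) (β := β) (y := s * l a) (θ := θ) hK1 hA1
        le_rfl hβ1 (le_max_left _ _) (le_max_right _ _) y0 hw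
      have e2 := mul_le_mul_of_nonneg_left e1 (hc a)
      rw [mul_sub] at e2
      have e3 : c a * (θ * (Real.exp (-(s * l a / A)) - Real.exp (-(A * (s * l a))))) =
          θ * (c a * Real.exp (-(s * l a / A)) - c a * Real.exp (-(A * (s * l a)))) := by ring
      rw [e3] at e2
      linarith
  have g3 : θ * (R c l (s * (1 / A)) - R c l (s * A)) ≤ 1 / 4 :=
    (mul_le_mul_of_nonneg_left g2 hθ0).trans hθQ
  linarith

/-! ### Counting -/

/-- the exponents `(r + 1) log q_v` -/
noncomputable def len {V : Type} (q : V → ℝ) (a : V × ℕ) : ℝ := (a.2 + 1) * Real.log (q a.1)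

theorem len_nonneg {V : Type} {q : V → ℝ} (hq : ∀ v, 2 ≤ q v) (a : V × ℕ) : 0 ≤ len q a := by
  unfold len
  have : 0 ≤ Real.log (q a.1) := Real.log_nonneg (by linarith [hq a.1])
  positivity

theorem count {V : Type} {q : V → ℝ} (hq : ∀ v, 2 ≤ q v) {W : Set V}
    (hfin : ∀ x : ℝ, {v | v ∈ W ∧ q v ≤ x}.Finite) {c : V × ℕ → ℝ}
    (hcW : ∀ v r, v ∉ W → c (v, r) = 0) {N κ : ℝ} (hκ : 0 < κ)
    (hcN : ∀ a, c a ≤ N * Real.exp (-(κ * len q a))) {α β : ℝ} (hα : 0 < α) (hβ : 1 ≤ β)
    (hwin : ∀ᶠ s : ℝ in 𝓝[>] 0, 1 / 2 ≤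
      ∑' a, (if α ≤ s * len q a ∧ s * len q a ≤ β then c a else 0)) :
    ∃ e : ℝ, 0 < e ∧ ∀ᶠ x : ℝ in atTop, x ^ e ≤ ({v | v ∈ W ∧ q v ≤ x}.ncard : ℝ) := by
  classical
  set N' : ℝ := max N 1 with hN'
  have hN1 : 1 ≤ N' := le_max_right _ _
  have hcN' : ∀ a, c a ≤ N' * Real.exp (-(κ * len q a)) := fun a =>
    (hcN a).trans (mul_le_mul_of_nonneg_right (le_max_left _ _) (Real.exp_nonneg _))
  have hβ0 : 0 < β := by linarith
  set e : ℝ := κ * α / β with he
  have he0 : 0 < e := by positivity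
  refine ⟨e / 2, by positivity, ?_⟩
  have hs : Tendsto (fun x : ℝ => β / Real.log x) atTop (𝓝[>] 0) := by
    refine tendsto_nhdsWithin_iff.mpr ⟨?_, ?_⟩
    · exact Tendsto.const_div_atTop Real.tendsto_log_atTop β
    · filter_upwards [eventually_gt_atTop (1 : ℝ)] with x hx
      exact div_pos hβ0 (Real.log_pos hx)
  have hlogsmall : ∀ᶠ x : ℝ in atTop, 6 * N' * Real.log x ≤ x ^ (e / 2) := by
    have h1 := (isLittleO_log_rpow_atTop (show 0 < e / 2 by positivity)).bound
      (show 0 < (6 * N')⁻¹ by positivity)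
    filter_upwards [h1, eventually_gt_atTop (1 : ℝ)] with x h2 h3
    have h4 : 0 < Real.log x := Real.log_pos h3
    rw [Real.norm_of_nonneg h4.le, Real.norm_of_nonneg (Real.rpow_nonneg (by linarith) _)] at h2
    rwa [inv_mul_eq_div, le_div_iff₀ (by positivity), mul_comm] at h2
  filter_upwards [hs.eventually hwin, hlogsmall, eventually_ge_atTop (Real.exp 1)] with x h1 h2 h3
  have hx1 : 1 < x := lt_of_lt_of_le (by have := Real.add_one_lt_exp (one_ne_zero); linarith) h3
  have hx0 : 0 < x := by linarith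
  have hlog1 : 1 ≤ Real.log x := by
    rw [Real.le_log_iff_exp_le hx0]; exact h3
  have hlog0 : 0 < Real.log x := by linarith
  set s : ℝ := β / Real.log x with hsdef
  have hs0 : 0 < s := by positivity
  set Wx : Finset V := (hfin x).toFinset with hWx
  set R : ℕ := ⌈Real.log x / Real.log 2⌉₊ with hR
  have hlog2 : 0 < Real.log 2 := Real.log_pos (by norm_num)
  -- the support
  have hsupp : ∀ a : V × ℕ, a ∉ Wx ×ˢ Finset.range R →
      (if α ≤ s * len q a ∧ s * len q a ≤ β then c a else 0) = 0 := by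
    intro a ha
    split_ifs with hw
    · by_cases haW : a.1 ∈ W
      · exfalso
        apply ha
        have g1 : len q a ≤ Real.log x := by
          have := hw.2
          rw [hsdef, div_mul_eq_mul_div, div_le_iff₀ hlog0] at this
          exact le_of_mul_le_mul_left this hβ0
        have g2 : 0 < Real.log (q a.1) := Real.log_pos (by linarith [hq a.1])
        have g3 : Real.log 2 ≤ Real.log (q a.1) := Real.log_le_log (by norm_num) (hq a.1)
        have g4 : Real.log (q a.1) ≤ Real.log x := by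
          refine le_trans ?_ g1
          unfold len
          refine le_mul_of_one_le_left g2.le ?_
          have : (0 : ℝ) ≤ a.2 := Nat.cast_nonneg _
          linarith
        have g5 : ((a.2 : ℝ) + 1) * Real.log 2 ≤ Real.log x := by
          refine le_trans ?_ g1
          unfold len
          exact mul_le_mul_of_nonneg_left g3 (by positivity)
        rw [Finset.mem_product]
        refine ⟨?_, ?_⟩
        · rw [hWx, Set.Finite.mem_toFinset]
          refine ⟨haW, ?_⟩
          exact (Real.log_le_log_iff (by linarith [hq a.1]) hx0).mp g4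
        · rw [Finset.mem_range]
          have g6 : ((a.2 : ℝ) + 1) ≤ Real.log x / Real.log 2 := by
            rwa [le_div_iff₀ hlog2]
          have g7 : ((a.2 + 1 : ℕ) : ℝ) ≤ (R : ℝ) := by
            push_cast
            exact g6.trans (Nat.le_ceil _)
          have : a.2 + 1 ≤ R := by exact_mod_cast g7
          omega
      · exact hcW a.1 a.2 haW
    · rfl
  rw [tsum_eq_sum hsupp] at h1
  have hterm : ∀ a ∈ Wx ×ˢ Finset.range R,
      (if α ≤ s * len q a ∧ s * len q a ≤ β then c a else 0) ≤ N' * x ^ (-e) := by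
    intro a _
    have hpos : 0 ≤ N' * x ^ (-e) := mul_nonneg (by linarith) (Real.rpow_nonneg hx0.le _)
    split_ifs with hw
    · refine (hcN' a).trans (mul_le_mul_of_nonneg_left ?_ (by linarith))
      rw [Real.rpow_def_of_pos hx0]
      refine Real.exp_le_exp.mpr ?_
      have g1 : α * Real.log x / β ≤ len q a := by
        have := hw.1
        rw [hsdef, div_mul_eq_mul_div, le_div_iff₀ hlog0] at this
        rw [div_le_iff₀ hβ0]
        linarith
      have g2 := mul_le_mul_of_nonneg_left g1 hκ.le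
      rw [he]
      have g3 : κ * (α * Real.log x / β) = Real.log x * (κ * α / β) := by ring
      rw [g3] at g2
      linarith
    · exact hpos
  have h4 := h1.trans (Finset.sum_le_card_nsmul _ _ _ hterm)
  rw [Finset.card_product, Finset.card_range, nsmul_eq_mul] at h4
  push_cast at h4
  have hcard : (Wx.card : ℝ) = ({v | v ∈ W ∧ q v ≤ x}.ncard : ℝ) := by
    rw [Set.ncard_eq_toFinset_card _ (hfin x)]
  rw [← hcard]
  have hRle : (R : ℝ) ≤ 3 * Real.log x := by
    have g1 : (R : ℝ) < Real.log x / Real.log 2 + 1 :=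
      Nat.ceil_lt_add_one (by positivity)
    have g2 : Real.log x / Real.log 2 ≤ 2 * Real.log x := by
      rw [div_le_iff₀ hlog2]
      have := Real.log_two_gt_d9
      nlinarith
    linarith
  have hxe : x ^ (-e) * (x ^ (e / 2) * x ^ (e / 2)) = 1 := by
    rw [← Real.rpow_add hx0, ← Real.rpow_add hx0]
    have : -e + (e / 2 + e / 2) = 0 := by ring
    rw [this, Real.rpow_zero]
  have hx2 : 0 < x ^ (e / 2) := Real.rpow_pos_of_pos hx0 _
  have hxme : 0 < x ^ (-e) := Real.rpow_pos_of_pos hx0 _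
  have hW0 : (0 : ℝ) ≤ Wx.card := Nat.cast_nonneg _
  -- `1/2 ≤ card * R * N' * x^(-e) ≤ card * 3 log x * N' * x^(-e)`
  have h5 : 1 ≤ (Wx.card : ℝ) * (6 * N' * Real.log x) * x ^ (-e) := by
    have g1 : (Wx.card : ℝ) * R * (N' * x ^ (-e)) ≤
        (Wx.card : ℝ) * (3 * Real.log x) * (N' * x ^ (-e)) :=
      mul_le_mul_of_nonneg_right (mul_le_mul_of_nonneg_left hRle hW0) (by positivity)
    have g2 := h4.trans g1
    linarith
  have h6 : 1 ≤ (Wx.card : ℝ) * x ^ (e / 2) * x ^ (-e) :=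
    h5.trans (mul_le_mul_of_nonneg_right (mul_le_mul_of_nonneg_left h2 hW0) hxme.le)
  calc x ^ (e / 2) = x ^ (e / 2) * 1 := by ring
    _ ≤ x ^ (e / 2) * ((Wx.card : ℝ) * x ^ (e / 2) * x ^ (-e)) :=
        mul_le_mul_of_nonneg_left h6 hx2.le
    _ = (Wx.card : ℝ) * (x ^ (-e) * (x ^ (e / 2) * x ^ (e / 2))) := by ring
    _ = Wx.card := by rw [hxe, mul_one]

theorem divergent_count {V : Type} [Countable V] {q : V → ℝ} (hq : ∀ v, 2 ≤ q v) {W : Set V}
    (hfin : ∀ x : ℝ, {v | v ∈ W ∧ q v ≤ x}.Finite) {c : V × ℕ → ℝ} (hc : ∀ a, 0 ≤ c a)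
    (hcW : ∀ v r, v ∉ W → c (v, r) = 0) {N B : ℝ}
    (hcN : ∀ a, c a ≤ N * Real.exp (B * len q a)) {F : ℂ → ℂ}
    (hF : ∀ x : ℝ, B < x → MeromorphicAt F (x : ℂ))
    (hFP : ∃ s₀ : ℝ, ∀ s : ℂ, s₀ < s.re → F s = Complex.exp (P c (len q) s)) {s₂ : ℝ}
    (hs₂ : Conv c (len q) s₂) {σ₁ : ℝ} (hσ₁ : B < σ₁) (hdiv : ¬ Conv c (len q) σ₁) :
    ∃ e : ℝ, 0 < e ∧ ∀ᶠ x : ℝ in atTop, x ^ e ≤ ({v | v ∈ W ∧ q v ≤ x}.ncard : ℝ) := by
  have hl := len_nonneg hq
  set A : Set ℝ := {s | Conv c (len q) s} with hA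
  have hAne : A.Nonempty := ⟨s₂, hs₂⟩
  have hAlow : ∀ s ∈ A, σ₁ ≤ s := by
    intro s hs
    by_contra hcon
    exact hdiv (Conv.mono hc hl hs (not_le.mp hcon).le)
  have hAbdd : BddBelow A := ⟨σ₁, hAlow⟩
  set σ : ℝ := sInf A with hσ
  have hσ1 : σ₁ ≤ σ := le_csInf hAne hAlow
  have hσB : B < σ := lt_of_lt_of_le hσ₁ hσ1
  have hconv : ∀ s : ℝ, σ < s → Conv c (len q) s := by
    intro s hs
    obtain ⟨s', hs', hs's⟩ := exists_lt_of_csInf_lt hAne hs
    exact Conv.mono hc hl hs' hs's.le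
  have hnot : ∀ s < σ, ¬ Conv c (len q) s := by
    intro s hs hcon
    exact absurd (csInf_le hAbdd hcon) (not_le.mpr hs)
  obtain ⟨M, ⟨C, hM⟩, hM0⟩ := pole hc hl hconv (hF σ hσB)
    (ident_right hc hl hconv (fun x hx => hF x (lt_of_lt_of_le hσB hx)) hFP)
  have hMpos : 0 < M := by
    rcases Nat.eq_zero_or_pos M with h0 | h0
    · obtain ⟨s, hs, hs'⟩ := hM0 h0
      exact absurd hs' (hnot s hs)
    · exact h0
  set c' : V × ℕ → ℝ := fun a => c a * Real.exp (-(len q a * σ)) with hc'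
  have hc'0 : ∀ a, 0 ≤ c' a := fun a => mul_nonneg (hc a) (Real.exp_nonneg _)
  have hmul : ∀ (s : ℝ) (a : V × ℕ), c' a * Real.exp (-(len q a * s)) =
      c a * Real.exp (-(len q a * (σ + s))) := by
    intro s a
    simp only [hc']
    rw [mul_assoc, ← Real.exp_add]
    congr 2
    ring
  have hconv' : ∀ s : ℝ, 0 < s → Conv c' (len q) s := by
    intro s hs
    have := hconv (σ + s) (by linarith)
    unfold Conv at this ⊢
    simp_rw [hmul]
    exact this
  have hR : ∀ s : ℝ, R c' (len q) s = R c (len q) (σ + s) := by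
    intro s
    unfold R
    simp_rw [hmul]
  have hshift : Tendsto (fun s : ℝ => σ + s) (𝓝[>] 0) (𝓝[>] σ) := by
    refine tendsto_nhdsWithin_iff.mpr ⟨?_, ?_⟩
    · have : Tendsto (fun s : ℝ => σ + s) (𝓝 0) (𝓝 (σ + 0)) := (continuous_const_add σ).tendsto 0
      rw [add_zero] at this
      exact this.mono_left nhdsWithin_le_nhds
    · filter_upwards [self_mem_nhdsWithin] with s hs
      have hs' : (0 : ℝ) < s := hs
      exact lt_add_of_pos_right σ hs'
  have hφ : ∀ᶠ s : ℝ in 𝓝[>] 0, |R c' (len q) s - (M : ℝ) * Real.log (1 / s)| ≤ C := by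
    filter_upwards [hshift.eventually hM] with s hs
    rw [hR]
    have : σ + s - σ = s := by ring
    rwa [this] at hs
  obtain ⟨α, β, hα, hβ, hwin⟩ := window hc'0 hl hconv' (by exact_mod_cast hMpos) hφ
  refine count hq hfin (c := c') (N := N) (κ := σ - B) ?_ (by linarith) ?_ hα hβ
    (hwin.mono fun s hs => hs.2)
  · intro v r hv
    simp only [hc', hcW v r hv, zero_mul]
  · intro a
    simp only [hc']
    refine (mul_le_mul_of_nonneg_right (hcN a) (Real.exp_nonneg _)).trans (le_of_eq ?_)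
    rw [mul_assoc, ← Real.exp_add]
    congr 2
    ring

end Pool.Agent.H506.PS
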