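import Pool.Agent.H506.Local

/-!
# Sparse relations between two families of eigenvalues of absolute value one
-/

set_option autoImplicit false

namespace Pool.Agent.H506.SR

open Filter Topology Pool.Agent.H506.PS Pool.Agent.H506.SV

variable {V : Type}

/-- recurrence of the powers of finitely many numbers of absolute value one -/
theorem recurrence {J : Type} [Fintype J] (z : J → ℂ) (hz : ∀ j, ‖z j‖ = 1) :
    MapClusterPt (fun _ => (1 : ℂ)) atTop (fun n : ℕ => fun j => z j ^ n) := by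
  set c : J → Circle := fun j => ⟨z j, by simpa [Submonoid.unitSphere] using hz j⟩ with hc
  have h1 := mapClusterPt_one_atTop_pow c
  have hcont : Continuous fun x : J → Circle => fun j => ((x j : Circle) : ℂ) := by fun_prop
  have h2 := h1.tendsto_comp (hcont.tendsto 1)
  exact h2

/-- the power sums -/
noncomputable def ps {J : Type} [Fintype J] (m : J → ℤ) (z : J → ℂ) (r : ℕ) : ℂ :=
  ∑ j, (m j : ℂ) * z j ^ r

/-- if the power sums tend to zero then they are zero -/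
theorem ps_eq_zero {J : Type} [Fintype J] (m : J → ℤ) (z : J → ℂ) (hz : ∀ j, ‖z j‖ = 1)
    (h : Tendsto (fun r => ps m z r) atTop (𝓝 0)) (r : ℕ) : ps m z r = 0 := by
  have h1 := recurrence z hz
  have hcont : Continuous fun x : J → ℂ => ∑ j, (m j : ℂ) * z j ^ r * x j := by fun_prop
  have h2 := h1.tendsto_comp (hcont.tendsto fun _ => (1 : ℂ))
  have h3 : (fun x : J → ℂ => ∑ j, (m j : ℂ) * z j ^ r * x j) ∘ (fun n : ℕ => fun j => z j ^ n) =
      fun n => ps m z (r + n) := by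
    funext n
    unfold ps
    simp only [Function.comp_apply]
    refine Finset.sum_congr rfl fun j _ => ?_
    rw [pow_add]
    ring
  rw [h3] at h2
  have h4 : Tendsto (fun n => ps m z (r + n)) atTop (𝓝 0) := by
    have := (tendsto_add_atTop_iff_nat r).mpr h
    refine this.congr fun n => ?_
    rw [add_comm]
  have h5 : (∑ j, (m j : ℂ) * z j ^ r * 1) = ps m z r := by
    unfold ps
    exact Finset.sum_congr rfl fun j _ => mul_one _
  rw [h5] at h2
  have h6 : MapClusterPt (ps m z r) atTop (fun n => ps m z (r + n)) := h2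
  by_contra hne
  have h7 := h6.clusterPt
  have h8 : ClusterPt (ps m z r) (𝓝 (0 : ℂ)) := h7.mono h4
  have h9 := eq_of_nhds_neBot h8
  exact hne h9

/-- the squares of the absolute values of the power sums -/
noncomputable def asq {J : Type} [Fintype J] (m : J → ℤ) (z : V → J → ℂ) (v : V) (r : ℕ) : ℝ :=
  ‖ps m (z v) (r + 1)‖ ^ 2

theorem asq_nonneg {J : Type} [Fintype J] (m : J → ℤ) (z : V → J → ℂ) (v : V) (r : ℕ) :
    0 ≤ asq m z v r := sq_nonneg _

theorem asq_le {J : Type} [Fintype J] (m : J → ℤ) {z : V → J → ℂ} (hz : ∀ v j, ‖z v j‖ = 1) (v : V)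
    (r : ℕ) : asq m z v r ≤ (∑ j, |(m j : ℝ)|) ^ 2 := by
  unfold asq ps
  refine pow_le_pow_left₀ (norm_nonneg _) ?_ 2
  refine (norm_sum_le _ _).trans (le_of_eq ?_)
  refine Finset.sum_congr rfl fun j _ => ?_
  rw [norm_mul, norm_pow, hz, one_pow, mul_one, Complex.norm_intCast]

theorem asq_eq {J : Type} [Fintype J] (m : J → ℤ) {z : V → J → ℂ} (hz : ∀ v j, ‖z v j‖ = 1) (v : V)
    (r : ℕ) : ((asq m z v r : ℝ) : ℂ) =
      ∑ x : J × J, ((m x.1 * m x.2 : ℤ) : ℂ) * (z v x.1 * (z v x.2)⁻¹) ^ (r + 1) := by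
  unfold asq ps
  push_cast
  rw [← Complex.mul_conj', map_sum, Fintype.sum_prod_type, Finset.sum_mul]
  refine Finset.sum_congr rfl fun j _ => ?_
  rw [Finset.mul_sum]
  refine Finset.sum_congr rfl fun l _ => ?_
  have h1 : (starRingEnd ℂ) (z v l) = (z v l)⁻¹ := by
    rw [Complex.inv_def, Complex.normSq_eq_norm_sq, hz]
    simp
  rw [map_mul, map_pow, h1, map_intCast, mul_pow]
  ring

/-- the local sum -/
theorem hasSum_local {q : V → ℝ} (hq : ∀ v, 2 ≤ q v) {J : Type} [Fintype J] (m : J → ℤ)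
    {z : V → J → ℂ} (hz : ∀ v j, ‖z v j‖ = 1) {W : Set V} {v : V} (hv : v ∈ W) {s : ℂ}
    (hs : 0 < s.re) :
    HasSum (fun r : ℕ => (cf (asq m z) 1 W (v, r) : ℂ) * Complex.exp (-((len q (v, r) : ℂ) * s)))
      (∑ x : J × J, ((m x.1 * m x.2 : ℤ) : ℂ) *
        -Complex.log (1 - z v x.1 * (z v x.2)⁻¹ * (q v : ℂ) ^ (-s))) := by
  have h1 : ∀ r : ℕ, (cf (asq m z) 1 W (v, r) : ℂ) * Complex.exp (-((len q (v, r) : ℂ) * s)) =
      ∑ x : J × J, ((m x.1 * m x.2 : ℤ) : ℂ) *
        ((z v x.1 * (z v x.2)⁻¹ * (q v : ℂ) ^ (-s)) ^ (r + 1) / (r + 1)) := by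
    intro r
    unfold cf
    rw [if_pos hv]
    have h2 : Complex.exp (-((len q (v, r) : ℂ) * s)) = ((q v : ℂ) ^ (-s)) ^ (r + 1) :=
      cpow_neg_eq (hq v) s r
    rw [h2, pow_one]
    push_cast
    have h3 := asq_eq m hz v r
    push_cast at h3
    rw [h3, Finset.sum_div, Finset.sum_mul]
    refine Finset.sum_congr rfl fun x _ => ?_
    rw [mul_pow]
    ring
  simp_rw [h1]
  refine hasSum_sum fun x _ => HasSum.mul_left _ ?_
  refine Complex.hasSum_taylorSeries_neg_log' (norm_mul_cpow_lt (B := 0) (hq v) ?_ hs)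
  rw [norm_mul, norm_inv, hz, hz]
  simp

theorem P_local {q : V → ℝ} (hq : ∀ v, 2 ≤ q v) {J : Type} [Fintype J] (m : J → ℤ)
    {z : V → J → ℂ} (hz : ∀ v j, ‖z v j‖ = 1) (v : V) {s : ℂ} (hs : 0 < s.re) :
    P (cf (asq m z) 1 {v}) (len q) s = ∑ x : J × J, ((m x.1 * m x.2 : ℤ) : ℂ) *
        -Complex.log (1 - z v x.1 * (z v x.2)⁻¹ * (q v : ℂ) ^ (-s)) := by
  have hinj : Function.Injective fun r : ℕ => (v, r) := fun r r' h => (Prod.mk.inj h).2
  have h1 := hasSum_local hq m hz (W := {v}) (Set.mem_singleton v) hs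
  rw [← h1.tsum_eq]
  unfold P
  refine (hinj.tsum_eq (f := fun x : V × ℕ => (cf (asq m z) 1 {v} x : ℂ) *
    Complex.exp (-((len q x : ℂ) * s))) ?_).symm
  intro x hx
  by_contra hcon
  apply hx
  have h2 : x.1 ∉ ({v} : Set V) := by
    intro h3
    apply hcon
    refine ⟨x.2, ?_⟩
    have h4 : x.1 = v := h3
    simp only
    rw [← h4]
  have h3 : cf (asq m z) 1 {v} x = 0 := by
    unfold cf
    rw [if_neg h2]
  simp only [h3, Complex.ofReal_zero, zero_mul]

/-- the local factor -/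
noncomputable def G {q : V → ℝ} {J : Type} [Fintype J] (m : J → ℤ) (z : V → J → ℂ) (v : V) (s : ℂ) :
    ℂ :=
  ∏ x : J × J, (1 - z v x.1 * (z v x.2)⁻¹ * (q v : ℂ) ^ (-s)) ^ (-(m x.1 * m x.2))

theorem exp_local {q : V → ℝ} (hq : ∀ v, 2 ≤ q v) {J : Type} [Fintype J] (m : J → ℤ)
    {z : V → J → ℂ} (hz : ∀ v j, ‖z v j‖ = 1) (v : V) {s : ℂ} (hs : 0 < s.re) :
    Complex.exp (∑ x : J × J, ((m x.1 * m x.2 : ℤ) : ℂ) *
        -Complex.log (1 - z v x.1 * (z v x.2)⁻¹ * (q v : ℂ) ^ (-s))) = G (q := q) m z v s := by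
  unfold G
  rw [Complex.exp_sum]
  refine Finset.prod_congr rfl fun x _ => ?_
  have h1 : ‖z v x.1 * (z v x.2)⁻¹ * (q v : ℂ) ^ (-s)‖ < 1 := by
    refine norm_mul_cpow_lt (B := 0) (hq v) ?_ hs
    rw [norm_mul, norm_inv, hz, hz]
    simp
  have h2 : 1 - z v x.1 * (z v x.2)⁻¹ * (q v : ℂ) ^ (-s) ≠ 0 := by
    intro h0
    rw [sub_eq_zero] at h0
    rw [← h0, norm_one] at h1
    exact lt_irrefl _ h1
  rw [mul_neg, ← neg_mul, ← Int.cast_neg, Complex.exp_int_mul, Complex.exp_log h2]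

theorem meromorphic_G {q : V → ℝ} (hq : ∀ v, 2 ≤ q v) {J : Type} [Fintype J] (m : J → ℤ)
    (z : V → J → ℂ) (v : V) (s : ℂ) : MeromorphicAt (G (q := q) m z v) s := by
  unfold G
  refine MeromorphicAt.fun_prod fun x _ => MeromorphicAt.fun_zpow ?_ _
  have h0 : (q v : ℂ) ≠ 0 := by
    have : (0 : ℝ) < q v := by linarith [hq v]
    exact_mod_cast this.ne'
  have h1 : Differentiable ℂ fun s : ℂ => 1 - z v x.1 * (z v x.2)⁻¹ * (q v : ℂ) ^ (-s) := by
    refine (differentiable_const _).sub ((differentiable_const _).mul ?_)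
    intro s
    exact DifferentiableAt.const_cpow (differentiableAt_id.neg) (Or.inl h0)
  exact (h1.analyticAt s).meromorphicAt

/-- a place with a nonzero power sum contributes a pole at zero -/
theorem local_pole {q : V → ℝ} (hq : ∀ v, 2 ≤ q v) {J : Type} [Fintype J] (m : J → ℤ)
    {z : V → J → ℂ} (hz : ∀ v j, ‖z v j‖ = 1) {v : V} (hv : ∃ r, asq m z v r ≠ 0)
    (hconv : ∀ s : ℝ, 0 < s → Conv (cf (asq m z) 1 {v}) (len q) s) [Countable V] :
    ∃ C : ℝ, ∀ᶠ s : ℝ in 𝓝[>] 0, Real.log (1 / s) - C ≤ R (cf (asq m z) 1 {v}) (len q) s := by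
  have heq : ∀ᶠ s : ℝ in 𝓝[>] 0, G (q := q) m z v (s : ℂ) =
      Complex.exp (P (cf (asq m z) 1 {v}) (len q) s) := by
    filter_upwards [self_mem_nhdsWithin] with s hs
    have hs' : (0 : ℝ) < s := hs
    rw [P_local hq m hz v (by simpa using hs'), exp_local hq m hz v (by simpa using hs')]
  obtain ⟨M, ⟨C, hM⟩, hM0⟩ := pole (cf_nonneg (asq_nonneg m z) 1 {v}) (len_nonneg hq) hconv
    (by simpa using meromorphic_G hq m z v 0) heq
  have hM1 : 1 ≤ M := by
    by_contra hcon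
    obtain ⟨s, hs, hs'⟩ := hM0 (by omega)
    obtain ⟨r, hr⟩ := hv
    apply hr
    have hinj : Function.Injective fun r : ℕ => (v, r) := fun r r' h => (Prod.mk.inj h).2
    have h1 : Summable fun r : ℕ => cf (asq m z) 1 {v} (v, r) * Real.exp (-(len q (v, r) * s)) :=
      hs'.comp_injective hinj
    have h2 := h1.tendsto_atTop_zero
    set c : ℝ := Real.log (q v) * (-s) with hc
    have hc0 : 0 < c := mul_pos (Real.log_pos (by linarith [hq v])) (by linarith)
    -- `asq ≤ (1 / c) * term`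
    have h3 : ∀ r : ℕ, asq m z v r ≤ 1 / c *
        (cf (asq m z) 1 {v} (v, r) * Real.exp (-(len q (v, r) * s))) := by
      intro r
      unfold cf
      rw [if_pos (Set.mem_singleton v), pow_one]
      have h4 : Real.exp (-(len q (v, r) * s)) = Real.exp (c * (r + 1)) := by
        congr 1
        unfold len
        rw [hc]
        ring
      rw [h4]
      have h5 : c * (r + 1) ≤ Real.exp (c * (r + 1)) := by
        have := Real.add_one_le_exp (c * (r + 1))
        linarith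
      have h6 := asq_nonneg m z v r
      have h7 : (0 : ℝ) < r + 1 := by positivity
      calc asq m z v r = 1 / c * (asq m z v r / (r + 1) * (c * (r + 1))) := by
            field_simp
        _ ≤ 1 / c * (asq m z v r / (r + 1) * Real.exp (c * (r + 1))) := by
            refine mul_le_mul_of_nonneg_left (mul_le_mul_of_nonneg_left h5 ?_) ?_
            · positivity
            · positivity
    have h4 : Tendsto (fun r => asq m z v r) atTop (𝓝 0) := by
      have h5 := h2.const_mul (1 / c)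
      rw [mul_zero] at h5
      exact squeeze_zero (fun r => asq_nonneg m z v r) h3 h5
    have h5 : Tendsto (fun r => ps m (z v) (r + 1)) atTop (𝓝 0) := by
      rw [tendsto_zero_iff_norm_tendsto_zero]
      have h6 : ∀ r, ‖ps m (z v) (r + 1)‖ = Real.sqrt (asq m z v r) := by
        intro r
        unfold asq
        rw [Real.sqrt_sq (norm_nonneg _)]
      simp_rw [h6]
      have h7 := h4.sqrt
      rwa [Real.sqrt_zero] at h7
    have h6 := (tendsto_add_atTop_iff_nat 1).mp h5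
    have h7 := ps_eq_zero m (z v) (hz v) h6 (r + 1)
    unfold asq
    rw [h7, norm_zero]
    norm_num
  refine ⟨C, ?_⟩
  filter_upwards [hM, Data.tendsto_log_one_div.eventually (eventually_gt_atTop 0)] with s h1 h2
  rw [sub_zero, abs_le] at h1
  have h3 : (1 : ℝ) ≤ M := by exact_mod_cast hM1
  have h4 := mul_le_mul_of_nonneg_right h3 h2.le
  linarith [h1.1]

theorem R_add_le {q : V → ℝ} {c : V × ℕ → ℝ} {ι : Type} (A : Finset ι) (c' : ι → V × ℕ → ℝ)
    (h0 : ∀ i a, 0 ≤ c' i a) (h : ∀ a, ∑ i ∈ A, c' i a ≤ c a) {s : ℝ} (hc : Conv c (len q) s) :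
    ∑ i ∈ A, R (c' i) (len q) s ≤ R c (len q) s := by
  have hle : ∀ i ∈ A, ∀ a, c' i a ≤ c a := fun i hi a =>
    (Finset.single_le_sum (f := fun i => c' i a) (fun j _ => h0 j a) hi).trans (h a)
  have hs : ∀ i ∈ A, Conv (c' i) (len q) s := fun i hi => Conv.of_le (h0 i) (hle i hi) hc
  unfold R
  rw [← Summable.tsum_finsetSum hs]
  refine (summable_sum hs).tsum_le_tsum (fun a => ?_) hc
  rw [← Finset.sum_mul]
  exact mul_le_mul_of_nonneg_right (h a) (Real.exp_nonneg _)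

/-- **Sparse relations**, general form. -/
theorem general {q : V → ℝ} (hq : ∀ v, 2 ≤ q v)
    (hsum : ∀ s : ℝ, 1 < s → Summable fun v => q v ^ (-s)) {J : Type} [Fintype J] (m : J → ℤ)
    {z : V → J → ℂ} (hz : ∀ v j, ‖z v j‖ = 1) {X : ℝ} (hX : X < 0) {F : ℂ → ℂ}
    (hF : ∀ x : ℝ, X < x → MeromorphicAt F (x : ℂ))
    (hFP : ∃ s₀ : ℝ, ∀ s : ℂ, s₀ < s.re →
      F s = Complex.exp (P (cf (asq m z) 1 Set.univ) (len q) s)) :
    {v | ∃ r, asq m z v r ≠ 0}.Finite ∨ ∃ c : ℝ, 0 < c ∧ ∀ᶠ x : ℝ in atTop,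
      x ^ c ≤ ({v | (∃ r, asq m z v r ≠ 0) ∧ q v ≤ x}.ncard : ℝ) := by
  classical
  have hcount : Countable V := by
    have h1 := (hsum 2 (by norm_num)).countable_support
    have h2 : Function.support (fun v => q v ^ (-(2 : ℝ))) = Set.univ := by
      ext v
      simp only [Function.mem_support, Set.mem_univ, iff_true]
      exact (Real.rpow_pos_of_pos (by linarith [hq v]) _).ne'
    rw [h2] at h1
    exact Set.countable_univ_iff.mp h1
  by_contra hcon
  rw [not_or] at hcon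
  obtain ⟨hinf, hsp⟩ := hcon
  set E : Set V := {v | ∃ r, asq m z v r ≠ 0} with hE
  set N : ℝ := (∑ j, |(m j : ℝ)|) ^ 2 with hN
  have hc0 : ∀ W : Set V, ∀ a, 0 ≤ cf (asq m z) 1 W a := fun W => cf_nonneg (asq_nonneg m z) 1 W
  have hcE : ∀ v r, v ∉ E → cf (asq m z) 1 Set.univ (v, r) = 0 := by
    intro v r hv
    unfold cf
    have : asq m z v r = 0 := by
      by_contra hne
      exact hv ⟨r, hne⟩
    rw [if_pos (Set.mem_univ _)]
    simp only [this]
    simp
  have hcN : ∀ a, cf (asq m z) 1 Set.univ a ≤ N * Real.exp (0 * len q a) := by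
    intro a
    unfold cf
    rw [if_pos (Set.mem_univ _), zero_mul, Real.exp_zero, mul_one, pow_one]
    refine (div_le_self (asq_nonneg _ _ _ _) ?_).trans (asq_le m hz _ _)
    have : (0 : ℝ) ≤ a.2 := Nat.cast_nonneg _
    linarith
  have hconv : ∀ s : ℝ, 0 < s → Conv (cf (asq m z) 1 Set.univ) (len q) s := by
    intro s hs
    by_contra hcon
    exact hsp (divergent_count hq (finite_le hq hsum E) (hc0 _) hcE hcN
      (fun x hx => hF x (by linarith)) hFP
      (conv_of_bound hq hsum (hc0 _) hcN (show (0 : ℝ) + 1 < 2 by norm_num)) hs hcon)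
  obtain ⟨M, ⟨C, hM⟩, -⟩ := pole (hc0 Set.univ) (len_nonneg hq) hconv (hF 0 hX)
    (ident_right (hc0 Set.univ) (len_nonneg hq) hconv (fun x hx => hF x (by linarith)) hFP)
  obtain ⟨A, hAE, hAcard⟩ := Set.Infinite.exists_subset_card_eq hinf (M + 1)
  have hconvv : ∀ v, ∀ s : ℝ, 0 < s → Conv (cf (asq m z) 1 {v}) (len q) s := fun v s hs =>
    Conv.of_le (hc0 _) (fun a => cf_mono (asq_nonneg m z) 1 (Set.subset_univ _) a) (hconv s hs)
  have hlocal : ∀ v ∈ A, ∃ C : ℝ, ∀ᶠ s : ℝ in 𝓝[>] 0,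
      Real.log (1 / s) - C ≤ R (cf (asq m z) 1 {v}) (len q) s := fun v hv =>
    local_pole hq m hz (hAE hv) (hconvv v)
  choose! Cv hCv using hlocal
  have hall : ∀ᶠ s : ℝ in 𝓝[>] 0, ∀ v ∈ A,
      Real.log (1 / s) - Cv v ≤ R (cf (asq m z) 1 {v}) (len q) s :=
    (Filter.eventually_all_finset A).mpr hCv
  have hmem : ∀ᶠ s : ℝ in 𝓝[>] 0, s ∈ Set.Ioi (0 : ℝ) := self_mem_nhdsWithin
  obtain ⟨s, h1, h2, h3, h4⟩ := (hall.and (hM.and (hmem.and
    (Data.tendsto_log_one_div.eventually (eventually_gt_atTop (C + ∑ v ∈ A, Cv v)))))).exists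
  have hs : (0 : ℝ) < s := h3
  rw [sub_zero, abs_le] at h2
  have h5 : ∑ v ∈ A, R (cf (asq m z) 1 {v}) (len q) s ≤ R (cf (asq m z) 1 Set.univ) (len q) s := by
    refine R_add_le A _ (fun v => hc0 _) (fun a => ?_) (hconv s hs)
    by_cases h6 : a.1 ∈ A
    · rw [Finset.sum_eq_single a.1]
      · exact cf_mono (asq_nonneg m z) 1 (Set.subset_univ _) a
      · intro v _ hv
        unfold cf
        rw [if_neg]
        intro h7
        exact hv (Set.mem_singleton_iff.mp h7).symm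
      · intro h7
        exact absurd h6 h7
    · rw [Finset.sum_eq_zero]
      · exact hc0 _ _
      · intro v hv
        unfold cf
        rw [if_neg]
        intro h7
        have h8 : a.1 = v := h7
        exact h6 (h8 ▸ hv)
  have h6 := Finset.sum_le_sum h1
  rw [Finset.sum_sub_distrib, Finset.sum_const, hAcard, nsmul_eq_mul] at h6
  push_cast at h6
  linarith [h2.2]

/-! ### Power sums and multisets -/

theorem multiset_eq {d₁ d₂ : ℕ} {a : Fin d₁ → ℂ} {b : Fin d₂ → ℂ} (ha : ∀ j, a j ≠ 0)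
    (hb : ∀ j, b j ≠ 0) (h : ∀ r : ℕ, ∑ j, a j ^ (r + 1) = ∑ j, b j ^ (r + 1)) :
    Multiset.map a Finset.univ.val = Multiset.map b Finset.univ.val := by
  classical
  -- polynomials
  have hpoly : ∀ Q : Polynomial ℂ, ∑ j, a j * Q.eval (a j) = ∑ j, b j * Q.eval (b j) := by
    intro Q
    have e1 : ∀ x : ℂ, x * Q.eval x = ∑ i ∈ Finset.range (Q.natDegree + 1), Q.coeff i * x ^ (i + 1) := by
      intro x
      rw [Polynomial.eval_eq_sum_range, Finset.mul_sum]
      refine Finset.sum_congr rfl fun i _ => ?_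
      ring
    simp_rw [e1]
    rw [Finset.sum_comm, Finset.sum_comm (s := (Finset.univ : Finset (Fin d₂)))]
    refine Finset.sum_congr rfl fun i _ => ?_
    rw [← Finset.mul_sum, ← Finset.mul_sum, h i]
  ext w
  rw [Multiset.count_map, Multiset.count_map]
  by_cases hw : w = 0
  · have e1 : Multiset.filter (fun j => w = a j) Finset.univ.val = 0 := by
      rw [Multiset.filter_eq_nil]
      intro j _ hj
      exact ha j (hj.symm.trans hw)
    have e2 : Multiset.filter (fun j => w = b j) Finset.univ.val = 0 := by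
      rw [Multiset.filter_eq_nil]
      intro j _ hj
      exact hb j (hj.symm.trans hw)
    rw [e1, e2]
    simp
  · set Z : Finset ℂ := ((Finset.univ.image a ∪ Finset.univ.image b).erase w) with hZ
    set Q : Polynomial ℂ := ∏ y ∈ Z, (Polynomial.X - Polynomial.C y) with hQ
    have hQe : ∀ x, Q.eval x = ∏ y ∈ Z, (x - y) := by
      intro x
      rw [hQ, Polynomial.eval_prod]
      simp
    have hQw : Q.eval w ≠ 0 := by
      rw [hQe, Finset.prod_ne_zero_iff]
      intro y hy h0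
      rw [sub_eq_zero] at h0
      exact (Finset.ne_of_mem_erase hy) h0.symm
    have hQa : ∀ j, a j ≠ w → Q.eval (a j) = 0 := by
      intro j hj
      rw [hQe]
      exact Finset.prod_eq_zero (i := a j) (Finset.mem_erase.mpr ⟨hj, Finset.mem_union_left _
        (Finset.mem_image_of_mem _ (Finset.mem_univ j))⟩) (sub_self _)
    have hQb : ∀ j, b j ≠ w → Q.eval (b j) = 0 := by
      intro j hj
      rw [hQe]
      exact Finset.prod_eq_zero (i := b j) (Finset.mem_erase.mpr ⟨hj, Finset.mem_union_right _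
        (Finset.mem_image_of_mem _ (Finset.mem_univ j))⟩) (sub_self _)
    have e1 : ∑ j, a j * Q.eval (a j) =
        ((Finset.univ.filter fun j => w = a j).card : ℂ) * (w * Q.eval w) := by
      rw [← nsmul_eq_mul, ← Finset.sum_const, Finset.sum_filter]
      refine Finset.sum_congr rfl fun j _ => ?_
      split_ifs with hj
      · rw [hj]
      · rw [hQa j (fun h => hj h.symm), mul_zero]
    have e2 : ∑ j, b j * Q.eval (b j) =
        ((Finset.univ.filter fun j => w = b j).card : ℂ) * (w * Q.eval w) := by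
      rw [← nsmul_eq_mul, ← Finset.sum_const, Finset.sum_filter]
      refine Finset.sum_congr rfl fun j _ => ?_
      split_ifs with hj
      · rw [hj]
      · rw [hQb j (fun h => hj h.symm), mul_zero]
    have h1 := hpoly Q
    rw [e1, e2] at h1
    have h2 := mul_right_cancel₀ (mul_ne_zero hw hQw) h1
    exact_mod_cast h2

end Pool.Agent.H506.SR

namespace Pool.Agent.H506.SR

open Filter Topology Pool.Agent.H506.PS Pool.Agent.H506.SV

variable {V : Type}

/-- the logarithm of an Euler product with eigenvalues of absolute value one -/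
theorem euler {q : V → ℝ} (hq : ∀ v, 2 ≤ q v)
    (hsum : ∀ s : ℝ, 1 < s → Summable fun v => q v ^ (-s)) {K : Type} [Fintype K]
    {γ : V → K → ℂ} (hγ : ∀ v x, ‖γ v x‖ = 1) {s : ℂ} (hs : 1 < s.re) :
    (Summable fun v => ∑ x, -Complex.log (1 - γ v x * (q v : ℂ) ^ (-s))) ∧
    ∏' v, (∏ x, (1 - γ v x * (q v : ℂ) ^ (-s)))⁻¹ =
      Complex.exp (∑' v, ∑ x, -Complex.log (1 - γ v x * (q v : ℂ) ^ (-s))) := by
  have h1 : ∀ v x, ‖γ v x * (q v : ℂ) ^ (-s)‖ = q v ^ (-s.re) := by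
    intro v x
    have h0 : (0 : ℝ) < q v := by linarith [hq v]
    rw [norm_mul, hγ, one_mul, Complex.norm_cpow_eq_rpow_re_of_pos h0, Complex.neg_re]
  have h2 : ∀ v, q v ^ (-s.re) ≤ 1 / 2 := by
    intro v
    have h0 : 0 < q v := by linarith [hq v]
    rw [Real.rpow_neg h0.le, one_div]
    refine inv_anti₀ (by norm_num) ?_
    calc (2 : ℝ) = 2 ^ (1 : ℝ) := (Real.rpow_one 2).symm
      _ ≤ 2 ^ s.re := Real.rpow_le_rpow_of_exponent_le (by norm_num) hs.le
      _ ≤ q v ^ s.re := Real.rpow_le_rpow (by norm_num) (hq v) (by linarith)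
  have h3 : Summable fun v => ∑ x, -Complex.log (1 - γ v x * (q v : ℂ) ^ (-s)) := by
    refine Summable.of_norm_bounded (g := fun v => (Fintype.card K : ℝ) * (3 / 2 * q v ^ (-s.re)))
      (((hsum s.re hs).mul_left (3 / 2)).mul_left _) fun v => ?_
    refine (norm_sum_le _ _).trans ?_
    have h4 : ∀ x ∈ (Finset.univ : Finset K), ‖-Complex.log (1 - γ v x * (q v : ℂ) ^ (-s))‖ ≤
        3 / 2 * q v ^ (-s.re) := by
      intro x _
      have h5 := Complex.norm_log_one_add_half_le_self (z := -(γ v x * (q v : ℂ) ^ (-s))) (by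
        rw [norm_neg, h1]; exact h2 v)
      rw [norm_neg, h1, ← sub_eq_add_neg] at h5
      rw [norm_neg]
      exact h5
    have h5 := Finset.sum_le_card_nsmul _ _ _ h4
    rwa [nsmul_eq_mul, Finset.card_univ] at h5
  refine ⟨h3, ?_⟩
  have h4 := h3.hasSum.cexp
  have h5 : HasProd (fun v => (∏ x, (1 - γ v x * (q v : ℂ) ^ (-s)))⁻¹)
      (Complex.exp (∑' v, ∑ x, -Complex.log (1 - γ v x * (q v : ℂ) ^ (-s)))) := by
    refine h4.congr_fun fun v => ?_
    rw [Function.comp_apply, Complex.exp_sum, ← Finset.prod_inv_distrib]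
    refine Finset.prod_congr rfl fun x _ => ?_
    rw [Complex.exp_neg, Complex.exp_log]
    intro h0
    rw [sub_eq_zero] at h0
    have h6 := h1 v x
    rw [← h0, norm_one] at h6
    linarith [h2 v]
  exact h5.tprod_eq

/-- the signs -/
def sgn (d₁ d₂ : ℕ) : Fin d₁ ⊕ Fin d₂ → ℤ := Sum.elim (fun _ => 1) (fun _ => -1)

/-- the product of the four Euler products -/
theorem four {q : V → ℝ} (hq : ∀ v, 2 ≤ q v)
    (hsum : ∀ s : ℝ, 1 < s → Summable fun v => q v ^ (-s)) {d₁ d₂ : ℕ} {a : V → Fin d₁ → ℂ}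
    {b : V → Fin d₂ → ℂ} (ha : ∀ v j, ‖a v j‖ = 1) (hb : ∀ v j, ‖b v j‖ = 1) {s : ℂ}
    (hs : 1 < s.re) :
    (∏' v, (∏ x : Fin d₁ × Fin d₁, (1 - a v x.1 * (a v x.2)⁻¹ * (q v : ℂ) ^ (-s)))⁻¹) *
    (∏' v, (∏ x : Fin d₂ × Fin d₂, (1 - b v x.1 * (b v x.2)⁻¹ * (q v : ℂ) ^ (-s)))⁻¹) *
    (∏' v, (∏ x : Fin d₁ × Fin d₂, (1 - a v x.1 * (b v x.2)⁻¹ * (q v : ℂ) ^ (-s)))⁻¹)⁻¹ *
    (∏' v, (∏ x : Fin d₂ × Fin d₁, (1 - b v x.1 * (a v x.2)⁻¹ * (q v : ℂ) ^ (-s)))⁻¹)⁻¹ =
    Complex.exp (P (cf (asq (sgn d₁ d₂) fun v => Sum.elim (a v) (b v)) 1 Set.univ) (len q) s) := by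
  obtain ⟨s1, e1⟩ := euler hq hsum (γ := fun v (x : Fin d₁ × Fin d₁) => a v x.1 * (a v x.2)⁻¹)
    (fun v x => by rw [norm_mul, norm_inv, ha, ha]; simp) hs
  obtain ⟨s2, e2⟩ := euler hq hsum (γ := fun v (x : Fin d₂ × Fin d₂) => b v x.1 * (b v x.2)⁻¹)
    (fun v x => by rw [norm_mul, norm_inv, hb, hb]; simp) hs
  obtain ⟨s3, e3⟩ := euler hq hsum (γ := fun v (x : Fin d₁ × Fin d₂) => a v x.1 * (b v x.2)⁻¹)
    (fun v x => by rw [norm_mul, norm_inv, ha, hb]; simp) hs
  obtain ⟨s4, e4⟩ := euler hq hsum (γ := fun v (x : Fin d₂ × Fin d₁) => b v x.1 * (a v x.2)⁻¹)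
    (fun v x => by rw [norm_mul, norm_inv, ha, hb]; simp) hs
  rw [e1, e2, e3, e4, ← Complex.exp_neg, ← Complex.exp_neg, ← Complex.exp_add, ← Complex.exp_add,
    ← Complex.exp_add]
  congr 1
  set m : Fin d₁ ⊕ Fin d₂ → ℤ := sgn d₁ d₂ with hm
  set z : V → Fin d₁ ⊕ Fin d₂ → ℂ := fun v => Sum.elim (a v) (b v) with hz
  have hz1 : ∀ v j, ‖z v j‖ = 1 := by
    rintro v (j | j)
    · exact ha v j
    · exact hb v j
  have hconv : Conv (cf (asq m z) 1 Set.univ) (len q) s.re := by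
    refine conv_of_bound hq hsum (cf_nonneg (asq_nonneg m z) 1 _) (N := (∑ j, |(m j : ℝ)|) ^ 2)
      (B := 0) (fun x => ?_) (by linarith)
    unfold cf
    rw [if_pos (Set.mem_univ _), zero_mul, Real.exp_zero, mul_one, pow_one]
    refine (div_le_self (asq_nonneg _ _ _ _) ?_).trans (asq_le m hz1 _ _)
    have : (0 : ℝ) ≤ x.2 := Nat.cast_nonneg _
    linarith
  have h1 : HasSum (fun x : V × ℕ => (cf (asq m z) 1 Set.univ x : ℂ) *
      Complex.exp (-((len q x : ℂ) * s))) (P (cf (asq m z) 1 Set.univ) (len q) s) :=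
    (Conv.summable (cf_nonneg (asq_nonneg m z) 1 _) hconv).hasSum
  have h2 := h1.prod_fiberwise fun v => hasSum_local hq m hz1 (Set.mem_univ v)
    (show 0 < s.re by linarith)
  rw [← h2.tsum_eq]
  rw [← sub_eq_add_neg, ← sub_eq_add_neg, ← s1.tsum_add s2, ← (s1.add s2).tsum_sub s3,
    ← ((s1.add s2).sub s3).tsum_sub s4]
  refine tsum_congr fun v => ?_
  simp only [Fintype.sum_sum_type, Fintype.sum_prod_type, hm, hz, sgn, Sum.elim_inl, Sum.elim_inr,
    Finset.sum_add_distrib]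
  push_cast
  simp only [one_mul, mul_neg, neg_mul, neg_neg, Finset.sum_neg_distrib]
  ring

end Pool.Agent.H506.SR
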