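import Pool.Agent.H506.FinOrd

/-!
# Virtual characters with continuation form a ring
-/

set_option autoImplicit false

namespace Pool.Agent.H506.SR

open Filter Topology Pool.Agent.H506.PS Pool.Agent.H506.SV

open AddMonoidAlgebra (single)

variable {V M : Type} [AddCommGroup M]

/-- a function on the weights, extended to virtual characters -/
noncomputable def lg (f : M → ℂ) : AddMonoidAlgebra ℤ M →+ ℂ :=
  AddMonoidAlgebra.liftNC (Int.castAddHom ℂ) fun g => f (Multiplicative.toAdd g)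

theorem lg_single (f : M → ℂ) (k : M) (m : ℤ) : lg f (single k m) = m * f k := by
  unfold lg
  rw [AddMonoidAlgebra.liftNC_single]
  rfl

/-- the logarithm of the local factor of a virtual character -/
noncomputable def lv (q : V → ℝ) (c : V → M → ℂ) (s : ℂ) (v : V) : AddMonoidAlgebra ℤ M →+ ℂ :=
  lg fun k => -Complex.log (1 - c v k * (q v : ℂ) ^ (-s))

theorem lv_single (q : V → ℝ) (c : V → M → ℂ) (s : ℂ) (v : V) (k : M) (m : ℤ) :
    lv q c s v (single k m) = m * -Complex.log (1 - c v k * (q v : ℂ) ^ (-s)) := lg_single _ _ _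

theorem summable_lv {q : V → ℝ} (hq : ∀ v, 2 ≤ q v)
    (hsum : ∀ s : ℝ, 1 < s → Summable fun v => q v ^ (-s)) {c : V → M → ℂ}
    (hc : ∀ v k, ‖c v k‖ = 1) {s : ℂ} (hs : 1 < s.re) (χ : AddMonoidAlgebra ℤ M) :
    Summable fun v => lv q c s v χ := by
  induction χ using AddMonoidAlgebra.induction_linear with
  | zero => simp only [map_zero]; exact summable_zero
  | add a b ha hb => simp only [map_add]; exact ha.add hb
  | single k m =>
    simp only [lv_single]
    have h1 := (euler hq hsum (K := Unit) (γ := fun v _ => c v k) (fun v _ => hc v k) hs).1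
    simp only [Finset.univ_unique, Finset.sum_singleton] at h1
    exact h1.mul_left _

/-- the Euler product of the virtual character has a continuation along the half-line `s ≥ 0` -/
def Good (q : V → ℝ) (c : V → M → ℂ) (χ : AddMonoidAlgebra ℤ M) : Prop :=
  ∃ X : ℝ, X < 0 ∧ ∃ F : ℂ → ℂ, (∀ x : ℝ, X < x → MeromorphicAt F (x : ℂ)) ∧
    ∃ s₀ : ℝ, ∀ s : ℂ, s₀ < s.re → F s = Complex.exp (∑' v, lv q c s v χ)

/-- the additive group of the virtual characters with continuation -/
noncomputable def goodGroup {q : V → ℝ} (hq : ∀ v, 2 ≤ q v)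
    (hsum : ∀ s : ℝ, 1 < s → Summable fun v => q v ^ (-s)) {c : V → M → ℂ}
    (hc : ∀ v k, ‖c v k‖ = 1) : AddSubgroup (AddMonoidAlgebra ℤ M) where
  carrier := {χ | Good q c χ}
  zero_mem' := by
    refine ⟨-1, by norm_num, fun _ => 1, fun x _ => MeromorphicAt.const _ _, 0, fun s _ => ?_⟩
    simp only [map_zero, tsum_zero, Complex.exp_zero]
  add_mem' := by
    rintro a b ⟨X₁, hX₁, F₁, hF₁, s₁, h₁⟩ ⟨X₂, hX₂, F₂, hF₂, s₂, h₂⟩
    refine ⟨max X₁ X₂, max_lt hX₁ hX₂, fun s => F₁ s * F₂ s, fun x hx =>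
      (hF₁ x (lt_of_le_of_lt (le_max_left _ _) hx)).mul
        (hF₂ x (lt_of_le_of_lt (le_max_right _ _) hx)), max 1 (max s₁ s₂), fun s hs => ?_⟩
    have e0 : 1 < s.re := lt_of_le_of_lt (le_max_left _ _) hs
    have e1 : s₁ < s.re := lt_of_le_of_lt ((le_max_left _ _).trans (le_max_right _ _)) hs
    have e2 : s₂ < s.re := lt_of_le_of_lt ((le_max_right _ _).trans (le_max_right _ _)) hs
    simp only [h₁ s e1, h₂ s e2, map_add]
    rw [(summable_lv hq hsum hc e0 a).tsum_add (summable_lv hq hsum hc e0 b), Complex.exp_add]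
  neg_mem' := by
    rintro a ⟨X₁, hX₁, F₁, hF₁, s₁, h₁⟩
    refine ⟨X₁, hX₁, fun s => (F₁ s)⁻¹, fun x hx => (hF₁ x hx).inv, s₁, fun s hs => ?_⟩
    simp only [h₁ s hs, map_neg, tsum_neg, Complex.exp_neg]

/-- a set of places with few elements up to `x` -/
theorem conv_of_count {q : V → ℝ} (hq : ∀ v, 2 ≤ q v)
    (hsum : ∀ s : ℝ, 1 < s → Summable fun v => q v ^ (-s)) (hinj : Function.Injective q)
    {W : Set V} (hW : ∀ e : ℝ, 0 < e →
      ¬ ∃ᶠ x : ℝ in atTop, x ^ e ≤ ({v | v ∈ W ∧ q v ≤ x}.ncard : ℝ)) (s : ℝ) (hs : 0 < s) :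
    Conv (ind0 W) (len q) s := by
  classical
  have hfin := finite_le hq hsum W
  have h1 := hW (s / 2) (by positivity)
  rw [not_frequently, eventually_atTop] at h1
  obtain ⟨x₀, hx₀⟩ := h1
  set f : W → ℕ := fun v => {w | w ∈ W ∧ q w ≤ q v.1}.ncard with hf
  have hfinj : Function.Injective f := by
    intro v w hvw
    by_contra hne
    have hne' : q v.1 ≠ q w.1 := fun h => hne (Subtype.ext (hinj h))
    rcases lt_or_gt_of_ne hne' with hlt | hlt
    · have h2 : {u | u ∈ W ∧ q u ≤ q v.1} ⊂ {u | u ∈ W ∧ q u ≤ q w.1} := by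
        refine ⟨fun u hu => ⟨hu.1, hu.2.trans hlt.le⟩, fun h => ?_⟩
        exact absurd (h ⟨w.2, le_rfl⟩).2 (not_le.mpr hlt)
      exact absurd hvw (Set.ncard_lt_ncard h2 (hfin _)).ne
    · have h2 : {u | u ∈ W ∧ q u ≤ q w.1} ⊂ {u | u ∈ W ∧ q u ≤ q v.1} := by
        refine ⟨fun u hu => ⟨hu.1, hu.2.trans hlt.le⟩, fun h => ?_⟩
        exact absurd (h ⟨v.2, le_rfl⟩).2 (not_le.mpr hlt)
      exact absurd hvw (Set.ncard_lt_ncard h2 (hfin _)).ne'
  have hpos : ∀ v : W, 0 < f v := fun v => by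
    rw [hf]
    exact (Set.ncard_pos (hfin _)).mpr ⟨v.1, v.2, le_rfl⟩
  -- the sum over `W`
  have h3 : Summable fun v : W => ((f v : ℕ) : ℝ) ^ (-(2 : ℝ)) :=
    (Real.summable_nat_rpow.mpr (by norm_num)).comp_injective hfinj
  have h4 : Summable fun v : W => q v.1 ^ (-s) := by
    -- all but finitely many
    have h5 : {v : W | q v.1 < x₀}.Finite := by
      refine Set.Finite.of_finite_image (f := fun v : W => v.1) ?_ Subtype.val_injective.injOn
      refine (hfin x₀).subset ?_
      rintro _ ⟨v, hv, rfl⟩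
      exact ⟨v.2, le_of_lt hv⟩
    refine Summable.of_norm_bounded_eventually h3 ?_
    rw [eventually_cofinite]
    refine h5.subset fun v hv => ?_
    by_contra hcon
    apply hv
    have h6 : x₀ ≤ q v.1 := not_lt.mp hcon
    have h7 := not_le.mp (hx₀ _ h6)
    have h0 : 0 < q v.1 := by linarith [hq v.1]
    rw [Real.norm_of_nonneg (Real.rpow_nonneg h0.le _)]
    have h8 : q v.1 ^ (-s) = (q v.1 ^ (s / 2)) ^ (-(2 : ℝ)) := by
      rw [← Real.rpow_mul h0.le]
      congr 1
      ring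
    rw [h8]
    refine Real.rpow_le_rpow_of_nonpos ?_ h7.le (by norm_num)
    exact_mod_cast hpos v
  have h5 : Summable fun v : W => ind0 W (v.1, 0) * Real.exp (-(len q (v.1, 0) * s)) := by
    refine h4.congr fun v => ?_
    have h6 : ind0 W (v.1, 0) = 1 := if_pos ⟨v.2, rfl⟩
    have h0 : 0 < q v.1 := by linarith [hq v.1]
    rw [h6, one_mul, Real.rpow_def_of_pos h0]
    congr 1
    unfold len
    push_cast
    ring
  have hinj' : Function.Injective fun v : W => (v.1, (0 : ℕ)) := fun v w h =>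
    Subtype.ext (Prod.mk.inj h).1
  refine (hinj'.summable_iff ?_).mp h5
  intro x hx
  have h6 : ind0 W x = 0 := by
    unfold ind0
    rw [if_neg]
    rintro ⟨h7, h8⟩
    exact hx ⟨⟨x.1, h7⟩, Prod.ext rfl h8.symm⟩
  rw [h6, zero_mul]

/-- the power sums are in the ring generated by the elementary symmetric functions -/
theorem psum_mem {R : Type} [CommRing R] {d : ℕ} (f : Fin d → R) (T : Subring R)
    (hT : ∀ i, (Finset.univ.val.map f).esymm i ∈ T) (k : ℕ) (hk : 0 < k) : ∑ j, f j ^ k ∈ T := by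
  induction k using Nat.strong_induction_on with
  | _ k ih =>
    have h1 := congrArg (MvPolynomial.aeval f) (MvPolynomial.psum_eq_mul_esymm_sub_sum (Fin d) ℤ k hk)
    have h2 : ∀ k, MvPolynomial.aeval f (MvPolynomial.psum (Fin d) ℤ k) = ∑ j, f j ^ k := by
      intro k
      unfold MvPolynomial.psum
      simp
    have h3 : ∀ i, MvPolynomial.aeval f (MvPolynomial.esymm (Fin d) ℤ i) =
        (Finset.univ.val.map f).esymm i := fun i =>
      MvPolynomial.aeval_esymm_eq_multiset_esymm (Fin d) ℤ i f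
    rw [h2] at h1
    rw [h1]
    simp only [map_sub, map_sum, map_mul, map_pow, map_neg, map_one, map_natCast, h2, h3]
    refine T.sub_mem (T.mul_mem (T.mul_mem (T.pow_mem (T.neg_mem T.one_mem) _) (natCast_mem T k)) (hT k))
      (T.sum_mem fun a ha => ?_)
    rw [Finset.mem_filter, Finset.HasAntidiagonal.mem_antidiagonal, Set.mem_Ioo] at ha
    refine T.mul_mem (T.mul_mem (T.pow_mem (T.neg_mem T.one_mem) _) (hT _)) (ih a.2 ?_ ?_)
    · omega
    · omega

/-- **Finite order**, for virtual characters. -/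
theorem finite_order_ring {q : V → ℝ} (hq : ∀ v, 2 ≤ q v)
    (hsum : ∀ s : ℝ, 1 < s → Summable fun v => q v ^ (-s)) {c : V → M → ℂ}
    (hc : ∀ v k, ‖c v k‖ = 1) (hc0 : ∀ v, c v 0 = 1) (hcadd : ∀ v k l, c v (k + l) = c v k * c v l)
    {d : ℕ} (ρ : Fin d → M) {W : Set V} (hW : ∀ s : ℝ, 0 < s → Conv (ind0 W) (len q) s)
    (hfin : {w : ℂ | ∃ v, v ∉ W ∧ ∃ j, c v (ρ j) = w}.Finite)
    (hG : ∀ I J : List ℕ, Good q c
      ((I.map fun i => (Finset.univ.val.map fun j => single (ρ j) (1 : ℤ)).esymm i).prod *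
       (J.map fun i => (Finset.univ.val.map fun j => single (-ρ j) (1 : ℤ)).esymm i).prod)) :
    ∃ N : ℕ, 1 ≤ N ∧ {v | ∃ j, c v (ρ j) ^ N ≠ 1}.Finite := by
  classical
  set e : ℕ → AddMonoidAlgebra ℤ M := fun i =>
    (Finset.univ.val.map fun j => single (ρ j) (1 : ℤ)).esymm i with he
  set e' : ℕ → AddMonoidAlgebra ℤ M := fun i =>
    (Finset.univ.val.map fun j => single (-ρ j) (1 : ℤ)).esymm i with he'
  set T : Subring (AddMonoidAlgebra ℤ M) := Subring.closure (Set.range e ∪ Set.range e') with hT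
  have hTG : ∀ χ ∈ T, Good q c χ := by
    intro χ hχ
    rw [hT, Subring.mem_closure_iff] at hχ
    have h1 : AddSubgroup.closure (Submonoid.closure (Set.range e ∪ Set.range e') :
        Set (AddMonoidAlgebra ℤ M)) ≤ goodGroup hq hsum hc := by
      rw [AddSubgroup.closure_le]
      intro x hx
      have h2 : ∃ I J : List ℕ, x = (I.map e).prod * (J.map e').prod := by
        induction hx using Submonoid.closure_induction with
        | mem x hx =>
          rcases hx with ⟨i, rfl⟩ | ⟨i, rfl⟩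
          · exact ⟨[i], [], by simp⟩
          · exact ⟨[], [i], by simp⟩
        | one => exact ⟨[], [], by simp⟩
        | mul x y _ _ hx hy =>
          obtain ⟨I₁, J₁, rfl⟩ := hx
          obtain ⟨I₂, J₂, rfl⟩ := hy
          refine ⟨I₁ ++ I₂, J₁ ++ J₂, ?_⟩
          rw [List.map_append, List.map_append, List.prod_append, List.prod_append]
          ring
      obtain ⟨I, J, rfl⟩ := h2
      exact hG I J
    exact h1 hχ
  have heT : ∀ i, e i ∈ T := fun i => Subring.subset_closure (Or.inl ⟨i, rfl⟩)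
  have heT' : ∀ i, e' i ∈ T := fun i => Subring.subset_closure (Or.inr ⟨i, rfl⟩)
  refine finite_order hq hsum (z := fun v j => c v (ρ j)) (fun v j => hc v _) hW hfin
    fun N hN => ?_
  -- the virtual characters
  set w : Fin d ⊕ Unit → M := Sum.elim (fun j => N • ρ j) (fun _ => 0) with hw
  set χ₁ : AddMonoidAlgebra ℤ M := ∑ x, single (w x) (mm d x) with hχ₁
  set χ₂ : AddMonoidAlgebra ℤ M := ∑ x, single (-w x) (mm d x) with hχ₂
  have hmem₁ : χ₁ ∈ T := by
    have h1 : χ₁ = ∑ j, (single (ρ j) (1 : ℤ)) ^ N - (d : AddMonoidAlgebra ℤ M) := by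
      rw [hχ₁, Fintype.sum_sum_type, sub_eq_add_neg]
      congr 1
      · refine Finset.sum_congr rfl fun j _ => ?_
        simp [hw, mm, AddMonoidAlgebra.single_pow]
      · simp only [hw, mm, Sum.elim_inr, Finset.univ_unique, Finset.sum_singleton]
        rw [AddMonoidAlgebra.natCast_def, AddMonoidAlgebra.single_neg]
    rw [h1]
    exact T.sub_mem (psum_mem _ T heT N hN) (natCast_mem T d)
  have hmem₂ : χ₂ ∈ T := by
    have h1 : χ₂ = ∑ j, (single (-ρ j) (1 : ℤ)) ^ N - (d : AddMonoidAlgebra ℤ M) := by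
      rw [hχ₂, Fintype.sum_sum_type, sub_eq_add_neg]
      congr 1
      · refine Finset.sum_congr rfl fun j _ => ?_
        simp [hw, mm, AddMonoidAlgebra.single_pow]
      · simp only [hw, mm, Sum.elim_inr, Finset.univ_unique, Finset.sum_singleton, neg_zero]
        rw [AddMonoidAlgebra.natCast_def, AddMonoidAlgebra.single_neg]
    rw [h1]
    exact T.sub_mem (psum_mem _ T heT' N hN) (natCast_mem T d)
  obtain ⟨X, hX, F, hF, s₀, hs₀⟩ := hTG _ (T.mul_mem hmem₁ hmem₂)
  refine ⟨X, hX, F, hF, max s₀ 1, fun s hs => ?_⟩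
  have e0 : 1 < s.re := lt_of_le_of_lt (le_max_right _ _) hs
  rw [hs₀ s (lt_of_le_of_lt (le_max_left _ _) hs)]
  congr 1
  set z : V → Fin d → ℂ := fun v j => c v (ρ j) with hz
  have hz1 : ∀ v j, ‖z v j‖ = 1 := fun v j => hc v _
  have hcneg : ∀ v k, c v (-k) = (c v k)⁻¹ := by
    intro v k
    have h1 := hcadd v k (-k)
    rw [add_neg_cancel, hc0] at h1
    exact eq_inv_of_mul_eq_one_right h1.symm
  have hcpow : ∀ v (m : ℕ) k, c v (m • k) = c v k ^ m := by
    intro v m k
    induction m with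
    | zero => rw [zero_smul, hc0, pow_zero]
    | succ m ih => rw [succ_nsmul, hcadd, ih, pow_succ]
  have hzz : ∀ v x, c v (w x) = zz N z v x := by
    intro v x
    rcases x with j | j
    · simp only [hw, zz, Sum.elim_inl, hz, hcpow]
    · simp only [hw, zz, Sum.elim_inr, hc0]
  have hconv : Conv (cf (asq (mm d) (zz N z)) 1 Set.univ) (len q) s.re := by
    refine conv_of_bound hq hsum (cf_nonneg (asq_nonneg _ _) 1 _) (N := (2 * d : ℝ) ^ 2)
      (B := 0) (fun x => ?_) (by linarith)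
    unfold cf
    rw [if_pos (Set.mem_univ _), zero_mul, Real.exp_zero, mul_one, pow_one]
    refine (div_le_self (asq_nonneg _ _ _ _) ?_).trans (asq_zz_le N hz1 _ _)
    have : (0 : ℝ) ≤ x.2 := Nat.cast_nonneg _
    linarith
  have h1 : HasSum (fun x : V × ℕ => (cf (asq (mm d) (zz N z)) 1 Set.univ x : ℂ) *
      Complex.exp (-((len q x : ℂ) * s))) (P (cf (asq (mm d) (zz N z)) 1 Set.univ) (len q) s) :=
    (Conv.summable (cf_nonneg (asq_nonneg _ _) 1 _) hconv).hasSum
  have h2 := h1.prod_fiberwise fun v => hasSum_local hq (mm d) (norm_zz N hz1) (Set.mem_univ v)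
    (show 0 < s.re by linarith)
  rw [← h2.tsum_eq]
  refine tsum_congr fun v => ?_
  rw [hχ₁, hχ₂, Finset.sum_mul_sum, map_sum, Fintype.sum_prod_type]
  refine Finset.sum_congr rfl fun x _ => ?_
  rw [map_sum]
  refine Finset.sum_congr rfl fun y _ => ?_
  rw [AddMonoidAlgebra.single_mul_single, lv_single, hcadd, hcneg, hzz, hzz]

end Pool.Agent.H506.SR
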