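import Pool.Agent.H506.Gap

/-!
# Galois conjugates of roots of unity are dense
-/

set_option autoImplicit false

namespace Pool.Agent.H506.RT

open Filter Topology

theorem norm_exp_sub (a b : ℝ) : ‖(Circle.exp a : ℂ) - Circle.exp b‖ ≤ |a - b| := by
  have h1 : (Circle.exp a : ℂ) - Circle.exp b = Circle.exp b * ((Circle.exp (a - b) : ℂ) - 1) := by
    rw [Circle.exp_sub, Circle.coe_div]
    have := Circle.coe_ne_zero (Circle.exp b)
    field_simp
  rw [h1, norm_mul, Circle.norm_coe, one_mul, Circle.coe_exp, mul_comm]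
  have h2 := Real.norm_exp_I_mul_ofReal_sub_one_le (x := a - b)
  rwa [Real.norm_eq_abs] at h2

/-- a conjugate of a root of unity of large prime power order factor is in a given ball -/
theorem exists_conj {ζ : Circle} {n : ℕ} (hn : 0 < n) (hζ : IsPrimitiveRoot (ζ : ℂ) n) {p a : ℕ}
    (hp : p.Prime) (ha : a ≠ 0) {m : ℕ} (hnm : n = p ^ a * m) (hpm : ¬ p ∣ m) (x₀ : Circle) {ε : ℝ}
    (hε : 2 * Real.pi / (p ^ a : ℕ) < ε) :
    ∃ t : ℕ, Nat.Coprime t n ∧ ‖((ζ ^ t : Circle) : ℂ) - x₀‖ < ε := by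
  set q : ℕ := p ^ a with hq
  have hq0 : 0 < q := pow_pos hp.pos a
  have hqR : (0 : ℝ) < q := by exact_mod_cast hq0
  have _ : NeZero q := ⟨hq0.ne'⟩
  have hm0 : m ≠ 0 := by
    rintro rfl
    exact hpm (dvd_zero p)
  have hprim : IsPrimitiveRoot ((ζ : ℂ) ^ m) q := hζ.pow hn (by rw [hnm, mul_comm])
  set ω : Circle := Circle.exp (2 * Real.pi / q) with hω
  have hωprim : IsPrimitiveRoot (ω : ℂ) q := by
    have h1 := Complex.isPrimitiveRoot_exp q hq0.ne'
    have h2 : (ω : ℂ) = Complex.exp (2 * Real.pi * Complex.I / q) := by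
      rw [hω, Circle.coe_exp]
      congr 1
      push_cast
      ring
    rw [h2]
    exact h1
  have hωq : ω ^ q = 1 := by
    refine Circle.ext ?_
    rw [Circle.coe_pow, hωprim.pow_eq_one, Circle.coe_one]
  have hpow : ∀ j : ℤ, ∃ s : ℕ, ((ζ : ℂ) ^ m) ^ s = ((ω ^ j : Circle) : ℂ) := by
    intro j
    have h1 : (((ω ^ j : Circle) : ℂ)) ^ q = 1 := by
      rw [← Circle.coe_pow, ← zpow_natCast, ← zpow_mul, mul_comm, zpow_mul, zpow_natCast, hωq,
        one_zpow, Circle.coe_one]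
    obtain ⟨s, -, hs⟩ := hprim.eq_pow_of_pow_eq_one h1
    exact ⟨s, hs⟩
  -- the angle
  set τ : ℝ := Complex.arg ((x₀ * ζ⁻¹ : Circle) : ℂ) with hτ
  have hτ' : Circle.exp τ = x₀ * ζ⁻¹ := Circle.exp_arg _
  set j : ℤ := ⌊τ * q / (2 * Real.pi)⌋ with hj
  have hpi := Real.pi_pos
  have hj1 : (j : ℝ) ≤ τ * q / (2 * Real.pi) := Int.floor_le _
  have hj2 : τ * q / (2 * Real.pi) < j + 1 := Int.lt_floor_add_one _
  have hωj : ∀ k : ℤ, ω ^ k = Circle.exp (k * (2 * Real.pi / q)) := by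
    intro k
    rw [hω, Circle.exp_intCast_mul]
  have e1 : τ = τ * q / (2 * Real.pi) * (2 * Real.pi / q) := by field_simp
  have hd : 0 < 2 * Real.pi / (q : ℝ) := by positivity
  have hdist : ∀ k : ℤ, |(k : ℝ) - τ * q / (2 * Real.pi)| ≤ 1 → ∀ t : ℕ,
      ((ζ : ℂ) ^ m) ^ t = ((ω ^ k : Circle) : ℂ) → ‖((ζ ^ (1 + m * t) : Circle) : ℂ) - x₀‖ < ε := by
    intro k hk t ht
    have h1 : ((ζ ^ (1 + m * t) : Circle) : ℂ) = ζ * ((ω ^ k : Circle) : ℂ) := by
      rw [Circle.coe_pow, pow_add, pow_one, pow_mul, ht]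
    have h2 : (x₀ : ℂ) = ζ * ((x₀ * ζ⁻¹ : Circle) : ℂ) := by
      rw [Circle.coe_mul, Circle.coe_inv]
      have := Circle.coe_ne_zero ζ
      field_simp
    rw [h1, h2, ← mul_sub, norm_mul, Circle.norm_coe, one_mul, ← hτ', hωj]
    refine lt_of_le_of_lt ((norm_exp_sub _ _).trans ?_) hε
    rw [e1, ← sub_mul, abs_mul, abs_of_pos hd]
    calc |(k : ℝ) - τ * q / (2 * Real.pi)| * (2 * Real.pi / q) ≤ 1 * (2 * Real.pi / q) :=
          mul_le_mul_of_nonneg_right hk hd.le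
      _ = _ := one_mul _
  have hk1 : |(j : ℝ) - τ * q / (2 * Real.pi)| ≤ 1 := by
    rw [abs_le]
    constructor <;> linarith
  have hk2 : |((j + 1 : ℤ) : ℝ) - τ * q / (2 * Real.pi)| ≤ 1 := by
    push_cast
    rw [abs_le]
    constructor <;> linarith
  obtain ⟨s, hs⟩ := hpow j
  obtain ⟨s', hs'⟩ := hpow (j + 1)
  -- coprimality
  have hcop : ∀ t : ℕ, ¬ p ∣ 1 + m * t → Nat.Coprime (1 + m * t) n := by
    intro t ht
    rw [hnm]
    refine Nat.Coprime.mul_right ?_ ?_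
    · exact Nat.Coprime.pow_right a (((Nat.Prime.coprime_iff_not_dvd hp).mpr ht).symm)
    · rw [Nat.add_comm, mul_comm]
      exact (Nat.coprime_mul_right_add_left 1 m t).mpr (Nat.coprime_one_left m)
  by_cases h1 : p ∣ 1 + m * s
  · by_cases h2 : p ∣ 1 + m * s'
    · exfalso
      -- `p ∣ s' - s`
      have h3 : (p : ℤ) ∣ (s' : ℤ) - s := by
        have h4 : (p : ℤ) ∣ (m : ℤ) * ((s' : ℤ) - s) := by
          have h5 : (p : ℤ) ∣ ((1 + m * s' : ℕ) : ℤ) - ((1 + m * s : ℕ) : ℤ) :=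
            dvd_sub (Int.natCast_dvd_natCast.mpr h2) (Int.natCast_dvd_natCast.mpr h1)
          have h6 : ((1 + m * s' : ℕ) : ℤ) - ((1 + m * s : ℕ) : ℤ) = (m : ℤ) * ((s' : ℤ) - s) := by
            push_cast
            ring
          rwa [h6] at h5
        rcases (Nat.prime_iff_prime_int.mp hp).dvd_or_dvd h4 with h5 | h5
        · exact absurd (Int.natCast_dvd_natCast.mp h5) hpm
        · exact h5
      obtain ⟨u, hu⟩ := h3
      have h4 : ω = (ζ ^ m) ^ ((s' : ℤ) - s) := by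
        have h5 : (ζ ^ m) ^ s = ω ^ j := Circle.ext (by
          rw [Circle.coe_pow, Circle.coe_pow]; exact hs)
        have h6 : (ζ ^ m) ^ s' = ω ^ (j + 1) := Circle.ext (by
          rw [Circle.coe_pow, Circle.coe_pow]; exact hs')
        rw [zpow_sub, zpow_natCast, zpow_natCast, h5, h6, zpow_add, zpow_one]
        group
      have h5 : (ζ ^ m) ^ q = 1 := Circle.ext (by
        rw [Circle.coe_pow, Circle.coe_pow, hprim.pow_eq_one, Circle.coe_one])
      have h6 : ω ^ (p ^ (a - 1)) = 1 := by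
        rw [h4, hu]
        have h7 : ((ζ ^ m) ^ ((p : ℤ) * u)) ^ (p ^ (a - 1)) = ((ζ ^ m) ^ q) ^ u := by
          rw [← zpow_natCast, ← zpow_mul, ← zpow_natCast (ζ ^ m) q, ← zpow_mul]
          congr 1
          rw [hq]
          push_cast
          have h8 : (p : ℤ) ^ a = p * p ^ (a - 1) := by
            rw [← pow_succ']
            congr 1
            omega
          rw [h8]
          ring
        rw [h7, h5, one_zpow]
      have h7 : q ∣ p ^ (a - 1) := by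
        refine hωprim.dvd_of_pow_eq_one _ ?_
        rw [← Circle.coe_pow, h6, Circle.coe_one]
      have h8 := Nat.le_of_dvd (pow_pos hp.pos _) h7
      have h9 : p ^ (a - 1) < p ^ a := Nat.pow_lt_pow_right hp.one_lt (by omega)
      rw [hq] at h8
      omega
    · exact ⟨_, hcop s' h2, hdist _ hk2 s' hs'⟩
  · exact ⟨_, hcop s h1, hdist _ hk1 s hs⟩

/-- the orders of the roots of unity without conjugates in a given open set are bounded -/
theorem exists_N {U : Set Circle} (hU : IsOpen U) (hne : U.Nonempty) :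
    ∃ N : ℕ, 1 ≤ N ∧ ∀ ζ : Circle, IsOfFinOrder ζ → ζ ^ N ≠ 1 →
      ∃ t : ℕ, Nat.Coprime t (orderOf ζ) ∧ ζ ^ t ∈ U := by
  obtain ⟨x₀, hx₀⟩ := hne
  obtain ⟨ε, hε, hball⟩ := Metric.isOpen_iff.mp hU x₀ hx₀
  obtain ⟨Q, hQ⟩ := exists_nat_gt (2 * Real.pi / ε)
  have hpi := Real.pi_pos
  have hQ0 : (0 : ℝ) < Q := lt_trans (by positivity) hQ
  refine ⟨Q.factorial, Nat.factorial_pos Q, fun ζ hζ hne => ?_⟩
  set n := orderOf ζ with hn
  have hn0 : 0 < n := hζ.orderOf_pos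
  have hndvd : ¬ n ∣ Q.factorial := fun h => hne (orderOf_dvd_iff_pow_eq_one.mp h)
  rw [Nat.dvd_iff_prime_pow_dvd_dvd] at hndvd
  push Not at hndvd
  obtain ⟨p, k, hp, hk1, hk2⟩ := hndvd
  have hkQ : Q < p ^ k := by
    by_contra hcon
    exact hk2 (Nat.dvd_factorial (pow_pos hp.pos k) (not_lt.mp hcon))
  set a := n.factorization p with ha
  have hka : k ≤ a := (hp.pow_dvd_iff_le_factorization hn0.ne').mp hk1
  have hQa : Q < p ^ a := lt_of_lt_of_le hkQ (Nat.pow_le_pow_right hp.pos hka)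
  have ha0 : a ≠ 0 := by
    intro h0
    rw [h0, pow_zero] at hQa
    have : Q = 0 := by omega
    rw [this] at hQ0
    simp at hQ0
  have hprim : IsPrimitiveRoot (ζ : ℂ) n := by
    have h1 : IsPrimitiveRoot ζ n := IsPrimitiveRoot.orderOf ζ
    exact h1.map_of_injective (f := Circle.coeHom) Circle.coe_injective
  obtain ⟨t, ht1, ht2⟩ := exists_conj hn0 hprim hp ha0 (Nat.ordProj_mul_ordCompl_eq_self n p).symm
    (Nat.not_dvd_ordCompl hp hn0.ne') x₀ (ε := ε) (by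
      rw [div_lt_iff₀ (by exact_mod_cast pow_pos hp.pos a)]
      rw [div_lt_iff₀ hε] at hQ
      have h1 : (Q : ℝ) < ((p ^ a : ℕ) : ℝ) := by exact_mod_cast hQa
      nlinarith)
  refine ⟨t, ht1, hball ?_⟩
  have h1 : dist (ζ ^ t) x₀ = dist ((ζ ^ t : Circle) : ℂ) x₀ := rfl
  rw [Metric.mem_ball, h1, dist_eq_norm]
  exact ht2

/-- a trigonometric polynomial with integral coefficients does not vanish at the conjugates -/
theorem ev_conj {P : (Fin 1 → ℤ) →₀ ℤ} {ζ : Circle} (hζ : IsOfFinOrder ζ) {t : ℕ}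
    (ht : Nat.Coprime t (orderOf ζ)) (h : TR.ev P (fun _ => ζ) ≠ 0) :
    TR.ev P (fun _ => ζ ^ t) ≠ 0 := by
  classical
  obtain ⟨N, hN⟩ : ∃ N : ℕ, ∀ m ∈ P.support, 0 ≤ m 0 + N := by
    refine ⟨∑ m ∈ P.support, (m 0).natAbs, fun m hm => ?_⟩
    have h1 : (m 0).natAbs ≤ ∑ m ∈ P.support, (m 0).natAbs :=
      Finset.single_le_sum (f := fun m : Fin 1 → ℤ => (m 0).natAbs) (fun _ _ => Nat.zero_le _) hm
    omega
  set Q : Polynomial ℤ := ∑ m ∈ P.support, Polynomial.monomial (m 0 + N).toNat (P m) with hQ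
  have heval : ∀ x : Circle, Polynomial.aeval (x : ℂ) Q = (x : ℂ) ^ N * TR.ev P fun _ => x := by
    intro x
    rw [hQ, map_sum]
    unfold TR.ev Finsupp.sum
    rw [Finset.mul_sum]
    refine Finset.sum_congr rfl fun m hm => ?_
    rw [Polynomial.aeval_monomial]
    have h1 : (TR.mon m (fun _ => x) : ℂ) = (x : ℂ) ^ (m 0) := by
      unfold TR.mon
      rw [Fin.prod_univ_one, Circle.coe_zpow]
    change (algebraMap ℤ ℂ) (P m) * (x : ℂ) ^ (m 0 + N).toNat =
      (x : ℂ) ^ N * ((P m : ℂ) * (TR.mon m (fun _ => x) : ℂ))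
    rw [h1, ← zpow_natCast (x : ℂ) N, mul_left_comm, ← zpow_add₀ (Circle.coe_ne_zero x),
      ← zpow_natCast, Int.toNat_of_nonneg (hN m hm), add_comm]
    rfl
  intro h0
  have hprim : IsPrimitiveRoot (ζ : ℂ) (orderOf ζ) :=
    (IsPrimitiveRoot.orderOf ζ).map_of_injective (f := Circle.coeHom) Circle.coe_injective
  have hpos : 0 < orderOf ζ := hζ.orderOf_pos
  have h1 : Polynomial.aeval ((ζ : ℂ) ^ t) Q = 0 := by
    rw [← Circle.coe_pow, heval, h0, mul_zero]
  have hint : IsIntegral ℤ ((ζ : ℂ) ^ t) := (hprim.isIntegral hpos).pow t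
  have h2 := minpoly.isIntegrallyClosed_dvd hint h1
  rw [← hprim.minpoly_eq_pow_coprime ht] at h2
  have h3 : Polynomial.aeval (ζ : ℂ) Q = 0 := by
    obtain ⟨R, hR⟩ := h2
    rw [hR, map_mul, minpoly.aeval, zero_mul]
  rw [heval] at h3
  exact h ((mul_eq_zero.mp h3).resolve_left (pow_ne_zero _ (Circle.coe_ne_zero _)))

end Pool.Agent.H506.RT
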