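import Pool.Agent.H506.Gap3

/-!
# Laws of Lie type for weighted families: the general statement
-/

set_option autoImplicit false

namespace Pool.Agent.H506.SP

open Filter Topology Pool.Agent.H506.TR Pool.Agent.H506.CO
open Pool.Agent.H506.LW (integ integ_tp integ_bound)

variable {ι : Type}

/-- the mean value at `s` -/
noncomputable def E (W : ℝ → ι → ℝ) (ℓ : ℝ → ℝ) (s : ℝ) (g : ι → ℂ) : ℂ :=
  (∑' v, g v * ((W s v : ℝ) : ℂ)) / (ℓ s : ℂ)

section

variable {W : ℝ → ι → ℝ} {σ : ℝ} (hW0 : ∀ s v, 0 ≤ W s v) (hWs : ∀ s, σ < s → Summable (W s))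
  {ℓ : ℝ → ℝ}

include hW0 hWs

theorem summable_cv {z : ι → ℂ} {B : ℝ} (hz : ∀ v, ‖z v‖ ≤ B) {s : ℝ} (hs : σ < s) :
    Summable fun v => z v * ((W s v : ℝ) : ℂ) := by
  refine Summable.of_norm_bounded (g := fun v => B * W s v) ((hWs s hs).mul_left B) fun v => ?_
  rw [norm_mul, Complex.norm_real, Real.norm_of_nonneg (hW0 s v)]
  exact mul_le_mul_of_nonneg_right (hz v) (hW0 s v)

theorem E_add {g h : ι → ℂ} {B B' : ℝ} (hg : ∀ v, ‖g v‖ ≤ B) (hh : ∀ v, ‖h v‖ ≤ B') {s : ℝ}
    (hs : σ < s) : E W ℓ s (fun v => g v + h v) = E W ℓ s g + E W ℓ s h := by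
  unfold E
  rw [← add_div, ← (summable_cv hW0 hWs hg hs).tsum_add (summable_cv hW0 hWs hh hs)]
  simp only [add_mul]

omit hW0 hWs in
theorem E_mul (z : ℂ) (g : ι → ℂ) (s : ℝ) : E W ℓ s (fun v => z * g v) = z * E W ℓ s g := by
  unfold E
  simp only [mul_assoc, tsum_mul_left, mul_div_assoc]

theorem E_sum {κ : Type} (t : Finset κ) (g : κ → ι → ℂ) {B : ℝ} (hg : ∀ i ∈ t, ∀ v, ‖g i v‖ ≤ B)
    {s : ℝ} (hs : σ < s) : E W ℓ s (fun v => ∑ i ∈ t, g i v) = ∑ i ∈ t, E W ℓ s (g i) := by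
  unfold E
  rw [← Finset.sum_div, ← Summable.tsum_finsetSum fun i hi => summable_cv hW0 hWs (hg i hi) hs]
  simp only [Finset.sum_mul]

omit hW0 hWs in
theorem E_conj (g : ι → ℂ) (s : ℝ) :
    E W ℓ s (fun v => (starRingEnd ℂ) (g v)) = (starRingEnd ℂ) (E W ℓ s g) := by
  unfold E
  rw [map_div₀, Complex.conj_ofReal, Complex.conj_tsum]
  simp only [map_mul, Complex.conj_ofReal]

omit hWs in
theorem E_nonneg {h : ι → ℝ} (h0 : ∀ v, 0 ≤ h v) {s : ℝ} (hl : 0 < ℓ s) :
    0 ≤ (E W ℓ s fun v => (h v : ℂ)).re := by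
  unfold E
  have h1 : (∑' v, (h v : ℂ) * ((W s v : ℝ) : ℂ)) = ((∑' v, h v * W s v : ℝ) : ℂ) := by
    rw [Complex.ofReal_tsum]
    simp only [Complex.ofReal_mul]
  rw [h1, ← Complex.ofReal_div, Complex.ofReal_re]
  exact div_nonneg (tsum_nonneg fun v => mul_nonneg (h0 v) (hW0 s v)) hl.le

theorem norm_E_le {g : ι → ℂ} {B : ℝ} (hg : ∀ v, ‖g v‖ ≤ B) {s : ℝ} (hs : σ < s) (hl : 0 < ℓ s) :
    ‖E W ℓ s g‖ ≤ B * (E W ℓ s fun _ => 1).re := by
  unfold E
  have h1 : (∑' v, (1 : ℂ) * ((W s v : ℝ) : ℂ)) = ((∑' v, W s v : ℝ) : ℂ) := by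
    rw [Complex.ofReal_tsum]
    simp only [one_mul]
  rw [h1, ← Complex.ofReal_div, Complex.ofReal_re, norm_div, Complex.norm_real,
    Real.norm_of_nonneg hl.le, ← mul_div_assoc]
  refine div_le_div_of_nonneg_right ?_ hl.le
  rw [← tsum_mul_left]
  refine tsum_of_norm_bounded ((hWs s hs).mul_left B).hasSum fun v => ?_
  rw [norm_mul, Complex.norm_real, Real.norm_of_nonneg (hW0 s v)]
  exact mul_le_mul_of_nonneg_right (hg v) (hW0 s v)

end

/-- the sum over the orderings -/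
noncomputable def so {d : ℕ} (y : ι → Fin d → Circle) (f : (Fin d → Circle) → ℂ) (v : ι) : ℂ :=
  ∑ w : Equiv.Perm (Fin d), f fun j => y v (w j)

theorem norm_so_le {d : ℕ} {y : ι → Fin d → Circle} {f : (Fin d → Circle) → ℂ} {B : ℝ}
    (hf : ∀ x, ‖f x‖ ≤ B) (v : ι) : ‖so y f v‖ ≤ (Fintype.card (Equiv.Perm (Fin d)) : ℝ) * B := by
  unfold so
  refine (norm_sum_le _ _).trans ?_
  refine (Finset.sum_le_card_nsmul _ _ B fun w _ => hf _).trans ?_
  rw [nsmul_eq_mul, Finset.card_univ]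

section law

variable {W : ℝ → ι → ℝ} {σ : ℝ} (hW0 : ∀ s v, 0 ≤ W s v) (hWs : ∀ s, σ < s → Summable (W s))
  {ℓ : ℝ → ℝ} (hℓ : Tendsto ℓ (𝓝[>] σ) atTop) {d : ℕ} {y : ι → Fin d → Circle}
  {a : (Fin d → ℤ) → ℤ}
  (ha : ∀ k, Tendsto (fun s : ℝ => E W ℓ s (so y fun x => (mon k x : ℂ))) (𝓝[>] σ) (𝓝 (a k : ℂ)))

theorem norm_so_mon (y : ι → Fin d → Circle) (k : Fin d → ℤ) (v : ι) :
    ‖so y (fun x => (mon k x : ℂ)) v‖ ≤ (Fintype.card (Equiv.Perm (Fin d)) : ℝ) * 1 :=
  norm_so_le (fun _ => (Circle.norm_coe _).le) v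

include hW0 hWs hℓ ha in
/-- positivity of the limits -/
theorem pd_limit : PD a := by
  refine ⟨fun k => ?_, fun u => ?_⟩
  · have h1 := ha (-k)
    have h2 : Tendsto (fun s : ℝ => E W ℓ s (so y fun x => (mon (-k) x : ℂ))) (𝓝[>] σ)
        (𝓝 ((starRingEnd ℂ) (a k : ℂ))) := by
      refine ((Complex.continuous_conj.tendsto _).comp (ha k)).congr fun s => ?_
      simp only [Function.comp_apply]
      rw [← E_conj]
      congr 1
      funext v
      unfold so
      rw [map_sum]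
      refine Finset.sum_congr rfl fun w _ => ?_
      change (starRingEnd ℂ) (mon k (fun j => y v (w j)) : ℂ) = (mon (-k) (fun j => y v (w j)) : ℂ)
      rw [mon_neg, Circle.coe_inv_eq_conj]
    have h3 := tendsto_nhds_unique h1 h2
    rw [map_intCast] at h3
    exact_mod_cast h3
  · -- the nonnegative functions
    set h : ι → ℝ := fun v => ∑ w : Equiv.Perm (Fin d),
      Complex.normSq (∑ i ∈ u.support, (u i : ℂ) * mon i fun j => y v (w j)) with hh
    have h1 : ∀ v, (h v : ℂ) = ∑ i ∈ u.support, ∑ j ∈ u.support,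
        ((u i * u j : ℝ) : ℂ) * so y (fun x => (mon (i - j) x : ℂ)) v := by
      intro v
      rw [hh]
      simp only [Complex.ofReal_sum]
      unfold so
      simp only [Finset.mul_sum]
      have h3 : ∀ i ∈ u.support, (∑ j ∈ u.support, ∑ w : Equiv.Perm (Fin d),
          ((u i * u j : ℝ) : ℂ) * (mon (i - j) (fun j => y v (w j)) : ℂ)) =
          ∑ w : Equiv.Perm (Fin d), ∑ j ∈ u.support,
          ((u i * u j : ℝ) : ℂ) * (mon (i - j) (fun j => y v (w j)) : ℂ) := fun i _ =>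
        Finset.sum_comm
      rw [Finset.sum_congr rfl h3, Finset.sum_comm]
      refine Finset.sum_congr rfl fun w _ => ?_
      rw [Complex.normSq_eq_conj_mul_self, mul_comm, map_sum, Finset.sum_mul_sum]
      refine Finset.sum_congr rfl fun i _ => Finset.sum_congr rfl fun j _ => ?_
      rw [map_mul, Complex.conj_ofReal, sub_eq_add_neg, mon_add, mon_neg, Circle.coe_mul,
        Circle.coe_inv_eq_conj]
      push_cast
      ring
    have h2 : Tendsto (fun s : ℝ => (E W ℓ s fun v => (h v : ℂ)).re) (𝓝[>] σ)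
        (𝓝 (u.sum fun i x => u.sum fun j y => x * y * (a (i - j) : ℝ))) := by
      have h3 : Tendsto (fun s : ℝ => ∑ i ∈ u.support, ∑ j ∈ u.support, ((u i * u j : ℝ) : ℂ) *
          E W ℓ s (so y fun x => (mon (i - j) x : ℂ))) (𝓝[>] σ)
          (𝓝 (∑ i ∈ u.support, ∑ j ∈ u.support, ((u i * u j : ℝ) : ℂ) * (a (i - j) : ℂ))) :=
        tendsto_finsetSum _ fun i _ => tendsto_finsetSum _ fun j _ => (ha _).const_mul _
      have h4 := (Complex.continuous_re.tendsto _).comp h3
      have h5 : (∑ i ∈ u.support, ∑ j ∈ u.support, ((u i * u j : ℝ) : ℂ) * (a (i - j) : ℂ)).re =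
          u.sum fun i x => u.sum fun j y => x * y * (a (i - j) : ℝ) := by
        unfold Finsupp.sum
        rw [Complex.re_sum]
        refine Finset.sum_congr rfl fun i _ => ?_
        rw [Complex.re_sum]
        refine Finset.sum_congr rfl fun j _ => ?_
        rw [Complex.re_ofReal_mul, Complex.intCast_re]
      rw [h5] at h4
      refine h4.congr' ?_
      filter_upwards [self_mem_nhdsWithin] with s hs
      simp only [Function.comp_apply]
      congr 1
      simp only [h1]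
      symm
      have hB : ∀ i j v, ‖((u i * u j : ℝ) : ℂ) * so y (fun x => (mon (i - j) x : ℂ)) v‖ ≤
          ‖((u i * u j : ℝ) : ℂ)‖ * ((Fintype.card (Equiv.Perm (Fin d)) : ℝ) * 1) := by
        intro i j v
        rw [norm_mul]
        exact mul_le_mul_of_nonneg_left (norm_so_mon y _ v) (norm_nonneg _)
      have hB1 : ∀ i j, i ∈ u.support → j ∈ u.support → ‖((u i * u j : ℝ) : ℂ)‖ ≤
          ∑ i ∈ u.support, ∑ j ∈ u.support, ‖((u i * u j : ℝ) : ℂ)‖ := by
        intro i j hi hj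
        refine le_trans ?_ (Finset.single_le_sum (f := fun i => ∑ j ∈ u.support,
          ‖((u i * u j : ℝ) : ℂ)‖) (fun i _ => Finset.sum_nonneg fun j _ => norm_nonneg _) hi)
        exact Finset.single_le_sum (f := fun j => ‖((u i * u j : ℝ) : ℂ)‖)
          (fun j _ => norm_nonneg _) hj
      set B := ∑ i ∈ u.support, ∑ j ∈ u.support, ‖((u i * u j : ℝ) : ℂ)‖ with hBdef
      have hcard : (0 : ℝ) ≤ (Fintype.card (Equiv.Perm (Fin d)) : ℝ) * 1 := by positivity
      rw [E_sum hW0 hWs u.support (fun i v => ∑ j ∈ u.support, ((u i * u j : ℝ) : ℂ) *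
        so y (fun x => (mon (i - j) x : ℂ)) v)
        (B := (u.support.card : ℝ) * (B * ((Fintype.card (Equiv.Perm (Fin d)) : ℝ) * 1))) ?_ hs]
      · refine Finset.sum_congr rfl fun i hi => ?_
        rw [E_sum hW0 hWs u.support (fun j v => ((u i * u j : ℝ) : ℂ) *
          so y (fun x => (mon (i - j) x : ℂ)) v)
          (B := B * ((Fintype.card (Equiv.Perm (Fin d)) : ℝ) * 1)) ?_ hs]
        · refine Finset.sum_congr rfl fun j _ => ?_
          rw [E_mul]
        · intro j hj v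
          exact (hB i j v).trans (mul_le_mul_of_nonneg_right (hB1 i j hi hj) hcard)
      · intro i hi v
        refine (norm_sum_le _ _).trans ?_
        refine (Finset.sum_le_card_nsmul _ _ (B * ((Fintype.card (Equiv.Perm (Fin d)) : ℝ) * 1))
          fun j hj => ?_).trans ?_
        · exact (hB i j v).trans (mul_le_mul_of_nonneg_right (hB1 i j hi hj) hcard)
        · rw [nsmul_eq_mul]
    refine ge_of_tendsto h2 ?_
    filter_upwards [hℓ.eventually_gt_atTop 0] with s hl
    exact E_nonneg hW0 (fun v => Finset.sum_nonneg fun w _ => Complex.normSq_nonneg _) hl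

include hW0 hWs hℓ ha in
/-- equidistribution from the moments -/
theorem equi {L : List (AddSubgroup (Fin d → ℤ) × ((Fin d → ℤ) →₀ ℤ))}
    (hL : ∀ k, (integ L fun x => (mon k x : ℂ)) = a k) {f : (Fin d → Circle) → ℂ}
    (hf : Continuous f) :
    Tendsto (fun s : ℝ => E W ℓ s (so y f)) (𝓝[>] σ) (𝓝 (integ L f)) := by
  obtain ⟨K, hK0, hK⟩ := integ_bound L
  rw [Metric.tendsto_nhds]
  intro ε hε
  -- the constant function
  set N : ℝ := (Fintype.card (Equiv.Perm (Fin d)) : ℝ) with hN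
  have hNpos : 0 < N := by
    rw [hN]
    exact_mod_cast Fintype.card_pos
  have hconst : ∀ᶠ s : ℝ in 𝓝[>] σ, N * (E W ℓ s fun _ => 1).re ≤ |(a 0 : ℝ)| + 1 := by
    have h1 := (Complex.continuous_re.tendsto _).comp (ha 0)
    rw [Complex.intCast_re] at h1
    have h2 := h1.eventually (gt_mem_nhds (show (a 0 : ℝ) < |(a 0 : ℝ)| + 1 by
      linarith [le_abs_self (a 0 : ℝ)]))
    refine h2.mono fun s hs => ?_
    have h3 : E W ℓ s (so y fun x => (mon 0 x : ℂ)) = (N : ℂ) * E W ℓ s fun _ => 1 := by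
      rw [← E_mul]
      congr 1
      funext v
      unfold so
      simp only [mon_zero, Circle.coe_one, Finset.sum_const, Finset.card_univ, nsmul_eq_mul]
      rw [hN]
      push_cast
      rfl
    simp only [Function.comp_apply] at hs
    rw [h3, Complex.re_ofReal_mul] at hs
    exact hs.le
  set δ := ε / (2 * (K + |(a 0 : ℝ)| + 1)) with hδ
  have hδ0 : 0 < δ := by positivity
  obtain ⟨u, hu⟩ := approx ⟨f, hf⟩ hδ0
  have hu' : ∀ x, ‖f x - tp u x‖ < δ := hu
  -- the trigonometric polynomial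
  have hlim : Tendsto (fun s : ℝ => E W ℓ s (so y (tp u))) (𝓝[>] σ) (𝓝 (integ L (tp u))) := by
    rw [integ_tp]
    simp only [hL]
    have h3 : Tendsto (fun s : ℝ => ∑ k ∈ u.support, u k * 
        E W ℓ s (so y fun x => (mon k x : ℂ))) (𝓝[>] σ)
          (𝓝 (∑ k ∈ u.support, u k * (a k : ℂ))) :=
      tendsto_finsetSum _ fun i _ => (ha _).const_mul _
    refine h3.congr' ?_
    filter_upwards [self_mem_nhdsWithin] with s hs
    have h4 : so y (tp u) = fun v => ∑ k ∈ u.support, u k * so y (fun x => (mon k x : ℂ)) v := by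
      funext v
      unfold so tp Finsupp.sum
      rw [Finset.sum_comm]
      exact Finset.sum_congr rfl fun k _ => by rw [Finset.mul_sum]
    rw [h4, E_sum hW0 hWs u.support _ (B := (∑ k ∈ u.support, ‖u k‖) * (N * 1)) ?_ hs]
    · exact Finset.sum_congr rfl fun k _ => (E_mul _ _ _).symm
    · intro k hk v
      rw [norm_mul]
      refine mul_le_mul ?_ (norm_so_mon y k v) (norm_nonneg _)
        (Finset.sum_nonneg fun _ _ => norm_nonneg _)
      exact Finset.single_le_sum (f := fun k => ‖u k‖) (fun _ _ => norm_nonneg _) hk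
  obtain ⟨B', hB'⟩ := (isCompact_univ (X := Fin d → Circle)).exists_bound_of_continuousOn
      (continuous_tp u).continuousOn
  have hε2 : 0 < ε / 2 := by positivity
  filter_upwards [hconst, (Metric.tendsto_nhds.mp hlim) (ε / 2) hε2, self_mem_nhdsWithin,
    hℓ.eventually_gt_atTop 0] with s h1 h2 hs hl
  rw [dist_eq_norm] at h2 ⊢
  have e1 : E W ℓ s (so y f) = E W ℓ s (so y fun x => f x - tp u x) + E W ℓ s (so y (tp u)) := by
    have h4 : so y f = fun v => so y (fun x => f x - tp u x) v + so y (tp u) v := by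
      funext v
      unfold so
      rw [← Finset.sum_add_distrib]
      exact Finset.sum_congr rfl fun w _ => by ring
    conv_lhs => rw [h4]
    exact E_add hW0 hWs (norm_so_le (fun x => (hu' x).le)) (norm_so_le fun x => hB' x trivial) hs
  have e2 : ‖E W ℓ s (so y fun x => f x - tp u x)‖ ≤ δ * (|(a 0 : ℝ)| + 1) := by
    refine (norm_E_le hW0 hWs (norm_so_le (fun x => (hu' x).le)) hs hl).trans ?_
    rw [← hN]
    calc N * δ * (E W ℓ s fun _ => 1).re = δ * (N * (E W ℓ s fun _ => 1).re) := by ring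
      _ ≤ δ * (|(a 0 : ℝ)| + 1) := mul_le_mul_of_nonneg_left h1 hδ0.le
  have e3 := hK f (tp u) hf (continuous_tp u) δ fun x => (hu' x).le
  have e4 : E W ℓ s (so y f) - integ L f = E W ℓ s (so y fun x => f x - tp u x) +
      (E W ℓ s (so y (tp u)) - integ L (tp u)) - (integ L f - integ L (tp u)) := by
    rw [e1]
    ring
  rw [e4]
  refine lt_of_le_of_lt ((norm_sub_le _ _).trans (add_le_add_left (norm_add_le _ _) _)) ?_
  have e5 : δ * (|(a 0 : ℝ)| + 1) + K * δ = ε / 2 := by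
    rw [hδ]
    field_simp
    ring
  linarith

end law

/-- every integral positive definite function is the transform of a law of Lie type -/
theorem exists_list {d : ℕ} {a : (Fin d → ℤ) → ℤ} (ha : PD a) :
    ∃ L : List (AddSubgroup (Fin d → ℤ) × ((Fin d → ℤ) →₀ ℤ)),
      (∀ D ∈ L, ∀ x ∈ ann D.1, (ev D.2 x).im = 0 ∧ 0 ≤ (ev D.2 x).re) ∧
      ∀ k, (integ L fun x => (mon k x : ℂ)) = a k := by
  obtain ⟨L₀, hL₀, hL₀'⟩ := helson_cohen ha
  have key : ∀ L₀ : List ((Fin d → ℤ) → ℤ), (∀ b ∈ L₀, PD b ∧ Elem b) →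
      ∃ L : List (AddSubgroup (Fin d → ℤ) × ((Fin d → ℤ) →₀ ℤ)),
        (∀ D ∈ L, ∀ x ∈ ann D.1, (ev D.2 x).im = 0 ∧ 0 ≤ (ev D.2 x).re) ∧
        ∀ k, (integ L fun x => (mon k x : ℂ)) = (((L₀.map fun b => b k).sum : ℤ) : ℂ) := by
    intro L₀
    induction L₀ with
    | nil => exact fun _ => ⟨[], by simp, fun k => by simp [integ]⟩
    | cons b L₀ ih =>
      intro h
      obtain ⟨L, hL, hL'⟩ := ih fun b hb => h b (List.mem_cons_of_mem _ hb)
      obtain ⟨hb, hE⟩ := h b List.mem_cons_self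
      obtain ⟨Γ, P, hP, him⟩ := exists_density hb hE
      refine ⟨(Γ, P) :: L, ?_, fun k => ?_⟩
      · intro D hD x hx
        rcases List.mem_cons.mp hD with rfl | hD
        · exact ⟨him x hx, density_nonneg hb hP him hx⟩
        · exact hL D hD x hx
      · have h1 := hL' k
        unfold integ at h1 ⊢
        simp only [List.map_cons, List.sum_cons]
        rw [h1, hP]
        push_cast
        rfl
  obtain ⟨L, hL, hL'⟩ := key L₀ hL₀
  refine ⟨L, hL, fun k => ?_⟩
  rw [hL', ← hL₀']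

end Pool.Agent.H506.SP
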