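import Pool.Agent.H506.Sp1

/-!
# Exponential sums with bounded complex coefficients: continuation and integrality
-/

set_option autoImplicit false

namespace Pool.Agent.H506.SP

open Filter Topology Pool.Agent.H506.PS

variable {ι : Type}

/-- the weights -/
noncomputable def Wt (c l : ι → ℝ) (s : ℝ) (a : ι) : ℝ := c a * Real.exp (-(l a * s))

/-- the normalization -/
noncomputable def lo (σ s : ℝ) : ℝ := Real.log (1 / (s - σ))

/-- the exponential sum with the additional factor `g` -/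
noncomputable def Q (c l : ι → ℝ) (g : ι → ℂ) (s : ℂ) : ℂ :=
  ∑' a, g a * ((c a : ℂ) * Complex.exp (-((l a : ℂ) * s)))

theorem Q_ofReal (c l : ι → ℝ) (g : ι → ℂ) (s : ℝ) :
    Q c l g (s : ℂ) = ∑' a, g a * ((Wt c l s a : ℝ) : ℂ) := by
  unfold Q Wt
  refine tsum_congr fun a => ?_
  push_cast
  rfl

theorem Wt_nonneg {c : ι → ℝ} (hc : ∀ a, 0 ≤ c a) (l : ι → ℝ) (s : ℝ) (a : ι) : 0 ≤ Wt c l s a :=
  mul_nonneg (hc a) (Real.exp_nonneg _)

theorem tendsto_lo (σ : ℝ) : Tendsto (lo σ) (𝓝[>] σ) atTop := by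
  unfold lo
  refine Real.tendsto_log_atTop.comp ?_
  have h1 : Tendsto (fun s : ℝ => s - σ) (𝓝[>] σ) (𝓝[>] 0) := by
    refine tendsto_nhdsWithin_iff.mpr ⟨?_, ?_⟩
    · have h2 : Tendsto (fun s : ℝ => s - σ) (𝓝 σ) (𝓝 (σ - σ)) :=
        (continuous_id.sub continuous_const).tendsto σ
      rw [sub_self] at h2
      exact h2.mono_left nhdsWithin_le_nhds
    · filter_upwards [self_mem_nhdsWithin] with s hs
      exact Set.mem_Ioi.mpr (sub_pos.mpr (Set.mem_Ioi.mp hs))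
  simp only [one_div]
  exact h1.inv_tendsto_nhdsGT_zero

theorem summable_Q {c l : ι → ℝ} (hc : ∀ a, 0 ≤ c a) {g : ι → ℂ} {B : ℝ} (hg : ∀ a, ‖g a‖ ≤ B)
    {s : ℂ} (h : Conv c l s.re) :
    Summable fun a => g a * ((c a : ℂ) * Complex.exp (-((l a : ℂ) * s))) := by
  refine Summable.of_norm_bounded (g := fun a => B * (c a * Real.exp (-(l a * s.re))))
    (h.mul_left B) fun a => ?_
  rw [norm_mul, norm_term hc]
  exact mul_le_mul_of_nonneg_right (hg a) (mul_nonneg (hc a) (Real.exp_nonneg _))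

theorem analytic_Q {c l : ι → ℝ} (hc : ∀ a, 0 ≤ c a) (hl : ∀ a, 0 ≤ l a) {σ : ℝ}
    (h : ∀ s : ℝ, σ < s → Conv c l s) {g : ι → ℂ} {B : ℝ} (hg : ∀ a, ‖g a‖ ≤ B) :
    AnalyticOnNhd ℂ (Q c l g) {s : ℂ | σ < s.re} := by
  have hopen : IsOpen {s : ℂ | σ < s.re} := isOpen_lt continuous_const Complex.continuous_re
  refine DifferentiableOn.analyticOnNhd ?_ hopen
  intro s hs
  have hs' : σ < s.re := hs
  set τ : ℝ := (σ + s.re) / 2 with hτ
  have h1 : σ < τ := by rw [hτ]; linarith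
  have h2 : τ < s.re := by rw [hτ]; linarith
  have hopen' : IsOpen {s : ℂ | τ < s.re} := isOpen_lt continuous_const Complex.continuous_re
  have hB : ∀ a, 0 ≤ B := fun a => (norm_nonneg _).trans (hg a)
  have hd : DifferentiableOn ℂ (Q c l g) {s : ℂ | τ < s.re} := by
    refine Complex.differentiableOn_tsum_of_summable_norm
      (u := fun a => B * (c a * Real.exp (-(l a * τ))))
      ((h τ h1).mul_left B) (fun a => ?_) hopen' (fun a w hw => ?_)
    · fun_prop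
    · rw [norm_mul, norm_term hc]
      refine mul_le_mul (hg a) ?_ (mul_nonneg (hc a) (Real.exp_nonneg _)) (hB a)
      refine mul_le_mul_of_nonneg_left (Real.exp_le_exp.mpr ?_) (hc a)
      have hw' : τ < w.re := hw
      have := mul_le_mul_of_nonneg_left hw'.le (hl a)
      linarith
  exact (hd.differentiableAt (hopen'.mem_nhds h2)).differentiableWithinAt

/-- the continuation agrees with `exp Φ` near the real points where `Φ` is analytic -/
theorem ident_gen {Φ : ℂ → ℂ} {σ : ℝ} (hΦ : ∀ x : ℝ, σ < x → AnalyticAt ℂ Φ (x : ℂ)) {F : ℂ → ℂ}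
    (hF : ∀ x : ℝ, σ < x → MeromorphicAt F (x : ℂ))
    (hFP : ∃ s₀ : ℝ, ∀ s : ℂ, s₀ < s.re → F s = Complex.exp (Φ s)) (x : ℝ) (hx : σ < x) :
    ∀ᶠ z in 𝓝[≠] (x : ℂ), F z = Complex.exp (Φ z) := by
  obtain ⟨s₀, hs₀⟩ := hFP
  set D : ℂ → ℂ := fun z => F z - Complex.exp (Φ z) with hD
  have hPm : ∀ y : ℝ, σ < y → MeromorphicAt (fun z => Complex.exp (Φ z)) (y : ℂ) := fun y hy =>
    (hΦ y hy).cexp.meromorphicAt
  set U : Set ℂ := Complex.ofReal '' Set.Ioi σ with hU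
  have hDm : MeromorphicOn D U := by
    rintro _ ⟨y, hy, rfl⟩
    exact (hF y hy).sub (hPm y hy)
  have hUc : IsPreconnected U := isPreconnected_Ioi.image _ Complex.continuous_ofReal.continuousOn
  set y₀ : ℝ := max σ s₀ + 1 with hy₀
  have hy1 : σ < y₀ := lt_of_le_of_lt (le_max_left _ _) (lt_add_one _)
  have hy2 : s₀ < y₀ := lt_of_le_of_lt (le_max_right _ _) (lt_add_one _)
  have htop : meromorphicOrderAt D (y₀ : ℂ) = ⊤ := by
    rw [meromorphicOrderAt_eq_top_iff]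
    have hopen : IsOpen {s : ℂ | s₀ < s.re} := isOpen_lt continuous_const Complex.continuous_re
    have : ∀ᶠ z in 𝓝 (y₀ : ℂ), D z = 0 := by
      filter_upwards [hopen.mem_nhds (show (y₀ : ℂ) ∈ {s : ℂ | s₀ < s.re} by simpa using hy2)] with z hz
      simp only [hD, hs₀ z hz, sub_self]
    exact this.filter_mono nhdsWithin_le_nhds
  have hx' : meromorphicOrderAt D (x : ℂ) = ⊤ := by
    by_contra hcon
    exact hDm.meromorphicOrderAt_ne_top_of_isPreconnected hUc ⟨x, hx, rfl⟩ ⟨y₀, hy1, rfl⟩ hcon htop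
  rw [meromorphicOrderAt_eq_top_iff] at hx'
  filter_upwards [hx'] with z hz
  exact sub_eq_zero.mp hz

theorem ident_gen_right {Φ : ℂ → ℂ} {σ : ℝ} (hΦ : ∀ x : ℝ, σ < x → AnalyticAt ℂ Φ (x : ℂ))
    {F : ℂ → ℂ} (hF : ∀ x : ℝ, σ ≤ x → MeromorphicAt F (x : ℂ))
    (hFP : ∃ s₀ : ℝ, ∀ s : ℂ, s₀ < s.re → F s = Complex.exp (Φ s)) :
    ∀ᶠ s : ℝ in 𝓝[>] σ, F (s : ℂ) = Complex.exp (Φ s) := by
  have h1 := (tendsto_ofReal_right σ).eventually (hF σ le_rfl).eventually_analyticAt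
  filter_upwards [h1, self_mem_nhdsWithin] with s h2 h3
  have h3' : σ < s := h3
  exact eq_of_punctured h2.continuousAt (hΦ s h3').cexp.continuousAt
    (ident_gen hΦ (fun x hx => hF x hx.le) hFP s h3')

/-- a continuous logarithm of a meromorphic function on an interval to the right of a point is an
integral multiple of `log (1 / (s - σ))` up to a bounded error -/
theorem int_order {σ : ℝ} {F : ℂ → ℂ} (hF : MeromorphicAt F (σ : ℂ)) {G : ℝ → ℂ}
    (hG : ContinuousOn G (Set.Ioi σ)) (h : ∀ᶠ s : ℝ in 𝓝[>] σ, F s = Complex.exp (G s)) :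
    ∃ m : ℤ, ∃ C : ℝ, ∀ᶠ s in 𝓝[>] σ, ‖G s - m * (lo σ s : ℂ)‖ ≤ C := by
  have hto := tendsto_ofReal_right σ
  have hne : meromorphicOrderAt F (σ : ℂ) ≠ ⊤ := by
    intro htop
    rw [meromorphicOrderAt_eq_top_iff] at htop
    obtain ⟨s, hs, hs1⟩ := ((hto.eventually htop).and h).exists
    rw [hs1] at hs
    exact Complex.exp_ne_zero _ hs
  obtain ⟨n, hn⟩ := WithTop.ne_top_iff_exists.mp hne
  obtain ⟨g, hg, hg1, hFg⟩ := (meromorphicOrderAt_eq_int_iff hF).mp hn.symm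
  set L : ℂ → ℂ := fun z => Complex.log (g z / g σ) + Complex.log (g σ) with hL
  have hcont : ContinuousAt (fun z => g z / g σ) σ := hg.continuousAt.div_const _
  have hLc : ContinuousAt L σ := by
    refine ContinuousAt.add (ContinuousAt.clog hcont ?_) continuousAt_const
    rw [div_self hg1]
    exact Complex.one_mem_slitPlane
  have hgan : ∀ᶠ z in 𝓝 (σ : ℂ), AnalyticAt ℂ g z := hg.eventually_analyticAt
  have hslit : ∀ᶠ z in 𝓝 (σ : ℂ), g z / g σ ∈ Complex.slitPlane := by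
    refine hcont.eventually (Complex.isOpen_slitPlane.mem_nhds ?_)
    change g σ / g σ ∈ Complex.slitPlane
    rw [div_self hg1]
    exact Complex.one_mem_slitPlane
  obtain ⟨ε₁, hε₁, hb₁⟩ := Metric.eventually_nhds_iff_ball.mp (hgan.and hslit)
  have hexpL : ∀ z ∈ Metric.ball (σ : ℂ) ε₁, Complex.exp (L z) = g z := by
    intro z hz
    have h1 : g z / g σ ≠ 0 := Complex.slitPlane_ne_zero (hb₁ z hz).2
    rw [hL, Complex.exp_add, Complex.exp_log h1, Complex.exp_log hg1, div_mul_cancel₀ _ hg1]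
  have hLcont : ∀ z ∈ Metric.ball (σ : ℂ) ε₁, ContinuousAt L z := by
    intro z hz
    exact ((ContinuousAt.clog ((hb₁ z hz).1.continuousAt.div_const _) (hb₁ z hz).2)).add
      continuousAt_const
  obtain ⟨ε₂, hε₂, hb₂⟩ := Metric.mem_nhdsWithin_iff.mp hFg
  obtain ⟨u, hu, hb₃⟩ := (mem_nhdsGT_iff_exists_Ioo_subset (a := σ)).mp h
  have hu' : σ < u := hu
  set ε := min (min ε₁ ε₂) (u - σ) with hε
  have hε0 : 0 < ε := lt_min (lt_min hε₁ hε₂) (by linarith)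
  have hεu : ε ≤ u - σ := min_le_right _ _
  have hmem : ∀ s ∈ Set.Ioo σ (σ + ε), (s : ℂ) ∈ Metric.ball (σ : ℂ) (min ε₁ ε₂) := by
    intro s hs
    rw [Metric.mem_ball, Complex.dist_eq]
    have h1 : (s : ℂ) - σ = ((s - σ : ℝ) : ℂ) := by push_cast; ring
    rw [h1, Complex.norm_real, Real.norm_of_nonneg (by linarith [hs.1])]
    have := min_le_left (min ε₁ ε₂) (u - σ)
    linarith [hs.2]
  set D : ℝ → ℂ := fun s => G s - n * (Real.log (s - σ) : ℂ) - L s with hD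
  have hDexp : ∀ s ∈ Set.Ioo σ (σ + ε), Complex.exp (D s) = 1 := by
    intro s hs
    have hs1 : (0 : ℝ) < s - σ := by linarith [hs.1]
    have hne1 : (s : ℂ) ≠ σ := by
      intro h1
      have : s = σ := by exact_mod_cast h1
      linarith
    have h1 : (s : ℂ) ∈ Metric.ball (σ : ℂ) ε₁ :=
      Metric.ball_subset_ball (min_le_left _ _) (hmem s hs)
    have h2 : F s = ((s : ℂ) - σ) ^ n • g s :=
      hb₂ ⟨Metric.ball_subset_ball (min_le_right _ _) (hmem s hs), hne1⟩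
    have h2' : F s = Complex.exp (G s) := hb₃ ⟨hs.1, by linarith [hs.2]⟩
    have h3 : Complex.exp (n * (Real.log (s - σ) : ℂ)) = ((s : ℂ) - σ) ^ n := by
      rw [Complex.exp_int_mul, ← Complex.ofReal_exp, Real.exp_log hs1]
      push_cast
      rfl
    have hg0 : g s ≠ 0 := by
      rw [← hexpL _ h1]
      exact Complex.exp_ne_zero _
    have hz0 : ((s : ℂ) - σ) ^ n ≠ 0 := zpow_ne_zero _ (sub_ne_zero.mpr hne1)
    rw [hD]
    simp only
    rw [Complex.exp_sub, Complex.exp_sub, h3, hexpL _ h1, ← h2', h2, smul_eq_mul]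
    field_simp
  have hDcont : ContinuousOn D (Set.Ioo σ (σ + ε)) := by
    intro s hs
    have h1 : (s : ℂ) ∈ Metric.ball (σ : ℂ) ε₁ :=
      Metric.ball_subset_ball (min_le_left _ _) (hmem s hs)
    have h2 : ContinuousAt (fun s : ℝ => L (s : ℂ)) s :=
      (hLcont _ h1).comp Complex.continuous_ofReal.continuousAt
    have h3 : ContinuousAt (fun s : ℝ => (n : ℂ) * (Real.log (s - σ) : ℂ)) s := by
      refine continuousAt_const.mul (Complex.continuous_ofReal.continuousAt.comp ?_)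
      refine ContinuousAt.log (by fun_prop) ?_
      linarith [hs.1]
    have h4 : ContinuousWithinAt G (Set.Ioo σ (σ + ε)) s :=
      (hG s hs.1).mono Set.Ioo_subset_Ioi_self
    exact (h4.sub h3.continuousWithinAt).sub h2.continuousWithinAt
  have hint : ∀ s ∈ Set.Ioo σ (σ + ε), ∃ k : ℤ, D s = k * (2 * Real.pi * Complex.I) :=
    fun s hs => Complex.exp_eq_one_iff.mp (hDexp s hs)
  set E : ℝ → ℝ := fun s => (D s).im / (2 * Real.pi) with hE
  have hEc : ContinuousOn E (Set.Ioo σ (σ + ε)) :=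
    (Complex.continuous_im.comp_continuousOn hDcont).div_const _
  have hEk : ∀ s ∈ Set.Ioo σ (σ + ε), ∃ k : ℤ, E s = k ∧ D s = k * (2 * Real.pi * Complex.I) := by
    intro s hs
    obtain ⟨k, hk⟩ := hint s hs
    refine ⟨k, ?_, hk⟩
    rw [hE]
    simp only
    rw [hk]
    have h1 : ((k : ℂ) * (2 * Real.pi * Complex.I)).im = k * (2 * Real.pi) := by
      have h2 : ((k : ℂ) * (2 * Real.pi * Complex.I)) = ((k * (2 * Real.pi) : ℝ) : ℂ) * Complex.I := by
        push_cast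
        ring
      rw [h2, Complex.mul_I_im, Complex.ofReal_re]
    rw [h1, mul_div_assoc, div_self (by positivity), mul_one]
  obtain ⟨y, hy, hy2⟩ := (isPreconnected_Ioo (a := σ) (b := σ + ε)).eqOn_const_of_mapsTo
    (T := Set.range ((↑) : ℤ → ℝ)) Int.isClosedEmbedding_coe_real.isEmbedding.isDiscrete_range hEc (fun s hs => by
        obtain ⟨k, hk, -⟩ := hEk s hs
        exact ⟨k, hk.symm⟩) ⟨0, 0, by simp⟩
  obtain ⟨k₀, rfl⟩ := hy
  refine ⟨-n, ‖L σ‖ + 1 + ‖(k₀ : ℂ) * (2 * Real.pi * Complex.I)‖, ?_⟩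
  have hLb : ∀ᶠ s : ℝ in 𝓝[>] σ, ‖L s‖ ≤ ‖L σ‖ + 1 := by
    have h1 : Tendsto (fun s : ℝ => ‖L s‖) (𝓝[>] σ) (𝓝 ‖L σ‖) :=
      (hLc.norm.tendsto.mono_left nhdsWithin_le_nhds).comp hto
    exact (h1.eventually (gt_mem_nhds (lt_add_one _))).mono fun s hs => hs.le
  filter_upwards [hLb, Ioo_mem_nhdsGT (show σ < σ + ε by linarith)] with s hs1 hs2
  obtain ⟨k, hk, hDk⟩ := hEk s hs2
  have h5 : k = k₀ := by
    have h7 : E s = (k₀ : ℝ) := hy2 hs2
    rw [hk] at h7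
    exact_mod_cast h7
  have h6 : G s - ((-n : ℤ) : ℂ) * (lo σ s : ℂ) = D s + L s := by
    rw [hD, lo, one_div, Real.log_inv]
    push_cast
    ring
  rw [h6, hDk, h5]
  refine (norm_add_le _ _).trans ?_
  linarith

/-- `exp` of the sum with the factor `g` has a continuation to `σ` -/
def Cont (c l : ι → ℝ) (σ : ℝ) (g : ι → ℂ) : Prop :=
  ∃ F : ℂ → ℂ, MeromorphicAt F (σ : ℂ) ∧ ∀ᶠ s : ℝ in 𝓝[>] σ, F s = Complex.exp (Q c l g s)

section

variable {c l : ι → ℝ} (hc : ∀ a, 0 ≤ c a) (hl : ∀ a, 0 ≤ l a) {σ : ℝ}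
  (h : ∀ s : ℝ, σ < s → Conv c l s)

include hc h in
theorem Cont.add {g g' : ι → ℂ} {B B' : ℝ} (hg : ∀ a, ‖g a‖ ≤ B) (hg' : ∀ a, ‖g' a‖ ≤ B')
    (h1 : Cont c l σ g) (h2 : Cont c l σ g') : Cont c l σ fun a => g a + g' a := by
  obtain ⟨F, hF, hs⟩ := h1
  obtain ⟨F', hF', hs'⟩ := h2
  refine ⟨fun s => F s * F' s, hF.mul hF', ?_⟩
  filter_upwards [hs, hs', self_mem_nhdsWithin] with s e1 e2 e3
  have e3' : Conv c l (s : ℂ).re := h s e3
  simp only [e1, e2]
  rw [← Complex.exp_add]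
  congr 1
  unfold Q
  rw [← (summable_Q hc hg e3').tsum_add (summable_Q hc hg' e3')]
  exact tsum_congr fun a => by ring

include hc hl h in
/-- **Integrality.** -/
theorem lim_int {g : ι → ℂ} {B : ℝ} (hg : ∀ a, ‖g a‖ ≤ B) (hC : Cont c l σ g) :
    ∃ m : ℤ, (∃ C : ℝ, ∀ᶠ s : ℝ in 𝓝[>] σ, ‖Q c l g (s : ℂ) - m * (lo σ s : ℂ)‖ ≤ C) ∧
      Tendsto (fun s : ℝ => E (Wt c l) (lo σ) s g) (𝓝[>] σ) (𝓝 (m : ℂ)) := by
  obtain ⟨F, hF, hFs⟩ := hC
  have hcont : ContinuousOn (fun s : ℝ => Q c l g (s : ℂ)) (Set.Ioi σ) := by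
    intro s hs
    have h1 : (s : ℂ) ∈ {s : ℂ | σ < s.re} := hs
    have h2 := ((analytic_Q hc hl h hg) s h1).continuousAt
    exact (h2.comp Complex.continuous_ofReal.continuousAt).continuousWithinAt
  obtain ⟨m, C, hC⟩ := int_order hF hcont hFs
  refine ⟨m, ⟨C, hC⟩, ?_⟩
  rw [tendsto_iff_norm_sub_tendsto_zero]
  have h1 : Tendsto (fun s : ℝ => C / lo σ s) (𝓝[>] σ) (𝓝 0) := (tendsto_lo σ).const_div_atTop _
  refine squeeze_zero' (Eventually.of_forall fun _ => norm_nonneg _) ?_ h1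
  filter_upwards [hC, (tendsto_lo σ).eventually_gt_atTop 0] with s h2 h3
  unfold E
  rw [← Q_ofReal]
  have hl : (lo σ s : ℂ) ≠ 0 := by exact_mod_cast h3.ne'
  have h5 : Q c l g s / (lo σ s : ℂ) - m = (Q c l g s - m * (lo σ s : ℂ)) / (lo σ s : ℂ) := by
    field_simp
  rw [h5, norm_div, Complex.norm_real, Real.norm_of_nonneg h3.le]
  exact div_le_div_of_nonneg_right h2 h3.le

open Pool.Agent.H506.TR Pool.Agent.H506.LW in
include hc hl h in
/-- **Laws of Lie type.** -/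
theorem law {d : ℕ} {y : ι → Fin d → Circle}
    (hF : ∀ k : Fin d → ℤ, Cont c l σ (so y fun x => (mon k x : ℂ))) :
    ∃ L : List (AddSubgroup (Fin d → ℤ) × ((Fin d → ℤ) →₀ ℤ)),
      (∀ D ∈ L, ∀ x ∈ ann D.1, (ev D.2 x).im = 0 ∧ 0 ≤ (ev D.2 x).re) ∧
      ∀ f : (Fin d → Circle) → ℂ, Continuous f →
        Tendsto (fun s : ℝ => E (Wt c l) (lo σ) s (so y f)) (𝓝[>] σ) (𝓝 (integ L f)) := by
  have h1 : ∀ k, ∃ m : ℤ, Tendsto (fun s : ℝ => E (Wt c l) (lo σ) s (so y fun x => (mon k x : ℂ)))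
      (𝓝[>] σ) (𝓝 (m : ℂ)) := fun k => by
    obtain ⟨m, -, hm⟩ := lim_int hc hl h (norm_so_mon y k) (hF k)
    exact ⟨m, hm⟩
  choose a ha using h1
  have hPD := pd_limit (W := Wt c l) (fun s => Wt_nonneg hc l s) (fun s hs => h s hs) (tendsto_lo σ) ha
  obtain ⟨L, hL1, hL2⟩ := exists_list hPD
  exact ⟨L, hL1, fun f hf => equi (W := Wt c l) (fun s => Wt_nonneg hc l s) (fun s hs => h s hs)
    (tendsto_lo σ) ha hL2 hf⟩

end

end Pool.Agent.H506.SP
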