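import Pool.Agent.H506.Sp2

/-!
# The gap theorem for weighted families
-/

set_option autoImplicit false

namespace Pool.Agent.H506.SP

open Filter Topology Pool.Agent.H506.PS Pool.Agent.H506.TR Pool.Agent.H506.LW

variable {ι : Type}

section

variable {c l : ι → ℝ} (hc : ∀ a, 0 ≤ c a) (hl : ∀ a, 0 ≤ l a) {σ : ℝ}
  (h : ∀ s : ℝ, σ < s → Conv c l s)

theorem Cont.neg {g : ι → ℂ} (h1 : Cont c l σ g) : Cont c l σ fun a => -g a := by
  obtain ⟨F, hF, hs⟩ := h1
  refine ⟨fun s => (F s)⁻¹, hF.inv, ?_⟩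
  filter_upwards [hs] with s e1
  simp only [e1]
  rw [← Complex.exp_neg]
  congr 1
  unfold Q
  rw [← tsum_neg]
  exact tsum_congr fun a => by ring

include hc hl h in
/-- the gap theorem for one family of numbers of absolute value one -/
theorem gap_one [Countable ι] (w : ι → Circle) (hall : ∀ k : ℤ, Cont c l σ fun a => (w a : ℂ) ^ k) :
    (∃ N : ℕ, 1 ≤ N ∧ ∃ σ' : ℝ, σ' < σ ∧ Conv (fun a => ‖(w a : ℂ) ^ N - 1‖ ^ 2 * c a) l σ') ∨
    ∀ U : Set Circle, IsOpen U → U.Nonempty → ∃ f : Circle → ℝ, Continuous f ∧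
      (∀ x, 0 ≤ f x ∧ f x ≤ 1) ∧ (∀ x, x ∉ U → f x = 0) ∧
      ∃ δ : ℝ, 0 < δ ∧ ∀ᶠ s : ℝ in 𝓝[>] σ, δ ≤ (E (Wt c l) (lo σ) s fun a => (f (w a) : ℂ)).re := by
  classical
  have hso : ∀ F : (Fin 1 → Circle) → ℂ, so (fun a (_ : Fin 1) => w a) F =
      fun v => F fun _ => w v := by
    intro F
    funext v
    unfold so
    rw [Fintype.sum_subsingleton _ (1 : Equiv.Perm (Fin 1))]
  obtain ⟨L, hL, hlim⟩ := law (d := 1) (y := fun a (_ : Fin 1) => w a) hc hl h fun k => by
    rw [hso]
    have h1 : (fun v => ((mon k fun _ => w v : Circle) : ℂ)) = fun a => (w a : ℂ) ^ (k 0) := by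
      funext a
      unfold mon
      rw [Fin.prod_univ_one, Circle.coe_zpow]
    rw [h1]
    exact hall (k 0)
  by_cases hcase : ∃ D ∈ L, D.1 = ⊥ ∧ D.2 ≠ 0
  · right
    obtain ⟨D, hD, hD1, hD2⟩ := hcase
    intro U hU hne
    obtain ⟨x₀, hx₀⟩ := hne
    obtain ⟨f, hf0, hf1, hf01⟩ := exists_continuous_zero_one_of_isClosed hU.isClosed_compl
      (isClosed_singleton (x := x₀)) (by
        rw [Set.disjoint_singleton_right]
        exact fun h => h hx₀)
    refine ⟨f, f.continuous, fun x => ⟨(hf01 x).1, (hf01 x).2⟩, fun x hx => hf0 hx, ?_⟩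
    have hfc : Continuous fun x : Fin 1 → Circle => f (x 0) := f.continuous.comp (continuous_apply 0)
    have hpos := (integ_re L hL hfc fun x => (hf01 _).1).2 (by
      refine ⟨D, hD, ?_⟩
      have hopen : IsOpen {x : Circle | 0 < f x} := isOpen_lt continuous_const f.continuous
      have hinf : {x : Circle | 0 < f x}.Infinite := by
        have h0 : Nontrivial Circle := ⟨⟨1, -1, fun h => by
          have h3 := congrArg (fun x : Circle => (x : ℂ)) h
          simp only [Circle.coe_one, Circle.coe_neg] at h3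
          norm_num at h3⟩⟩
        have h1 : (𝓝[≠] x₀).NeBot := inferInstance
        refine infinite_of_mem_nhds x₀ (hopen.mem_nhds ?_)
        have h2 : f x₀ = 1 := hf1 (Set.mem_singleton _)
        change 0 < f x₀
        rw [h2]
        exact one_pos
      obtain ⟨x₁, hx₁, hx₁'⟩ := hinf.exists_notMem_finite (finite_zeros hD2)
      refine ⟨fun _ => x₁, ?_, hx₁', ne_of_gt hx₁⟩
      rw [hD1]
      intro γ hγ
      rw [AddSubgroup.mem_bot] at hγ
      rw [hγ, mon_zero])
    set r := (integ L fun x => ((f (x 0) : ℝ) : ℂ)).re with hr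
    refine ⟨r / 2, by positivity, ?_⟩
    have h1 := hlim (fun x => ((f (x 0) : ℝ) : ℂ)) (Complex.continuous_ofReal.comp hfc)
    rw [hso] at h1
    have h2 := (Complex.continuous_re.tendsto _).comp h1
    have h3 := h2.eventually (lt_mem_nhds (show r / 2 < _ by rw [← hr]; linarith))
    exact h3.mono fun s hs => hs.le
  · left
    push Not at hcase
    have hexp : ∀ L' : List (AddSubgroup (Fin 1 → ℤ) × ((Fin 1 → ℤ) →₀ ℤ)), (∀ D ∈ L', D.1 = ⊥ → D.2 = 0) →
        ∃ N : ℕ, 1 ≤ N ∧ ∀ D ∈ L', D.2 ≠ 0 → ∀ x ∈ ann D.1, (x 0) ^ N = 1 := by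
      intro L'
      induction L' with
      | nil => exact fun _ => ⟨1, le_rfl, by simp⟩
      | cons D L' ih =>
        intro h
        obtain ⟨N, hN, hN'⟩ := ih fun D' hD' => h D' (List.mem_cons_of_mem _ hD')
        by_cases hD : D.2 = 0
        · refine ⟨N, hN, fun D' hD' hne => ?_⟩
          rcases List.mem_cons.mp hD' with rfl | hD'
          · exact absurd hD hne
          · exact hN' D' hD' hne
        · have h1 : D.1 ≠ ⊥ := fun h2 => hD (h D List.mem_cons_self h2)
          obtain ⟨⟨k, hk⟩, hk0⟩ := (AddSubgroup.ne_bot_iff_exists_ne_zero).mp h1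
          have hk1 : k 0 ≠ 0 := by
            intro h2
            apply hk0
            refine Subtype.ext (funext fun j => ?_)
            rw [Fin.fin_one_eq_zero j]
            exact h2
          refine ⟨(k 0).natAbs * N, Nat.mul_pos (Int.natAbs_pos.mpr hk1) hN, fun D' hD' hne x hx => ?_⟩
          rcases List.mem_cons.mp hD' with rfl | hD'
          · have h2 : (x 0) ^ (k 0) = 1 := by
              have h3 := hx k hk
              unfold mon at h3
              rwa [Fin.prod_univ_one] at h3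
            have h4 : (x 0) ^ (k 0).natAbs = 1 := by
              rcases Int.natAbs_eq (k 0) with h5 | h5
              · rw [h5, zpow_natCast] at h2
                exact h2
              · rw [h5, zpow_neg, zpow_natCast, inv_eq_one] at h2
                exact h2
            rw [pow_mul, h4, one_pow]
          · rw [mul_comm, pow_mul, hN' D' hD' hne x hx, one_pow]
    obtain ⟨N, hN, hN'⟩ := hexp L hcase
    refine ⟨N, hN, ?_⟩
    set g : ι → ℝ := fun v => ‖(w v : ℂ) ^ N - 1‖ ^ 2 with hg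
    have hg0 : ∀ v, 0 ≤ g v := fun v => sq_nonneg _
    -- the mean value vanishes
    have h1 : Tendsto (fun s : ℝ => E (Wt c l) (lo σ) s fun v => (g v : ℂ)) (𝓝[>] σ) (𝓝 0) := by
      have hc1 : Continuous fun x : Fin 1 → Circle => ((‖(x 0 : ℂ) ^ N - 1‖ ^ 2 : ℝ) : ℂ) := by
        refine Complex.continuous_ofReal.comp (((Continuous.norm ?_)).pow 2)
        exact ((continuous_subtype_val.comp (continuous_apply 0)).pow N).sub continuous_const
      have h2 := hlim (fun x => ((‖(x 0 : ℂ) ^ N - 1‖ ^ 2 : ℝ) : ℂ)) hc1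
      rw [hso] at h2
      have h3 : (integ L fun x => ((‖(x 0 : ℂ) ^ N - 1‖ ^ 2 : ℝ) : ℂ)) = 0 := by
        unfold integ
        refine List.sum_eq_zero fun y hy => ?_
        rw [List.mem_map] at hy
        obtain ⟨D, hD, rfl⟩ := hy
        have h4 : (fun x : ann D.1 => ((‖((x : Fin 1 → Circle) 0 : ℂ) ^ N - 1‖ ^ 2 : ℝ) : ℂ) *
            ev D.2 x) = fun _ => 0 := by
          funext x
          by_cases h5 : D.2 = 0
          · rw [h5]
            unfold ev
            simp
          · have h6 := hN' D hD h5 x x.2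
            have h7 : (((x : Fin 1 → Circle) 0 : ℂ)) ^ N = 1 := by
              rw [← Circle.coe_pow, h6, Circle.coe_one]
            rw [h7]
            simp
        rw [h4, haarInt_const]
      rw [h3] at h2
      exact h2
    -- the continuation
    have hCg : Cont c l σ fun v => (g v : ℂ) := by
      have e1 : ∀ k : ℤ, ∀ a, ‖((w a : ℂ) ^ k)‖ ≤ 1 := fun k a => by
        rw [norm_zpow, Circle.norm_coe, one_zpow]
      have e2 := Cont.add hc h (fun a => by rw [norm_neg]; exact e1 _ a)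
        (fun a => by rw [norm_neg]; exact e1 _ a) (hall N).neg (hall (-N)).neg
      have e3 := Cont.add hc h (e1 0) (e1 0) (hall 0) (hall 0)
      have e4 := Cont.add hc h (B := 1 + 1) (B' := 1 + 1)
        (fun a => (norm_add_le _ _).trans (add_le_add (e1 _ a) (e1 _ a)))
        (fun a => (norm_add_le _ _).trans (add_le_add (by rw [norm_neg]; exact e1 _ a)
          (by rw [norm_neg]; exact e1 _ a))) e3 e2
      refine (congrArg (Cont c l σ) (funext fun v => ?_)).mp e4
      have hw : (w v : ℂ) ≠ 0 := Circle.coe_ne_zero _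
      have h2 : ((w v : ℂ) ^ N)⁻¹ - 1 = (starRingEnd ℂ) ((w v : ℂ) ^ N - 1) := by
        rw [map_sub, map_pow, map_one, ← Circle.coe_inv_eq_conj, Circle.coe_inv, inv_pow]
      rw [hg]
      simp only
      rw [Complex.ofReal_pow, ← Complex.mul_conj', ← h2]
      simp only [zpow_neg, zpow_natCast, zpow_zero]
      have h3 : (w v : ℂ) ^ N * ((w v : ℂ) ^ N)⁻¹ = 1 := mul_inv_cancel₀ (pow_ne_zero N hw)
      linear_combination (-1 : ℂ) * h3
    obtain ⟨F, hF, hFs⟩ := hCg
    set cc : ι → ℝ := fun a => g a * c a with hcc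
    have hcc0 : ∀ x, 0 ≤ cc x := fun x => mul_nonneg (hg0 x) (hc x)
    have hg4 : ∀ v, g v ≤ 4 := by
      intro v
      rw [hg]
      have h1 : ‖(w v : ℂ) ^ N - 1‖ ≤ 2 := by
        refine (norm_sub_le _ _).trans ?_
        rw [norm_pow, Circle.norm_coe, one_pow, norm_one]
        norm_num
      calc ‖(w v : ℂ) ^ N - 1‖ ^ 2 ≤ 2 ^ 2 := pow_le_pow_left₀ (norm_nonneg _) h1 2
        _ = 4 := by norm_num
    have hconv : ∀ s : ℝ, σ < s → Conv cc l s := by
      intro s hs
      refine Summable.of_nonneg_of_le (fun a => mul_nonneg (hcc0 a) (Real.exp_nonneg _)) (fun a => ?_)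
        ((h s hs).mul_left 4)
      rw [hcc]
      simp only
      rw [mul_assoc]
      exact mul_le_mul_of_nonneg_right (hg4 a) (mul_nonneg (hc a) (Real.exp_nonneg _))
    have hPQ : ∀ s : ℂ, P cc l s = Q c l (fun v => (g v : ℂ)) s := by
      intro s
      unfold P Q
      refine tsum_congr fun a => ?_
      rw [hcc]
      push_cast
      ring
    obtain ⟨m, ⟨C, hC⟩, hm0⟩ := pole hcc0 hl hconv hF (by
        filter_upwards [hFs] with s hs
        rw [hs, hPQ])
    have hm : m = 0 := by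
      have h2 : Tendsto (fun s : ℝ => ((m : ℝ) : ℂ) - E (Wt c l) (lo σ) s fun v => (g v : ℂ))
          (𝓝[>] σ) (𝓝 0) := by
        rw [tendsto_zero_iff_norm_tendsto_zero]
        have h3 : Tendsto (fun s : ℝ => C / lo σ s) (𝓝[>] σ) (𝓝 0) :=
          (tendsto_lo σ).const_div_atTop _
        refine squeeze_zero' (Eventually.of_forall fun _ => norm_nonneg _) ?_ h3
        filter_upwards [hC, (tendsto_lo σ).eventually_gt_atTop 0] with s h4 h5
        have h6 : E (Wt c l) (lo σ) s (fun v => (g v : ℂ)) = (R cc l s : ℂ) / (lo σ s : ℂ) := by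
          unfold E
          rw [← Q_ofReal, ← hPQ, P_ofReal]
        have hl : (lo σ s : ℂ) ≠ 0 := by exact_mod_cast h5.ne'
        rw [h6]
        have h7 : ((m : ℝ) : ℂ) - (R cc l s : ℂ) / (lo σ s : ℂ) =
            -((R cc l s - m * lo σ s : ℝ) : ℂ) / (lo σ s : ℂ) := by
          field_simp
          push_cast
          ring
        rw [h7, norm_div, norm_neg, Complex.norm_real, Complex.norm_real,
          Real.norm_of_nonneg h5.le]
        exact div_le_div_of_nonneg_right h4 h5.le
      have h3 := (tendsto_const_nhds (x := ((m : ℝ) : ℂ)) (f := 𝓝[>] σ)).sub h1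
      rw [sub_zero] at h3
      have h4 := tendsto_nhds_unique h3 h2
      exact_mod_cast h4
    obtain ⟨σ', hσ', hσc⟩ := hm0 hm
    exact ⟨σ', hσ', hσc⟩

include hc hl h in
/-- **The gap theorem.** -/
theorem gap [Countable ι] {d : ℕ} (y : ι → Fin d → Circle)
    (hall : ∀ k : ℤ, Cont c l σ fun a => ∑ j, (y a j : ℂ) ^ k) :
    (∃ N : ℕ, 1 ≤ N ∧ ∃ σ' : ℝ, σ' < σ ∧
      Conv (fun a => (∑ j, ‖(y a j : ℂ) ^ N - 1‖ ^ 2) * c a) l σ') ∨
    ∀ U : Set Circle, IsOpen U → U.Nonempty → ∃ δ : ℝ, 0 < δ ∧ ∀ᶠ s : ℝ in 𝓝[>] σ,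
      δ * lo σ s ≤ ∑' a : {a : ι // ∃ j, y a j ∈ U}, Wt c l s a := by
  classical
  have hconv' : ∀ s : ℝ, σ < s → Conv (fun x : ι × Fin d => c x.1) (fun x => l x.1) s := by
    intro s hs
    refine (summable_prod_of_nonneg fun x => mul_nonneg (hc _) (Real.exp_nonneg _)).mpr
      ⟨fun v => ?_, ?_⟩
    · exact Summable.of_finite
    · simp only [tsum_fintype, Finset.sum_const, Finset.card_univ, Fintype.card_fin, nsmul_eq_mul]
      exact (h s hs).mul_left _
  have hcont : ∀ k : ℤ, Cont (fun x : ι × Fin d => c x.1) (fun x => l x.1) σ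
      fun x => (y x.1 x.2 : ℂ) ^ k := by
    intro k
    obtain ⟨F, hF, hFs⟩ := hall k
    refine ⟨F, hF, ?_⟩
    filter_upwards [hFs, self_mem_nhdsWithin] with s hs hs1
    rw [hs]
    congr 1
    have hs1' : Conv (fun x : ι × Fin d => c x.1) (fun x => l x.1) (s : ℂ).re := hconv' s hs1
    have h1 := summable_Q (fun x : ι × Fin d => hc x.1) (g := fun x : ι × Fin d => (y x.1 x.2 : ℂ) ^ k)
      (B := 1) (fun x => by rw [norm_zpow, Circle.norm_coe, one_zpow]) hs1'
    unfold Q
    rw [h1.tsum_prod' fun v => Summable.of_finite]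
    refine tsum_congr fun v => ?_
    rw [tsum_fintype, Finset.sum_mul]
  rcases gap_one (c := fun x : ι × Fin d => c x.1) (l := fun x => l x.1) (fun x => hc x.1)
    (fun x => hl x.1) hconv' (fun x : ι × Fin d => y x.1 x.2) hcont with h1 | h1
  · left
    obtain ⟨N, hN, σ', hσ', hs⟩ := h1
    refine ⟨N, hN, σ', hσ', ?_⟩
    have h2 := Summable.prod hs
    refine h2.congr fun v => ?_
    rw [tsum_fintype]
    beta_reduce
    simp only [Finset.sum_mul]
  · right
    intro U hU hne
    obtain ⟨f, hfc, hf01, hf0, δ, hδ, hev⟩ := h1 U hU hne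
    refine ⟨δ / (d + 1), by positivity, ?_⟩
    filter_upwards [hev, self_mem_nhdsWithin, (tendsto_lo σ).eventually_gt_atTop 0] with s h1 hs hl
    unfold E at h1
    have hs' : σ < s := hs
    have hW : ∀ v, 0 ≤ Wt c l s v := Wt_nonneg hc l s
    have h2 : (∑' x : ι × Fin d, (f (y x.1 x.2) : ℂ) *
        ((Wt (fun x : ι × Fin d => c x.1) (fun x => l x.1) s x : ℝ) : ℂ)) =
        ((∑' x : ι × Fin d, f (y x.1 x.2) * Wt c l s x.1 : ℝ) : ℂ) := by
      rw [Complex.ofReal_tsum]
      simp only [Complex.ofReal_mul]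
      rfl
    rw [h2, ← Complex.ofReal_div, Complex.ofReal_re, le_div_iff₀ hl] at h1
    have hsW' : Summable fun x : ι × Fin d => Wt c l s x.1 := hconv' s hs'
    have hsummf : Summable fun x : ι × Fin d => f (y x.1 x.2) * Wt c l s x.1 := by
      refine Summable.of_nonneg_of_le (fun x => mul_nonneg (hf01 _).1 (hW x.1)) (fun x => ?_) hsW'
      exact mul_le_of_le_one_left (hW x.1) (hf01 _).2
    have hsW : Summable (Wt c l s) := h s hs'
    have h3 : ∑' x : ι × Fin d, f (y x.1 x.2) * Wt c l s x.1 ≤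
        d * ∑' v : {v : ι // ∃ j, y v j ∈ U}, Wt c l s v.1 := by
      rw [hsummf.tsum_prod' fun v => Summable.of_finite]
      have h4 : ∑' v : {v : ι // ∃ j, y v j ∈ U}, Wt c l s v.1 =
          ∑' v : ι, Set.indicator {v : ι | ∃ j, y v j ∈ U} (fun v => Wt c l s v) v :=
        tsum_subtype {v : ι | ∃ j, y v j ∈ U} fun v => Wt c l s v
      rw [h4, ← tsum_mul_left]
      refine Summable.tsum_le_tsum (fun v => ?_) hsummf.prod ?_
      · rw [tsum_fintype]
        by_cases h5 : ∃ j, y v j ∈ U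
        · rw [Set.indicator_of_mem (show v ∈ {v : ι | ∃ j, y v j ∈ U} from h5)]
          refine (Finset.sum_le_card_nsmul _ _ (Wt c l s v) fun j _ => ?_).trans (le_of_eq ?_)
          · exact mul_le_of_le_one_left (hW v) (hf01 _).2
          · rw [Finset.card_univ, Fintype.card_fin, nsmul_eq_mul]
        · rw [Set.indicator_of_notMem (show v ∉ {v : ι | ∃ j, y v j ∈ U} from h5), mul_zero]
          push Not at h5
          refine (Finset.sum_eq_zero fun j _ => ?_).le
          rw [hf0 _ (h5 j), zero_mul]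
      · exact (hsW.indicator _).mul_left _
    have h4 : 0 ≤ ∑' v : {v : ι // ∃ j, y v j ∈ U}, Wt c l s v.1 := tsum_nonneg fun v => hW v.1
    have h5 : δ * lo σ s ≤ (d + 1) * ∑' v : {v : ι // ∃ j, y v j ∈ U}, Wt c l s v.1 := by
      refine (h1.trans h3).trans ?_
      exact mul_le_mul_of_nonneg_right (by linarith) h4
    rw [div_mul_eq_mul_div, div_le_iff₀ (by positivity)]
    linarith

end

end Pool.Agent.H506.SP
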