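import Pool.Agent.H506.Sp3

/-!
# The arithmetic part: virtual characters with continuation
-/

set_option autoImplicit false

namespace Pool.Agent.H506.SP

open Filter Topology Pool.Agent.H506.PS Pool.Agent.H506.SV Pool.Agent.H506.SR
open Pool.Agent.H506.TR
open Pool.Agent.H506.LW (integ un sy lg_sy norm_lg_le symm_mem)

open AddMonoidAlgebra (single)

variable {V M : Type} [AddCommGroup M]

/-- the virtual character `(∑ m_x w_x) (∑ m_x w_x)^∨` -/
noncomputable def theta {J : Type} [Fintype J] (m : J → ℤ) (w : J → M) : AddMonoidAlgebra ℤ M :=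
  ∑ x : J × J, single (w x.1 - w x.2) (m x.1 * m x.2)

/-- the powers -/
noncomputable def pc (c : V → M → Circle) (a : V × ℕ) (k : M) : Circle := c a.1 k ^ (a.2 + 1)

/-- the value of a virtual character at the powers -/
noncomputable def gx (c : V → M → Circle) (ξ : AddMonoidAlgebra ℤ M) (a : V × ℕ) : ℂ :=
  lg (fun k => (pc c a k : ℂ)) ξ

section

variable {q : V → ℝ} (hq : ∀ v, 2 ≤ q v) (hsum : ∀ s : ℝ, 1 < s → Summable fun v => q v ^ (-s))
  {c : V → M → Circle} (hc0 : ∀ v, c v 0 = 1) (hcadd : ∀ v k l, c v (k + l) = c v k * c v l)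
  {J : Type} [Fintype J] (m : J → ℤ) (w : J → M)

omit [AddCommGroup M] in
theorem norm_pc (c : V → M → Circle) (a : V × ℕ) (k : M) : ‖(pc c a k : ℂ)‖ = 1 := Circle.norm_coe _

theorem gx_bound (c : V → M → Circle) (ξ : AddMonoidAlgebra ℤ M) : ∃ B : ℝ, ∀ a, ‖gx c ξ a‖ ≤ B :=
  norm_lg_le (c := fun a k => (pc c a k : ℂ)) (norm_pc c) ξ

include hcadd in
theorem c_sub (v : V) (x y : M) : (c v (x - y) : ℂ) = c v x * (c v y : ℂ)⁻¹ := by
  have h1 := hcadd v (x - y) y
  rw [sub_add_cancel] at h1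
  rw [h1, Circle.coe_mul, mul_assoc, mul_inv_cancel₀ (Circle.coe_ne_zero _), mul_one]

include hq hcadd in
/-- the local sum with a virtual character -/
theorem hasSum_gx (v : V) {s : ℂ} (hs : 0 < s.re) (ξ : AddMonoidAlgebra ℤ M) :
    HasSum (fun r : ℕ => gx c ξ (v, r) *
      ((cf (asq m fun v j => (c v (w j) : ℂ)) 1 Set.univ (v, r) : ℂ) *
        Complex.exp (-((len q (v, r) : ℂ) * s))))
      (lv q (fun v k => (c v k : ℂ)) s v (theta m w * ξ)) := by
  set z : V → J → ℂ := fun v j => (c v (w j) : ℂ) with hz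
  have hz1 : ∀ v j, ‖z v j‖ = 1 := fun v j => Circle.norm_coe _
  induction ξ using AddMonoidAlgebra.induction_linear with
  | zero =>
    simp only [mul_zero, map_zero, gx, zero_mul]
    exact hasSum_zero
  | add a b ha hb =>
    simp only [mul_add, map_add, gx, add_mul] at ha hb ⊢
    exact ha.add hb
  | single k n =>
    have h1 : lv q (fun v k => (c v k : ℂ)) s v (theta m w * single k n) =
        ∑ x : J × J, (n : ℂ) * ((m x.1 * m x.2 : ℤ) : ℂ) *
          -Complex.log (1 - z v x.1 * (z v x.2)⁻¹ * c v k * (q v : ℂ) ^ (-s)) := by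
      unfold theta
      rw [Finset.sum_mul, map_sum]
      refine Finset.sum_congr rfl fun x _ => ?_
      rw [AddMonoidAlgebra.single_mul_single, lv_single, hcadd, Circle.coe_mul, c_sub hcadd]
      push_cast
      ring
    rw [h1]
    have h2 : ∀ r : ℕ, gx c (single k n) (v, r) * ((cf (asq m z) 1 Set.univ (v, r) : ℂ) *
        Complex.exp (-((len q (v, r) : ℂ) * s))) =
        ∑ x : J × J, (n : ℂ) * ((m x.1 * m x.2 : ℤ) : ℂ) *
          ((z v x.1 * (z v x.2)⁻¹ * c v k * (q v : ℂ) ^ (-s)) ^ (r + 1) / (r + 1)) := by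
      intro r
      unfold gx cf
      rw [if_pos (Set.mem_univ _), lg_single]
      have h3 : Complex.exp (-((len q (v, r) : ℂ) * s)) = ((q v : ℂ) ^ (-s)) ^ (r + 1) :=
        cpow_neg_eq (hq v) s r
      rw [h3, pow_one]
      push_cast
      have h4 := asq_eq m hz1 v r
      rw [h4, Finset.sum_div, Finset.sum_mul, Finset.mul_sum]
      refine Finset.sum_congr rfl fun x _ => ?_
      have h5 : (pc c (v, r) k : ℂ) = (c v k : ℂ) ^ (r + 1) := Circle.coe_pow _ _
      have h6 : (z v x.1 * (z v x.2)⁻¹ * (c v k : ℂ) * (q v : ℂ) ^ (-s)) ^ (r + 1) =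
          (z v x.1 * (z v x.2)⁻¹) ^ (r + 1) * (c v k : ℂ) ^ (r + 1) * ((q v : ℂ) ^ (-s)) ^ (r + 1) := by
        rw [mul_pow, mul_pow]
      rw [h5, h6, Int.cast_mul]
      ring
    simp_rw [h2]
    refine hasSum_sum fun x _ => HasSum.mul_left _ ?_
    refine Complex.hasSum_taylorSeries_neg_log' (norm_mul_cpow_lt (B := 0) (hq v) ?_ hs)
    rw [norm_mul, norm_mul, norm_inv, hz1, hz1, Circle.norm_coe]
    simp

include hq hsum hcadd in
/-- the logarithm of the Euler product -/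
theorem Q_gx {s : ℂ} (hs : 1 < s.re) (ξ : AddMonoidAlgebra ℤ M) :
    ∑' v, lv q (fun v k => (c v k : ℂ)) s v (theta m w * ξ) =
      Q (cf (asq m fun v j => (c v (w j) : ℂ)) 1 Set.univ) (len q) (gx c ξ) s := by
  set z : V → J → ℂ := fun v j => (c v (w j) : ℂ) with hz
  have hz1 : ∀ v j, ‖z v j‖ = 1 := fun v j => Circle.norm_coe _
  have hconv : Conv (cf (asq m z) 1 Set.univ) (len q) s.re := by
    refine conv_of_bound hq hsum (cf_nonneg (asq_nonneg m z) 1 _) (N := (∑ j, |(m j : ℝ)|) ^ 2)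
      (B := 0) (fun x => ?_) (by linarith)
    unfold cf
    rw [if_pos (Set.mem_univ _), zero_mul, Real.exp_zero, mul_one, pow_one]
    refine (div_le_self (asq_nonneg _ _ _ _) ?_).trans (asq_le m hz1 _ _)
    have : (0 : ℝ) ≤ x.2 := Nat.cast_nonneg _
    linarith
  obtain ⟨B, hB⟩ := gx_bound c ξ
  have h1 := (summable_Q (cf_nonneg (asq_nonneg m z) 1 Set.univ) hB hconv).hasSum
  have h2 := h1.prod_fiberwise fun v => hasSum_gx hq hcadd m w v (show 0 < s.re by linarith) ξ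
  exact h2.tsum_eq

include hq hsum hcadd in
/-- continuation to the abscissa of convergence -/
theorem cont_of_good {σ : ℝ} (hσ : 0 ≤ σ)
    (h : ∀ s : ℝ, σ < s → Conv (cf (asq m fun v j => (c v (w j) : ℂ)) 1 Set.univ) (len q) s)
    {ξ : AddMonoidAlgebra ℤ M} (hξ : Good q (fun v k => (c v k : ℂ)) (theta m w * ξ)) :
    Cont (cf (asq m fun v j => (c v (w j) : ℂ)) 1 Set.univ) (len q) σ (gx c ξ) := by
  obtain ⟨X, hX, F, hF, s₀, hs₀⟩ := hξ
  obtain ⟨B, hB⟩ := gx_bound c ξ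
  refine ⟨F, hF σ (by linarith), ?_⟩
  refine ident_gen_right (fun x hx => ?_) (fun x hx => hF x (by linarith))
    ⟨max s₀ 1, fun s hs => ?_⟩
  · exact analytic_Q (cf_nonneg (asq_nonneg _ _) 1 _) (len_nonneg hq) h hB x (by simpa using hx)
  · rw [hs₀ s (lt_of_le_of_lt (le_max_left _ _) hs),
      Q_gx hq hsum hcadd m w (lt_of_le_of_lt (le_max_right _ _) hs)]

/-- the ring generated by the exterior powers of `ρ` and `ρ^∨` -/
noncomputable def ring {d : ℕ} (ρ : Fin d → M) : Subring (AddMonoidAlgebra ℤ M) :=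
  Subring.closure (Set.range (fun i => (Finset.univ.val.map fun j => single (ρ j) (1 : ℤ)).esymm i) ∪
    Set.range (fun i => (Finset.univ.val.map fun j => single (-ρ j) (1 : ℤ)).esymm i))

theorem mem_ring {d : ℕ} (ρ : Fin d → M) (i : ℕ) :
    (Finset.univ.val.map fun j => single (ρ j) (1 : ℤ)).esymm i ∈ ring ρ :=
  Subring.subset_closure (Or.inl ⟨i, rfl⟩)

theorem mem_ring' {d : ℕ} (ρ : Fin d → M) (i : ℕ) :
    (Finset.univ.val.map fun j => single (-ρ j) (1 : ℤ)).esymm i ∈ ring ρ :=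
  Subring.subset_closure (Or.inr ⟨i, rfl⟩)

/-- the virtual characters in the ring -/
theorem good_ring (hc : ∀ v k, ‖(c v k : ℂ)‖ = 1) {q : V → ℝ} (hq : ∀ v, 2 ≤ q v)
    (hsum : ∀ s : ℝ, 1 < s → Summable fun v => q v ^ (-s)) (θ : AddMonoidAlgebra ℤ M) {d : ℕ}
    (ρ : Fin d → M)
    (hG : ∀ I J : List ℕ, Good q (fun v k => (c v k : ℂ)) (θ *
      ((I.map fun i => (Finset.univ.val.map fun j => single (ρ j) (1 : ℤ)).esymm i).prod *
       (J.map fun i => (Finset.univ.val.map fun j => single (-ρ j) (1 : ℤ)).esymm i).prod)))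
    {ξ : AddMonoidAlgebra ℤ M} (hξ : ξ ∈ ring ρ) : Good q (fun v k => (c v k : ℂ)) (θ * ξ) := by
  unfold ring at hξ
  rw [Subring.mem_closure_iff] at hξ
  set G : AddSubgroup (AddMonoidAlgebra ℤ M) :=
    (goodGroup hq hsum hc).comap (AddMonoidHom.mulLeft θ) with hGdef
  have h1 : AddSubgroup.closure (Submonoid.closure
      (Set.range (fun i => (Finset.univ.val.map fun j => single (ρ j) (1 : ℤ)).esymm i) ∪
        Set.range (fun i => (Finset.univ.val.map fun j => single (-ρ j) (1 : ℤ)).esymm i)) :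
      Set (AddMonoidAlgebra ℤ M)) ≤ G := by
    rw [AddSubgroup.closure_le]
    intro x hx
    have h2 : ∃ I J : List ℕ, x =
        (I.map fun i => (Finset.univ.val.map fun j => single (ρ j) (1 : ℤ)).esymm i).prod *
        (J.map fun i => (Finset.univ.val.map fun j => single (-ρ j) (1 : ℤ)).esymm i).prod := by
      induction hx using Submonoid.closure_induction with
      | mem x hx =>
        rcases hx with ⟨i, rfl⟩ | ⟨i, rfl⟩
        · exact ⟨[i], [], by simp⟩
        · exact ⟨[], [i], by simp⟩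
      | one => exact ⟨[], [], by simp⟩
      | mul x y _ _ hx hy =>
        obtain ⟨I₁, J₁, rfl⟩ := hx
        obtain ⟨I₂, J₂, rfl⟩ := hy
        refine ⟨I₁ ++ I₂, J₁ ++ J₂, ?_⟩
        rw [List.map_append, List.map_append, List.prod_append, List.prod_append]
        ring
    obtain ⟨I, J, rfl⟩ := h2
    exact hG I J
  exact h1 hξ

include hc0 hcadd in
/-- the symmetrized monomials -/
theorem gx_sy {d : ℕ} (ρ : Fin d → M) (k : Fin d → ℤ) :
    gx c (sy ρ k) = so (fun a j => pc c a (ρ j)) fun x => (mon k x : ℂ) := by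
  funext a
  unfold gx so
  refine lg_sy (c := pc c a) ?_ ?_ ρ k
  · unfold pc
    rw [hc0, one_pow]
  · intro x y
    unfold pc
    rw [hcadd, mul_pow]

theorem sy_mem {d : ℕ} (ρ : Fin d → M) (k : Fin d → ℤ) : sy ρ k ∈ ring ρ := by
  refine symm_mem (fun j => single (ρ j) (1 : ℤ)) (fun j => single (-ρ j) (1 : ℤ)) (fun j => ?_)
    (ring ρ) (mem_ring ρ) (mem_ring' ρ) (fun j => un (ρ j)) (fun j => rfl) k
  rw [AddMonoidAlgebra.single_mul_single, add_neg_cancel, one_mul, AddMonoidAlgebra.one_def]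

/-- the power sums -/
theorem psum_mem_ring {d : ℕ} (ρ : Fin d → M) (k : ℤ) :
    (∑ j, single (k • ρ j) (1 : ℤ)) ∈ ring ρ := by
  rcases Int.eq_nat_or_neg k with ⟨n, rfl | rfl⟩
  · rcases Nat.eq_zero_or_pos n with rfl | hn
    · have h1 : (∑ j : Fin d, single (((0 : ℕ) : ℤ) • ρ j) (1 : ℤ)) = (d : AddMonoidAlgebra ℤ M) := by
        simp [AddMonoidAlgebra.natCast_def]
      rw [h1]
      exact natCast_mem _ d
    · have h1 := psum_mem (fun j => single (ρ j) (1 : ℤ)) (ring ρ) (mem_ring ρ) n hn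
      simp only [AddMonoidAlgebra.single_pow, one_pow] at h1
      simpa only [natCast_zsmul] using h1
  · rcases Nat.eq_zero_or_pos n with rfl | hn
    · have h1 : (∑ j : Fin d, single ((-((0 : ℕ) : ℤ)) • ρ j) (1 : ℤ)) =
          (d : AddMonoidAlgebra ℤ M) := by
        simp [AddMonoidAlgebra.natCast_def]
      rw [h1]
      exact natCast_mem _ d
    · have h1 := psum_mem (fun j => single (-ρ j) (1 : ℤ)) (ring ρ) (mem_ring' ρ) n hn
      simp only [AddMonoidAlgebra.single_pow, one_pow] at h1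
      simpa only [neg_smul, natCast_zsmul, smul_neg] using h1

include hc0 hcadd in
theorem pc_zsmul (a : V × ℕ) (k : ℤ) (x : M) : pc c a (k • x) = pc c a x ^ k := by
  unfold pc
  rw [Pool.Agent.H506.LW.c_zsmul hc0 hcadd, ← zpow_natCast, ← zpow_natCast, ← zpow_mul, ← zpow_mul,
    mul_comm]

include hc0 hcadd in
theorem gx_psum {d : ℕ} (ρ : Fin d → M) (k : ℤ) :
    gx c (∑ j, single (k • ρ j) (1 : ℤ)) = fun a => ∑ j, (pc c a (ρ j) : ℂ) ^ k := by
  funext a
  unfold gx
  rw [map_sum]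
  refine Finset.sum_congr rfl fun j _ => ?_
  rw [lg_single, Int.cast_one, one_mul, pc_zsmul hc0 hcadd, Circle.coe_zpow]

include hq hsum in
omit [AddCommGroup M] in
/-- the abscissa of convergence -/
theorem exists_abscissa {cc : V × ℕ → ℝ} (hcc : ∀ a, 0 ≤ cc a) {N : ℝ} (hN : ∀ a, cc a ≤ N) :
    (∀ s : ℝ, 0 < s → Conv cc (len q) s) ∨ ∃ h : ℝ, 0 < h ∧ h ≤ 1 ∧
      (∀ s : ℝ, h < s → Conv cc (len q) s) ∧ ∀ s : ℝ, s < h → ¬ Conv cc (len q) s := by
  have hl := len_nonneg hq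
  have h1 : ∀ s : ℝ, 1 < s → Conv cc (len q) s := fun s hs =>
    conv_of_bound hq hsum hcc (N := N) (B := 0) (fun a => by
      rw [zero_mul, Real.exp_zero, mul_one]
      exact hN a) (by linarith)
  by_cases hall : ∀ s : ℝ, 0 < s → Conv cc (len q) s
  · exact Or.inl hall
  right
  push Not at hall
  obtain ⟨s₀, hs₀, hn⟩ := hall
  set A : Set ℝ := {s | Conv cc (len q) s} with hA
  have hAne : A.Nonempty := ⟨2, h1 2 (by norm_num)⟩
  have hAlow : ∀ s ∈ A, s₀ ≤ s := by
    intro s hs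
    by_contra hcon
    exact hn (Conv.mono hcc hl hs (not_le.mp hcon).le)
  have hAbdd : BddBelow A := ⟨s₀, hAlow⟩
  refine ⟨sInf A, lt_of_lt_of_le hs₀ (le_csInf hAne hAlow), ?_, fun s hs => ?_, fun s hs hcon => ?_⟩
  · refine le_of_forall_pos_lt_add fun ε hε => ?_
    exact lt_of_le_of_lt (csInf_le hAbdd (h1 (1 + ε / 2) (by linarith))) (by linarith)
  · obtain ⟨s', hs', hs's⟩ := exists_lt_of_csInf_lt hAne hs
    exact Conv.mono hcc hl hs' hs's.le
  · exact absurd (csInf_le hAbdd hcon) (not_le.mpr hs)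

include hq hsum hc0 hcadd in
/-- **Laws of Lie type on sparse sets**, general form. -/
theorem sparse_laws {d : ℕ} (ρ : Fin d → M)
    (hG : ∀ I J : List ℕ, Good q (fun v k => (c v k : ℂ)) (theta m w *
      ((I.map fun i => (Finset.univ.val.map fun j => single (ρ j) (1 : ℤ)).esymm i).prod *
       (J.map fun i => (Finset.univ.val.map fun j => single (-ρ j) (1 : ℤ)).esymm i).prod))) :
    {v | ∃ r, asq m (fun v j => (c v (w j) : ℂ)) v r ≠ 0}.Finite ∨
    ∃ h : ℝ, 0 < h ∧ h ≤ 1 ∧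
      (∀ s : ℝ, h < s → Conv (cf (asq m fun v j => (c v (w j) : ℂ)) 1 Set.univ) (len q) s) ∧
      ∃ M : ℕ, 1 ≤ M ∧ ∃ L : List (AddSubgroup (Fin d → ℤ) × ((Fin d → ℤ) →₀ ℤ)),
        (∀ D ∈ L, ∀ x ∈ ann D.1, (ev D.2 x).im = 0 ∧ 0 ≤ (ev D.2 x).re) ∧
        (integ L fun _ => 1) = (d.factorial : ℂ) * M ∧
        ∀ f : (Fin d → Circle) → ℂ, Continuous f →
          Tendsto (fun s : ℝ => E (Wt (cf (asq m fun v j => (c v (w j) : ℂ)) 1 Set.univ) (len q))
            (lo h) s (so (fun a j => pc c a (ρ j)) f)) (𝓝[>] h) (𝓝 (integ L f)) := by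
  have hcount : Countable V := countable_of_sum hq hsum
  set z : V → J → ℂ := fun v j => (c v (w j) : ℂ) with hz
  have hz1 : ∀ v j, ‖z v j‖ = 1 := fun v j => Circle.norm_coe _
  set cc := cf (asq m z) 1 Set.univ with hcc
  have hcc0 : ∀ a, 0 ≤ cc a := cf_nonneg (asq_nonneg m z) 1 _
  have hl := len_nonneg hq
  have hN : ∀ a, cc a ≤ (∑ j, |(m j : ℝ)|) ^ 2 := by
    intro a
    rw [hcc]
    unfold cf
    rw [if_pos (Set.mem_univ _), pow_one]
    refine (div_le_self (asq_nonneg _ _ _ _) ?_).trans (asq_le m hz1 _ _)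
    have : (0 : ℝ) ≤ a.2 := Nat.cast_nonneg _
    linarith
  have hring : ∀ ξ ∈ ring ρ, Good q (fun v k => (c v k : ℂ)) (theta m w * ξ) := fun ξ hξ =>
    good_ring (fun v k => Circle.norm_coe _) hq hsum _ ρ hG hξ
  have hPQ : ∀ s : ℂ, P cc (len q) s = Q cc (len q) (gx c 1) s := by
    intro s
    unfold P Q
    refine tsum_congr fun a => ?_
    have h1 : gx c (1 : AddMonoidAlgebra ℤ M) a = 1 := by
      unfold gx
      rw [AddMonoidAlgebra.one_def, lg_single]
      unfold pc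
      rw [hc0, one_pow, Circle.coe_one, Int.cast_one, one_mul]
    rw [h1, one_mul]
  rcases exists_abscissa hq hsum hcc0 hN with hall | ⟨h, hh0, hh1, hconv, hnot⟩
  · left
    obtain ⟨X, hX, F, hF, s₀, hs₀⟩ := hring 1 (ring ρ).one_mem
    refine finite_of_conv hq hsum m hz1 hX hF ⟨max s₀ 1, fun s hs => ?_⟩ hall
    rw [hs₀ s (lt_of_le_of_lt (le_max_left _ _) hs),
      Q_gx hq hsum hcadd m w (lt_of_le_of_lt (le_max_right _ _) hs), hPQ]
  right
  obtain ⟨L, hL1, hL2⟩ := law hcc0 hl hconv (y := fun a j => pc c a (ρ j)) fun k => by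
    rw [← gx_sy hc0 hcadd]
    exact cont_of_good hq hsum hcadd m w hh0.le hconv (hring _ (sy_mem ρ k))
  obtain ⟨F, hF, hFs⟩ := cont_of_good hq hsum hcadd m w hh0.le hconv (hring 1 (ring ρ).one_mem)
  obtain ⟨M₀, ⟨C, hC⟩, hM₀⟩ := pole hcc0 hl hconv hF (by
    filter_upwards [hFs] with s hs
    rw [hs, hPQ])
  have hM1 : 1 ≤ M₀ := by
    by_contra hcon
    obtain ⟨s, hs, hs'⟩ := hM₀ (by omega)
    exact hnot s hs hs'
  refine ⟨h, hh0, hh1, hconv, M₀, hM1, L, hL1, ?_, hL2⟩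
  -- the total mass
  have h1 := hL2 (fun _ => 1) continuous_const
  refine tendsto_nhds_unique h1 ?_
  have h2 : ∀ s : ℝ, E (Wt cc (len q)) (lo h) s (so (fun a j => pc c a (ρ j)) fun _ => 1) =
      (d.factorial : ℂ) * ((R cc (len q) s : ℂ) / (lo h s : ℂ)) := by
    intro s
    have h3 : (so (fun a j => pc c a (ρ j)) fun _ => (1 : ℂ)) =
        fun _ : V × ℕ => (d.factorial : ℂ) * (1 : ℂ) := by
      funext a
      unfold so
      simp only [Finset.sum_const, Finset.card_univ, Fintype.card_perm, Fintype.card_fin,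
        nsmul_eq_mul]
    rw [h3, E_mul]
    congr 1
    unfold E
    congr 1
    unfold Wt R
    rw [Complex.ofReal_tsum]
    simp only [one_mul]
  simp only [h2]
  refine Tendsto.const_mul _ ?_
  rw [tendsto_iff_norm_sub_tendsto_zero]
  have h3 : Tendsto (fun s : ℝ => C / lo h s) (𝓝[>] h) (𝓝 0) := (tendsto_lo h).const_div_atTop _
  refine squeeze_zero' (Eventually.of_forall fun _ => norm_nonneg _) ?_ h3
  filter_upwards [hC, (tendsto_lo h).eventually_gt_atTop 0] with s h4 h5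
  have hl : (lo h s : ℂ) ≠ 0 := by exact_mod_cast h5.ne'
  have h7 : (R cc (len q) s : ℂ) / (lo h s : ℂ) - (M₀ : ℂ) =
      ((R cc (len q) s - M₀ * lo h s : ℝ) : ℂ) / (lo h s : ℂ) := by
    field_simp
    push_cast
    ring
  rw [h7, norm_div, Complex.norm_real, Complex.norm_real, Real.norm_of_nonneg h5.le]
  exact div_le_div_of_nonneg_right h4 h5.le

end

end Pool.Agent.H506.SP
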