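import Pool.Agent.H506.Sp4
import Pool.Agent.H506.Rt

/-!
# Eigenvalues away from the roots of unity
-/

set_option autoImplicit false

namespace Pool.Agent.H506.SP

open Filter Topology Pool.Agent.H506.PS Pool.Agent.H506.SV Pool.Agent.H506.SR
open Pool.Agent.H506.TR
open Pool.Agent.H506.LW (integ finite_zeros integ_re c_zsmul)

open AddMonoidAlgebra (single)

section

variable {ι : Type} {c l : ι → ℝ} (hc : ∀ a, 0 ≤ c a) (hl : ∀ a, 0 ≤ l a) {σ : ℝ}
  (h : ∀ s : ℝ, σ < s → Conv c l s)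

include hc hl h in
/-- the law of the single eigenvalues -/
theorem law_single {d : ℕ} (y : ι → Fin d → Circle)
    (hall : ∀ k : ℤ, Cont c l σ fun a => ∑ j, (y a j : ℂ) ^ k) :
    ∃ L : List (AddSubgroup (Fin 1 → ℤ) × ((Fin 1 → ℤ) →₀ ℤ)),
      (∀ D ∈ L, ∀ x ∈ ann D.1, (ev D.2 x).im = 0 ∧ 0 ≤ (ev D.2 x).re) ∧
      ∀ f : Circle → ℂ, Continuous f →
        Tendsto (fun s : ℝ => E (Wt c l) (lo σ) s fun a => ∑ j, f (y a j)) (𝓝[>] σ)
          (𝓝 (integ L fun x => f (x 0))) := by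
  classical
  have hconv' : ∀ s : ℝ, σ < s → Conv (fun x : ι × Fin d => c x.1) (fun x => l x.1) s := by
    intro s hs
    refine (summable_prod_of_nonneg fun x => mul_nonneg (hc _) (Real.exp_nonneg _)).mpr
      ⟨fun v => ?_, ?_⟩
    · exact Summable.of_finite
    · simp only [tsum_fintype, Finset.sum_const, Finset.card_univ, Fintype.card_fin, nsmul_eq_mul]
      exact (h s hs).mul_left _
  have hprod : ∀ (g : Circle → ℂ) (B : ℝ), (∀ x, ‖g x‖ ≤ B) → ∀ s : ℂ, σ < s.re →
      Q (fun x : ι × Fin d => c x.1) (fun x => l x.1) (fun x => g (y x.1 x.2)) s =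
      Q c l (fun a => ∑ j, g (y a j)) s := by
    intro g B hg s hs
    have h1 := summable_Q (fun x : ι × Fin d => hc x.1) (g := fun x : ι × Fin d => g (y x.1 x.2))
      (B := B) (fun x => hg _) (hconv' s.re hs)
    unfold Q
    rw [h1.tsum_prod' fun v => Summable.of_finite]
    refine tsum_congr fun v => ?_
    rw [tsum_fintype, Finset.sum_mul]
  have hcont : ∀ k : ℤ, Cont (fun x : ι × Fin d => c x.1) (fun x => l x.1) σ
      fun x => (y x.1 x.2 : ℂ) ^ k := by
    intro k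
    obtain ⟨F, hF, hFs⟩ := hall k
    refine ⟨F, hF, ?_⟩
    filter_upwards [hFs, self_mem_nhdsWithin] with s hs hs1
    rw [hs]
    congr 1
    exact (hprod (fun x => (x : ℂ) ^ k) 1 (fun x => by rw [norm_zpow, Circle.norm_coe, one_zpow]) s
      (by simpa using hs1)).symm
  have hso : ∀ F : (Fin 1 → Circle) → ℂ, so (fun (x : ι × Fin d) (_ : Fin 1) => y x.1 x.2) F =
      fun x => F fun _ => y x.1 x.2 := by
    intro F
    funext v
    unfold so
    rw [Fintype.sum_subsingleton _ (1 : Equiv.Perm (Fin 1))]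
  obtain ⟨L, hL, hlim⟩ := law (d := 1) (y := fun (x : ι × Fin d) (_ : Fin 1) => y x.1 x.2)
    (c := fun x : ι × Fin d => c x.1) (l := fun x => l x.1) (fun x => hc x.1) (fun x => hl x.1)
    hconv' fun k => by
      rw [hso]
      have h1 : (fun x : ι × Fin d => ((mon k fun _ => y x.1 x.2 : Circle) : ℂ)) =
          fun x => (y x.1 x.2 : ℂ) ^ (k 0) := by
        funext a
        unfold mon
        rw [Fin.prod_univ_one, Circle.coe_zpow]
      rw [h1]
      exact hcont (k 0)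
  refine ⟨L, hL, fun f hf => ?_⟩
  have h1 := hlim (fun x => f (x 0)) (hf.comp (continuous_apply 0))
  rw [hso] at h1
  obtain ⟨B, hB⟩ := (isCompact_univ (X := Circle)).exists_bound_of_continuousOn hf.continuousOn
  refine h1.congr' ?_
  filter_upwards [self_mem_nhdsWithin] with s hs
  unfold E
  congr 1
  rw [← Q_ofReal, ← Q_ofReal]
  exact hprod f B (fun x => hB x trivial) s (by simpa using hs)

end

section

/-- lower bound for the trace -/
theorem norm_sum_sub_one {d : ℕ} {w : Fin d → ℂ} (hw : ∀ j, ‖w j‖ = 1) :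
    (∑ j, ‖w j - 1‖ ^ 2) / 2 ≤ ‖∑ j, (w j - 1)‖ := by
  have h1 : ∀ j, ‖w j - 1‖ ^ 2 / 2 = 1 - (w j).re := by
    intro j
    have h2 : ‖w j‖ ^ 2 = (w j).re ^ 2 + (w j).im ^ 2 := by
      rw [← Complex.normSq_eq_norm_sq, Complex.normSq_apply]; ring
    rw [← Complex.normSq_eq_norm_sq, Complex.normSq_apply]
    rw [hw j] at h2
    simp only [Complex.sub_re, Complex.one_re, Complex.sub_im, Complex.one_im]
    linarith
  rw [Finset.sum_div]
  simp only [h1]
  have h3 : ∑ j, (1 - (w j).re) = -(∑ j, (w j - 1)).re := by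
    rw [Complex.re_sum, ← Finset.sum_neg_distrib]
    exact Finset.sum_congr rfl fun j _ => by simp
  rw [h3]
  exact (neg_le_abs _).trans (Complex.abs_re_le_norm _)

variable {V M : Type} [AddCommGroup M]

variable {q : V → ℝ} (hq : ∀ v, 2 ≤ q v) (hsum : ∀ s : ℝ, 1 < s → Summable fun v => q v ^ (-s))
  {c : V → M → Circle} (hc0 : ∀ v, c v 0 = 1) (hcadd : ∀ v k l, c v (k + l) = c v k * c v l)

/-- the weights of `ψ^N ρ - d` -/
def ww {d : ℕ} (N : ℕ) (ρ : Fin d → M) : Fin d ⊕ Unit → M := Sum.elim (fun j => N • ρ j) fun _ => 0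

theorem theta_mem {d : ℕ} (N : ℕ) (ρ : Fin d → M) : theta (mm d) (ww N ρ) ∈ ring ρ := by
  have h1 : theta (mm d) (ww N ρ) = (∑ x, single (ww N ρ x) (mm d x)) *
      (∑ x, single (-ww N ρ x) (mm d x)) := by
    unfold theta
    rw [Finset.sum_mul_sum, Fintype.sum_prod_type]
    refine Finset.sum_congr rfl fun x _ => Finset.sum_congr rfl fun y _ => ?_
    rw [AddMonoidAlgebra.single_mul_single, sub_eq_add_neg]
  have h2 : (∑ x, single (ww N ρ x) (mm d x)) = ∑ j, single ((N : ℤ) • ρ j) (1 : ℤ) -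
      (d : AddMonoidAlgebra ℤ M) := by
    rw [Fintype.sum_sum_type, sub_eq_add_neg]
    congr 1
    · refine Finset.sum_congr rfl fun j _ => ?_
      simp [ww, mm]
    · simp only [ww, mm, Sum.elim_inr, Finset.univ_unique, Finset.sum_singleton]
      rw [AddMonoidAlgebra.natCast_def, AddMonoidAlgebra.single_neg]
  have h3 : (∑ x, single (-ww N ρ x) (mm d x)) = ∑ j, single ((-(N : ℤ)) • ρ j) (1 : ℤ) -
      (d : AddMonoidAlgebra ℤ M) := by
    rw [Fintype.sum_sum_type, sub_eq_add_neg]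
    congr 1
    · refine Finset.sum_congr rfl fun j _ => ?_
      simp [ww, mm]
    · simp only [ww, mm, Sum.elim_inr, Finset.univ_unique, Finset.sum_singleton, neg_zero]
      rw [AddMonoidAlgebra.natCast_def, AddMonoidAlgebra.single_neg]
  rw [h1, h2, h3]
  exact (ring ρ).mul_mem ((ring ρ).sub_mem (psum_mem_ring ρ _) (natCast_mem _ d))
    ((ring ρ).sub_mem (psum_mem_ring ρ _) (natCast_mem _ d))

include hc0 hcadd in
theorem ww_eq {d : ℕ} (N : ℕ) (ρ : Fin d → M) : (fun v j => (c v (ww N ρ j) : ℂ)) =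
    zz N fun v j => (c v (ρ j) : ℂ) := by
  funext v j
  rcases j with j | j
  · simp only [ww, zz, Sum.elim_inl]
    rw [← natCast_zsmul, c_zsmul hc0 hcadd, zpow_natCast, Circle.coe_pow]
  · simp only [ww, zz, Sum.elim_inr, hc0, Circle.coe_one]

include hq hsum hc0 hcadd in
/-- **Eigenvalues away from the roots of unity.** -/
theorem near_roots {d : ℕ} (ρ : Fin d → M) {K : Set Circle} (hK : IsClosed K)
    (hKa : ∀ z : Circle, IsOfFinOrder z → ¬ AccPt z (𝓟 K)) {W : Set V}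
    (hW : ∀ s : ℝ, 0 < s → Conv (ind0 W) (len q) s) (hKW : ∀ v, v ∉ W → ∀ j, c v (ρ j) ∈ K)
    (hG : ∀ ξ ∈ ring ρ, Good q (fun v k => (c v k : ℂ)) ξ) :
    ∃ N : ℕ, 1 ≤ N ∧ {v | ∃ j, c v (ρ j) ^ N ≠ 1}.Finite := by
  classical
  have hcount : Countable V := countable_of_sum hq hsum
  have hnt : Nontrivial Circle := ⟨⟨1, -1, fun h => by
    have h3 := congrArg (fun x : Circle => (x : ℂ)) h
    simp only [Circle.coe_one, Circle.coe_neg] at h3
    norm_num at h3⟩⟩
  -- the complement of `K`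
  have hUne : (Kᶜ).Nonempty := by
    rw [Set.nonempty_compl]
    intro hKu
    refine hKa 1 IsOfFinOrder.one ?_
    rw [hKu, principal_univ]
    have h1 : (𝓝[≠] (1 : Circle)).NeBot := inferInstance
    unfold AccPt
    rwa [inf_top_eq]
  obtain ⟨N, hN, hNconj⟩ := RT.exists_N hK.isOpen_compl hUne
  -- the points of `K` which are not `N`-torsion
  obtain ⟨ε, hε, hεK⟩ : ∃ ε : ℝ, 0 < ε ∧ ∀ x ∈ K, x ^ N ≠ 1 → ε ≤ ‖(x : ℂ) ^ N - 1‖ := by
    set K' : Set Circle := K ∩ {x | x ^ N ≠ 1} with hK'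
    have hK'c : IsClosed K' := by
      rw [← closure_subset_iff_isClosed]
      intro x hx
      have hxK : x ∈ K := by
        have := closure_mono (Set.inter_subset_left (s := K) (t := {x : Circle | x ^ N ≠ 1})) hx
        rwa [hK.closure_eq] at this
      refine ⟨hxK, fun hxN => ?_⟩
      refine hKa x (isOfFinOrder_iff_pow_eq_one.mpr ⟨N, hN, hxN⟩) ?_
      rw [accPt_iff_nhds]
      intro U hU
      obtain ⟨y, hyU, hyK'⟩ := mem_closure_iff_nhds.mp hx U hU
      refine ⟨y, ⟨hyU, hyK'.1⟩, fun h => hyK'.2 ?_⟩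
      rw [h]
      exact hxN
    by_cases hne : K'.Nonempty
    · obtain ⟨x₁, hx₁, hmin⟩ := hK'c.isCompact.exists_isMinOn hne
        (f := fun x : Circle => ‖(x : ℂ) ^ N - 1‖) (by
          refine Continuous.continuousOn (Continuous.norm ?_)
          exact (continuous_subtype_val.pow N).sub continuous_const)
      refine ⟨‖(x₁ : ℂ) ^ N - 1‖, norm_pos_iff.mpr fun h0 => hx₁.2 ?_, fun x hx hxN => hmin ⟨hx, hxN⟩⟩
      rw [sub_eq_zero] at h0
      exact Circle.ext (by rw [Circle.coe_pow, h0, Circle.coe_one])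
    · refine ⟨1, one_pos, fun x hx hxN => ?_⟩
      exact absurd ⟨x, hx, hxN⟩ hne
  -- the weights
  set z : V → Fin d → ℂ := fun v j => (c v (ρ j) : ℂ) with hz
  have hz1 : ∀ v j, ‖z v j‖ = 1 := fun v j => Circle.norm_coe _
  have hweq : (fun v j => (c v (ww N ρ j) : ℂ)) = zz N z := ww_eq hc0 hcadd N ρ
  set cc := cf (asq (mm d) (zz N z)) 1 Set.univ with hcc
  have hcc0 : ∀ a, 0 ≤ cc a := cf_nonneg (asq_nonneg _ _) 1 _
  have hl := len_nonneg hq
  set B : ℝ := (2 * d : ℝ) ^ 2 with hB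
  have hB0 : 0 ≤ B := by positivity
  have hccB : ∀ a, cc a ≤ B := by
    intro a
    rw [hcc]
    unfold cf
    rw [if_pos (Set.mem_univ _), pow_one]
    refine (div_le_self (asq_nonneg _ _ _ _) ?_).trans (asq_zz_le N hz1 _ _)
    have : (0 : ℝ) ≤ a.2 := Nat.cast_nonneg _
    linarith
  have hccv : ∀ v r, cc (v, r) = ‖∑ j, (z v j ^ (N * (r + 1)) - 1)‖ ^ 2 / (r + 1) := by
    intro v r
    rw [hcc]
    unfold cf
    rw [if_pos (Set.mem_univ _), pow_one]
    unfold asq
    rw [ps_zz]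
  set Ex : Set V := {v | v ∉ W ∧ ∃ j, c v (ρ j) ^ N ≠ 1} with hEx
  have hoff : ∀ v r, v ∉ W → v ∉ Ex → cc (v, r) = 0 := by
    intro v r hvW hv
    have h1 : ∀ j, c v (ρ j) ^ N = 1 := by
      intro j
      by_contra hcon
      exact hv ⟨hvW, j, hcon⟩
    rw [hccv, Finset.sum_eq_zero]
    · simp
    · intro j _
      have h2 : z v j ^ N = 1 := by
        rw [hz]
        simp only
        rw [← Circle.coe_pow, h1, Circle.coe_one]
      rw [pow_mul, h2, one_pow, sub_self]
  -- lower bound on the exceptional set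
  have hlowE : ∀ v ∈ Ex, ε ^ 2 ≤ ∑ j, ‖z v j ^ N - 1‖ ^ 2 := by
    rintro v ⟨hvW, j, hj⟩
    refine le_trans ?_ (Finset.single_le_sum (f := fun j => ‖z v j ^ N - 1‖ ^ 2)
      (fun j _ => sq_nonneg _) (Finset.mem_univ j))
    exact pow_le_pow_left₀ hε.le (hεK _ (hKW v hvW j) hj) 2
  have hlowcc : ∀ v ∈ Ex, (ε ^ 2 / 2) ^ 2 ≤ cc (v, 0) := by
    intro v hv
    rw [hccv]
    have h1 := norm_sum_sub_one (w := fun j => z v j ^ (N * (0 + 1))) (fun j => by
      rw [norm_pow, hz1, one_pow])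
    have h2 := hlowE v hv
    simp only [zero_add, mul_one, Nat.cast_zero, div_one] at h1 ⊢
    refine pow_le_pow_left₀ (by positivity) ?_ 2
    linarith
  have hring : ∀ ξ ∈ ring ρ, Good q (fun v k => (c v k : ℂ)) (theta (mm d) (ww N ρ) * ξ) :=
    fun ξ hξ => hG _ ((ring ρ).mul_mem (theta_mem N ρ) hξ)
  have hPQ : ∀ s : ℂ, P cc (len q) s = Q cc (len q) (gx c 1) s := by
    intro s
    unfold P Q
    refine tsum_congr fun a => ?_
    have h1 : gx c (1 : AddMonoidAlgebra ℤ M) a = 1 := by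
      unfold gx
      rw [AddMonoidAlgebra.one_def, lg_single]
      unfold pc
      rw [hc0, one_pow, Circle.coe_one, Int.cast_one, one_mul]
    rw [h1, one_mul]
  refine ⟨N, hN, ?_⟩
  rcases exists_abscissa hq hsum hcc0 hccB with hall | ⟨h, hh0, hh1, hconv, hnot⟩
  · -- convergence for all positive `s`
    obtain ⟨X, hX, F, hF, s₀, hs₀⟩ := hring 1 (ring ρ).one_mem
    have h2 := finite_of_conv hq hsum (mm d) (norm_zz N hz1) hX hF ⟨max s₀ 1, fun s hs => by
      have h3 := Q_gx hq hsum hcadd (mm d) (ww N ρ) (lt_of_le_of_lt (le_max_right _ _) hs) 1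
      rw [hweq] at h3
      rw [hs₀ s (lt_of_le_of_lt (le_max_left _ _) hs), h3, ← hcc, hPQ]⟩ hall
    refine h2.subset fun v hv => ⟨0, ?_⟩
    unfold asq
    rw [ps_zz]
    refine (pow_pos (norm_pos_iff.mpr (sum_ne_zero (w := fun j => z v j ^ (N * (0 + 1)))
      (fun j => by rw [norm_pow, hz1, one_pow]) ?_)) 2).ne'
    obtain ⟨j, hj⟩ := hv
    refine ⟨j, fun h0 => hj (Circle.ext ?_)⟩
    rw [Circle.coe_pow, Circle.coe_one]
    simpa using h0
  exfalso
  -- convergence of the auxiliary sums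
  have hc1 : 0 < (ε ^ 2 / 2) ^ 2 := by positivity
  have hEconv : ∀ s : ℝ, h < s → Conv (ind0 Ex) (len q) s := by
    intro s hs
    have h2 : Conv (fun a => (ε ^ 2 / 2) ^ 2 * ind0 Ex a) (len q) s := by
      refine Conv.of_le (fun a => mul_nonneg hc1.le (ind0_nonneg Ex a)) (fun a => ?_) (hconv s hs)
      obtain ⟨v, r⟩ := a
      by_cases hv : v ∈ Ex ∧ r = 0
      · obtain ⟨hv, rfl⟩ := hv
        have h1 : ind0 Ex (v, 0) = 1 := if_pos ⟨hv, rfl⟩
        rw [h1, mul_one]
        exact hlowcc v hv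
      · have h1 : ind0 Ex (v, r) = 0 := if_neg hv
        rw [h1, mul_zero]
        exact hcc0 _
    have h4 := (R_lin (q := q) (1 / (ε ^ 2 / 2) ^ 2) 0 h2 h2).1
    unfold Conv at h4 ⊢
    refine h4.congr fun a => ?_
    field_simp
    ring
  have hE1 : Conv (ind Ex 1) (len q) h := by
    refine conv_ind hq hh0 (hEconv _ ?_)
    push_cast
    linarith
  have hWh : Conv (ind W 0) (len q) h := by
    refine conv_ind hq hh0 ?_
    simpa using hW h hh0
  -- the small part
  set sm : V × ℕ → ℝ := fun a => B * ind Ex 1 a + B * ind W 0 a with hsm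
  have hsm0 : ∀ a, 0 ≤ sm a := fun a =>
    add_nonneg (mul_nonneg hB0 (ind_nonneg _ _ _)) (mul_nonneg hB0 (ind_nonneg _ _ _))
  have hsmc : Conv sm (len q) h := (R_lin B B hE1 hWh).1
  have hsms : ∀ s : ℝ, h < s → Conv sm (len q) s ∧ R sm (len q) s ≤ R sm (len q) h := by
    intro s hs
    have h1 := Conv.mono hsm0 hl hsmc hs.le
    refine ⟨h1, h1.tsum_le_tsum (fun a => ?_) hsmc⟩
    refine mul_le_mul_of_nonneg_left (Real.exp_le_exp.mpr ?_) (hsm0 a)
    have := mul_le_mul_of_nonneg_left hs.le (hl a)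
    linarith
  have hccsm : ∀ v r, (v ∈ W ∨ 1 ≤ r) → cc (v, r) ≤ sm (v, r) := by
    intro v r hvr
    rw [hsm]
    simp only
    have i1 := ind_nonneg Ex 1 (v, r)
    have i2 := ind_nonneg W 0 (v, r)
    by_cases hvW : v ∈ W
    · have h9 : ind W 0 (v, r) = 1 := if_pos ⟨hvW, Nat.zero_le r⟩
      rw [h9, mul_one]
      have := hccB (v, r)
      have := mul_nonneg hB0 i1
      linarith
    · by_cases hv : v ∈ Ex
      · have hr : 1 ≤ r := hvr.resolve_left hvW
        have h9 : ind Ex 1 (v, r) = 1 := if_pos ⟨hv, hr⟩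
        rw [h9, mul_one]
        have := hccB (v, r)
        have := mul_nonneg hB0 i2
        linarith
      · rw [hoff v r hvW hv]
        positivity
  -- the law
  obtain ⟨L, hL, hlim⟩ := law_single hcc0 hl hconv (fun a j => pc c a (ρ j)) fun k => by
    rw [← gx_psum hc0 hcadd]
    have h3 := cont_of_good hq hsum hcadd (mm d) (ww N ρ) hh0.le (by rw [hweq]; exact hconv)
      (hring _ (psum_mem_ring ρ k))
    rwa [hweq] at h3
  -- the functions which vanish on `K`
  have hvan : ∀ f : Circle → ℝ, Continuous f → (∀ x, 0 ≤ f x ∧ f x ≤ 1) → (∀ x ∈ K, f x = 0) →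
      ∀ D ∈ L, ∀ x ∈ ann D.1, ev D.2 x ≠ 0 → f (x 0) = 0 := by
    intro f hfc hf01 hfK D hD x hx hev
    by_contra hne
    have hpos := (integ_re L hL (g := fun x => f (x 0)) (hfc.comp (continuous_apply 0))
      fun x => (hf01 _).1).2 ⟨D, hD, x, hx, hev, hne⟩
    have h1 := (Complex.continuous_re.tendsto _).comp
      (hlim (fun x => (f x : ℂ)) (Complex.continuous_ofReal.comp hfc))
    have h2 : Tendsto (fun s : ℝ => (d * R sm (len q) h) / lo h s) (𝓝[>] h) (𝓝 0) :=
      (tendsto_lo h).const_div_atTop _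
    have h3 : (integ L fun x => ((f (x 0) : ℝ) : ℂ)).re ≤ 0 := by
      refine le_of_tendsto_of_tendsto h1 h2 ?_
      filter_upwards [self_mem_nhdsWithin, (tendsto_lo h).eventually_gt_atTop 0] with s hs hlo
      have hs' : h < s := hs
      simp only [Function.comp_apply]
      unfold E
      have h4 : (∑' a, (∑ j, (f (pc c a (ρ j)) : ℂ)) * ((Wt cc (len q) s a : ℝ) : ℂ)) =
          ((∑' a, (∑ j, f (pc c a (ρ j))) * Wt cc (len q) s a : ℝ) : ℂ) := by
        rw [Complex.ofReal_tsum]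
        refine tsum_congr fun a => ?_
        push_cast
        rfl
      rw [h4, ← Complex.ofReal_div, Complex.ofReal_re]
      refine div_le_div_of_nonneg_right ?_ hlo.le
      obtain ⟨h5, h6⟩ := hsms s hs'
      refine le_trans ?_ (mul_le_mul_of_nonneg_left h6 (Nat.cast_nonneg d))
      have hterm : ∀ a, (∑ j, f (pc c a (ρ j))) * Wt cc (len q) s a ≤
          d * (sm a * Real.exp (-(len q a * s))) := by
        rintro ⟨v, r⟩
        have hfd : ∑ j, f (pc c (v, r) (ρ j)) ≤ d := by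
          refine (Finset.sum_le_card_nsmul _ _ 1 fun j _ => (hf01 _).2).trans (le_of_eq ?_)
          rw [Finset.card_univ, Fintype.card_fin, nsmul_eq_mul, mul_one]
        have hf0 : 0 ≤ ∑ j, f (pc c (v, r) (ρ j)) := Finset.sum_nonneg fun j _ => (hf01 _).1
        unfold Wt
        by_cases hvr : v ∈ W ∨ 1 ≤ r
        · refine mul_le_mul hfd (mul_le_mul_of_nonneg_right (hccsm v r hvr) (Real.exp_nonneg _))
            (mul_nonneg (hcc0 _) (Real.exp_nonneg _)) (Nat.cast_nonneg d)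
        · push Not at hvr
          have hr : r = 0 := by omega
          subst hr
          have h7 : ∑ j, f (pc c (v, 0) (ρ j)) = 0 := by
            refine Finset.sum_eq_zero fun j _ => hfK _ ?_
            unfold pc
            simp only [zero_add, pow_one]
            exact hKW v hvr.1 j
          rw [h7, zero_mul]
          exact mul_nonneg (Nat.cast_nonneg d) (mul_nonneg (hsm0 _) (Real.exp_nonneg _))
      unfold R
      rw [← tsum_mul_left]
      refine Summable.tsum_le_tsum hterm ?_ (h5.mul_left _)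
      refine Summable.of_nonneg_of_le (fun a => mul_nonneg
        (Finset.sum_nonneg fun j _ => (hf01 _).1) (Wt_nonneg hcc0 _ _ _)) hterm (h5.mul_left _)
    linarith
  -- the law is concentrated on `K`
  have hconc : ∀ D ∈ L, ∀ x ∈ ann D.1, ev D.2 x ≠ 0 → x 0 ∈ K := by
    intro D hD x hx hev
    by_contra hxK
    obtain ⟨f, hf0, hf1, hf01⟩ := exists_continuous_zero_one_of_isClosed hK
      (isClosed_singleton (x := x 0)) (by
        rw [Set.disjoint_singleton_right]
        exact hxK)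
    have h1 := hvan f f.continuous (fun x => ⟨(hf01 x).1, (hf01 x).2⟩) (fun x hx => hf0 hx) D hD x
      hx hev
    have h2 : f (x 0) = 1 := hf1 (Set.mem_singleton _)
    rw [h2] at h1
    exact one_ne_zero h1
  -- the law is concentrated on the `N`-torsion
  have htor : ∀ D ∈ L, ∀ x ∈ ann D.1, ev D.2 x ≠ 0 → x 0 ^ N = 1 := by
    intro D hD x hx hev
    have hD2 : D.2 ≠ 0 := by
      intro h0
      apply hev
      rw [h0]
      unfold ev
      simp
    have hD1 : D.1 ≠ ⊥ := by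
      intro hbot
      have hinf : (Kᶜ).Infinite := by
        obtain ⟨x₀, hx₀⟩ := hUne
        have h1 : (𝓝[≠] x₀).NeBot := inferInstance
        exact infinite_of_mem_nhds x₀ (hK.isOpen_compl.mem_nhds hx₀)
      obtain ⟨x₁, hx₁, hx₁'⟩ := hinf.exists_notMem_finite (finite_zeros hD2)
      refine hx₁ (hconc D hD (fun _ => x₁) ?_ hx₁')
      rw [hbot]
      intro γ hγ
      rw [AddSubgroup.mem_bot] at hγ
      rw [hγ, mon_zero]
    obtain ⟨⟨k, hk⟩, hk0⟩ := (AddSubgroup.ne_bot_iff_exists_ne_zero).mp hD1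
    have hk1 : k 0 ≠ 0 := by
      intro h2
      apply hk0
      refine Subtype.ext (funext fun j => ?_)
      rw [Fin.fin_one_eq_zero j]
      exact h2
    have hfin : IsOfFinOrder (x 0) := by
      have h2 : (x 0) ^ (k 0) = 1 := by
        have h3 := hx k hk
        unfold mon at h3
        rwa [Fin.prod_univ_one] at h3
      exact isOfFinOrder_iff_zpow_eq_one.mpr ⟨k 0, hk1, h2⟩
    by_contra hne
    obtain ⟨t, ht, htK⟩ := hNconj (x 0) hfin hne
    have hx0 : x = fun _ => x 0 := by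
      funext j
      rw [Fin.fin_one_eq_zero j]
    have h4 : ev D.2 (x ^ t) ≠ 0 := by
      have h5 : x ^ t = fun _ => (x 0) ^ t := by
        funext j
        rw [Fin.fin_one_eq_zero j]
        rfl
      rw [h5]
      refine RT.ev_conj hfin ht ?_
      rw [← hx0]
      exact hev
    have h5 : (x ^ t) 0 ∈ K := hconc D hD (x ^ t) ((ann D.1).pow_mem hx t) h4
    exact htK h5
  -- the mean value of `|x^N - 1|²` vanishes
  have hmean : Tendsto (fun s : ℝ => E (Wt cc (len q)) (lo h) s fun a =>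
      ∑ j, ((‖(pc c a (ρ j) : ℂ) ^ N - 1‖ ^ 2 : ℝ) : ℂ)) (𝓝[>] h) (𝓝 0) := by
    have hc1 : Continuous fun x : Circle => ((‖(x : ℂ) ^ N - 1‖ ^ 2 : ℝ) : ℂ) := by
      refine Complex.continuous_ofReal.comp (((Continuous.norm ?_)).pow 2)
      exact (continuous_subtype_val.pow N).sub continuous_const
    have h2 := hlim _ hc1
    have h3 : (integ L fun x => ((‖(x 0 : ℂ) ^ N - 1‖ ^ 2 : ℝ) : ℂ)) = 0 := by
      unfold integ
      refine List.sum_eq_zero fun y hy => ?_
      rw [List.mem_map] at hy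
      obtain ⟨D, hD, rfl⟩ := hy
      have h4 : (fun x : ann D.1 => ((‖((x : Fin 1 → Circle) 0 : ℂ) ^ N - 1‖ ^ 2 : ℝ) : ℂ) *
          ev D.2 x) = fun _ => 0 := by
        funext x
        by_cases h5 : ev D.2 (x : Fin 1 → Circle) = 0
        · rw [h5, mul_zero]
        · have h6 := htor D hD x x.2 h5
          have h7 : (((x : Fin 1 → Circle) 0 : ℂ)) ^ N = 1 := by
            rw [← Circle.coe_pow, h6, Circle.coe_one]
          rw [h7]
          simp
      rw [h4, haarInt_const]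
    rw [h3] at h2
    exact h2
  -- the pole
  obtain ⟨F, hF, hFs⟩ := cont_of_good hq hsum hcadd (mm d) (ww N ρ) hh0.le
    (by rw [hweq]; exact hconv) (hring 1 (ring ρ).one_mem)
  rw [hweq] at hFs
  obtain ⟨M₀, ⟨C, hC⟩, hM₀⟩ := pole hcc0 hl hconv hF (by
    filter_upwards [hFs] with s hs
    rw [hs, hPQ])
  have hM1 : 1 ≤ M₀ := by
    by_contra hcon
    obtain ⟨s, hs, hs'⟩ := hM₀ (by omega)
    exact hnot s hs hs'
  have hM1' : (1 : ℝ) ≤ M₀ := by exact_mod_cast hM1
  -- the final estimate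
  have hre := (Complex.continuous_re.tendsto _).comp hmean
  rw [Complex.zero_re] at hre
  have hlim1 : Tendsto (fun s : ℝ => 1 / ε ^ 2 * (E (Wt cc (len q)) (lo h) s fun a =>
      ∑ j, ((‖(pc c a (ρ j) : ℂ) ^ N - 1‖ ^ 2 : ℝ) : ℂ)).re + R sm (len q) h / lo h s + C / lo h s)
      (𝓝[>] h) (𝓝 0) := by
    have h1 := ((hre.const_mul (1 / ε ^ 2)).add
      ((tendsto_lo h).const_div_atTop (R sm (len q) h))).add ((tendsto_lo h).const_div_atTop C)
    simpa using h1
  obtain ⟨s, e1, e2, e3, e4⟩ := ((hlim1.eventually (gt_mem_nhds one_pos)).and (hC.and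
    (((tendsto_lo h).eventually_gt_atTop 0).and self_mem_nhdsWithin))).exists
  have hs : h < s := e4
  obtain ⟨h5, h6⟩ := hsms s hs
  have h7 : (E (Wt cc (len q)) (lo h) s fun a =>
      ∑ j, ((‖(pc c a (ρ j) : ℂ) ^ N - 1‖ ^ 2 : ℝ) : ℂ)).re =
      (∑' a, (∑ j, ‖(pc c a (ρ j) : ℂ) ^ N - 1‖ ^ 2) * Wt cc (len q) s a) / lo h s := by
    unfold E
    have h4 : (∑' a, (∑ j, ((‖(pc c a (ρ j) : ℂ) ^ N - 1‖ ^ 2 : ℝ) : ℂ)) *
        ((Wt cc (len q) s a : ℝ) : ℂ)) =
        ((∑' a, (∑ j, ‖(pc c a (ρ j) : ℂ) ^ N - 1‖ ^ 2) * Wt cc (len q) s a : ℝ) : ℂ) := by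
      rw [Complex.ofReal_tsum]
      refine tsum_congr fun a => ?_
      push_cast
      rfl
    rw [h4, ← Complex.ofReal_div, Complex.ofReal_re]
  have hS : Summable fun a => (∑ j, ‖(pc c a (ρ j) : ℂ) ^ N - 1‖ ^ 2) * Wt cc (len q) s a := by
    refine Summable.of_nonneg_of_le (fun a => mul_nonneg (Finset.sum_nonneg fun j _ => sq_nonneg _)
      (Wt_nonneg hcc0 _ _ _)) (fun a => ?_) ((hconv s hs).mul_left (d * 4 : ℝ))
    refine mul_le_mul_of_nonneg_right ?_ (Wt_nonneg hcc0 _ _ _)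
    refine (Finset.sum_le_card_nsmul _ _ 4 fun j _ => ?_).trans (le_of_eq ?_)
    · have h1 : ‖(pc c a (ρ j) : ℂ) ^ N - 1‖ ≤ 2 := by
        refine (norm_sub_le _ _).trans ?_
        rw [norm_pow, Circle.norm_coe, one_pow, norm_one]
        norm_num
      calc ‖(pc c a (ρ j) : ℂ) ^ N - 1‖ ^ 2 ≤ 2 ^ 2 := pow_le_pow_left₀ (norm_nonneg _) h1 2
        _ = 4 := by norm_num
    · rw [Finset.card_univ, Fintype.card_fin, nsmul_eq_mul]
  have h8 : R cc (len q) s ≤ 1 / ε ^ 2 *
      (∑' a, (∑ j, ‖(pc c a (ρ j) : ℂ) ^ N - 1‖ ^ 2) * Wt cc (len q) s a) + R sm (len q) s := by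
    unfold R
    rw [← tsum_mul_left, ← (hS.mul_left (1 / ε ^ 2)).tsum_add h5]
    refine (hconv s hs).tsum_le_tsum ?_ ((hS.mul_left (1 / ε ^ 2)).add h5)
    rintro ⟨v, r⟩
    have p1 : 0 ≤ 1 / ε ^ 2 * ((∑ j, ‖(pc c (v, r) (ρ j) : ℂ) ^ N - 1‖ ^ 2) *
        Wt cc (len q) s (v, r)) := by
      refine mul_nonneg (by positivity) (mul_nonneg (Finset.sum_nonneg fun j _ => sq_nonneg _)
        (Wt_nonneg hcc0 _ _ _))
    have p2 : 0 ≤ sm (v, r) * Real.exp (-(len q (v, r) * s)) :=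
      mul_nonneg (hsm0 _) (Real.exp_nonneg _)
    by_cases hvr : v ∈ W ∨ 1 ≤ r
    · have := mul_le_mul_of_nonneg_right (hccsm v r hvr) (Real.exp_nonneg (-(len q (v, r) * s)))
      linarith
    · push Not at hvr
      have hr : r = 0 := by omega
      subst hr
      by_cases hv : v ∈ Ex
      · have h9 := hlowE v hv
        have h10 : ∑ j, ‖(pc c (v, 0) (ρ j) : ℂ) ^ N - 1‖ ^ 2 = ∑ j, ‖z v j ^ N - 1‖ ^ 2 := by
          refine Finset.sum_congr rfl fun j _ => ?_
          unfold pc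
          simp only [zero_add, pow_one, hz]
        rw [h10]
        have h11 : 1 ≤ 1 / ε ^ 2 * ∑ j, ‖z v j ^ N - 1‖ ^ 2 := by
          rw [one_div, inv_mul_eq_div, le_div_iff₀ (by positivity)]
          linarith
        have h12 : 0 ≤ Wt cc (len q) s (v, 0) := Wt_nonneg hcc0 _ _ _
        have h13 := mul_le_mul_of_nonneg_right h11 h12
        have h14 : cc (v, 0) * Real.exp (-(len q (v, 0) * s)) = Wt cc (len q) s (v, 0) := rfl
        rw [h14]
        rw [one_mul, mul_assoc] at h13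
        linarith
      · rw [hoff v 0 hvr.1 hv, zero_mul]
        linarith
  rw [h7] at e1
  rw [abs_le] at e2
  have h9 : 1 / ε ^ 2 * ((∑' a, (∑ j, ‖(pc c a (ρ j) : ℂ) ^ N - 1‖ ^ 2) * Wt cc (len q) s a) /
      lo h s) + R sm (len q) h / lo h s + C / lo h s =
      (1 / ε ^ 2 * (∑' a, (∑ j, ‖(pc c a (ρ j) : ℂ) ^ N - 1‖ ^ 2) * Wt cc (len q) s a) +
        R sm (len q) h + C) / lo h s := by ring
  rw [h9, div_lt_one e3] at e1
  have h10 : (M₀ : ℝ) * Real.log (1 / (s - h)) = M₀ * lo h s := rfl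
  have h11 : lo h s ≤ M₀ * lo h s := le_mul_of_one_le_left e3.le hM1'
  linarith [e2.1]

end

end Pool.Agent.H506.SP
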