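import Pool.Agent.H506.Local

/-!
# Sums of the `i` largest exponents
-/

set_option autoImplicit false

namespace Pool.Agent.H506.SV

open Filter Topology

/-- the subsets with `i` elements -/
abbrev Sub (d i : ℕ) : Type := {I : Finset (Fin d) // I.card = i}

/-- the sum of the `i` largest of the numbers `x_j` -/
noncomputable def top {d : ℕ} (i : ℕ) (x : Fin d → ℝ) : ℝ := ⨆ I : Sub d i, ∑ j ∈ I.1, x j

variable {d : ℕ}

theorem le_top {i : ℕ} (x : Fin d → ℝ) (I : Sub d i) : ∑ j ∈ I.1, x j ≤ top i x :=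
  le_ciSup (f := fun I : Sub d i => ∑ j ∈ I.1, x j) (Set.finite_range _).bddAbove I

theorem nonempty_sub {i : ℕ} (hi : i ≤ d) : Nonempty (Sub d i) := by
  obtain ⟨I, -, hI⟩ := Finset.exists_subset_card_eq (s := (Finset.univ : Finset (Fin d))) (n := i)
    (by rwa [Finset.card_univ, Fintype.card_fin])
  exact ⟨⟨I, hI⟩⟩

theorem exists_top {i : ℕ} (hi : i ≤ d) (x : Fin d → ℝ) : ∃ I : Sub d i, ∑ j ∈ I.1, x j = top i x := by
  have := nonempty_sub hi
  exact exists_eq_ciSup_of_finite (f := fun I : Sub d i => ∑ j ∈ I.1, x j)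

theorem top_zero (x : Fin d → ℝ) : top 0 x = 0 := by
  obtain ⟨I, hI⟩ := exists_top (Nat.zero_le d) x
  rw [← hI, Finset.card_eq_zero.mp I.2, Finset.sum_empty]

theorem top_full (x : Fin d → ℝ) : top d x = ∑ j, x j := by
  obtain ⟨I, hI⟩ := exists_top le_rfl x
  rw [← hI]
  have : I.1 = Finset.univ := by
    rw [← Finset.card_eq_iff_eq_univ, I.2, Fintype.card_fin]
  rw [this]

theorem le_top_one (x : Fin d → ℝ) (j : Fin d) : x j ≤ top 1 x := by
  have := le_top x (⟨{j}, Finset.card_singleton j⟩ : Sub d 1)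
  simpa using this

/-- the exchange inequality -/
theorem gap {i : ℕ} (x : Fin d → ℝ) {I I₀ : Sub d (i + 1)} (h : I ≠ I₀)
    (h0 : ∑ j ∈ I₀.1, x j = top (i + 1) x) :
    ∑ j ∈ I.1, x j ≤ top (i + 2) x + top i x - top (i + 1) x := by
  classical
  obtain ⟨j, hj, hj'⟩ : ∃ j ∈ I.1, j ∉ I₀.1 := by
    by_contra hcon
    push Not at hcon
    apply h
    apply Subtype.ext
    exact Finset.eq_of_subset_of_card_le hcon (by rw [I.2, I₀.2])
  have h1 := le_top x (⟨insert j I₀.1, by rw [Finset.card_insert_of_notMem hj', I₀.2]⟩ : Sub d (i + 2))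
  have h2 := le_top x (⟨I.1.erase j, by rw [Finset.card_erase_of_mem hj, I.2]; rfl⟩ : Sub d i)
  simp only at h1 h2
  rw [Finset.sum_insert hj'] at h1
  have h3 := Finset.add_sum_erase I.1 x hj
  linarith

theorem exists_gt {i : ℕ} (hi : i ≤ d) {x : Fin d → ℝ} {δ : ℝ} (h : i * δ < top i x) :
    ∃ j, δ < x j := by
  obtain ⟨I, hI⟩ := exists_top hi x
  by_contra hcon
  push Not at hcon
  have h1 := Finset.sum_le_card_nsmul I.1 x δ fun j _ => hcon j
  rw [I.2, nsmul_eq_mul] at h1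
  linarith

theorem abs_top_le {i : ℕ} (hi : i ≤ d) {x : Fin d → ℝ} {κ : ℝ} (h : ∀ j, |x j| ≤ κ) :
    |top i x| ≤ i * κ := by
  obtain ⟨I, hI⟩ := exists_top hi x
  rw [← hI]
  refine (Finset.abs_sum_le_sum_abs _ _).trans ?_
  have h1 := Finset.sum_le_card_nsmul I.1 (fun j => |x j|) κ fun j _ => h j
  rwa [I.2, nsmul_eq_mul] at h1

/-- a sequence `Θ_0 = 0, …, Θ_d = 0` with `Θ_1 > δ` has a point of strict concavity `i` with `Θ_i > i δ` -/
theorem exists_index {Θ : ℕ → ℝ} {δ : ℝ} (hδ : 0 < δ) (hd : 1 ≤ d) (h0 : Θ 0 = 0) (hΘd : Θ d = 0)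
    (h1 : δ < Θ 1) : ∃ i : ℕ, i + 2 ≤ d ∧ ((i + 1 : ℕ) : ℝ) * δ < Θ (i + 1) ∧
      Θ i + Θ (i + 2) < 2 * Θ (i + 1) := by
  classical
  set φ : ℕ → ℝ := fun j => Θ j - j * δ with hφ
  obtain ⟨m, hm, hmax⟩ := Finset.exists_max_image (Finset.range (d + 1)) φ ⟨0, by simp⟩
  set A : Finset ℕ := (Finset.range (d + 1)).filter fun j => φ j = φ m with hA
  have hAne : A.Nonempty := ⟨m, by simp [hA, Finset.mem_range.mp hm]⟩
  set l : ℕ := A.max' hAne with hl
  have hlA : l ∈ A := A.max'_mem hAne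
  have hl1 : l ≤ d ∧ φ l = φ m := by
    have := hlA
    rw [hA, Finset.mem_filter, Finset.mem_range] at this
    exact ⟨by omega, this.2⟩
  have hgt : ∀ j, l < j → j ≤ d → φ j < φ m := by
    intro j hj hjd
    refine lt_of_le_of_ne (hmax j (by simp; omega)) fun heq => ?_
    have : j ∈ A := by rw [hA, Finset.mem_filter, Finset.mem_range]; exact ⟨by omega, heq⟩
    have := A.le_max' j this
    omega
  have hφ1 : φ 1 ≤ φ m := hmax 1 (by simp; omega)
  have hφ1' : 0 < φ 1 := by simp only [hφ]; push_cast; linarith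
  have hl0 : l ≠ 0 := by
    intro h
    have : φ 0 = 0 := by simp [hφ, h0]
    rw [h, this] at hl1
    linarith [hl1.2]
  have hld : l ≠ d := by
    intro h
    have : φ d ≤ 0 := by
      simp only [hφ, hΘd]
      have : (0 : ℝ) ≤ d * δ := by positivity
      linarith
    rw [← h, hl1.2] at this
    linarith
  obtain ⟨i, hi⟩ : ∃ i, l = i + 1 := ⟨l - 1, by omega⟩
  rw [hi] at hl1 hgt hl0 hld
  refine ⟨i, by omega, ?_, ?_⟩
  · have : 0 < φ (i + 1) := by rw [hl1.2]; linarith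
    simp only [hφ] at this
    linarith
  · have e1 : φ i ≤ φ (i + 1) := by rw [hl1.2]; exact hmax i (by simp; omega)
    have e2 : φ (i + 2) < φ (i + 1) := by rw [hl1.2]; exact hgt (i + 2) (by omega) (by omega)
    simp only [hφ] at e1 e2
    push_cast at e1 e2
    linarith

end Pool.Agent.H506.SV
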