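import Pool.Agent.H506.Cohen3

/-!
# Characters of the torus and Haar measures of its closed subgroups
-/

set_option autoImplicit false
set_option linter.style.haveILetI false

namespace Pool.Agent.H506.TR

open Filter Topology MeasureTheory

variable {d : ℕ}

/-- the value of the character `k` at the point `x` of the torus -/
noncomputable def mon (k : Fin d → ℤ) (x : Fin d → Circle) : Circle := ∏ j, x j ^ k j

theorem mon_add (k l : Fin d → ℤ) (x : Fin d → Circle) : mon (k + l) x = mon k x * mon l x := by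
  unfold mon
  rw [← Finset.prod_mul_distrib]
  exact Finset.prod_congr rfl fun j _ => by rw [Pi.add_apply, zpow_add]

theorem mon_zero (x : Fin d → Circle) : mon 0 x = 1 := by
  unfold mon
  simp

theorem mon_neg (k : Fin d → ℤ) (x : Fin d → Circle) : mon (-k) x = (mon k x)⁻¹ := by
  unfold mon
  rw [← Finset.prod_inv_distrib]
  exact Finset.prod_congr rfl fun j _ => by rw [Pi.neg_apply, zpow_neg]

theorem mon_mul (k : Fin d → ℤ) (x y : Fin d → Circle) : mon k (x * y) = mon k x * mon k y := by
  unfold mon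
  rw [← Finset.prod_mul_distrib]
  exact Finset.prod_congr rfl fun j _ => by rw [Pi.mul_apply, mul_zpow]

theorem mon_one (k : Fin d → ℤ) : mon k (1 : Fin d → Circle) = 1 := by
  unfold mon
  simp

theorem mon_inv (k : Fin d → ℤ) (x : Fin d → Circle) : mon k x⁻¹ = (mon k x)⁻¹ := by
  unfold mon
  rw [← Finset.prod_inv_distrib]
  exact Finset.prod_congr rfl fun j _ => by rw [Pi.inv_apply, inv_zpow]

theorem continuous_mon (k : Fin d → ℤ) : Continuous (mon k) := by
  unfold mon
  exact continuous_finsetProd _ fun j _ => (continuous_apply j).zpow _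

theorem continuous_mon' (k : Fin d → ℤ) : Continuous fun x : Fin d → Circle => (mon k x : ℂ) :=
  continuous_subtype_val.comp (continuous_mon k)

/-- trigonometric polynomials -/
noncomputable def tp (c : (Fin d → ℤ) →₀ ℂ) (x : Fin d → Circle) : ℂ := c.sum fun k a => a * mon k x

theorem continuous_tp (c : (Fin d → ℤ) →₀ ℂ) : Continuous (tp c) := by
  unfold tp Finsupp.sum
  exact continuous_finsetSum _ fun k _ => continuous_const.mul (continuous_mon' k)

/-- Weierstrass approximation -/
theorem approx (f : C(Fin d → Circle, ℂ)) {ε : ℝ} (hε : 0 < ε) :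
    ∃ c : (Fin d → ℤ) →₀ ℂ, ∀ x, ‖f x - tp c x‖ < ε := by
  set φ : UnitAddTorus (Fin d) → (Fin d → Circle) := fun y j => AddCircle.toCircle (y j) with hφ
  have hφc : Continuous φ := continuous_pi fun j =>
    AddCircle.continuous_toCircle.comp (continuous_apply j)
  have hmem : (f.comp ⟨φ, hφc⟩) ∈ (Submodule.span ℂ
      (Set.range (UnitAddTorus.mFourier (d := Fin d)))).topologicalClosure := by
    rw [UnitAddTorus.span_mFourier_closure_eq_top]
    trivial
  rw [← SetLike.mem_coe, Submodule.topologicalClosure_coe, Metric.mem_closure_iff] at hmem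
  obtain ⟨g, hg, hdist⟩ := hmem ε hε
  rw [SetLike.mem_coe, Finsupp.mem_span_range_iff_exists_finsupp] at hg
  obtain ⟨c, rfl⟩ := hg
  refine ⟨c, fun x => ?_⟩
  set y : UnitAddTorus (Fin d) := fun j => (AddCircle.homeomorphCircle one_ne_zero).symm (x j) with hy
  have hxy : φ y = x := by
    funext j
    rw [hφ, hy]
    simp only
    rw [← AddCircle.homeomorphCircle_apply one_ne_zero, Homeomorph.apply_symm_apply]
  rw [dist_eq_norm] at hdist
  have h1 := (ContinuousMap.norm_coe_le_norm _ y).trans_lt hdist
  have h2 : (f.comp ⟨φ, hφc⟩ - c.sum fun i a => a • UnitAddTorus.mFourier i) y = f x - tp c x := by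
    rw [ContinuousMap.sub_apply, ContinuousMap.comp_apply]
    congr 1
    · change f (φ y) = f x
      rw [hxy]
    · unfold tp Finsupp.sum
      rw [ContinuousMap.sum_apply]
      refine Finset.sum_congr rfl fun k _ => ?_
      rw [ContinuousMap.smul_apply, smul_eq_mul]
      congr 1
      rw [← hxy]
      unfold mon UnitAddTorus.mFourier
      simp only [ContinuousMap.coe_mk, fourier_apply, hφ]
      refine Eq.trans ?_ (map_prod Circle.coeHom _ _).symm
      refine Finset.prod_congr rfl fun j _ => ?_
      rw [AddCircle.toCircle_zsmul]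
      rfl
  rwa [h2] at h1

/-- the annihilator of a group of characters -/
def ann (Γ : AddSubgroup (Fin d → ℤ)) : Subgroup (Fin d → Circle) where
  carrier := {x | ∀ γ ∈ Γ, mon γ x = 1}
  mul_mem' := by
    intro x y hx hy γ hγ
    rw [mon_mul, hx γ hγ, hy γ hγ, one_mul]
  one_mem' := fun γ _ => mon_one γ
  inv_mem' := by
    intro x hx γ hγ
    rw [mon_inv, hx γ hγ, inv_one]

theorem ann_closed (Γ : AddSubgroup (Fin d → ℤ)) : IsClosed (ann Γ : Set (Fin d → Circle)) := by
  have h1 : (ann Γ : Set (Fin d → Circle)) = ⋂ γ ∈ Γ, {x | mon γ x = 1} := by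
    ext x
    simp only [Set.mem_iInter, Set.mem_ofPred_eq]
    rfl
  rw [h1]
  exact isClosed_biInter fun γ _ => isClosed_eq (continuous_mon γ) continuous_const

/-- duality -/
theorem exists_ann {Γ : AddSubgroup (Fin d → ℤ)} {k : Fin d → ℤ} (hk : k ∉ Γ) :
    ∃ x ∈ ann Γ, mon k x ≠ 1 := by
  have h1 : ((k : Fin d → ℤ) : (Fin d → ℤ) ⧸ Γ) ≠ 0 := by
    rwa [Ne, QuotientAddGroup.eq_zero_iff]
  obtain ⟨χ, hχ⟩ := CharacterModule.exists_character_apply_ne_zero_of_ne_zero h1
  -- the map from `ℚ / ℤ` to the circle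
  set ψ : AddCircle (1 : ℚ) →+ UnitAddCircle :=
    QuotientAddGroup.map _ _ (Rat.castHom ℝ).toAddMonoidHom (by
      intro x hx
      rw [AddSubgroup.mem_zmultiples_iff] at hx
      obtain ⟨n, rfl⟩ := hx
      rw [AddSubgroup.mem_comap, AddSubgroup.mem_zmultiples_iff]
      exact ⟨n, by simp⟩) with hψ
  have hinj : ∀ t : AddCircle (1 : ℚ), ψ t = 0 → t = 0 := by
    intro t
    induction t using QuotientAddGroup.induction_on with
    | H r =>
      intro h
      rw [hψ, QuotientAddGroup.map_mk, QuotientAddGroup.eq_zero_iff,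
        AddSubgroup.mem_zmultiples_iff] at h
      obtain ⟨n, hn⟩ := h
      rw [QuotientAddGroup.eq_zero_iff, AddSubgroup.mem_zmultiples_iff]
      refine ⟨n, ?_⟩
      have h2 : ((n : ℚ) : ℝ) = (r : ℝ) := by
        simpa using hn
      have h3 : (n : ℚ) = r := by exact_mod_cast h2
      simpa using h3
  set χ' : (Fin d → ℤ) →+ UnitAddCircle := (ψ.comp χ).comp (QuotientAddGroup.mk' Γ) with hχ'
  have key : ∀ m : Fin d → ℤ, mon m (fun j => AddCircle.toCircle (χ' (Pi.single j 1))) =
      AddCircle.toCircle (χ' m) := by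
    intro m
    have h2 : m = ∑ j, m j • (Pi.single j (1 : ℤ) : Fin d → ℤ) := by
      funext i
      simp [Finset.sum_apply, Pi.single_apply]
    conv_rhs => rw [h2]
    rw [map_sum]
    unfold mon
    have h3 : ∀ s : Finset (Fin d), AddCircle.toCircle (∑ j ∈ s, χ' (m j • Pi.single j (1 : ℤ))) =
        ∏ j ∈ s, AddCircle.toCircle (χ' (m j • Pi.single j (1 : ℤ))) := by
      classical
      intro s
      induction s using Finset.induction_on with
      | empty => simp
      | insert a s ha ih => rw [Finset.sum_insert ha, Finset.prod_insert ha, AddCircle.toCircle_add, ih]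
    rw [h3]
    refine Finset.prod_congr rfl fun j _ => ?_
    rw [map_zsmul, AddCircle.toCircle_zsmul]
  refine ⟨fun j => AddCircle.toCircle (χ' (Pi.single j 1)), fun γ hγ => ?_, ?_⟩
  · rw [key]
    have h2 : χ' γ = 0 := by
      rw [hχ', AddMonoidHom.comp_apply, QuotientAddGroup.mk'_apply,
        (QuotientAddGroup.eq_zero_iff γ).mpr hγ, map_zero]
    rw [h2, AddCircle.toCircle_zero]
  · rw [key]
    intro h
    apply hχ
    apply hinj
    have h2 : χ' k = 0 := AddCircle.injective_toCircle one_ne_zero (by rw [h, AddCircle.toCircle_zero])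
    exact h2

/-- the integral over a closed subgroup of the torus, with respect to the normalized Haar measure -/
noncomputable def haarInt (H : Subgroup (Fin d → Circle)) [CompactSpace H] (f : H → ℂ) : ℂ :=
  letI : MeasurableSpace H := borel H
  haveI : BorelSpace H := ⟨rfl⟩
  ∫ x, f x ∂(Measure.haarMeasure (⊤ : TopologicalSpace.PositiveCompacts H))

section haar

variable (H : Subgroup (Fin d → Circle)) [CompactSpace H]

theorem haarInt_const (z : ℂ) : haarInt H (fun _ => z) = z := by
  letI : MeasurableSpace H := borel H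
  haveI : BorelSpace H := ⟨rfl⟩
  have h1 : (Measure.haarMeasure (⊤ : TopologicalSpace.PositiveCompacts H)) Set.univ = 1 := by
    have := Measure.haarMeasure_self (K₀ := (⊤ : TopologicalSpace.PositiveCompacts H))
    simpa using this
  have : IsProbabilityMeasure (Measure.haarMeasure (⊤ : TopologicalSpace.PositiveCompacts H)) := ⟨h1⟩
  unfold haarInt
  simp

theorem integrable_of_continuous {f : H → ℂ} (hf : Continuous f) :
    letI : MeasurableSpace H := borel H
    haveI : BorelSpace H := ⟨rfl⟩
    Integrable f (Measure.haarMeasure (⊤ : TopologicalSpace.PositiveCompacts H)) := by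
  letI : MeasurableSpace H := borel H
  haveI : BorelSpace H := ⟨rfl⟩
  exact hf.integrable_of_hasCompactSupport (HasCompactSupport.of_compactSpace f)

theorem haarInt_add {f g : H → ℂ} (hf : Continuous f) (hg : Continuous g) :
    haarInt H (fun x => f x + g x) = haarInt H f + haarInt H g := by
  letI : MeasurableSpace H := borel H
  haveI : BorelSpace H := ⟨rfl⟩
  unfold haarInt
  exact integral_add (integrable_of_continuous H hf) (integrable_of_continuous H hg)

theorem haarInt_sub {f g : H → ℂ} (hf : Continuous f) (hg : Continuous g) :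
    haarInt H (fun x => f x - g x) = haarInt H f - haarInt H g := by
  letI : MeasurableSpace H := borel H
  haveI : BorelSpace H := ⟨rfl⟩
  unfold haarInt
  exact integral_sub (integrable_of_continuous H hf) (integrable_of_continuous H hg)

theorem haarInt_mul (z : ℂ) (f : H → ℂ) :
    haarInt H (fun x => z * f x) = z * haarInt H f := by
  letI : MeasurableSpace H := borel H
  haveI : BorelSpace H := ⟨rfl⟩
  unfold haarInt
  exact integral_const_mul z f

theorem haarInt_sum {ι : Type} (s : Finset ι) (f : ι → H → ℂ) (hf : ∀ i ∈ s, Continuous (f i)) :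
    haarInt H (fun x => ∑ i ∈ s, f i x) = ∑ i ∈ s, haarInt H (f i) := by
  letI : MeasurableSpace H := borel H
  haveI : BorelSpace H := ⟨rfl⟩
  unfold haarInt
  exact integral_finsetSum s fun i hi => integrable_of_continuous H (hf i hi)

theorem haarInt_shift (x₀ : H) (f : H → ℂ) :
    haarInt H (fun x => f (x₀ * x)) = haarInt H f := by
  letI : MeasurableSpace H := borel H
  haveI : BorelSpace H := ⟨rfl⟩
  unfold haarInt
  exact integral_mul_left_eq_self f x₀

theorem norm_haarInt_le {f : H → ℂ} {C : ℝ} (hf : ∀ x, ‖f x‖ ≤ C) : ‖haarInt H f‖ ≤ C := by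
  letI : MeasurableSpace H := borel H
  haveI : BorelSpace H := ⟨rfl⟩
  have h1 : (Measure.haarMeasure (⊤ : TopologicalSpace.PositiveCompacts H)) Set.univ = 1 := by
    have := Measure.haarMeasure_self (K₀ := (⊤ : TopologicalSpace.PositiveCompacts H))
    simpa using this
  have : IsProbabilityMeasure (Measure.haarMeasure (⊤ : TopologicalSpace.PositiveCompacts H)) := ⟨h1⟩
  unfold haarInt
  refine (norm_integral_le_of_norm_le_const (C := C) (Eventually.of_forall hf)).trans ?_
  simp

/-- positivity -/
theorem haarInt_neg {f : H → ℝ} (hf : Continuous f) (h0 : ∀ x, f x ≤ 0) (x₀ : H) (hx₀ : f x₀ < 0) :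
    ∃ r : ℝ, r < 0 ∧ haarInt H (fun x => (f x : ℂ)) = r := by
  letI : MeasurableSpace H := borel H
  haveI : BorelSpace H := ⟨rfl⟩
  unfold haarInt
  refine ⟨∫ x, f x ∂(Measure.haarMeasure (⊤ : TopologicalSpace.PositiveCompacts H)), ?_,
    integral_ofReal⟩
  have h1 : 0 < ∫ x, -f x ∂(Measure.haarMeasure (⊤ : TopologicalSpace.PositiveCompacts H)) := by
    refine (Continuous.integral_pos_of_hasCompactSupport_nonneg_nonzero hf.neg
      (HasCompactSupport.of_compactSpace _) (fun x => by simpa using h0 x) (x := x₀) ?_)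
    simpa using hx₀.ne
  rw [integral_neg] at h1
  linarith

theorem haarInt_mon_mem {Γ : AddSubgroup (Fin d → ℤ)} [CompactSpace (ann Γ)] {k : Fin d → ℤ}
    (hk : k ∈ Γ) : haarInt (ann Γ) (fun x => (mon k (x : Fin d → Circle) : ℂ)) = 1 := by
  have h1 : (fun x : ann Γ => (mon k (x : Fin d → Circle) : ℂ)) = fun _ => 1 := by
    funext x
    rw [x.2 k hk, Circle.coe_one]
  rw [h1, haarInt_const]

theorem haarInt_mon_not_mem {Γ : AddSubgroup (Fin d → ℤ)} [CompactSpace (ann Γ)] {k : Fin d → ℤ}
    (hk : k ∉ Γ) : haarInt (ann Γ) (fun x => (mon k (x : Fin d → Circle) : ℂ)) = 0 := by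
  obtain ⟨x₀, hx₀, hne⟩ := exists_ann hk
  have h1 := haarInt_shift (ann Γ) ⟨x₀, hx₀⟩ (fun x => (mon k (x : Fin d → Circle) : ℂ))
  have h2 : (fun x : ann Γ => (mon k (((⟨x₀, hx₀⟩ : ann Γ) * x : ann Γ) : Fin d → Circle) : ℂ)) =
      fun x : ann Γ => (mon k x₀ : ℂ) * (mon k (x : Fin d → Circle) : ℂ) := by
    funext x
    rw [Subgroup.coe_mul, mon_mul, Circle.coe_mul]
  rw [h2, haarInt_mul] at h1
  by_contra hcon
  apply hne
  have h3 : (mon k x₀ : ℂ) = 1 := by
    have h4 : ((mon k x₀ : ℂ) - 1) * haarInt (ann Γ) (fun x => (mon k (x : Fin d → Circle) : ℂ)) = 0 := by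
      rw [sub_mul, h1, one_mul, sub_self]
    rcases mul_eq_zero.mp h4 with h5 | h5
    · exact sub_eq_zero.mp h5
    · exact absurd h5 hcon
  exact Circle.ext h3

end haar

end Pool.Agent.H506.TR
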